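import Pool.Agent.Lib.MP_df59e7_lc_X.DefsX
import Pool.Agent.Lib.MP_df59e7_lc.ActD
import Pool.Agent.Lib.MP_df59e7_lc.ActS
import Pool.Agent.Lib.MP_df59e7_lc.UlimC
import Pool.Agent.Lib.MP_df59e7_lc.Comp

set_option autoImplicit false

/-! MP_df59e7_lc, project RM2, module ActS2. -/

namespace Pool.Agent.RM90

open MvPolynomial

/-- Points of `Z` are in the ultralimit of `E'`. -/
private theorem ActS2_sel {X : Type*} [MetricSpace X] {Z : Set X}
    {f : X → ℝ} {B : ℕ} {E' : ℕ → Set X}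
    (h' : ActQ Z f B E') {N0 : Set X} (hN0 : IsOpen N0) {z : X} (hz : z ∈ Z) (hzC : z ∈ N0) :
    ∃ y : ℕ → X, (∀ᶠ p in (Filter.hyperfilter ℕ : Filter ℕ),
      y p ∈ E' p ∧ y p ∈ N0) ∧
      Filter.Tendsto y (Filter.hyperfilter ℕ : Filter ℕ) (nhds z) := by
  have hzu : z ∈ ulim E' := by
    intro ε hε
    filter_upwards [h'.ofZ ε hε] with p hp
    exact hp z hz
  obtain ⟨y, hy, hyz⟩ := exists_sel E' z hzu
  refine ⟨y, ?_, hyz⟩
  filter_upwards [hy, hyz (hN0.mem_nhds hzC)] with p h1 h2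
  exact ⟨h1, h2⟩

/-- `1 / (p + 1)` tends to zero along the hyperfilter. -/
private theorem ActS2_tend :
    Filter.Tendsto (fun p : ℕ => 1 / ((p : ℝ) + 1)) (Filter.hyperfilter ℕ : Filter ℕ)
      (nhds 0) :=
  tendsto_one_div_add_atTop_nhds_zero_nat.mono_left Nat.hyperfilter_le_atTop

/-- Separation of the ultralimits. -/
private theorem ActS2_sep {X : Type*} [MetricSpace X] {S1 S2 : ℕ → Set X} {θ : ℝ}
    (hS : ∀ᶠ p in (Filter.hyperfilter ℕ : Filter ℕ), ∀ a ∈ S1 p, ∀ b ∈ S2 p, θ < dist a b) :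
    ∀ a ∈ ulim S1, ∀ b ∈ ulim S2, θ ≤ dist a b := by
  intro a ha b hb
  obtain ⟨a', ha', hat⟩ := exists_sel S1 a ha
  obtain ⟨b', hb', hbt⟩ := exists_sel S2 b hb
  refine ge_of_tendsto (hat.dist hbt) ?_
  filter_upwards [hS, ha', hb'] with p h1 h2 h3
  exact (h1 _ h2 _ h3).le

/-- The branches. -/
private theorem ActS2_branch {X : Type*} [MetricSpace X] {Z : Set X}
    {f : X → ℝ} (hf : Continuous f) {B : ℕ} {E' : ℕ → Set X} {K : Set X} (hK : IsCompact K)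
    (hE'K : ∀ p, E' p ⊆ K)
    (h' : ActQ Z f B E') {θ : ℝ} (hθ : 0 < θ) {Wi : Set X}
    (hWi : ∀ (e : ℕ → X) (w : X),
      (∀ᶠ p in (Filter.hyperfilter ℕ : Filter ℕ), LM (E' p) f (e p)) →
      Filter.Tendsto e (Filter.hyperfilter ℕ : Filter ℕ) (nhds w) → w ∈ Wi)
    {N0 : Set X} (hN0 : IsOpen N0) {S1 S2 : ℕ → Set X}
    (hfr : ∀ᶠ p in (Filter.hyperfilter ℕ : Filter ℕ), ∀ y ∈ E' p, y ∈ closure N0 → y ∈ N0)
    (hcov : ∀ᶠ p in (Filter.hyperfilter ℕ : Filter ℕ),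
      E' p ∩ N0 ⊆ S1 p ∪ S2 p)
    (hsep : ∀ᶠ p in (Filter.hyperfilter ℕ : Filter ℕ), ∀ a ∈ S1 p, ∀ b ∈ S2 p, θ < dist a b)
    {z : X} (hz : z ∈ Z) (hzC : z ∈ N0) (hz2 : z ∈ ulim S2) :
    ∃ β ⊆ ulim S2, IsPreconnected β ∧ z ∈ β ∧ (∀ x ∈ β, f x ≤ f z) ∧ ∃ w ∈ β, w ∈ Wi := by
  obtain ⟨y, hy, hyz⟩ := ActS2_sel h' hN0 hz hzC
  -- `y p` is in `S2 p`
  have hy2 : ∀ᶠ p in (Filter.hyperfilter ℕ : Filter ℕ), y p ∈ S2 p := by
    have h1 : ∀ᶠ p in (Filter.hyperfilter ℕ : Filter ℕ), y p ∈ S1 p ∨ y p ∈ S2 p := by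
      filter_upwards [hcov, hy] with p h1 h2
      exact h1 h2
    rcases Ultrafilter.eventually_or.1 h1 with h2 | h2
    · exfalso
      have h3 : z ∈ ulim S1 := mem_ulim_of_tendsto S1 y z h2 hyz
      have h4 := ActS2_sep hsep z h3 z hz2
      rw [dist_self] at h4
      linarith
    · exact h2
  obtain ⟨β, hβ⟩ : ∃ β : ℕ → Set X, β = fun p =>
    connectedComponentIn (Sub (E' p) f (f (y p) + 1 / ((p : ℝ) + 1))) (y p) := ⟨_, rfl⟩
  have hpc : ∀ p, IsPreconnected (β p) := by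
    intro p
    rw [hβ]
    exact isPreconnected_connectedComponentIn
  have hSub : ∀ p, β p ⊆ Sub (E' p) f (f (y p) + 1 / ((p : ℝ) + 1)) := by
    intro p
    rw [hβ]
    exact connectedComponentIn_subset _ _
  have hyS : ∀ p, y p ∈ E' p → y p ∈ Sub (E' p) f (f (y p) + 1 / ((p : ℝ) + 1)) := by
    intro p hp
    refine ⟨hp, ?_⟩
    have : (0 : ℝ) < 1 / ((p : ℝ) + 1) := by positivity
    linarith
  have hym : ∀ p, y p ∈ E' p → y p ∈ β p := by
    intro p hp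
    rw [hβ]
    exact mem_connectedComponentIn (hyS p hp)
  have hβE : ∀ p, β p ⊆ K := fun p u hu => hE'K p (hSub p hu).1
  have hβ2 : ∀ᶠ p in (Filter.hyperfilter ℕ : Filter ℕ), β p ⊆ S2 p := by
    filter_upwards [hy, hy2, hcov, hsep, hfr] with p h1 h2 h3 h4 h5
    have hC : β p ⊆ N0 := by
      refine IsPreconnected.subset_left_of_subset_union hN0
        (isClosed_closure (s := N0)).isOpen_compl
        (Set.disjoint_left.2 fun u hu hu' => hu' (subset_closure hu)) (fun u hu => ?_)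
        ⟨y p, hym p h1.1, h1.2⟩ (hpc p)
      by_cases huc : u ∈ closure N0
      · exact Or.inl (h5 u (hSub p hu).1 huc)
      · exact Or.inr huc
    have hsub : β p ⊆ S1 p ∪ S2 p := fun u hu => h3 ⟨(hSub p hu).1, hC hu⟩
    intro u hu
    rcases hsub hu with h5 | h5
    · exfalso
      obtain ⟨a, ha, b, hb, hab⟩ := chained_of_preconnected (β p) (hpc p) θ hθ (β p ∩ S1 p)
        (β p ∩ S2 p) (by rw [← Set.inter_union_distrib_left, Set.inter_eq_left.2 hsub])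
        ⟨u, hu, h5⟩ ⟨y p, hym p h1.1, h2⟩
      exact absurd (h4 a ha.2 b hb.2) (not_lt.2 hab)
    · exact h5
  have hex : ∀ᶠ p in (Filter.hyperfilter ℕ : Filter ℕ), ∃ e : X, e ∈ β p ∧ LM (E' p) f e := by
    filter_upwards [hy] with p h1
    obtain ⟨m, hm, hm'⟩ := comp_min_lt (E' p) (h'.cpt p) (h'.lcn p) f hf _ (y p) (hyS p h1.1)
    refine ⟨m, ?_, hm'⟩
    rw [hβ]
    exact hm
  have : Nonempty X := ⟨z⟩
  obtain ⟨e, he⟩ := hex.choice
  obtain ⟨w, -, hw⟩ := exists_lim K hK e (he.mono fun p hp => hβE p hp.1)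
  refine ⟨ulim β, ulim_mono β S2 hβ2, ?_, ?_, ?_, w, ?_, ?_⟩
  · refine ulim_preconnected K hK β (fun p => 1 / ((p : ℝ) + 1)) ActS2_tend ?_
    exact Filter.Eventually.of_forall fun p => ⟨hβE p,
      chained_of_preconnected (β p) (hpc p) _ (by positivity)⟩
  · exact mem_ulim_of_tendsto β y z (hy.mono fun p hp => hym p hp.1) hyz
  · intro x hx
    obtain ⟨x', hx', hxt⟩ := exists_sel β x hx
    have t1 : Filter.Tendsto (fun p => f (x' p)) (Filter.hyperfilter ℕ : Filter ℕ)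
        (nhds (f x)) := (hf.tendsto x).comp hxt
    have t2 : Filter.Tendsto (fun p => f (y p) + 1 / ((p : ℝ) + 1))
        (Filter.hyperfilter ℕ : Filter ℕ) (nhds (f z + 0)) :=
      ((hf.tendsto z).comp hyz).add ActS2_tend
    rw [add_zero] at t2
    refine le_of_tendsto_of_tendsto t1 t2 ?_
    filter_upwards [hx'] with p hp
    exact (hSub p hp).2.le
  · exact mem_ulim_of_tendsto β e w (he.mono fun p hp => hp.1) hw
  · exact hWi e w (he.mono fun p hp => hp.2) hw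

/-- From the failure of chainedness for almost all `p` to a splitting of the limit, for sets
`E' p` near `E` (not inside of `E`) and a neighbourhood `N0` of the component.
Proof: adapt `act_spl` (Lib/MP_df59e7_lc/ActS.lean, copy its private lemmas). Let
`C = connectedComponentIn E x0`, `R p = (E' p ∪ ⋃ y ∈ X1, Γ y) ∩ N0`. Choose `S1 p`, `S2 p` and put
`A_j = ulim S_j` as there. Changes: limits of points of `R p` exist as
`R p ⊆ K ∪ E` (compact); such a limit `a` is in `Z` (if the points are in `E' p`; `toZ`) or in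
`⋃ Γ y` (closed), so it is in `E`, and in `closure N0`, so in `C` by `hNC` (`s1, s2`). For
`z ∈ Z ∩ C` the points `y_p ∈ E' p`, `y_p → z` are eventually in the open set `N0` (`cov`).
`covΓ`: `Γ y ⊆ C ⊆ N0`. For `b1, b2` one needs that the preconnected set
`β_p = connectedComponentIn (Sub (E' p) f (f y_p + 1/(p+1))) y_p` is contained in `N0`: by `hNC` the
compact set `Z` does not meet `frontier N0` (`E ∩ frontier N0 ⊆ C ∩ frontier N0 = ∅`, `N0` open), so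
there is `δ > 0` with `δ ≤ dist z u` for `z ∈ Z`, `u ∈ frontier N0`; for almost all `p` all points
of `E' p` are within `δ` of `Z`, so `E' p ∩ frontier N0 = ∅`; `β_p` is preconnected, meets `N0` and
not its frontier, so it is contained in `N0` (`IsPreconnected` with the open sets `N0` and
`(closure N0)ᶜ`). The limits of `e_p ∈ β_p` exist in `K`. -/
theorem act_spl2 {X Y : Type*} [MetricSpace X] [MetricSpace Y] (E Z D : Set X) (f : X → ℝ)
    (π : X → Y) (Γ : X → Set X) (B : ℕ) (h : ActE E Z D f π Γ B) (E' : ℕ → Set X)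
    (K : Set X) (hK : IsCompact K) (hE'K : ∀ p, E' p ⊆ K)
    (h' : ActQ Z f B E') (θ : ℝ) (hθ : 0 < θ) (Wi : Set X)
    (hWi : ∀ (e : ℕ → X) (w : X),
      (∀ᶠ p in (Filter.hyperfilter ℕ : Filter ℕ), LM (E' p) f (e p)) →
      Filter.Tendsto e (Filter.hyperfilter ℕ : Filter ℕ) (nhds w) → w ∈ Wi)
    (X1 : Finset X) (hX1 : ↑X1 ⊆ D) (x0 : X) (hx0 : x0 ∈ E) (N0 : Set X) (hN0 : IsOpen N0)
    (hCN : connectedComponentIn E x0 ⊆ N0) (hNC : E ∩ closure N0 ⊆ connectedComponentIn E x0)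
    (hfail : ∀ᶠ p in (Filter.hyperfilter ℕ : Filter ℕ),
      ¬ Chained θ ((E' p ∪ ⋃ y ∈ X1, Γ y) ∩ N0)) :
    ∃ A1 A2 : Set X, Spl Z f Γ (↑X1) Wi (connectedComponentIn E x0) A1 A2 θ := by
  classical
  obtain ⟨C, hCd⟩ : ∃ C, C = connectedComponentIn E x0 := ⟨_, rfl⟩
  have _ := hx0
  rw [← hCd] at hCN hNC
  have hZN : ∀ z ∈ Z, z ∈ closure N0 → z ∈ N0 := fun z hz hz' => hCN (hNC ⟨h.ZE hz, hz'⟩)
  have hfr : ∀ᶠ p in (Filter.hyperfilter ℕ : Filter ℕ), ∀ y ∈ E' p, y ∈ closure N0 → y ∈ N0 := by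
    have hZc : IsCompact Z := h.cE.of_isClosed_subset h.cZ h.ZE
    have hFc : IsClosed (closure N0 \ N0) := isClosed_closure.sdiff hN0
    have hd : Disjoint Z (closure N0 \ N0) :=
      Set.disjoint_left.2 fun z hz hz' => hz'.2 (hZN z hz hz'.1)
    obtain ⟨δ, hδ, hth⟩ := hd.exists_thickenings hZc hFc
    filter_upwards [h'.toZ δ hδ] with p hp y hy hyc
    by_contra hyN
    obtain ⟨z, hz, hyz⟩ := hp y hy
    exact Set.disjoint_left.1 hth (Metric.mem_thickening_iff.2 ⟨z, hz, hyz⟩)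
      (Metric.self_subset_thickening hδ _ ⟨hyc, hyN⟩)
  have hch : ∀ᶠ p in (Filter.hyperfilter ℕ : Filter ℕ), ∃ S : Set X × Set X,
      (E' p ∪ ⋃ y ∈ X1, Γ y) ∩ N0 = S.1 ∪ S.2 ∧ S.1.Nonempty ∧ S.2.Nonempty ∧
        ∀ a ∈ S.1, ∀ b ∈ S.2, θ < dist a b := by
    filter_upwards [hfail] with p hp
    unfold Chained at hp
    push Not at hp
    obtain ⟨S1, S2, h1, h2, h3, h4⟩ := hp
    exact ⟨(S1, S2), h1, h2, h3, h4⟩
  obtain ⟨S, hS⟩ := hch.choice
  obtain ⟨S1, hS1⟩ : ∃ S1 : ℕ → Set X, S1 = fun p => (S p).1 := ⟨_, rfl⟩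
  obtain ⟨S2, hS2⟩ : ∃ S2 : ℕ → Set X, S2 = fun p => (S p).2 := ⟨_, rfl⟩
  have hR : ∀ᶠ p in (Filter.hyperfilter ℕ : Filter ℕ),
      (E' p ∪ ⋃ y ∈ X1, Γ y) ∩ N0 = S1 p ∪ S2 p := by
    rw [hS1, hS2]
    exact hS.mono fun p hp => hp.1
  have hn1 : ∀ᶠ p in (Filter.hyperfilter ℕ : Filter ℕ), (S1 p).Nonempty := by
    rw [hS1]
    exact hS.mono fun p hp => hp.2.1
  have hn2 : ∀ᶠ p in (Filter.hyperfilter ℕ : Filter ℕ), (S2 p).Nonempty := by
    rw [hS2]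
    exact hS.mono fun p hp => hp.2.2.1
  have hsep : ∀ᶠ p in (Filter.hyperfilter ℕ : Filter ℕ),
      ∀ a ∈ S1 p, ∀ b ∈ S2 p, θ < dist a b := by
    rw [hS1, hS2]
    exact hS.mono fun p hp => hp.2.2.2
  have hsep' : ∀ᶠ p in (Filter.hyperfilter ℕ : Filter ℕ),
      ∀ a ∈ S2 p, ∀ b ∈ S1 p, θ < dist a b := by
    filter_upwards [hsep] with p hp a ha b hb
    rw [dist_comm]
    exact hp b hb a ha
  have hcov : ∀ᶠ p in (Filter.hyperfilter ℕ : Filter ℕ),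
      E' p ∩ N0 ⊆ S1 p ∪ S2 p := by
    filter_upwards [hR] with p hp u hu
    rw [← hp]
    exact ⟨Or.inl hu.1, hu.2⟩
  have hcov' : ∀ᶠ p in (Filter.hyperfilter ℕ : Filter ℕ),
      E' p ∩ N0 ⊆ S2 p ∪ S1 p := by
    filter_upwards [hcov] with p hp
    rwa [Set.union_comm]
  have hsR1 : ∀ᶠ p in (Filter.hyperfilter ℕ : Filter ℕ),
      S1 p ⊆ (E' p ∪ ⋃ y ∈ X1, Γ y) ∩ N0 := by
    filter_upwards [hR] with p hp u hu
    rw [hp]
    exact Or.inl hu
  have hsR2 : ∀ᶠ p in (Filter.hyperfilter ℕ : Filter ℕ),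
      S2 p ⊆ (E' p ∪ ⋃ y ∈ X1, Γ y) ∩ N0 := by
    filter_upwards [hR] with p hp u hu
    rw [hp]
    exact Or.inr hu
  have hU : IsClosed (⋃ y ∈ X1, Γ y) :=
    isClosed_biUnion_finset fun y hy => h.Γc y (hX1 hy)
  have hUE : (⋃ y ∈ X1, Γ y) ⊆ E := Set.iUnion₂_subset fun y hy u hu =>
    (h.Γf y (hX1 hy) hu).1
  have hsub : ∀ T : ℕ → Set X, (∀ᶠ p in (Filter.hyperfilter ℕ : Filter ℕ),
      T p ⊆ (E' p ∪ ⋃ y ∈ X1, Γ y) ∩ N0) → ulim T ⊆ Z ∪ ⋃ y ∈ X1, Γ y := by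
    intro T hT a ha
    obtain ⟨a', ha', hat⟩ := exists_sel T a ha
    have h1 : ∀ᶠ p in (Filter.hyperfilter ℕ : Filter ℕ),
        a' p ∈ E' p ∨ a' p ∈ ⋃ y ∈ X1, Γ y := by
      filter_upwards [hT, ha'] with p h1 h2
      exact (h1 h2).1
    rcases Ultrafilter.eventually_or.1 h1 with h2 | h2
    · left
      rw [← h.cZ.closure_eq, Metric.mem_closure_iff]
      intro ε hε
      have h3 : ∀ᶠ p in (Filter.hyperfilter ℕ : Filter ℕ), ∀ y ∈ E' p, ∃ z ∈ Z,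
          dist y z < ε / 2 := h'.toZ (ε / 2) (half_pos hε)
      obtain ⟨p, h4, h5, h6⟩ := (h2.and (h3.and (Metric.tendsto_nhds.1 hat (ε / 2)
        (half_pos hε)))).exists
      obtain ⟨z, hz, hzd⟩ := h5 _ h4
      refine ⟨z, hz, ?_⟩
      have h7 := dist_triangle_left a z (a' p)
      linarith
    · right
      exact hU.mem_of_tendsto hat h2
  have hlim : ∀ T : ℕ → Set X, (∀ᶠ p in (Filter.hyperfilter ℕ : Filter ℕ),
      T p ⊆ (E' p ∪ ⋃ y ∈ X1, Γ y) ∩ N0) → ulim T ⊆ C := by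
    intro T hT a ha
    obtain ⟨a', ha', hat⟩ := exists_sel T a ha
    have h1 : a ∈ closure N0 := by
      refine isClosed_closure.mem_of_tendsto hat ?_
      filter_upwards [hT, ha'] with p h1 h2
      exact subset_closure (h1 h2).2
    have h2 : a ∈ E := by
      rcases hsub T hT ha with h3 | h3
      · exact h.ZE h3
      · exact hUE h3
    exact hNC ⟨h2, h1⟩
  have hnon : ∀ T : ℕ → Set X, (∀ᶠ p in (Filter.hyperfilter ℕ : Filter ℕ),
      T p ⊆ (E' p ∪ ⋃ y ∈ X1, Γ y) ∩ N0) →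
      (∀ᶠ p in (Filter.hyperfilter ℕ : Filter ℕ), (T p).Nonempty) → (ulim T).Nonempty := by
    intro T hT hn
    have : Nonempty X := ⟨x0⟩
    obtain ⟨a, ha⟩ := (hn.mono fun p hp => (hp : ∃ a, a ∈ T p)).choice
    obtain ⟨x, -, hx⟩ := exists_lim (K ∪ E) (hK.union h.cE) a (by
      filter_upwards [hT, ha] with p h1 h2
      rcases (h1 h2).1 with h3 | h3
      · exact Or.inl (hE'K p h3)
      · exact Or.inr (hUE h3))
    exact ⟨x, mem_ulim_of_tendsto T a x ha hx⟩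
  have hmem : ∀ u : X, ∀ y : ℕ → X, Filter.Tendsto y (Filter.hyperfilter ℕ : Filter ℕ) (nhds u) →
      (∀ᶠ p in (Filter.hyperfilter ℕ : Filter ℕ), y p ∈ S1 p ∪ S2 p) →
      u ∈ ulim S1 ∪ ulim S2 := by
    intro u y hyu hy
    rcases Ultrafilter.eventually_or.1 (hy.mono fun p hp => (hp : y p ∈ S1 p ∨ y p ∈ S2 p))
      with h2 | h2
    · exact Or.inl (mem_ulim_of_tendsto S1 y u h2 hyu)
    · exact Or.inr (mem_ulim_of_tendsto S2 y u h2 hyu)
  rw [← hCd]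
  refine ⟨ulim S1, ulim S2, ?_⟩
  constructor
  · exact ulim_closed S1
  · exact ulim_closed S2
  · exact hlim S1 hsR1
  · exact hlim S2 hsR2
  · exact hnon S1 hsR1 hn1
  · exact hnon S2 hsR2 hn2
  · exact ActS2_sep hsep
  · rintro z ⟨hz, hzC⟩
    obtain ⟨y, hy, hyz⟩ := ActS2_sel h' hN0 hz (hCN hzC)
    refine hmem z y hyz ?_
    filter_upwards [hcov, hy] with p h1 h2
    exact h1 h2
  · intro y hy hyC u hu
    have hyD : y ∈ D := hX1 hy
    have hΓC : Γ y ⊆ C := by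
      rw [hCd] at hyC ⊢
      rw [connectedComponentIn_eq hyC]
      exact (h.Γp y hyD).subset_connectedComponentIn (h.Γm y hyD)
        fun v hv => (h.Γf y hyD hv).1
    refine hmem u (fun _ => u) tendsto_const_nhds ?_
    filter_upwards [hR] with p hp
    rw [← hp]
    exact ⟨Or.inr (Set.mem_iUnion₂.2 ⟨y, hy, hu⟩), hCN (hΓC hu)⟩
  · exact Set.union_subset (hsub S1 hsR1) (hsub S2 hsR2)
  · rintro z ⟨hz, hz1⟩
    exact ActS2_branch h.cf hK hE'K h' hθ hWi hN0 hfr hcov' hsep' hz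
      (hCN (hlim S1 hsR1 hz1)) hz1
  · rintro z ⟨hz, hz2⟩
    exact ActS2_branch h.cf hK hE'K h' hθ hWi hN0 hfr hcov hsep hz
      (hCN (hlim S2 hsR2 hz2)) hz2

end Pool.Agent.RM90
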