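import Pool.Agent.Lib.MP_df59e7_lc_X.DefsX
import Pool.Agent.Lib.MP_df59e7_lc_X.ActS2
import Pool.Agent.Lib.MP_df59e7_lc.Core
import Pool.Agent.Lib.MP_df59e7_lc.SelLim
import Pool.Agent.Lib.MP_df59e7_lc.Birth
import Pool.Agent.Lib.MP_df59e7_lc.Pairs

set_option autoImplicit false

/-! MP_df59e7_lc, project RM2, module Act2. -/

namespace Pool.Agent.RM90

open MvPolynomial

/-- The approximate connectivity theorem for sets `E' p` near `E`.
Proof: as `act` (Lib/MP_df59e7_lc/Act.lean): `sel_lim` for `K` and `W p = {w | LM (E' p) f w}`,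
`pairs`, `below_pts`; given `X1`, `x0`, `N0`, if the statement fails then it fails for almost all
`p` (`Ultrafilter.eventually_not`); `act_spl2` and `core`. -/
theorem act2 {X Y : Type*} [MetricSpace X] [MetricSpace Y] (E Z D : Set X) (f : X → ℝ)
    (π : X → Y) (Γ : X → Set X) (B : ℕ) (h : ActE E Z D f π Γ B) (E' : ℕ → Set X)
    (K : Set X) (hK : IsCompact K) (hE'K : ∀ p, E' p ⊆ K)
    (h' : ActQ Z f B E') (θ : ℝ) (hθ : 0 < θ) :
    ∃ X0 : Finset X, ↑X0 ⊆ D ∧ X0.card ≤ 2 * B ^ 2 + B ∧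
      ∀ X1 : Finset X, X0 ⊆ X1 → ↑X1 ⊆ D → ∀ x0 ∈ E, ∀ N0 : Set X, IsOpen N0 →
        connectedComponentIn E x0 ⊆ N0 → E ∩ closure N0 ⊆ connectedComponentIn E x0 →
        ∀ᶠ p in (Filter.hyperfilter ℕ : Filter ℕ),
          Chained θ ((E' p ∪ ⋃ y ∈ X1, Γ y) ∩ N0) := by
  classical
  have hfin : {m | LM E f m}.Finite := Set.finite_of_encard_le_coe h.card
  obtain ⟨Wi, hWc, hWi⟩ := sel_lim K hK B (fun p => {w | LM (E' p) f w}) h'.card
    (fun p w hw => hE'K p hw.1)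
  obtain ⟨XA, hAD, hAc, hA⟩ := pairs E h.cE h.lE f h.cf B h.card D h.DE h.dD θ hθ
  obtain ⟨XB, hBD, hBc, hB⟩ := below_pts E h.cE h.lE f h.cf hfin D h.DE h.dD Wi θ hθ
  refine ⟨XA ∪ XB, ?_, ?_, fun X1 hX hX1 x0 hx0 N0 hN0 hCN hNC => ?_⟩
  · intro x hx
    rcases Finset.mem_union.mp (Finset.mem_coe.mp hx) with h1 | h1
    · exact hAD h1
    · exact hBD h1
  · exact (Finset.card_union_le _ _).trans (add_le_add hAc (hBc.trans hWc))
  · by_contra hcon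
    have hfail : ∀ᶠ p in (Filter.hyperfilter ℕ : Filter ℕ),
        ¬ Chained θ ((E' p ∪ ⋃ y ∈ X1, Γ y) ∩ N0) :=
      Ultrafilter.eventually_not.mpr hcon
    obtain ⟨A1, A2, hS⟩ := act_spl2 E Z D f π Γ B h E' K hK hE'K h' θ hθ (Wi : Set X)
      (fun e w he hew => hWi e w he hew) X1 hX1 x0 hx0 N0 hN0 hCN hNC hfail
    refine core E Z D f π Γ B h (X1 : Set X) (Wi : Set X) A1 A2 hX1 θ hθ x0 hx0 ?_ ?_ hS
    · intro a m m' hm hm' hfm hfm' hnot hne
      obtain ⟨x1, hx1, x2, hx2, h1, h2, h3⟩ := hA a m m' hm hm' hfm hfm' hnot hne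
      exact ⟨x1, hX (Finset.mem_union_left _ hx1), x2, hX (Finset.mem_union_left _ hx2),
        h1, h2, h3⟩
    · intro w hw hwE hwc
      obtain ⟨x, hx, h1, h2, h3⟩ := hB w hw hwE hwc
      exact ⟨x, hX (Finset.mem_union_right _ hx), h1, h2, h3⟩

end Pool.Agent.RM90
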