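import Pool.Agent.Lib.MP_df59e7_lc_X.DefsX

set_option autoImplicit false

/-! MP_df59e7_lc, project RM2, module Chart. -/

namespace Pool.Agent.RM90

open MvPolynomial

private theorem Chart_ext {n : ℕ} (I : Finset (Fin n)) (v : Fin n → Fin n → ℝ)
    (hv : LinearIndepOn ℝ v (I : Set (Fin n))) : ∃ w : Fin n → Fin n → ℝ,
      (∀ a ∈ I, w a = v a) ∧ LinearIndependent ℝ w := by
  classical
  have key : ∀ t : Finset (Fin n), Disjoint t I → ∃ w : Fin n → Fin n → ℝ,
      (∀ a ∈ I, w a = v a) ∧ LinearIndepOn ℝ w ((t ∪ I : Finset (Fin n)) : Set (Fin n)) := by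
    intro t
    induction t using Finset.induction_on with
    | empty =>
      intro _
      refine ⟨v, fun _ _ => rfl, ?_⟩
      rw [Finset.empty_union]
      exact hv
    | insert a t ha ih =>
      intro hd
      rw [Finset.disjoint_insert_left] at hd
      obtain ⟨w, hw1, hw2⟩ := ih hd.2
      have haS : a ∉ t ∪ I := by
        rw [Finset.mem_union]
        exact fun h => h.elim ha hd.1
      have hcard : ((t ∪ I).image w).card < Module.finrank ℝ (Fin n → ℝ) := by
        rw [Module.finrank_fin_fun]
        refine Finset.card_image_le.trans_lt ?_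
        have h1 := Finset.card_lt_univ_of_notMem haS
        rwa [Fintype.card_fin] at h1
      have hlt : Submodule.span ℝ (((t ∪ I).image w : Finset (Fin n → ℝ)) :
          Set (Fin n → ℝ)) < ⊤ :=
        span_lt_top_of_card_lt_finrank (by rwa [Finset.toFinset_coe])
      obtain ⟨u, -, hu⟩ := SetLike.exists_of_lt hlt
      have heq : ∀ b ∈ t ∪ I, Function.update w a u b = w b := fun b hb =>
        Function.update_of_ne (fun h : b = a => haS (h ▸ hb)) _ _
      refine ⟨Function.update w a u, fun b hb => ?_, ?_⟩
      · rw [heq b (Finset.mem_union_right _ hb), hw1 b hb]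
      · rw [Finset.insert_union, Finset.coe_insert]
        refine LinearIndepOn.insert (hw2.congr fun b hb => (heq b hb).symm) ?_
        rw [Function.update_self]
        have h2 : Function.update w a u '' ((t ∪ I : Finset (Fin n)) : Set (Fin n)) =
            (((t ∪ I).image w : Finset (Fin n → ℝ)) : Set (Fin n → ℝ)) := by
          rw [Finset.coe_image]
          exact Set.image_congr fun b hb => heq b hb
        rw [h2]
        exact hu
  obtain ⟨w, hw1, hw2⟩ := key (Finset.univ \ I) Finset.sdiff_disjoint
  refine ⟨w, hw1, ?_⟩
  rw [Finset.sdiff_union_of_subset (Finset.subset_univ I), Finset.coe_univ] at hw2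
  exact linearIndepOn_univ_iff.1 hw2

/-- At a regular point the equations are part of a polynomial local coordinate system.
Proof: the gradients at `x` of `X a - C (y a)` (`a < j`), i.e. the unit vectors `e_a`, and of
`eqn m G l` (`l ≥ m`) are linearly independent: in a relation, look at the coordinates `a ≥ j`
and use `RegAt`, then at the coordinates `a < j`. There are at most `n` vectors, indexed by the
`a < j` and `a ≥ m`, so one can choose vectors `w_a` for `j ≤ a < m` such that all `n` vectors
are linearly independent (add vectors outside of the span one by one). Take the linear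
polynomials `F a = ∑ C (w_a b) * X b`. `jac F` at `x` is the determinant of the matrix with these
rows (`RingHom.map_det`), so it is nonzero. -/
theorem chart {n : ℕ} (j m : Fin n) (hjm : j < m) (G : MvPolynomial (Fin n) ℝ)
    (y x : Fin n → ℝ) (hr : RegAt j m G x) :
    ∃ F : Fin n → MvPolynomial (Fin n) ℝ, (∀ a, a < j → F a = X a - C (y a)) ∧
      (∀ l, m ≤ l → F l = eqn m G l) ∧ eval x (jac F) ≠ 0 := by
  classical
  obtain ⟨v, hv1, hv2⟩ : ∃ v : Fin n → Fin n → ℝ,
      (∀ a, a < j → v a = Pi.single a 1) ∧
      ∀ a, m ≤ a → v a = fun b => eval x (pderiv b (eqn m G a)) := by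
    refine ⟨fun a => if a < j then Pi.single a 1 else
      fun b => eval x (pderiv b (eqn m G a)), fun a ha => if_pos ha, fun a ha => if_neg ?_⟩
    exact fun h => absurd (hjm.trans_le ha) h.le.not_gt
  have hI : ∀ a, a ∈ Finset.univ.filter (fun a : Fin n => a < j ∨ m ≤ a) ↔ a < j ∨ m ≤ a :=
    fun a => by simp
  have hind : LinearIndepOn ℝ v
      ((Finset.univ.filter (fun a : Fin n => a < j ∨ m ≤ a) : Finset (Fin n)) :
        Set (Fin n)) := by
    rw [linearIndepOn_finset_iff]
    intro f hf
    have hcoord : ∀ b : Fin n, ∑ a ∈ Finset.univ.filter (fun a : Fin n => a < j ∨ m ≤ a),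
        f a * v a b = 0 := by
      intro b
      have h1 := congrFun hf b
      rw [Finset.sum_apply] at h1
      exact h1
    have hge : ∀ l, m ≤ l → f l = 0 := by
      refine hr f fun b hb => ?_
      refine Eq.trans ?_ (hcoord b)
      rw [Finset.sum_filter]
      refine Finset.sum_congr rfl fun l _ => ?_
      by_cases h1 : m ≤ l
      · rw [if_pos h1, if_pos (Or.inr h1), hv2 l h1]
      · rw [if_neg h1]
        by_cases h2 : l < j
        · rw [if_pos (Or.inl h2), hv1 l h2, Pi.single_eq_of_ne (ne_of_gt (h2.trans_le hb)),
            mul_zero]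
        · rw [if_neg (fun h => h.elim h2 h1)]
    intro a ha
    rcases (hI a).1 ha with h1 | h1
    · have h2 := hcoord a
      rw [Finset.sum_eq_single a] at h2
      · rw [hv1 a h1, Pi.single_eq_same, mul_one] at h2
        exact h2
      · intro l hl hla
        rcases (hI l).1 hl with h3 | h3
        · rw [hv1 l h3, Pi.single_eq_of_ne hla.symm, mul_zero]
        · rw [hge l h3, zero_mul]
      · intro h3
        exact absurd ha h3
    · exact hge a h1
  obtain ⟨w, hw1, hw2⟩ := Chart_ext _ v hind
  refine ⟨fun a => if a < j then X a - C (y a) else if m ≤ a then eqn m G a else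
    ∑ b, C (w a b) * X b, fun a ha => if_pos ha, fun l hl => ?_, ?_⟩
  · have h1 : ¬ l < j := fun h => absurd (hjm.trans_le hl) h.le.not_gt
    simp only [if_neg h1, if_pos hl]
  · have hdet : ∀ F : Fin n → MvPolynomial (Fin n) ℝ, eval x (jac F) =
        (Matrix.of fun a b => eval x (pderiv b (F a))).det := by
      intro F
      unfold jac
      rw [RingHom.map_det]
      rfl
    rw [hdet]
    have hrow : (Matrix.of fun a b => eval x (pderiv b (if a < j then X a - C (y a) else
        if m ≤ a then eqn m G a else ∑ b, C (w a b) * X b :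
          MvPolynomial (Fin n) ℝ)) : Matrix (Fin n) (Fin n) ℝ) = Matrix.of w := by
      ext a b
      rw [Matrix.of_apply, Matrix.of_apply]
      by_cases h1 : a < j
      · rw [if_pos h1, hw1 a ((hI a).2 (Or.inl h1)), hv1 a h1, map_sub, pderiv_C, sub_zero,
          pderiv_X]
        by_cases h2 : a = b
        · subst h2
          simp
        · rw [Pi.single_eq_of_ne (fun h => h2 h.symm)]
          simp [h2]
      · rw [if_neg h1]
        by_cases h2 : m ≤ a
        · rw [if_pos h2, hw1 a ((hI a).2 (Or.inr h2)), hv2 a h2]
        · rw [if_neg h2, map_sum, map_sum, Finset.sum_eq_single b]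
          · simp
          · intro c _ hc
            rw [pderiv_C_mul, pderiv_X_of_ne hc]
            simp
          · intro h3
            exact absurd (Finset.mem_univ b) h3
    rw [hrow]
    have hu : IsUnit (Matrix.of w) := Matrix.linearIndependent_rows_iff_isUnit.1 hw2
    exact ((Matrix.isUnit_iff_isUnit_det _).1 hu).ne_zero

end Pool.Agent.RM90
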