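import Pool.Agent.Lib.MP_df59e7_lc_X.DefsX
import Pool.Agent.Lib.MP_df59e7_lc_X.Chart
import Pool.Agent.Lib.MP_df59e7_lc.Inv

set_option autoImplicit false

/-! MP_df59e7_lc, project RM2, module ContW. -/

namespace Pool.Agent.RM90

open MvPolynomial

private theorem ContW_local {n : ℕ} (U : Set (Fin n → ℝ)) (hU : IsOpen U)
    (H : Fin n → MvPolynomial (Fin n) ℝ) (e : Fin n) (p : MvPolynomial (Fin n) ℝ)
    (S : Set (Fin n → ℝ)) (hS : ∀ x, x ∈ S ↔ x ∈ U ∧ ∀ j, j ≠ e → eval x (H j) = 0)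
    (w : Fin n → ℝ) (hwS : w ∈ S) (hwj : eval w (jac H) ≠ 0) :
    ∃ V : Set (Fin n → ℝ), IsOpen V ∧ w ∈ V ∧ ∀ y1 ∈ S ∩ V, ∀ y2 ∈ S ∩ V,
      (∀ᶠ y in nhdsWithin y1 S, eval y p = 0) → eval y2 p = 0 := by
  classical
  have hw := (hS w).1 hwS
  obtain ⟨ρ, hρ, s, V, hVo, hwV, hVU, hVj, hVs, hsV, hsa⟩ := loc_inv H U hU w hw.1 hwj
  refine ⟨V, hVo, hwV, ?_⟩
  let L : ℝ → (Fin n → ℝ) := fun t => evm H w + t • Pi.single e (1 : ℝ)
  have hLd : ∀ t, dist (L t) (evm H w) = |t| := by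
    intro t
    have h1 : L t - evm H w = Pi.single e t := by
      ext j
      by_cases hj : j = e
      · subst hj
        simp [L]
      · simp [L, hj]
    rw [dist_eq_norm, h1, Pi.norm_single, Real.norm_eq_abs]
  have hLb : ∀ t, |t| < ρ → L t ∈ Metric.ball (evm H w) ρ := by
    intro t ht
    rw [Metric.mem_ball, hLd]
    exact ht
  have hLy : ∀ y ∈ S ∩ V, ∃ t, |t| < ρ ∧ L t = evm H y := by
    intro y hy
    have h2 : L (evm H y e - evm H w e) = evm H y := by
      ext j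
      by_cases hj : j = e
      · subst hj
        simp [L]
      · have h3 : evm H w j = 0 := hw.2 j hj
        have h4 : evm H y j = 0 := ((hS y).1 hy.1).2 j hj
        simp [L, hj, h3, h4]
    refine ⟨evm H y e - evm H w e, ?_, h2⟩
    rw [← hLd, h2]
    exact (hVs y hy.2).1
  have hLS : ∀ t, |t| < ρ → s (L t) ∈ S := by
    intro t ht
    obtain ⟨h5, h6⟩ := hsV (L t) (hLb t ht)
    refine (hS _).2 ⟨hVU h5, ?_⟩
    intro j hj
    have h7 : evm H (s (L t)) j = L t j := by rw [h6]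
    have h8 : evm H w j = 0 := hw.2 j hj
    have h9 : L t j = 0 := by simp [L, hj, h8]
    rw [h9] at h7
    exact h7
  have hLan : ∀ t, AnalyticAt ℝ L t := by
    intro t
    exact analyticAt_const.add (analyticAt_id.smul analyticAt_const)
  have hsL : ∀ t, |t| < ρ → AnalyticAt ℝ (fun t => s (L t)) t := by
    intro t ht
    exact (hsa (L t) (hLb t ht)).comp (hLan t)
  have hφ : AnalyticOnNhd ℝ (fun t => eval (s (L t)) p) (Metric.ball (0 : ℝ) ρ) := by
    intro t ht
    have ht' : |t| < ρ := by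
      rw [Metric.mem_ball, dist_zero_right, Real.norm_eq_abs] at ht
      exact ht
    have h10 : ∀ j : Fin n, AnalyticAt ℝ (fun t => s (L t) j) t := by
      intro j
      have h16 : AnalyticAt ℝ (ContinuousLinearMap.proj (R := ℝ)
          (φ := fun _ : Fin n => ℝ) j) ((fun t => s (L t)) t) :=
        ContinuousLinearMap.analyticAt _ _
      exact AnalyticAt.comp (f := fun t => s (L t)) h16 (hsL t ht')
    have h11 := AnalyticAt.aeval_mvPolynomial h10 p
    exact h11
  intro y1 hy1 y2 hy2 hA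
  obtain ⟨t1, ht1, hL1⟩ := hLy y1 hy1
  obtain ⟨t2, ht2, hL2⟩ := hLy y2 hy2
  have hs1 : s (L t1) = y1 := by rw [hL1]; exact (hVs y1 hy1.2).2
  have hs2 : s (L t2) = y2 := by rw [hL2]; exact (hVs y2 hy2.2).2
  have hnb : ∀ᶠ t in nhds t1, |t| < ρ := by
    have h12 : ContinuousAt (fun t : ℝ => |t|) t1 := continuous_abs.continuousAt
    exact h12.eventually (gt_mem_nhds ht1)
  have htd : Filter.Tendsto (fun t => s (L t)) (nhds t1) (nhdsWithin y1 S) := by
    rw [tendsto_nhdsWithin_iff]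
    constructor
    · have h13 := (hsL t1 ht1).continuousAt.tendsto
      rw [hs1] at h13
      exact h13
    · exact hnb.mono (fun t ht => hLS t ht)
  have hev : (fun t => eval (s (L t)) p) =ᶠ[nhds t1] 0 := htd.eventually hA
  have h14 := hφ.eqOn_zero_of_preconnected_of_eventuallyEq_zero
    (convex_ball (0 : ℝ) ρ).isPreconnected (z₀ := t1)
    (by rw [Metric.mem_ball, dist_zero_right, Real.norm_eq_abs]; exact ht1) hev
  have h15 := h14 (x := t2)
    (by rw [Metric.mem_ball, dist_zero_right, Real.norm_eq_abs]; exact ht2)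
  simp only [Pi.zero_apply, hs2] at h15
  exact h15

/-- Analytic continuation along regular polar curves (`m = j + 1`).
Proof: as `continuation` in Lib/MP_df59e7_lc/Cont.lean, but with a chart at every point: for
`y* ∈ Wst` take `F` from `chart` and `ρ, s, V` from `loc_inv` (inside `U`); the points of
`Wst ∩ V` are exactly the `s (evm F y* + t e_j)`, `|t| < ρ` (the components `a ≠ j` of `evm F`
vanish on `Wst`, as `a < j` or `a ≥ m = j + 1`). -/
theorem cont_W {n : ℕ} (U : Set (Fin n → ℝ)) (hU : IsOpen U) (j m : Fin n)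
    (hjm : (j : ℕ) + 1 = m) (G : MvPolynomial (Fin n) ℝ) (y : Fin n → ℝ)
    (hr : ∀ x ∈ Wst U j m G y, RegAt j m G x) (x : Fin n → ℝ) (hx : x ∈ Wst U j m G y)
    (p : MvPolynomial (Fin n) ℝ)
    (hp : ∀ᶠ z in nhdsWithin x (Wst U j m G y), eval z p = 0) :
    ∀ z ∈ connectedComponentIn (Wst U j m G y) x, eval z p = 0 := by
  generalize y = y0 at hr hx hp ⊢
  classical
  have hloc : ∀ w ∈ Wst U j m G y0, ∃ V : Set (Fin n → ℝ), IsOpen V ∧ w ∈ V ∧
      ∀ y1 ∈ Wst U j m G y0 ∩ V, ∀ y2 ∈ Wst U j m G y0 ∩ V,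
      (∀ᶠ y in nhdsWithin y1 (Wst U j m G y0), eval y p = 0) → eval y2 p = 0 := by
    intro w hw
    have hjm' : j < m := by
      rw [Fin.lt_def]
      omega
    obtain ⟨F, hF1, hF2, hF3⟩ := chart j m hjm' G y0 w (hr w hw)
    refine ContW_local U hU F j p (Wst U j m G y0) ?_ w hw hF3
    intro x
    constructor
    · rintro ⟨h1, h2, h3⟩
      refine ⟨h1, fun a ha => ?_⟩
      rcases lt_or_gt_of_ne ha with h | h
      · rw [hF1 a h, map_sub, eval_X, eval_C, h2 a h, sub_self]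
      · have h' : m ≤ a := by
          rw [Fin.le_def]
          rw [Fin.lt_def] at h
          omega
        rw [hF2 a h']
        exact h3 a h'
    · rintro ⟨h1, h2⟩
      refine ⟨h1, fun a ha => ?_, fun l hl => ?_⟩
      · have h3 := h2 a (ne_of_lt ha)
        rw [hF1 a ha, map_sub, eval_X, eval_C, sub_eq_zero] at h3
        exact h3
      · have h3 := h2 l (ne_of_gt (lt_of_lt_of_le hjm' hl))
        rw [hF2 l hl] at h3
        exact h3
  choose V hVo hwV hV using hloc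
  set P : (Fin n → ℝ) → Prop := fun w => ∀ᶠ y in nhdsWithin w (Wst U j m G y0), eval y p = 0
    with hP
  have hPV : ∀ w (hw : w ∈ Wst U j m G y0), ∀ y1 ∈ Wst U j m G y0 ∩ V w hw,
      ∀ y2 ∈ Wst U j m G y0 ∩ V w hw, P y1 → P y2 := by
    intro w hw y1 hy1 y2 hy2 h1
    have h2 : ∀ᶠ y in nhdsWithin y2 (Wst U j m G y0), y ∈ Wst U j m G y0 ∩ V w hw := by
      have h3 : ∀ᶠ y in nhdsWithin y2 (Wst U j m G y0), y ∈ Wst U j m G y0 := self_mem_nhdsWithin
      have h4 : ∀ᶠ y in nhdsWithin y2 (Wst U j m G y0), y ∈ V w hw :=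
        mem_nhdsWithin_of_mem_nhds ((hVo w hw).mem_nhds hy2.2)
      exact h3.and h4
    exact h2.mono (fun y hy => hV w hw y1 hy1 y hy h1)
  have hpc : IsPreconnected (connectedComponentIn (Wst U j m G y0) x) :=
    isPreconnected_connectedComponentIn
  have hsub : connectedComponentIn (Wst U j m G y0) x ⊆ Wst U j m G y0 :=
    connectedComponentIn_subset _ _
  have hxB : x ∈ connectedComponentIn (Wst U j m G y0) x := mem_connectedComponentIn hx
  have hall : ∀ y ∈ connectedComponentIn (Wst U j m G y0) x, P y := by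
    by_contra hcon
    push Not at hcon
    obtain ⟨z, hz, hzP⟩ := hcon
    obtain ⟨y, hyB, hy1, hy2⟩ := hpc (⋃ w, ⋃ hw : w ∈ Wst U j m G y0, ⋃ _ : P w, V w hw)
      (⋃ w, ⋃ hw : w ∈ Wst U j m G y0, ⋃ _ : ¬ P w, V w hw)
      (isOpen_iUnion fun w => isOpen_iUnion fun hw => isOpen_iUnion fun _ => hVo w hw)
      (isOpen_iUnion fun w => isOpen_iUnion fun hw => isOpen_iUnion fun _ => hVo w hw)
      (by
        intro y hy
        by_cases hyP : P y
        · left
          simp only [Set.mem_iUnion]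
          exact ⟨y, hsub hy, hyP, hwV y (hsub hy)⟩
        · right
          simp only [Set.mem_iUnion]
          exact ⟨y, hsub hy, hyP, hwV y (hsub hy)⟩)
      ⟨x, hxB, by
        simp only [Set.mem_iUnion]
        exact ⟨x, hx, hp, hwV x hx⟩⟩
      ⟨z, hz, by
        simp only [Set.mem_iUnion]
        exact ⟨z, hsub hz, hzP, hwV z (hsub hz)⟩⟩
    simp only [Set.mem_iUnion] at hy1 hy2
    obtain ⟨w1, hw1, hPw1, hyw1⟩ := hy1
    obtain ⟨w2, hw2, hPw2, hyw2⟩ := hy2
    have h5 : P y := hPV w1 hw1 w1 ⟨hw1, hwV w1 hw1⟩ y ⟨hsub hyB, hyw1⟩ hPw1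
    exact hPw2 (hPV w2 hw2 y ⟨hsub hyB, hyw2⟩ w2 ⟨hw2, hwV w2 hw2⟩ h5)
  intro y hy
  have h6 : ∀ᶠ y' in nhdsWithin y (Wst U j m G y0), eval y' p = 0 := hall y hy
  exact h6.self_of_nhdsWithin (hsub hy)

end Pool.Agent.RM90
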