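import Pool.Agent.Lib.MP_df59e7_lc_X.DefsX
import Pool.Agent.Lib.MP_df59e7_lc_X.ContW
import Pool.Agent.Lib.MP_df59e7_lc_X.Chart
import Pool.Agent.Lib.MP_df59e7_lc.AlgArc

set_option autoImplicit false

/-! MP_df59e7_lc, project RM2, module AlgW. -/

namespace Pool.Agent.RM90

open MvPolynomial

private theorem AlgW_pderiv {n : ℕ} (F : MvPolynomial (Fin n) ℝ) (l : Fin n) (N : ℕ)
    (h : F.totalDegree ≤ N) : (pderiv l F).totalDegree ≤ N := by
  classical
  have key : pderiv l F = ∑ s ∈ F.support,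
      monomial (s - Finsupp.single l 1) (F.coeff s * (s l : ℝ)) := by
    conv_lhs => rw [F.as_sum]
    rw [map_sum]
    exact Finset.sum_congr rfl fun s _ => pderiv_monomial
  rw [key]
  refine totalDegree_finsetSum_le fun s hs => ?_
  refine (totalDegree_monomial_le _ _).trans ?_
  have h1 : (s.sum fun _ e => e) ≤ F.totalDegree := le_totalDegree hs
  refine le_trans ?_ (h1.trans h)
  rw [Finsupp.sum_fintype _ _ (fun _ => rfl), Finsupp.sum_fintype _ _ (fun _ => rfl)]
  refine Finset.sum_le_sum fun i _ => ?_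
  rw [Finsupp.tsub_apply]
  exact Nat.sub_le _ _

private theorem AlgW_eqn {n : ℕ} (m : Fin n) (G : MvPolynomial (Fin n) ℝ) (D : ℕ)
    (hD : G.totalDegree ≤ D) (l : Fin n) : (eqn m G l).totalDegree ≤ D := by
  rw [eqn]
  split_ifs
  · exact hD
  · exact AlgW_pderiv G l D hD

/-- Components of regular polar curves lie on curves of small degree.
Proof: as `alg_arc` in Lib/MP_df59e7_lc/AlgArc.lean. Let `A = (n+1)^n * D^n`, `m' = 2 A + 1`. If for
some `c ≠ 0` the polynomial `p_c = qlin m' c u v` vanishes on the component of `x`, done.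
Otherwise take `F` from `chart` at `x`, `ρ, s, V` from `loc_inv`, `σ(t) = s (evm F x + t e_j)`
(points of `Wst`); by `cont_W` `p_c ∘ σ` is not identically zero for `c ≠ 0`; `exists_points`,
`alternating`, `ndg` (for the system `F`, index `j`) and `ref_bezout` for
`Function.update F j (p_c - C δ)`: the components `a < j` have degree `1 ≤ D`, the components
`l ≥ m = j + 1` degree at most `D`, the component `j` degree at most `2 (m' - 1)`. -/
theorem alg_W {n : ℕ} (U : Set (Fin n → ℝ)) (hU : IsOpen U) (j m : Fin n)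
    (hjm : (j : ℕ) + 1 = m) (G : MvPolynomial (Fin n) ℝ) (y : Fin n → ℝ)
    (hr : ∀ x ∈ Wst U j m G y, RegAt j m G x) (D : ℕ) (hD1 : 1 ≤ D) (hD : G.totalDegree ≤ D)
    (x : Fin n → ℝ) (hx : x ∈ Wst U j m G y) :
    Alg (4 * ((n + 1) ^ n * D ^ n)) (connectedComponentIn (Wst U j m G y) x) := by
  classical
  intro u v
  obtain ⟨A, hA⟩ : ∃ A : ℕ, A = (n + 1) ^ n * D ^ n := ⟨_, rfl⟩
  have hApos : 0 < A := by
    rw [hA]
    exact Nat.mul_pos (pow_pos (Nat.succ_pos n) n) (pow_pos hD1 n)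
  obtain ⟨k, hk⟩ : ∃ k : ℕ, k = 2 * A + 1 := ⟨_, rfl⟩
  rw [← hA]
  suffices hmain : ∃ c : Fin k × Fin k → ℝ, c ≠ 0 ∧
      ∀ z ∈ connectedComponentIn (Wst U j m G y) x, eval z (qlin k c u v) = 0 by
    obtain ⟨c, hc, hcB⟩ := hmain
    refine ⟨qpol k c, qpol_ne_zero k c hc, (qpol_deg k c).trans (by omega), fun z hz => ?_⟩
    rw [eval_qpol, ← eval_qlin]
    exact hcB z hz
  by_contra hcon
  push Not at hcon
  have hjm' : j < m := by
    rw [Fin.lt_def]
    omega
  have hidx : ∀ i : Fin n, i ≠ j → i < j ∨ m ≤ i := by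
    intro i hi
    have h0 : (i : ℕ) ≠ j := fun h => hi (Fin.ext h)
    rw [Fin.lt_def, Fin.le_def]
    omega
  obtain ⟨H, hH1, hH2, hjac⟩ := chart j m hjm' G y x (hr x hx)
  have hHz : ∀ z ∈ Wst U j m G y, ∀ i, i ≠ j → eval z (H i) = 0 := by
    intro z hz i hi
    rcases hidx i hi with h0 | h0
    · rw [hH1 i h0, map_sub, eval_X, eval_C, hz.2.1 i h0, sub_self]
    · rw [hH2 i h0]
      exact hz.2.2 i h0
  have hHd : ∀ i, i ≠ j → (H i).totalDegree ≤ D := by
    intro i hi
    rcases hidx i hi with h0 | h0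
    · rw [hH1 i h0]
      refine (totalDegree_sub _ _).trans ?_
      rw [totalDegree_X, totalDegree_C]
      exact max_le hD1 (Nat.zero_le _)
    · rw [hH2 i h0]
      exact AlgW_eqn m G D hD i
  obtain ⟨ρ, hρ, s, V, hVo, hxV, hVU, hVj, h1, h2, h3⟩ := loc_inv H U hU x hx.1 hjac
  have hball : ∀ t : ℝ, |t| < ρ →
      evm H x + t • (Pi.single j 1 : Fin n → ℝ) ∈ Metric.ball (evm H x) ρ := by
    intro t ht
    rw [Metric.mem_ball, dist_pi_lt_iff hρ]
    intro i
    rw [Pi.add_apply, Pi.smul_apply, Real.dist_eq, add_sub_cancel_left, smul_eq_mul]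
    rcases eq_or_ne i j with rfl | hi
    · rwa [Pi.single_eq_same, mul_one]
    · rw [Pi.single_eq_of_ne hi, mul_zero, abs_zero]
      exact hρ
  obtain ⟨σ, hσ⟩ : ∃ σ : ℝ → (Fin n → ℝ),
      ∀ t, σ t = s (evm H x + t • (Pi.single j 1 : Fin n → ℝ)) := ⟨_, fun t => rfl⟩
  have hσev : ∀ t, |t| < ρ → evm H (σ t) = evm H x + t • (Pi.single j 1 : Fin n → ℝ) := by
    intro t ht
    rw [hσ]
    exact (h2 _ (hball t ht)).2
  have hσC : ∀ t, |t| < ρ → ∀ i, i ≠ j → eval (σ t) (H i) = 0 := by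
    intro t ht i hi
    have h4 := congrFun (hσev t ht) i
    rw [Pi.add_apply, Pi.smul_apply, Pi.single_eq_of_ne hi, smul_zero, add_zero] at h4
    have h5 : evm H x i = 0 := hHz x hx i hi
    rw [h5] at h4
    exact h4
  have hkey : ∀ c : Fin k × Fin k → ℝ,
      (∀ t, |t| < ρ → eval (σ t) (qlin k c u v) = 0) → c = 0 := by
    intro c hc
    by_contra hc0
    obtain ⟨z, hz, hz0⟩ := hcon c hc0
    refine hz0 (cont_W U hU j m hjm G y hr x hx _ ?_ z hz)
    have hVn : V ∈ nhdsWithin x (Wst U j m G y) := mem_nhdsWithin_of_mem_nhds (hVo.mem_nhds hxV)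
    filter_upwards [hVn, self_mem_nhdsWithin] with w hwV hwC
    have h4 := h1 w hwV
    obtain ⟨t, ht⟩ : ∃ t : ℝ, t = evm H w j - evm H x j := ⟨_, rfl⟩
    have h5 : evm H w = evm H x + t • (Pi.single j 1 : Fin n → ℝ) := by
      funext i
      rw [Pi.add_apply, Pi.smul_apply, smul_eq_mul]
      rcases eq_or_ne i j with rfl | hi
      · rw [Pi.single_eq_same, mul_one, ht]
        ring
      · rw [Pi.single_eq_of_ne hi, mul_zero, add_zero]
        exact (hHz w hwC i hi).trans (hHz x hx i hi).symm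
    have h6 : |t| < ρ := by
      have := (dist_pi_lt_iff hρ).mp (Metric.mem_ball.mp h4.1) j
      rwa [Real.dist_eq, ← ht] at this
    have h7 := hc t h6
    rw [hσ, ← h5, h4.2] at h7
    exact h7
  obtain ⟨N, hN⟩ : ∃ N : ℕ, N = 4 * A * (A + 1) := ⟨_, rfl⟩
  have hcard : Fintype.card (Fin k × Fin k) = N + 1 := by
    rw [Fintype.card_prod, Fintype.card_fin, hk, hN]
    ring
  let q : Fin k × Fin k ≃ Fin (N + 1) := Fintype.equivFinOfCardEq hcard
  have hsum : ∀ (c : Fin (N + 1) → ℝ) (z : Fin n → ℝ),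
      eval z (qlin k (fun a => c (q a)) u v) = ∑ l, c l *
        ((u ⬝ᵥ z) ^ ((q.symm l).1 : ℕ) * (v ⬝ᵥ z) ^ ((q.symm l).2 : ℕ)) := by
    intro c z
    rw [eval_qlin, ← Equiv.sum_comp q]
    refine Finset.sum_congr rfl fun a _ => ?_
    rw [Equiv.symm_apply_apply]
  have hind : ∀ c : Fin (N + 1) → ℝ, (∀ t ∈ Set.Ioo (-ρ) ρ, ∑ l, c l *
      ((u ⬝ᵥ σ t) ^ ((q.symm l).1 : ℕ) * (v ⬝ᵥ σ t) ^ ((q.symm l).2 : ℕ)) = 0) → c = 0 := by
    intro c hc
    have h4 : (fun a => c (q a)) = 0 := hkey _ fun t ht => by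
      rw [hsum]
      exact hc t (abs_lt.mp ht)
    funext l
    have h5 := congrFun h4 (q.symm l)
    simpa using h5
  obtain ⟨t, htI, htm, hint⟩ := exists_points (N := N + 1)
    (fun l t => (u ⬝ᵥ σ t) ^ ((q.symm l).1 : ℕ) * (v ⬝ᵥ σ t) ^ ((q.symm l).2 : ℕ))
    (Set.Ioo (-ρ) ρ) hind
  obtain ⟨c, hc⟩ := hint (fun l => (-1) ^ (l : ℕ))
  obtain ⟨p, hp⟩ : ∃ p, p = qlin k (fun a => c (q a)) u v := ⟨_, rfl⟩
  have hpdeg : p.totalDegree ≤ 4 * A := by
    rw [hp]
    refine (qlin_deg _ _ _ _).trans (by omega)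
  have hσd : ∀ t ∈ Set.Ioo (-ρ) ρ, DifferentiableAt ℝ σ t := by
    intro t ht
    have h4 : DifferentiableAt ℝ s (evm H x + t • (Pi.single j 1 : Fin n → ℝ)) :=
      (h3 _ (hball t (abs_lt.mpr ht))).differentiableAt
    have h5 : DifferentiableAt ℝ (fun t : ℝ => evm H x + t • (Pi.single j 1 : Fin n → ℝ)) t := by
      fun_prop
    have h6 := h4.comp t h5
    have h7 : σ = s ∘ (fun t : ℝ => evm H x + t • (Pi.single j 1 : Fin n → ℝ)) := funext hσ
    rwa [h7]
  have hdiff : ∀ t ∈ Set.Ioo (-ρ) ρ, DifferentiableAt ℝ (fun t => eval (σ t) p) t := by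
    intro t ht
    exact (Warren46.hasFDerivAt_eval p (σ t)).differentiableAt.comp t (hσd t ht)
  have hval : ∀ l, eval (σ (t l)) p = (-1) ^ (l : ℕ) := by
    intro l
    rw [hp, hsum]
    exact hc l
  obtain ⟨δ, Z, hZc, hZ⟩ := alternating (-ρ) ρ (fun t => eval (σ t) p) hdiff t htI htm hval
  have hinj : Set.InjOn σ (Z : Set ℝ) := by
    intro t₁ ht₁ t₂ ht₂ h4
    have h5 := hσev t₁ (abs_lt.mpr (hZ t₁ ht₁).1)
    have h6 := hσev t₂ (abs_lt.mpr (hZ t₂ ht₂).1)
    rw [h4, h6] at h5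
    have h7 := congrFun h5 j
    simpa using h7.symm
  have hbez := ref_bezout (Function.update H j (p - C δ))
    (Function.update (fun _ : Fin n => D) j (4 * A))
    (fun i => by
      rcases eq_or_ne i j with rfl | hi
      · rw [Function.update_self]
        omega
      · rw [Function.update_of_ne hi]
        exact hD1)
    (fun i l => by
      rcases eq_or_ne i j with rfl | hi
      · rw [Function.update_self, Function.update_self]
        refine (degreeOf_le_totalDegree _ _).trans ((totalDegree_sub p (C δ)).trans ?_)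
        rw [totalDegree_C]
        exact max_le hpdeg (Nat.zero_le _)
      · rw [Function.update_of_ne hi, Function.update_of_ne hi]
        exact (degreeOf_le_totalDegree _ _).trans (hHd i hi))
    (Z.image σ)
    (fun z hz i => by
      obtain ⟨τ, hτ, rfl⟩ := Finset.mem_image.mp hz
      rcases eq_or_ne i j with rfl | hi
      · rw [Function.update_self, map_sub, eval_C, sub_eq_zero]
        exact (hZ τ hτ).2.1
      · rw [Function.update_of_ne hi]
        exact hσC τ (abs_lt.mpr (hZ τ hτ).1) i hi)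
    (fun z hz => by
      obtain ⟨τ, hτ, rfl⟩ := Finset.mem_image.mp hz
      have h4 := (hZ τ hτ).2.2
      have h5 : (fun t => eval (σ t) p) =
          fun t : ℝ => eval (s (evm H x + t • (Pi.single j 1 : Fin n → ℝ))) p := by
        funext t
        rw [hσ]
      rw [h5] at h4
      rw [hσ τ]
      exact ndg H j x ρ s (fun y hy => (h2 y hy).2) h3 p δ τ (abs_lt.mpr (hZ τ hτ).1) h4)
  rw [Finset.card_image_of_injOn hinj, hZc, Fintype.card_fin,
    Finset.prod_update_of_mem (Finset.mem_univ j)] at hbez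
  have hprod : ∏ i ∈ Finset.univ \ {j}, (fun _ : Fin n => D) i ≤ D ^ n := by
    refine (Finset.prod_le_prod_of_subset_of_one_le' (Finset.subset_univ _)
      fun i _ _ => hD1).trans ?_
    rw [Finset.prod_const, Finset.card_univ, Fintype.card_fin]
  have hle : (n + 1) ^ n * (4 * A * ∏ i ∈ Finset.univ \ {j}, (fun _ : Fin n => D) i)
      ≤ 4 * A * A := by
    calc (n + 1) ^ n * (4 * A * ∏ i ∈ Finset.univ \ {j}, (fun _ : Fin n => D) i)
        ≤ (n + 1) ^ n * (4 * A * D ^ n) :=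
          Nat.mul_le_mul_left _ (Nat.mul_le_mul_left _ hprod)
      _ = 4 * A * ((n + 1) ^ n * D ^ n) := by ring
      _ = 4 * A * A := by rw [← hA]
  have h8 := hbez.trans hle
  rw [hN] at h8
  nlinarith

end Pool.Agent.RM90
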