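import Pool.Agent.Lib.MP_df59e7_lc_X.DefsX
import Pool.Agent.Lib.MP_df59e7_lc.CntA
import Pool.Agent.Lib.MP_df59e7_lc.CntB

set_option autoImplicit false

/-! MP_df59e7_lc, project RM2, module CntJ. -/

namespace Pool.Agent.RM90

open MvPolynomial

private theorem CntJ_dist {n : ℕ} (e : Equiv.Perm (Fin n)) (x y : Fin n → ℝ) :
    dist (fun i => x (e i)) (fun i => y (e i)) = dist x y := by
  apply le_antisymm
  · rw [dist_pi_le_iff dist_nonneg]
    exact fun i => dist_le_pi_dist x y (e i)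
  · rw [dist_pi_le_iff dist_nonneg]
    intro i
    have h := dist_le_pi_dist (fun i => x (e i)) (fun i => y (e i)) (e.symm i)
    simpa using h

/-- `cnt_min` for an arbitrary coordinate.
Proof: the same as `penalty` and `cnt_min` in Lib/MP_df59e7_lc/CntA.lean, CntB.lean with the
coordinate `j` instead of `0` (copy), or by exchanging the coordinates `0` and `j` (`rename`). -/
theorem cnt_min_j {n : ℕ} (j : Fin n) (U : Set (Fin n → ℝ)) (hU : IsOpen U)
    (g : MvPolynomial (Fin n) ℝ) (hg0 : ∀ x, 0 ≤ eval x g) (D : ℕ) (hD1 : 1 ≤ D)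
    (hD : ∀ a, degreeOf a g ≤ D) (W : Finset (Fin n → ℝ))
    (hW : ∀ w ∈ W, SLM {x | x ∈ U ∧ eval x g = 0} (fun x => x j) w) :
    W.card ≤ (n * D + 1) ^ n := by
  classical
  have hn : NeZero n := ⟨fun h => by subst h; exact j.elim0⟩
  obtain ⟨e, he⟩ : ∃ e : Equiv.Perm (Fin n), e = Equiv.swap 0 j := ⟨_, rfl⟩
  have he2 : ∀ i, e (e i) = i := fun i => by rw [he, Equiv.swap_apply_self]
  have he0 : e 0 = j := by rw [he, Equiv.swap_apply_left]
  obtain ⟨φ, hφ⟩ : ∃ φ : (Fin n → ℝ) → (Fin n → ℝ), φ = fun x i => x (e i) := ⟨_, rfl⟩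
  have hφφ : ∀ x, φ (φ x) = x := by
    intro x
    rw [hφ]
    funext i
    show x (e (e i)) = x i
    rw [he2]
  have hφinj : Function.Injective φ := fun x y h => by rw [← hφφ x, h, hφφ]
  have hφc : Continuous φ := by
    rw [hφ]
    exact continuous_pi fun i => continuous_apply (e i)
  have hev : ∀ x, eval x (rename e g) = eval (φ x) g := by
    intro x
    rw [eval_rename, hφ]
    rfl
  have hdist : ∀ x y, dist (φ x) (φ y) = dist x y := by
    intro x y
    rw [hφ]
    exact CntJ_dist e x y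
  have hφ0 : ∀ x, φ x 0 = x j := by
    intro x
    rw [hφ]
    show x (e 0) = x j
    rw [he0]
  have hφj : ∀ x, φ x j = x 0 := by
    intro x
    have h := hφ0 (φ x)
    rw [hφφ] at h
    exact h.symm
  have key := cnt_min (φ ⁻¹' U) (hU.preimage hφc) (rename e g)
    (fun x => by rw [hev]; exact hg0 _) D hD1 (fun a => ?_) (W.image φ) ?_
  · rwa [Finset.card_image_of_injective _ hφinj] at key
  · have h1 := degreeOf_rename_of_injective (p := g) e.injective (e.symm a)
    rw [Equiv.apply_symm_apply] at h1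
    rw [h1]
    exact hD _
  · intro w hw
    obtain ⟨v, hv, rfl⟩ := Finset.mem_image.1 hw
    obtain ⟨⟨h1, h2⟩, ε, hε, h3⟩ := hW v hv
    refine ⟨⟨?_, ?_⟩, ε, hε, ?_⟩
    · show φ (φ v) ∈ U
      rw [hφφ]
      exact h1
    · rw [hev, hφφ]
      exact h2
    · rintro y ⟨hy1, hy2⟩ hy3 hy4
      rw [hev] at hy2
      have h4 := h3 (φ y) ⟨hy1, hy2⟩ (by
        rw [← hdist, hφφ]
        exact hy3) (fun h => hy4 (by rw [← h, hφφ]))
      show φ v 0 < y 0
      rw [hφ0, ← hφj y]
      exact h4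

end Pool.Agent.RM90
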