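import Pool.Agent.Lib.MP_df59e7_lc_X.DefsX
import Pool.Agent.Lib.MP_df59e7_lc_X.CntJ

set_option autoImplicit false

/-! MP_df59e7_lc, project RM2, module CardW. -/

namespace Pool.Agent.RM90

open MvPolynomial

private theorem CardW_pd {n : ℕ} (P : MvPolynomial (Fin n) ℝ) (l : Fin n) :
    (pderiv l P).totalDegree ≤ P.totalDegree := by
  refine Finset.sup_le fun s hs => ?_
  have h1 : MvPolynomial.coeff (s + Finsupp.single l 1) P ≠ 0 := by
    intro h0
    rw [MvPolynomial.mem_support_iff, MvPolynomial.coeff_pderiv, h0, zero_mul] at hs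
    exact hs rfl
  have h2 := MvPolynomial.le_totalDegree (MvPolynomial.mem_support_iff.2 h1)
  rw [Finsupp.sum_add_index' (fun _ => rfl) (fun _ _ _ => rfl), Finsupp.sum_single_index rfl] at h2
  omega

/-- The number of local minima of `x_j` on a good set.
Proof: local minima are strict (`GdS.str` with `i = j`). `Wst U j m G y` is the zero set in `U`
of `g = ∑_{a<j} (X a - C (y a))^2 + ∑_{l≥m} (eqn m G l)^2`, of degree at most `2 D`. Apply
`cnt_min_j` to finite sets of local minima (compare Lib/MP_df59e7_lc/CntG.lean). -/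
theorem card_W {n : ℕ} (U : Set (Fin n → ℝ)) (j m : Fin n) (G : MvPolynomial (Fin n) ℝ)
    (y : Fin n → ℝ) (hG : GdS U j m G y) (D : ℕ) (hD1 : 1 ≤ D) (hD : G.totalDegree ≤ D) :
    {w | LM (Wst U j m G y) (fun x => x j) w}.encard ≤ (((n * (2 * D) + 1) ^ n : ℕ) : ℕ∞) := by
  classical
  set g : MvPolynomial (Fin n) ℝ := (∑ a : Fin n, if a < j then (X a - C (y a)) ^ 2 else 0) +
    ∑ l : Fin n, if m ≤ l then (eqn m G l) ^ 2 else 0 with hg
  have hev : ∀ x, eval x g = (∑ a : Fin n, if a < j then (x a - y a) ^ 2 else 0) +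
      ∑ l : Fin n, if m ≤ l then (eval x (eqn m G l)) ^ 2 else 0 := by
    intro x
    rw [hg, map_add, map_sum, map_sum]
    congr 1
    · apply Finset.sum_congr rfl
      intro a _
      split_ifs <;> simp
    · apply Finset.sum_congr rfl
      intro a _
      split_ifs <;> simp
  have hn1 : ∀ x : Fin n → ℝ, ∀ a ∈ Finset.univ,
      (0 : ℝ) ≤ if a < j then (x a - y a) ^ 2 else 0 := by
    intro x a _
    split_ifs
    · positivity
    · exact le_refl _
  have hn2 : ∀ x : Fin n → ℝ, ∀ l ∈ Finset.univ,
      (0 : ℝ) ≤ if m ≤ l then (eval x (eqn m G l)) ^ 2 else 0 := by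
    intro x a _
    split_ifs
    · positivity
    · exact le_refl _
  have hg0 : ∀ x, 0 ≤ eval x g := by
    intro x
    rw [hev]
    exact add_nonneg (Finset.sum_nonneg (hn1 x)) (Finset.sum_nonneg (hn2 x))
  have hE : Wst U j m G y = {x | x ∈ U ∧ eval x g = 0} := by
    ext x
    simp only [Wst, Set.mem_setOf_eq]
    constructor
    · rintro ⟨h1, h2, h3⟩
      refine ⟨h1, ?_⟩
      rw [hev, Finset.sum_eq_zero, Finset.sum_eq_zero, add_zero]
      · intro l _
        split_ifs with h
        · rw [h3 l h]; simp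
        · rfl
      · intro a _
        split_ifs with h
        · rw [h2 a h]; simp
        · rfl
    · rintro ⟨h1, h2⟩
      rw [hev] at h2
      have e1 : ∑ a : Fin n, (if a < j then (x a - y a) ^ 2 else 0) = 0 := by
        have := Finset.sum_nonneg (hn1 x)
        have := Finset.sum_nonneg (hn2 x)
        linarith
      have e2 : ∑ l : Fin n, (if m ≤ l then (eval x (eqn m G l)) ^ 2 else 0) = 0 := by
        rw [e1, zero_add] at h2
        exact h2
      rw [Finset.sum_eq_zero_iff_of_nonneg (hn1 x)] at e1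
      rw [Finset.sum_eq_zero_iff_of_nonneg (hn2 x)] at e2
      refine ⟨h1, fun a ha => ?_, fun l hl => ?_⟩
      · have h3 := e1 a (Finset.mem_univ a)
        rw [if_pos ha] at h3
        exact sub_eq_zero.1 (pow_eq_zero_iff (two_ne_zero) |>.1 h3)
      · have h3 := e2 l (Finset.mem_univ l)
        rw [if_pos hl] at h3
        exact pow_eq_zero_iff (two_ne_zero) |>.1 h3
  have hdeg : ∀ a, degreeOf a g ≤ 2 * D := by
    intro a
    refine le_trans (degreeOf_le_totalDegree _ _) ?_
    rw [hg]
    refine le_trans (totalDegree_add _ _) (max_le ?_ ?_)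
    · refine totalDegree_finsetSum_le fun b _ => ?_
      split_ifs with h
      · refine le_trans (totalDegree_pow _ _) ?_
        have h1 := totalDegree_sub (X b : MvPolynomial (Fin n) ℝ) (C (y b))
        rw [totalDegree_X, totalDegree_C] at h1
        have h2 : (X b - C (y b) : MvPolynomial (Fin n) ℝ).totalDegree ≤ 1 := by simpa using h1
        omega
      · simp
    · refine totalDegree_finsetSum_le fun l _ => ?_
      split_ifs with h
      · refine le_trans (totalDegree_pow _ _) ?_
        have h1 : (eqn m G l).totalDegree ≤ D := by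
          unfold eqn
          split_ifs
          · exact hD
          · exact le_trans (CardW_pd G l) hD
        omega
      · simp
  have key : ∀ W : Finset (Fin n → ℝ), (∀ w ∈ W, LM (Wst U j m G y) (fun x => x j) w) →
      W.card ≤ (n * (2 * D) + 1) ^ n := by
    intro W hW
    refine cnt_min_j j U hG.isOpen g hg0 (2 * D) (by omega) hdeg W ?_
    intro w hw
    have h1 := hG.str j le_rfl hG.lt y
      ⟨fun _ _ => rfl, fun a h2 h3 => absurd h3 (not_lt.2 h2)⟩ w (hW w hw)
    rwa [hE] at h1
  by_contra hlt
  rw [not_le] at hlt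
  have h1 : (((n * (2 * D) + 1) ^ n + 1 : ℕ) : ℕ∞) ≤
      {w | LM (Wst U j m G y) (fun x => x j) w}.encard := by
    push_cast
    push_cast at hlt
    exact Order.add_one_le_of_lt hlt
  obtain ⟨t, ht, htc⟩ := Set.exists_subset_encard_eq h1
  have hfin : t.Finite := by
    apply Set.finite_of_encard_eq_coe htc
  have h2 := key hfin.toFinset (by
    intro w hw
    exact ht (hfin.mem_toFinset.1 hw))
  rw [hfin.encard_eq_coe_toFinset_card] at htc
  have h3 : hfin.toFinset.card = (n * (2 * D) + 1) ^ n + 1 := by exact_mod_cast htc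
  omega

end Pool.Agent.RM90
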