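import Pool.Agent.Lib.MP_df59e7_lc_X.DefsX
import Pool.Agent.Lib.MP_df59e7_lc_X.Chart
import Pool.Agent.Lib.MP_df59e7_lc.Inv

set_option autoImplicit false

/-! MP_df59e7_lc, project RM2, module LcW. -/

namespace Pool.Agent.RM90

open MvPolynomial

/-- A regular polar set is locally connected.
Proof: let `x ∈ Wst`, `ε > 0`; `F` from `chart`, `ρ0, s, V` from `loc_inv` for `F`, the open set
`U ∩ ball x ε` and `x`. A point `z` of `V` is in `Wst` iff `evm F z a = 0` for all `a < j` and all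
`a ≥ m`, so `Wst ∩ V` is the image under `s` of the convex set
`ball (evm F x) ρ0 ∩ {u | u a = 0 for a < j and for a ≥ m}` (`s` is continuous on the ball). -/
theorem lc_W {n : ℕ} (U : Set (Fin n → ℝ)) (hU : IsOpen U) (j m : Fin n) (hjm : j < m)
    (G : MvPolynomial (Fin n) ℝ) (y : Fin n → ℝ)
    (hr : ∀ x ∈ Wst U j m G y, RegAt j m G x) : LCn (Wst U j m G y) := by
  intro w hw ε hε
  obtain ⟨F, hF1, hF2, hF3⟩ := chart j m hjm G y w (hr w hw)
  obtain ⟨hwU, hw1, hw2⟩ := hw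
  obtain ⟨ρ0, hρ0, s, V, hVo, hwV, hVU, -, hV2, hV3, hsan⟩ := loc_inv F (U ∩ Metric.ball w ε)
    (hU.inter Metric.isOpen_ball) w ⟨hwU, Metric.mem_ball_self hε⟩ hF3
  have hconv : Convex ℝ (Metric.ball (evm F w) ρ0 ∩
      {u | (∀ a, a < j → u a = 0) ∧ ∀ a, m ≤ a → u a = 0}) := by
    refine (convex_ball _ _).inter ?_
    intro x hx z hz p q _ _ _
    refine ⟨fun a ha => ?_, fun a ha => ?_⟩
    · simp [hx.1 a ha, hz.1 a ha]
    · simp [hx.2 a ha, hz.2 a ha]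
  obtain ⟨ρ, hρ, hρV⟩ := Metric.isOpen_iff.1 hVo w hwV
  refine ⟨ρ, hρ, s '' (Metric.ball (evm F w) ρ0 ∩
      {u | (∀ a, a < j → u a = 0) ∧ ∀ a, m ≤ a → u a = 0}), ?_, ?_, ?_⟩
  · exact hconv.isPreconnected.image s (hsan.continuousOn.mono Set.inter_subset_left)
  · rintro _ ⟨u, ⟨hub, hu1, hu2⟩, rfl⟩
    obtain ⟨h1, h2⟩ := hV3 u hub
    have h3 := hVU h1
    refine ⟨⟨h3.1, fun a ha => ?_, fun l hl => ?_⟩, h3.2⟩
    · have h4 := congrFun h2 a
      unfold evm at h4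
      rw [hF1 a ha, hu1 a ha, map_sub, eval_X, eval_C] at h4
      linarith
    · have h4 := congrFun h2 l
      unfold evm at h4
      rw [hF2 l hl, hu2 l hl] at h4
      exact h4
  · rintro x ⟨⟨hxU, hx1, hx2⟩, hxb⟩
    have hxV := hρV hxb
    obtain ⟨h1, h2⟩ := hV2 x hxV
    refine ⟨evm F x, ⟨h1, fun a ha => ?_, fun l hl => ?_⟩, h2⟩
    · unfold evm
      rw [hF1 a ha, map_sub, eval_X, eval_C, hx1 a ha, sub_self]
    · unfold evm
      rw [hF2 l hl]
      exact hx2 l hl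

/-- A regular polar set of positive dimension has no isolated points.
Proof: with `F, s, V` as above, the points `s (evm F x + t e_j)`, `t ≠ 0` small, are in `Wst`
(`j < m`, so the coordinate `j` is free), different from `x` and tend to `x`. -/
theorem nonisol {n : ℕ} (U : Set (Fin n → ℝ)) (hU : IsOpen U) (j m : Fin n) (hjm : j < m)
    (G : MvPolynomial (Fin n) ℝ) (y : Fin n → ℝ)
    (hr : ∀ x ∈ Wst U j m G y, RegAt j m G x) (x : Fin n → ℝ) (hx : x ∈ Wst U j m G y)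
    (ε : ℝ) (hε : 0 < ε) : ∃ x' ∈ Wst U j m G y, x' ≠ x ∧ dist x' x < ε := by
  obtain ⟨F, hF1, hF2, hF3⟩ := chart j m hjm G y x (hr x hx)
  obtain ⟨hxU, hx1, hx2⟩ := hx
  obtain ⟨ρ0, hρ0, s, V, hVo, hwV, hVU, -, hV2, hV3, hsan⟩ := loc_inv F (U ∩ Metric.ball x ε)
    (hU.inter Metric.isOpen_ball) x ⟨hxU, Metric.mem_ball_self hε⟩ hF3
  have hub : evm F x + Pi.single j (ρ0 / 2) ∈ Metric.ball (evm F x) ρ0 := by
    rw [Metric.mem_ball, dist_eq_norm, add_sub_cancel_left, Pi.norm_single, Real.norm_eq_abs,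
      abs_of_pos (by linarith)]
    linarith
  obtain ⟨u, hu⟩ : ∃ u, u = evm F x + Pi.single j (ρ0 / 2) := ⟨_, rfl⟩
  rw [← hu] at hub
  have hz1 : ∀ a, a < j → u a = 0 := by
    intro a ha
    rw [hu, Pi.add_apply, Pi.single_eq_of_ne ha.ne, add_zero]
    unfold evm
    rw [hF1 a ha, map_sub, eval_X, eval_C, hx1 a ha, sub_self]
  have hz2 : ∀ l, m ≤ l → u l = 0 := by
    intro l hl
    rw [hu, Pi.add_apply, Pi.single_eq_of_ne (lt_of_lt_of_le hjm hl).ne', add_zero]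
    unfold evm
    rw [hF2 l hl]
    exact hx2 l hl
  have hz3 : u j = evm F x j + ρ0 / 2 := by
    rw [hu, Pi.add_apply, Pi.single_eq_same]
  obtain ⟨h1, h2⟩ := hV3 u hub
  have h3 := hVU h1
  obtain ⟨x', hx'⟩ : ∃ x', x' = s u := ⟨_, rfl⟩
  rw [← hx'] at h2 h3
  have hw1 : ∀ a, a < j → x' a = y a := by
    intro a ha
    have h4 : eval x' (F a) = u a := congrFun h2 a
    rw [hF1 a ha, map_sub, eval_X, eval_C, hz1 a ha] at h4
    linarith
  have hw2 : ∀ l, m ≤ l → eval x' (eqn m G l) = 0 := by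
    intro l hl
    have h4 : eval x' (F l) = u l := congrFun h2 l
    rw [hF2 l hl, hz2 l hl] at h4
    exact h4
  have hne : x' ≠ x := by
    intro h4
    rw [h4] at h2
    have h5 := congrFun h2 j
    rw [hz3] at h5
    linarith
  exact ⟨x', ⟨h3.1, hw1, hw2⟩, hne, Metric.mem_ball.mp h3.2⟩

end Pool.Agent.RM90
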