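import Pool.Agent.Lib.MP_df59e7_lc_X.DefsX
import Pool.Agent.Lib.MP_df59e7_lc_X.AlgW
import Pool.Agent.Lib.MP_df59e7_lc_X.CardW
import Pool.Agent.Lib.MP_df59e7_lc_X.LcW
import Pool.Agent.Lib.MP_df59e7_lc.AlgU
import Pool.Agent.Lib.MP_df59e7_lc.Comp

set_option autoImplicit false

/-! MP_df59e7_lc, project RM2, module BaseX. -/

namespace Pool.Agent.RM90

open MvPolynomial

/-- Base case: a good set of dimension one is its own roadmap.
Proof: `LCn` by `lc_W` (regularity from `GdS.reg` with `i = j`, trivial extension). Every component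
contains a local minimum of `x_j` (`comp_min`), so there are at most `(2 n D + 1)^n ≤ B` components
(`card_W`), each with `Alg (4 ((n+1)^n D^n))` (`alg_W`) and `(n+1)^n D^n ≤ Bd n D ≤ B`: total
`4 B^2 ≤ A.card + 8 B^2` (`alg_biUnion`, `alg_mono`). `rm1`: `E ∩ component = component`. -/
theorem base_X {n : ℕ} (U : Set (Fin n → ℝ)) (j m : Fin n) (G : MvPolynomial (Fin n) ℝ)
    (y : Fin n → ℝ) (hG : GdS U j m G y) (hjm : (j : ℕ) + 1 = m) (D : ℕ) (hD1 : 1 ≤ D)
    (hD : G.totalDegree ≤ D) (B : ℕ) (hB : Bd n D ≤ B) (A : Finset (Fin n → ℝ))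
    (hA : ↑A ⊆ Wst U j m G y) :
    XMap (Wst U j m G y) (fun x => x j) A (A.card + 8 * B ^ 2) (Wst U j m G y) := by
  have hlt : j < m := hG.lt
  have hr : ∀ x ∈ Wst U j m G y, RegAt j m G x :=
    hG.reg j le_rfl hlt y ⟨fun _ _ => rfl, fun a h1 h2 => absurd h2 (not_lt.2 h1)⟩
  have hl : LCn (Wst U j m G y) := lc_W U hG.isOpen j m hlt G y hr
  have hcard := card_W U j m G y hG D hD1 hD
  have hfin : {w | LM (Wst U j m G y) (fun x => x j) w}.Finite :=
    Set.finite_of_encard_le_coe hcard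
  have hn : 1 ≤ n := by
    have := j.2
    omega
  set T : Finset (Fin n → ℝ) := hfin.toFinset with hT
  have hTm : ∀ w, w ∈ T ↔ LM (Wst U j m G y) (fun x => x j) w := by
    intro w
    rw [hT, Set.Finite.mem_toFinset]
    rfl
  have hTc : T.card ≤ B := by
    have h1 : ((T.card : ℕ) : ℕ∞) ≤ (((n * (2 * D) + 1) ^ n : ℕ) : ℕ∞) := by
      rw [← Set.encard_coe_eq_coe_finsetCard, hT, Set.Finite.coe_toFinset]
      exact hcard
    have h2 : T.card ≤ (n * (2 * D) + 1) ^ n := by exact_mod_cast h1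
    have h3 : (n * (2 * D) + 1) ^ n ≤ (4 * n * D + 1) ^ n := by
      refine Nat.pow_le_pow_left ?_ n
      have h4 : n * (2 * D) = 2 * (n * D) := by ring
      have h5 : 4 * n * D = 4 * (n * D) := by ring
      omega
    exact h2.trans (h3.trans hB)
  have hKB : (n + 1) ^ n * D ^ n ≤ B := by
    rw [← mul_pow]
    refine (Nat.pow_le_pow_left ?_ n).trans hB
    have h4 : (n + 1) * D = n * D + D := by ring
    have h5 : 4 * n * D = 4 * (n * D) := by ring
    have h6 : D ≤ n * D := Nat.le_mul_of_pos_left D hn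
    omega
  have halg : ∀ t ∈ T, Alg (4 * ((n + 1) ^ n * D ^ n)) (connectedComponentIn (Wst U j m G y) t) :=
    fun t ht => alg_W U hG.isOpen j m hjm G y hr D hD1 hD t ((hTm t).1 ht).1
  have hcov : Wst U j m G y ⊆ ⋃ t ∈ T, connectedComponentIn (Wst U j m G y) t := by
    intro x hx
    obtain ⟨w, hw, hw'⟩ := comp_min (Wst U j m G y) hG.cpt hl (fun x => x j)
      (continuous_apply j) x hx
    refine Set.mem_iUnion₂.2 ⟨w, (hTm w).2 hw', ?_⟩
    rw [← connectedComponentIn_eq hw]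
    exact mem_connectedComponentIn hx
  have hbound : T.card * (4 * ((n + 1) ^ n * D ^ n)) ≤ A.card + 8 * B ^ 2 := by
    have h1 : T.card * (4 * ((n + 1) ^ n * D ^ n)) ≤ B * (4 * B) :=
      Nat.mul_le_mul hTc (Nat.mul_le_mul_left 4 hKB)
    have h2 : B * (4 * B) = 4 * B ^ 2 := by ring
    omega
  refine ⟨subset_rfl, hG.cpt.isClosed, alg_mono hbound hcov (alg_biUnion T _ _ halg), hA,
    fun x hx => ?_, fun x hx => ⟨x, hx, mem_connectedComponentIn ⟨hx, rfl⟩⟩⟩
  rw [Set.inter_eq_right.2 (connectedComponentIn_subset _ _)]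
  exact isConnected_connectedComponentIn_iff.2 hx

end Pool.Agent.RM90
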