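import Pool.Agent.Lib.MP_df59e7_lc.ActD
import Pool.Agent.Lib.MP_df59e7_lc.Glue

set_option autoImplicit false

/-! Definitions for the multilevel roadmap theorem (MP_df59e7_lc, project RM2). -/

namespace Pool.Agent.RM90

open MvPolynomial

variable {n : ℕ}

/-- The space of coefficients of quadratic polynomials: constant term, linear terms, quadratic
terms. -/
abbrev Par (n : ℕ) : Type := ℝ × ((Fin n → ℝ) × (Fin n → Fin n → ℝ))

/-- The quadratic polynomial with coefficients `c`. -/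
noncomputable def quad (c : Par n) : MvPolynomial (Fin n) ℝ :=
  C c.1 + ∑ i, C (c.2.1 i) * X i + ∑ i, ∑ l, C (c.2.2 i l / 2) * (X i * X l)

/-- The equations of the polar set of index `m` of the hypersurface `G = 0`: `G = 0` (index `m`)
and `dG/dx_l = 0` (index `l > m`). -/
noncomputable def eqn (m : Fin n) (G : MvPolynomial (Fin n) ℝ) (l : Fin n) :
    MvPolynomial (Fin n) ℝ :=
  if l = m then G else pderiv l G

/-- The polar set of index `m` of `G = 0` in `U`, inside the slice `x_a = y_a` for `a < j`.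
Its expected dimension is `m - j`. -/
def Wst (U : Set (Fin n → ℝ)) (j m : Fin n) (G : MvPolynomial (Fin n) ℝ) (y : Fin n → ℝ) :
    Set (Fin n → ℝ) :=
  {x | x ∈ U ∧ (∀ a, a < j → x a = y a) ∧ ∀ l, m ≤ l → eval x (eqn m G l) = 0}

/-- Regularity at `x` inside the slice: the differentials of the equations, restricted to the
coordinates `a ≥ j`, are linearly independent. -/
def RegAt (j m : Fin n) (G : MvPolynomial (Fin n) ℝ) (x : Fin n → ℝ) : Prop :=
  ∀ μ : Fin n → ℝ, (∀ a, j ≤ a →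
    ∑ l, (if m ≤ l then μ l * eval x (pderiv a (eqn m G l)) else 0) = 0) → ∀ l, m ≤ l → μ l = 0

/-- `μ` are Lagrange multipliers for the function `x_j` at `x`. -/
def CritP (j m : Fin n) (G : MvPolynomial (Fin n) ℝ) (x μ : Fin n → ℝ) : Prop :=
  (∀ l, l < m → μ l = 0) ∧ ∀ a, j ≤ a →
    ∑ l, (if m ≤ l then μ l * eval x (pderiv a (eqn m G l)) else 0) = if a = j then 1 else 0

/-- The system of equations for critical points of `x_j` with their multipliers. -/
noncomputable def Fcr (j m : Fin n) (G : MvPolynomial (Fin n) ℝ) (y : Fin n → ℝ)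
    (z : (Fin n → ℝ) × (Fin n → ℝ)) : (Fin n → ℝ) × (Fin n → ℝ) :=
  (fun a => if a < j then z.1 a - y a else
      ∑ l, (if m ≤ l then z.2 l * eval z.1 (pderiv a (eqn m G l)) else 0) -
        (if a = j then 1 else 0),
   fun l => if l < m then z.2 l else eval z.1 (eqn m G l))

/-- `y'` extends `y` (coordinates `< j`) by rational coordinates `j ≤ a < i`. -/
def RatExt (j i : Fin n) (y y' : Fin n → ℝ) : Prop :=
  (∀ a, a < j → y' a = y a) ∧ ∀ a, j ≤ a → a < i → ∃ r : ℚ, y' a = (r : ℝ)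

/-- Good sets. -/
structure GdS (U : Set (Fin n → ℝ)) (j m : Fin n) (G : MvPolynomial (Fin n) ℝ)
    (y : Fin n → ℝ) : Prop where
  isOpen : IsOpen U
  bdd : Bornology.IsBounded U
  lt : j < m
  cpt : IsCompact (Wst U j m G y)
  reg : ∀ i, j ≤ i → i < m → ∀ y', RatExt j i y y' → ∀ x ∈ Wst U i m G y', RegAt i m G x
  str : ∀ i, j ≤ i → i < m → ∀ y', RatExt j i y y' →
    ∀ x, LM (Wst U i m G y') (fun x => x i) x → SLM (Wst U i m G y') (fun x => x i) x

/-- Exact roadmaps of a closed set `E` with respect to the function `f`. -/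
structure XMap (E : Set (Fin n → ℝ)) (f : (Fin n → ℝ) → ℝ) (A : Finset (Fin n → ℝ)) (N : ℕ)
    (M : Set (Fin n → ℝ)) : Prop where
  sub : M ⊆ E
  closed : IsClosed M
  alg : Alg N M
  pts : ↑A ⊆ M
  rm1 : ∀ x ∈ E, IsConnected (M ∩ connectedComponentIn E x)
  rm2 : ∀ x ∈ E, (M ∩ connectedComponentIn {y | y ∈ E ∧ f y = f x} x).Nonempty

/-- Projection to the coordinates `a < m`. -/
noncomputable def prm (m : Fin n) (x : Fin n → ℝ) : Fin n → ℝ :=
  fun a => if a < m then x a else 0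

/-- The approximating sets converge to `Z` along the hyperfilter. -/
structure ActQ {X : Type*} [MetricSpace X] (Z : Set X) (f : X → ℝ) (B : ℕ)
    (E' : ℕ → Set X) : Prop where
  cpt : ∀ p, IsCompact (E' p)
  lcn : ∀ p, LCn (E' p)
  card : ∀ p, {w | LM (E' p) f w}.encard ≤ (B : ℕ∞)
  toZ : ∀ ε > 0, ∀ᶠ p in (Filter.hyperfilter ℕ : Filter ℕ), ∀ y ∈ E' p, ∃ z ∈ Z, dist y z < ε
  ofZ : ∀ ε > 0, ∀ᶠ p in (Filter.hyperfilter ℕ : Filter ℕ), ∀ z ∈ Z, ∃ y ∈ E' p, dist y z < ε

/-- The sum of the squares of the equations. -/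
noncomputable def Hsq (m : Fin n) (G : MvPolynomial (Fin n) ℝ) : MvPolynomial (Fin n) ℝ :=
  ∑ l, if m ≤ l then (eqn m G l) ^ 2 else 0

/-- The bound for numbers of local minima. -/
def Bd (n D : ℕ) : ℕ := (4 * n * D + 1) ^ n

end Pool.Agent.RM90
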