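import Pool.Agent.Lib.MP_df59e7_lc_X.DefsX
import Pool.Agent.Lib.MP_df59e7_lc_X.LcW
import Pool.Agent.Lib.MP_df59e7_lc_X.FibW

set_option autoImplicit false

/-! MP_df59e7_lc, project RM2, module DenW. -/

namespace Pool.Agent.RM90

open MvPolynomial

/-- One step: a point of the fibre near `x` with rational coordinate `i`. -/
private theorem DenW_step {n : ℕ} (U : Set (Fin n → ℝ)) (i m : Fin n)
    (G : MvPolynomial (Fin n) ℝ) (x : Fin n → ℝ) (hG : GdS U i m G x)
    (hx : x ∈ Wst U i m G x) (ε : ℝ) (hε : 0 < ε) :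
    ∃ z ∈ Wst U i m G x, dist z x < ε ∧ ∃ r : ℚ, z i = (r : ℝ) := by
  have hreg : ∀ w ∈ Wst U i m G x, RegAt i m G w :=
    hG.reg i le_rfl hG.lt x ⟨fun a _ => rfl, fun a h1 h2 => absurd h1 (not_le.2 h2)⟩
  obtain ⟨ρ, hρ, N, hN, hNE, hEN⟩ := lc_W U hG.isOpen i m hG.lt G x hreg x hx ε hε
  have hcl : ∃ x' ∈ Wst U i m G x, dist x' x < ρ ∧ x' i ≠ x i := by
    by_contra hcon
    push Not at hcon
    have hLM : LM (Wst U i m G x) (fun w => w i) x :=
      ⟨hx, ρ, hρ, fun w hw hd => (hcon w hw hd).ge⟩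
    obtain ⟨-, ε', hε', hS⟩ := hG.str i le_rfl hG.lt x
      ⟨fun a _ => rfl, fun a h1 h2 => absurd h1 (not_le.2 h2)⟩ x hLM
    obtain ⟨x', hx', hne, hd⟩ := nonisol U hG.isOpen i m hG.lt G x hreg x hx (min ρ ε')
      (lt_min hρ hε')
    have h1 := hcon x' hx' (lt_of_lt_of_le hd (min_le_left _ _))
    have h2 := hS x' hx' (lt_of_lt_of_le hd (min_le_right _ _)) hne
    have h3 : x i < x' i := h2
    rw [h1] at h3
    exact lt_irrefl _ h3
  obtain ⟨x', hx', hd, hne⟩ := hcl
  have hxN : x ∈ N := hEN ⟨hx, Metric.mem_ball_self hρ⟩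
  have hx'N : x' ∈ N := hEN ⟨hx', hd⟩
  have hcont : ContinuousOn (fun w : Fin n → ℝ => w i) N := (continuous_apply i).continuousOn
  obtain ⟨r, hr⟩ : ∃ r : ℚ, (r : ℝ) ∈ (fun w : Fin n → ℝ => w i) '' N := by
    rcases lt_or_gt_of_ne hne with h | h
    · obtain ⟨r, h1, h2⟩ := exists_rat_btwn h
      exact ⟨r, hN.intermediate_value hx'N hxN hcont ⟨h1.le, h2.le⟩⟩
    · obtain ⟨r, h1, h2⟩ := exists_rat_btwn h
      exact ⟨r, hN.intermediate_value hxN hx'N hcont ⟨h1.le, h2.le⟩⟩
  obtain ⟨z, hzN, hz⟩ := hr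
  exact ⟨z, (hNE hzN).1, (hNE hzN).2, r, hz⟩

/-- The points of a good set with rational coordinates `j ≤ a < i` are dense.
Proof: induction on `i` (start: `i = j`, all points). Step from `i` to `i + 1 < m`: let `x` be in
`Wst U j m G y` with rational coordinates `j ≤ a < i`, `ε > 0`. By `fib_W` the fibre
`Wst U i m G x` is good, so regular and locally connected (`lc_W`, from `GdS.reg` with the trivial
extension). Claim: there is `x'` in the fibre, `dist x' x < ε`, with `x' i ≠ x i`: otherwise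
`x` is a local minimum of `x_i` on the fibre, so a strict one (`GdS.str`), but nearby points
`x' ≠ x` of the fibre (`nonisol`) have `x' i = x i`: contradiction. Use the claim with the radius
`ρ` of a connected piece `N` (`LCn` at `x` with `ε`): `N` is connected, contains `x` and `x'`, so
`x_i` takes on `N` all values between `x i` and `x' i`, in particular a rational one, at a point of
the fibre within `ε` of `x`. Its coordinates `j ≤ a < i + 1` are rational. -/
theorem dens_W {n : ℕ} (U : Set (Fin n → ℝ)) (j m : Fin n) (G : MvPolynomial (Fin n) ℝ)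
    (y : Fin n → ℝ) (hG : GdS U j m G y) (i : Fin n) (hji : j ≤ i) (him : i < m) :
    Wst U j m G y ⊆ closure {x | x ∈ Wst U j m G y ∧
      ∀ a, j ≤ a → a < i → ∃ r : ℚ, x a = (r : ℝ)} := by
  obtain ⟨d, hd⟩ : ∃ d : ℕ, (i : ℕ) = j + d := ⟨(i : ℕ) - j, by
    have := Fin.le_def.1 hji
    omega⟩
  induction d generalizing i with
  | zero =>
    have hij : i = j := Fin.ext (by omega)
    intro x hx
    refine subset_closure ⟨hx, fun a h1 h2 => ?_⟩
    rw [hij] at h2
    exact absurd h1 (not_le.2 h2)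
  | succ d ih =>
    have hi0 : (j : ℕ) + d < n := by
      have := i.isLt
      omega
    obtain ⟨i0, hi0e⟩ : ∃ i0 : Fin n, (i0 : ℕ) = j + d := ⟨⟨j + d, hi0⟩, rfl⟩
    have hji0 : j ≤ i0 := Fin.le_def.2 (by omega)
    have hi0m : i0 < m := Fin.lt_def.2 (by
      have := Fin.lt_def.1 him
      omega)
    intro x0 hx0
    rw [Metric.mem_closure_iff]
    intro ε hε
    obtain ⟨x, ⟨hx, hrat⟩, hdx⟩ := Metric.mem_closure_iff.1 (ih i0 hji0 hi0m hi0e hx0) (ε / 2)
      (half_pos hε)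
    obtain ⟨hGx, hfib⟩ := fib_W U j m G y hG i0 hji0 hi0m x hx hrat
    have hxx : x ∈ Wst U i0 m G x := by
      rw [← hfib]
      exact ⟨hx, rfl⟩
    obtain ⟨z, hz, hdz, r, hr⟩ := DenW_step U i0 m G x hGx hxx (ε / 2) (half_pos hε)
    have hzy : z ∈ Wst U j m G y := by
      have h1 := hz
      rw [← hfib] at h1
      exact h1.1
    refine ⟨z, ⟨hzy, fun a h1 h2 => ?_⟩, ?_⟩
    · rcases lt_or_eq_of_le (show (a : ℕ) ≤ i0 by
        have := Fin.lt_def.1 h2
        omega) with h3 | h3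
      · obtain ⟨q, hq⟩ := hrat a h1 (Fin.lt_def.2 h3)
        exact ⟨q, (hz.2.1 a (Fin.lt_def.2 h3)).trans hq⟩
      · rw [Fin.ext h3]
        exact ⟨r, hr⟩
    · have h1 := dist_triangle x0 x z
      rw [dist_comm x z] at h1
      linarith

end Pool.Agent.RM90
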