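import Pool.Agent.Lib.MP_df59e7_lc_X.DefsX

set_option autoImplicit false

/-! MP_df59e7_lc, project RM2, module FcrD. -/

namespace Pool.Agent.RM90

open MvPolynomial

private theorem FcrD_has {n : ℕ} (j m : Fin n) (G : MvPolynomial (Fin n) ℝ) (y : Fin n → ℝ)
    (z : (Fin n → ℝ) × (Fin n → ℝ)) :
    HasFDerivAt (Fcr j m G y)
      ((ContinuousLinearMap.pi fun a : Fin n => if a < j then
          (ContinuousLinearMap.proj a : (Fin n → ℝ) →L[ℝ] ℝ).comp (ContinuousLinearMap.fst ℝ _ _)
        else ∑ l, if m ≤ l then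
          z.2 l • (Warren46.gradL (pderiv a (eqn m G l)) z.1).comp
            (ContinuousLinearMap.fst ℝ _ _) +
          eval z.1 (pderiv a (eqn m G l)) •
            (ContinuousLinearMap.proj l : (Fin n → ℝ) →L[ℝ] ℝ).comp
              (ContinuousLinearMap.snd ℝ _ _) else 0).prod
      (ContinuousLinearMap.pi fun l : Fin n => if l < m then
          (ContinuousLinearMap.proj l : (Fin n → ℝ) →L[ℝ] ℝ).comp (ContinuousLinearMap.snd ℝ _ _)
        else (Warren46.gradL (eqn m G l) z.1).comp (ContinuousLinearMap.fst ℝ _ _))) z := by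
  have hev : ∀ P : MvPolynomial (Fin n) ℝ, HasFDerivAt
      (fun z : (Fin n → ℝ) × (Fin n → ℝ) => eval z.1 P)
      ((Warren46.gradL P z.1).comp (ContinuousLinearMap.fst ℝ _ _)) z := fun P =>
    (Warren46.hasFDerivAt_eval P z.1).comp z hasFDerivAt_fst
  have h1 : ∀ a, HasFDerivAt (fun z : (Fin n → ℝ) × (Fin n → ℝ) => z.1 a)
      ((ContinuousLinearMap.proj a : (Fin n → ℝ) →L[ℝ] ℝ).comp
        (ContinuousLinearMap.fst ℝ _ _)) z := fun a =>
    ((ContinuousLinearMap.proj a : (Fin n → ℝ) →L[ℝ] ℝ).comp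
      (ContinuousLinearMap.fst ℝ (Fin n → ℝ) (Fin n → ℝ))).hasFDerivAt
  have h2 : ∀ a, HasFDerivAt (fun z : (Fin n → ℝ) × (Fin n → ℝ) => z.2 a)
      ((ContinuousLinearMap.proj a : (Fin n → ℝ) →L[ℝ] ℝ).comp
        (ContinuousLinearMap.snd ℝ _ _)) z := fun a =>
    ((ContinuousLinearMap.proj a : (Fin n → ℝ) →L[ℝ] ℝ).comp
      (ContinuousLinearMap.snd ℝ (Fin n → ℝ) (Fin n → ℝ))).hasFDerivAt
  unfold Fcr
  refine HasFDerivAt.prodMk (hasFDerivAt_pi'.2 fun a => ?_) (hasFDerivAt_pi'.2 fun l => ?_)
  · by_cases ha : a < j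
    · simp only [ha, if_true, ContinuousLinearMap.proj_pi]
      exact (h1 a).sub_const _
    · simp only [ha, if_false, ContinuousLinearMap.proj_pi]
      refine (HasFDerivAt.fun_sum fun l _ => ?_).sub_const _
      by_cases hl : m ≤ l
      · simp only [hl, if_true]
        exact (h2 l).fun_mul (hev _)
      · simp only [hl, if_false]
        exact hasFDerivAt_const _ _
  · by_cases hl : l < m
    · simp only [hl, if_true, ContinuousLinearMap.proj_pi]
      exact h2 l
    · simp only [hl, if_false, ContinuousLinearMap.proj_pi]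
      exact hev _

private theorem FcrD_cd {n : ℕ} (P : MvPolynomial (Fin n) ℝ) : ContDiff ℝ 1
    (fun z : (Fin n → ℝ) × (Fin n → ℝ) => eval z.1 P) := by
  induction P using MvPolynomial.induction_on with
  | C a =>
    simp only [eval_C]
    exact contDiff_const
  | add p q hp hq =>
    simp only [map_add]
    exact hp.add hq
  | mul_X p i hp =>
    simp only [map_mul, eval_X]
    exact hp.mul (((ContinuousLinearMap.proj i : (Fin n → ℝ) →L[ℝ] ℝ).comp
      (ContinuousLinearMap.fst ℝ (Fin n → ℝ) (Fin n → ℝ))).contDiff)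

/-- The derivative of the critical point system, in coordinates (for `v = (δx, δμ)`).
Proof: every component is a polynomial in `(x, μ)`; use `Warren46.hasFDerivAt_eval` and the
product rule. -/
theorem fcr_fderiv {n : ℕ} (j m : Fin n) (G : MvPolynomial (Fin n) ℝ) (y : Fin n → ℝ)
    (z v : (Fin n → ℝ) × (Fin n → ℝ)) :
    DifferentiableAt ℝ (Fcr j m G y) z ∧ fderiv ℝ (Fcr j m G y) z v =
      (fun a => if a < j then v.1 a else
        ∑ l, (if m ≤ l then v.2 l * eval z.1 (pderiv a (eqn m G l)) +
          z.2 l * ∑ b, eval z.1 (pderiv b (pderiv a (eqn m G l))) * v.1 b else 0),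
       fun l => if l < m then v.2 l else ∑ b, eval z.1 (pderiv b (eqn m G l)) * v.1 b) := by
  have h := FcrD_has j m G y z
  refine ⟨h.differentiableAt, ?_⟩
  rw [h.fderiv]
  refine Prod.ext (funext fun a => ?_) (funext fun l => ?_)
  · rw [ContinuousLinearMap.prod_apply]
    simp only [ContinuousLinearMap.pi_apply]
    split_ifs with ha
    · rfl
    · rw [_root_.sum_apply]
      refine Finset.sum_congr rfl fun l _ => ?_
      split_ifs with hl
      · simp only [_root_.add_apply, _root_.smul_apply,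
          ContinuousLinearMap.comp_apply, ContinuousLinearMap.coe_fst',
          ContinuousLinearMap.coe_snd', ContinuousLinearMap.proj_apply, Warren46.gradL_apply,
          smul_eq_mul]
        ring
      · rfl
  · rw [ContinuousLinearMap.prod_apply]
    simp only [ContinuousLinearMap.pi_apply]
    split_ifs with hl
    · rfl
    · simp only [ContinuousLinearMap.comp_apply, ContinuousLinearMap.coe_fst',
        Warren46.gradL_apply]

/-- The system is `C^1`. -/
theorem fcr_contDiff {n : ℕ} (j m : Fin n) (G : MvPolynomial (Fin n) ℝ) (y : Fin n → ℝ) :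
    ContDiff ℝ 1 (Fcr j m G y) := by
  unfold Fcr
  refine ContDiff.prodMk (contDiff_pi.2 fun a => ?_) (contDiff_pi.2 fun l => ?_)
  · have h1 : ContDiff ℝ 1 (fun z : (Fin n → ℝ) × (Fin n → ℝ) => z.1 a) :=
      ((ContinuousLinearMap.proj a : (Fin n → ℝ) →L[ℝ] ℝ).comp
        (ContinuousLinearMap.fst ℝ (Fin n → ℝ) (Fin n → ℝ))).contDiff
    have h2 : ∀ l, ContDiff ℝ 1 (fun z : (Fin n → ℝ) × (Fin n → ℝ) => z.2 l) := fun l =>
      ((ContinuousLinearMap.proj l : (Fin n → ℝ) →L[ℝ] ℝ).comp
        (ContinuousLinearMap.snd ℝ (Fin n → ℝ) (Fin n → ℝ))).contDiff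
    by_cases ha : a < j
    · simp only [ha, if_true]
      exact h1.sub contDiff_const
    · simp only [ha, if_false]
      refine ContDiff.sub ?_ contDiff_const
      refine ContDiff.sum fun l _ => ?_
      by_cases hl : m ≤ l
      · simp only [hl, if_true]
        exact (h2 l).mul (FcrD_cd _)
      · simp only [hl, if_false]
        exact contDiff_const
  · by_cases hl : l < m
    · simp only [hl, if_true]
      exact ((ContinuousLinearMap.proj l : (Fin n → ℝ) →L[ℝ] ℝ).comp
        (ContinuousLinearMap.snd ℝ (Fin n → ℝ) (Fin n → ℝ))).contDiff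
    · simp only [hl, if_false]
      exact FcrD_cd _

end Pool.Agent.RM90
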