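import Pool.Agent.Lib.MP_df59e7_lc_X.DefsX

set_option autoImplicit false

/-! MP_df59e7_lc, project RM2, module PSard. -/

namespace Pool.Agent.RM90

open MvPolynomial

/-- Local parametrisation of the zeros of a submersion. -/
theorem PSard_local {Z Λ W : Type} [NormedAddCommGroup Z] [NormedSpace ℝ Z]
    [FiniteDimensional ℝ Z] [NormedAddCommGroup Λ] [NormedSpace ℝ Λ] [FiniteDimensional ℝ Λ]
    [NormedAddCommGroup W] [NormedSpace ℝ W] [FiniteDimensional ℝ W]
    (hdim : Module.finrank ℝ Z = Module.finrank ℝ W) (F : Z × Λ → W) (hF : ContDiff ℝ 1 F)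
    (p0 : Z × Λ) (hs : Function.Surjective (fderiv ℝ F p0)) :
    ∃ U ∈ nhds p0, ∃ (ψ : Λ → Z × Λ) (ρ : (Z × Λ) →L[ℝ] Λ), ∀ p ∈ U, F p = 0 →
      ψ (ρ p) = p ∧ DifferentiableAt ℝ ψ (ρ p) ∧
        ∀ w, fderiv ℝ F p w = 0 → fderiv ℝ ψ (ρ p) (ρ w) = w := by
  have : CompleteSpace (Z × Λ) := FiniteDimensional.complete ℝ (Z × Λ)
  obtain ⟨A, hA⟩ : ∃ A : (Z × Λ) →L[ℝ] W, A = fderiv ℝ F p0 := ⟨_, rfl⟩
  rw [← hA] at hs
  obtain ⟨K, hK⟩ : ∃ K : Submodule ℝ (Z × Λ), K = LinearMap.ker A.toLinearMap := ⟨_, rfl⟩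
  have hrk := LinearMap.finrank_range_add_finrank_ker A.toLinearMap
  have hrange : LinearMap.range A.toLinearMap = ⊤ := LinearMap.range_eq_top.2 hs
  rw [hrange, finrank_top, ← hK, Module.finrank_prod] at hrk
  have hKd : Module.finrank ℝ Λ = Module.finrank ℝ K := by omega
  obtain ⟨P, hP⟩ := LinearMap.exists_leftInverse_of_injective K.subtype K.ker_subtype
  have hPK : ∀ x ∈ K, ((P x : K) : Z × Λ) = x := by
    intro x hx
    have h1 := LinearMap.congr_fun hP ⟨x, hx⟩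
    have h2 : P x = ⟨x, hx⟩ := h1
    rw [h2]
  obtain ⟨P', hP'⟩ : ∃ P' : (Z × Λ) →L[ℝ] K, ∀ x, P' x = P x :=
    ⟨LinearMap.toContinuousLinearMap P, fun x => rfl⟩
  have hinj : Function.Injective (A.toLinearMap.prod P) := by
    rw [injective_iff_map_eq_zero]
    intro x hx
    have h1 : A x = 0 := congrArg Prod.fst hx
    have h2 : P x = 0 := congrArg Prod.snd hx
    have h3 : x ∈ K := by
      rw [hK]
      exact h1
    rw [← hPK x h3, h2]
    rfl
  obtain ⟨E0, hE0⟩ : ∃ E0 : (Z × Λ) ≃L[ℝ] (W × K), ∀ x, E0 x = (A x, P x) := by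
    refine ⟨(LinearMap.linearEquivOfInjective (A.toLinearMap.prod P) hinj ?_
      ).toContinuousLinearEquiv, fun x => rfl⟩
    rw [Module.finrank_prod, Module.finrank_prod]
    omega
  obtain ⟨T⟩ : Nonempty (Λ ≃L[ℝ] K) := ⟨ContinuousLinearEquiv.ofFinrankEq hKd⟩
  have hFd : ∀ p, HasFDerivAt F (fderiv ℝ F p) p := fun p =>
    ((hF.differentiable one_ne_zero) p).hasFDerivAt
  have hed : ∀ p, HasFDerivAt (fun p => (F p, P' p)) ((fderiv ℝ F p).prod P') p := fun p =>
    (hFd p).prodMk P'.hasFDerivAt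
  have he : ContDiff ℝ 1 (fun p => (F p, P' p)) := hF.prodMk P'.contDiff
  have hed0 : HasFDerivAt (fun p => (F p, P' p)) (E0 : (Z × Λ) →L[ℝ] (W × K)) p0 := by
    have h1 : (E0 : (Z × Λ) →L[ℝ] (W × K)) = (fderiv ℝ F p0).prod P' := by
      refine ContinuousLinearMap.ext fun x => ?_
      show E0 x = (fderiv ℝ F p0 x, P' x)
      rw [hE0, hA, hP']
    rw [h1]
    exact hed p0
  have hst := he.contDiffAt (x := p0) |>.hasStrictFDerivAt' hed0 one_ne_zero
  have hleft := hst.eventually_left_inverse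
  have hinv := he.contDiffAt (x := p0) |>.to_localInverse hed0 one_ne_zero
  have hinv2 := hinv.eventually (by decide)
  obtain ⟨inv, hinvdef⟩ : ∃ inv : W × K → Z × Λ, inv = hst.localInverse _ _ _ := ⟨_, rfl⟩
  have hleft' : ∀ᶠ p in nhds p0, inv (F p, P' p) = p := by
    rw [hinvdef]
    exact hleft
  have hinv' : ∀ᶠ y in nhds ((F p0, P' p0) : W × K), ContDiffAt ℝ 1 inv y := by
    rw [hinvdef]
    exact hinv2
  have hcont : Filter.Tendsto (fun p => ((F p, P' p) : W × K)) (nhds p0)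
      (nhds (F p0, P' p0)) := he.continuous.continuousAt
  refine ⟨_, hleft'.eventually_nhds.and (hcont.eventually hinv'), fun x => inv (0, T x),
    (T.symm : K →L[ℝ] Λ).comp P', ?_⟩
  rintro p ⟨h1, h2⟩ hp
  have hTρ : T (((T.symm : K →L[ℝ] Λ).comp P') p) = P' p := by simp
  have hval : inv (0, P' p) = p := by
    have h3 := h1.self_of_nhds
    rw [hp] at h3
    exact h3
  have hid : HasFDerivAt inv (fderiv ℝ inv (F p, P' p)) (F p, P' p) :=
    (h2.differentiableAt one_ne_zero).hasFDerivAt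
  have hcomp : (fderiv ℝ inv (F p, P' p)).comp ((fderiv ℝ F p).prod P') =
      ContinuousLinearMap.id ℝ (Z × Λ) := by
    have h4 : HasFDerivAt (fun q => inv (F q, P' q))
        ((fderiv ℝ inv (F p, P' p)).comp ((fderiv ℝ F p).prod P')) p := hid.comp p (hed p)
    have h5 : HasFDerivAt (fun q : Z × Λ => inv (F q, P' q))
        (ContinuousLinearMap.id ℝ (Z × Λ)) p := (hasFDerivAt_id p).congr_of_eventuallyEq h1
    exact h4.unique h5
  have hψ : HasFDerivAt (fun x => inv (0, T x)) ((fderiv ℝ inv (F p, P' p)).comp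
      ((ContinuousLinearMap.inr ℝ W K).comp (T : Λ →L[ℝ] K)))
      (((T.symm : K →L[ℝ] Λ).comp P') p) := by
    have h6 : HasFDerivAt (fun x => ((ContinuousLinearMap.inr ℝ W K).comp (T : Λ →L[ℝ] K)) x)
      ((ContinuousLinearMap.inr ℝ W K).comp (T : Λ →L[ℝ] K))
      (((T.symm : K →L[ℝ] Λ).comp P') p) := ContinuousLinearMap.hasFDerivAt _
    have h7 : ((ContinuousLinearMap.inr ℝ W K).comp (T : Λ →L[ℝ] K))
        (((T.symm : K →L[ℝ] Λ).comp P') p) = (F p, P' p) := by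
      rw [hp]
      show ((0 : W), T (((T.symm : K →L[ℝ] Λ).comp P') p)) = (0, P' p)
      rw [hTρ]
    have h8 : HasFDerivAt inv (fderiv ℝ inv (F p, P' p))
        (((ContinuousLinearMap.inr ℝ W K).comp (T : Λ →L[ℝ] K))
        (((T.symm : K →L[ℝ] Λ).comp P') p)) := by
      rw [h7]
      exact hid
    exact h8.comp _ h6
  refine ⟨?_, hψ.differentiableAt, ?_⟩
  · show inv (0, T (((T.symm : K →L[ℝ] Λ).comp P') p)) = p
    rw [hTρ, hval]
  · intro w hw
    rw [hψ.fderiv]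
    have h9 : ((ContinuousLinearMap.inr ℝ W K).comp (T : Λ →L[ℝ] K))
        (((T.symm : K →L[ℝ] Λ).comp P') w) = ((fderiv ℝ F p).prod P') w := by
      show ((0 : W), T (((T.symm : K →L[ℝ] Λ).comp P') w)) = (fderiv ℝ F p w, P' w)
      rw [hw]
      simp
    rw [ContinuousLinearMap.comp_apply, h9, ← ContinuousLinearMap.comp_apply, hcomp]
    rfl

/-- Parametric Sard theorem, square case: if `F(z, λ)` is `C^1` and its full derivative is
surjective at all zeros in the open set `Ω`, then for almost every `λ` all zeros `z` of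
`F(·, λ)` (with `(z, λ) ∈ Ω`) are nondegenerate.
Proof: let `p0 = (z0, λ0) ∈ Ω` be a zero, `F' = fderiv ℝ F p0`, `K = ker F'`, of dimension
`dim Z + dim Λ - dim W = dim Λ`. Choose a projection `Z × Λ → K` (a left inverse of the
inclusion). The map `e(p) = (F p, proj (p - p0))`, `Z × Λ → W × K`, is `C^1` near `p0` with
invertible derivative at `p0`, so (inverse function theorem,
`ContDiffAt.toOpenPartialHomeomorph`, `OpenPartialHomeomorph.contDiffAt_symm`) it has a local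
inverse which is differentiable near `e p0`; `ψ(u) = e⁻¹(0, u)`, `u` in a ball of `K`,
parametrises the zeros of `F` near `p0`. The map `g(u) = snd (ψ u)`, ball of `K` → `Λ`, is a
differentiable map between spaces of the same dimension (identify `K` with `Λ` by a linear
equivalence `ContinuousLinearEquiv.ofFinrankEq`). The set of its critical values is a null set
(`MeasureTheory.addHaar_image_eq_zero_of_det_fderivWithin_eq_zero`). Let `λ` be outside of it and
`(z, λ) = ψ u`. If `F'(z, λ)(v, 0) = 0` then `(v, 0)` is in the kernel of `fderiv F (ψ u)`, which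
is the image of `fderiv ψ u` (dimension count, `F ∘ ψ = 0` and `ψ` is an immersion), so
`(v, 0) = ψ'(u) k`, `g'(u) k = 0`, `k = 0`, `v = 0`. Countably many of the neighbourhoods cover the
set of zeros in `Ω` (`TopologicalSpace.countable_cover_nhds` in a second countable space). -/
theorem param_sard {Z Λ W : Type} [NormedAddCommGroup Z] [NormedSpace ℝ Z]
    [FiniteDimensional ℝ Z] [NormedAddCommGroup Λ] [NormedSpace ℝ Λ] [FiniteDimensional ℝ Λ]
    [MeasurableSpace Λ] [BorelSpace Λ] [NormedAddCommGroup W] [NormedSpace ℝ W]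
    [FiniteDimensional ℝ W] (μ : MeasureTheory.Measure Λ) [μ.IsAddHaarMeasure]
    (hdim : Module.finrank ℝ Z = Module.finrank ℝ W) (F : Z × Λ → W) (Ω : Set (Z × Λ))
    (hΩ : IsOpen Ω) (hF : ContDiff ℝ 1 F)
    (hs : ∀ p ∈ Ω, F p = 0 → Function.Surjective (fderiv ℝ F p)) :
    ∀ᵐ l ∂μ, ∀ z : Z, (z, l) ∈ Ω → F (z, l) = 0 → ∀ v : Z, fderiv ℝ F (z, l) (v, 0) = 0 →
      v = 0 := by
  have : ProperSpace Z := FiniteDimensional.proper_real Z
  have : ProperSpace Λ := FiniteDimensional.proper_real Λ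
  have hloc : ∀ p ∈ {p : Z × Λ | p ∈ Ω ∧ F p = 0}, ∃ U ∈ nhds p,
      μ {l | ∃ z : Z, (z, l) ∈ U ∧ F (z, l) = 0 ∧
        ∃ v : Z, fderiv ℝ F (z, l) (v, 0) = 0 ∧ v ≠ 0} = 0 := by
    rintro p0 ⟨hp0, hFp0⟩
    obtain ⟨U, hU, ψ, ρ, hψ⟩ := PSard_local hdim F hF p0 (hs p0 hp0 hFp0)
    refine ⟨U, hU, ?_⟩
    have hnull := MeasureTheory.addHaar_image_eq_zero_of_det_fderivWithin_eq_zero μ
      (s := {x | DifferentiableAt ℝ ψ x ∧ (fderiv ℝ (fun x => (ψ x).2) x).det = 0})
      (f := fun x => (ψ x).2) (f' := fun x => fderiv ℝ (fun x => (ψ x).2) x)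
      (fun x hx => (hx.1.snd.hasFDerivAt).hasFDerivWithinAt) (fun x hx => hx.2)
    refine MeasureTheory.measure_mono_null ?_ hnull
    rintro l ⟨z, hzU, hFz, v, hv, hv0⟩
    obtain ⟨h1, h2, h3⟩ := hψ (z, l) hzU hFz
    refine ⟨ρ (z, l), ⟨h2, ?_⟩, ?_⟩
    · have h4 := h3 (v, 0) hv
      have h5 : fderiv ℝ (fun x => (ψ x).2) (ρ (z, l)) (ρ (v, 0)) = 0 := by
        have h6 : HasFDerivAt (fun x => (ψ x).2)
            ((ContinuousLinearMap.snd ℝ Z Λ).comp (fderiv ℝ ψ (ρ (z, l)))) (ρ (z, l)) :=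
          h2.hasFDerivAt.snd
        rw [h6.fderiv, ContinuousLinearMap.comp_apply, h4]
        rfl
      have h7 : ρ (v, 0) ≠ 0 := by
        intro h8
        rw [h8, map_zero] at h4
        exact hv0 (congrArg Prod.fst h4).symm
      show LinearMap.det (fderiv ℝ (fun x => (ψ x).2) (ρ (z, l)) : Λ →ₗ[ℝ] Λ) = 0
      rw [LinearMap.det_eq_zero_iff_ker_ne_bot, Submodule.ne_bot_iff]
      exact ⟨ρ (v, 0), h5, h7⟩
    · show (ψ (ρ (z, l))).2 = l
      rw [h1]
  choose! U hU hμ using hloc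
  obtain ⟨t, hts, htc, hcov⟩ := TopologicalSpace.countable_cover_nhdsWithin
    (s := {p : Z × Λ | p ∈ Ω ∧ F p = 0}) (f := U) fun p hp =>
      mem_nhdsWithin_of_mem_nhds (hU p hp)
  rw [MeasureTheory.ae_iff]
  refine MeasureTheory.measure_mono_null ?_
    ((MeasureTheory.measure_biUnion_null_iff htc).2 fun p hp => hμ p (hts hp))
  intro l hl
  rw [Set.mem_ofPred_eq] at hl
  push Not at hl
  obtain ⟨z, hz, hFz, v, hv, hv0⟩ := hl
  obtain ⟨p, hp, hpU⟩ := Set.mem_iUnion₂.1 (hcov (show (z, l) ∈ _ from ⟨hz, hFz⟩))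
  exact Set.mem_iUnion₂.2 ⟨p, hp, z, hpU, hFz, v, hv, hv0⟩

end Pool.Agent.RM90
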