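import Pool.Agent.Lib.MP_df59e7_lc_X.DefsX
import Pool.Agent.Lib.MP_df59e7_lc_X.PSard

set_option autoImplicit false

/-! MP_df59e7_lc, project RM2, module PSard0. -/

namespace Pool.Agent.RM90

open MvPolynomial

/-- Parametric Sard theorem, overdetermined case: in the situation of `param_sard`, one more
equation `g(z, λ) = t` with a free parameter `t` has no solution for almost all `(t, λ)`.
Proof: as in `param_sard`, the zeros of `F` near a zero `p0 ∈ Ω` are parametrised by a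
differentiable map `ψ` on a ball of `K = ker F'(p0)`, `dim K = dim Λ`. The image of
`u ↦ (g (ψ u), snd (ψ u))`, `K → ℝ × Λ`, is a null set: it is contained in the image of
`(u, τ) ↦ (g (ψ u), snd (ψ u))`, `K × ℝ → ℝ × Λ`, which has determinant zero everywhere
(`MeasureTheory.addHaar_image_eq_zero_of_det_fderivWithin_eq_zero` after identifying `K × ℝ` with
`ℝ × Λ` by a linear equivalence). Countably many neighbourhoods suffice. -/
theorem param_sard0 {Z Λ W : Type} [NormedAddCommGroup Z] [NormedSpace ℝ Z]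
    [FiniteDimensional ℝ Z] [NormedAddCommGroup Λ] [NormedSpace ℝ Λ] [FiniteDimensional ℝ Λ]
    [MeasurableSpace Λ] [BorelSpace Λ] [NormedAddCommGroup W] [NormedSpace ℝ W]
    [FiniteDimensional ℝ W] (μ : MeasureTheory.Measure Λ) [μ.IsAddHaarMeasure]
    (hdim : Module.finrank ℝ Z = Module.finrank ℝ W) (F : Z × Λ → W) (Ω : Set (Z × Λ))
    (hΩ : IsOpen Ω) (hF : ContDiff ℝ 1 F)
    (hs : ∀ p ∈ Ω, F p = 0 → Function.Surjective (fderiv ℝ F p)) (g : Z × Λ → ℝ)
    (hg : ContDiff ℝ 1 g) :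
    ∀ᵐ q ∂((MeasureTheory.volume : MeasureTheory.Measure ℝ).prod μ), ∀ z : Z,
      (z, q.2) ∈ Ω → F (z, q.2) = 0 → g (z, q.2) ≠ q.1 := by
  have : ProperSpace Z := FiniteDimensional.proper_real Z
  have : ProperSpace Λ := FiniteDimensional.proper_real Λ
  have hloc : ∀ p ∈ {p : Z × Λ | p ∈ Ω ∧ F p = 0}, ∃ U ∈ nhds p,
      ((MeasureTheory.volume : MeasureTheory.Measure ℝ).prod μ)
        {q | ∃ z : Z, (z, q.2) ∈ U ∧ F (z, q.2) = 0 ∧ g (z, q.2) = q.1} = 0 := by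
    rintro p0 ⟨hp0, hFp0⟩
    obtain ⟨U, hU, ψ, ρ, hψ⟩ := PSard_local hdim F hF p0 (hs p0 hp0 hFp0)
    refine ⟨U, hU, ?_⟩
    have hder : ∀ q : ℝ × Λ, DifferentiableAt ℝ ψ q.2 →
        HasFDerivAt (fun q : ℝ × Λ => (g (ψ q.2), (ψ q.2).2))
          ((((fderiv ℝ g (ψ q.2)).comp (fderiv ℝ ψ q.2)).prod
            ((ContinuousLinearMap.snd ℝ Z Λ).comp (fderiv ℝ ψ q.2))).comp
            (ContinuousLinearMap.snd ℝ ℝ Λ)) q := by
      intro q hq
      have h1 : HasFDerivAt (fun x : Λ => (g (ψ x), (ψ x).2))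
          (((fderiv ℝ g (ψ q.2)).comp (fderiv ℝ ψ q.2)).prod
            ((ContinuousLinearMap.snd ℝ Z Λ).comp (fderiv ℝ ψ q.2))) q.2 :=
        ((hg.differentiable one_ne_zero (ψ q.2)).hasFDerivAt.comp q.2 hq.hasFDerivAt).prodMk
          hq.hasFDerivAt.snd
      exact h1.comp q hasFDerivAt_snd
    have hnull := MeasureTheory.addHaar_image_eq_zero_of_det_fderivWithin_eq_zero
      ((MeasureTheory.volume : MeasureTheory.Measure ℝ).prod μ)
      (s := {q : ℝ × Λ | DifferentiableAt ℝ ψ q.2})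
      (f := fun q : ℝ × Λ => (g (ψ q.2), (ψ q.2).2))
      (f' := fun q => (((fderiv ℝ g (ψ q.2)).comp (fderiv ℝ ψ q.2)).prod
            ((ContinuousLinearMap.snd ℝ Z Λ).comp (fderiv ℝ ψ q.2))).comp
            (ContinuousLinearMap.snd ℝ ℝ Λ))
      (fun q hq => (hder q hq).hasFDerivWithinAt) (fun q _ => by
        show LinearMap.det (((((fderiv ℝ g (ψ q.2)).comp (fderiv ℝ ψ q.2)).prod
            ((ContinuousLinearMap.snd ℝ Z Λ).comp (fderiv ℝ ψ q.2))).comp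
            (ContinuousLinearMap.snd ℝ ℝ Λ) : (ℝ × Λ) →L[ℝ] (ℝ × Λ)) :
            (ℝ × Λ) →ₗ[ℝ] (ℝ × Λ)) = 0
        rw [LinearMap.det_eq_zero_iff_ker_ne_bot, Submodule.ne_bot_iff]
        refine ⟨(1, 0), ?_, ?_⟩
        · show ((((fderiv ℝ g (ψ q.2)).comp (fderiv ℝ ψ q.2)).prod
            ((ContinuousLinearMap.snd ℝ Z Λ).comp (fderiv ℝ ψ q.2))) (0 : Λ)) = 0
          exact map_zero _
        · intro h0
          exact one_ne_zero (congrArg Prod.fst h0))
    refine MeasureTheory.measure_mono_null ?_ hnull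
    rintro q ⟨z, hzU, hFz, hgz⟩
    obtain ⟨h1, h2, -⟩ := hψ (z, q.2) hzU hFz
    refine ⟨(0, ρ (z, q.2)), h2, ?_⟩
    show (g (ψ (ρ (z, q.2))), (ψ (ρ (z, q.2))).2) = q
    rw [h1, hgz]
  choose! U hU hμ using hloc
  obtain ⟨t, hts, htc, hcov⟩ := TopologicalSpace.countable_cover_nhdsWithin
    (s := {p : Z × Λ | p ∈ Ω ∧ F p = 0}) (f := U) fun p hp =>
      mem_nhdsWithin_of_mem_nhds (hU p hp)
  rw [MeasureTheory.ae_iff]
  refine MeasureTheory.measure_mono_null ?_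
    ((MeasureTheory.measure_biUnion_null_iff htc).2 fun p hp => hμ p (hts hp))
  intro q hq
  rw [Set.mem_ofPred_eq] at hq
  push Not at hq
  obtain ⟨z, hz, hFz, hgz⟩ := hq
  obtain ⟨p, hp, hpU⟩ := Set.mem_iUnion₂.1 (hcov (show (z, q.2) ∈ _ from ⟨hz, hFz⟩))
  exact Set.mem_iUnion₂.2 ⟨p, hp, z, hpU, hFz, hgz⟩

end Pool.Agent.RM90
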