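import Pool.Agent.Lib.MP_df59e7_lc_X.DefsX

set_option autoImplicit false

/-! MP_df59e7_lc, project RM2, module QuadA. -/

namespace Pool.Agent.RM90

open MvPolynomial

private theorem QuadA_dX {n : ℕ} (a i : Fin n) :
    pderiv a (X i : MvPolynomial (Fin n) ℝ) = if i = a then 1 else 0 := by
  rw [pderiv_X, Pi.single_apply]

private theorem QuadA_pd {n : ℕ} (c : Par n) (a : Fin n) :
    pderiv a (quad c) = C (c.2.1 a) + ∑ l, C ((c.2.2 a l + c.2.2 l a) / 2) * X l := by
  unfold quad
  have h1 : pderiv a (∑ i, C (c.2.1 i) * X i : MvPolynomial (Fin n) ℝ) = C (c.2.1 a) := by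
    rw [map_sum, Finset.sum_eq_single a]
    · rw [pderiv_C_mul, QuadA_dX, if_pos rfl, mul_one]
    · intro i _ hi
      rw [pderiv_C_mul, QuadA_dX, if_neg hi, mul_zero]
    · intro h
      exact absurd (Finset.mem_univ a) h
  have h2 : pderiv a (∑ i, ∑ l, C (c.2.2 i l / 2) * (X i * X l) : MvPolynomial (Fin n) ℝ) =
      ∑ l, C ((c.2.2 a l + c.2.2 l a) / 2) * X l := by
    have h3 : ∀ i l, pderiv a (C (c.2.2 i l / 2) * (X i * X l) : MvPolynomial (Fin n) ℝ) =
        (if i = a then C (c.2.2 i l / 2) * X l else 0) +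
          if l = a then C (c.2.2 i l / 2) * X i else 0 := by
      intro i l
      rw [pderiv_C_mul, pderiv_mul, QuadA_dX, QuadA_dX]
      split_ifs <;> ring
    rw [map_sum]
    simp only [map_sum, h3, Finset.sum_add_distrib]
    have h4 : ∑ i, ∑ l, (if i = a then C (c.2.2 i l / 2) * X l else 0 :
        MvPolynomial (Fin n) ℝ) = ∑ l, C (c.2.2 a l / 2) * X l := by
      rw [Finset.sum_eq_single a]
      · simp
      · intro i _ hi
        simp [hi]
      · intro h
        exact absurd (Finset.mem_univ a) h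
    have h5 : ∑ i, ∑ l, (if l = a then C (c.2.2 i l / 2) * X i else 0 :
        MvPolynomial (Fin n) ℝ) = ∑ l, C (c.2.2 l a / 2) * X l := by
      refine Finset.sum_congr rfl fun i _ => ?_
      rw [Finset.sum_ite_eq' Finset.univ a]
      simp
    rw [h4, h5, ← Finset.sum_add_distrib]
    refine Finset.sum_congr rfl fun l _ => ?_
    rw [← add_mul, ← C_add, add_div]
  rw [map_add, map_add, pderiv_C, zero_add, h1, h2]

theorem eval_quad {n : ℕ} (c : Par n) (x : Fin n → ℝ) :
    eval x (quad c) = c.1 + ∑ i, c.2.1 i * x i + ∑ i, ∑ l, c.2.2 i l / 2 * (x i * x l) := by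
  simp [quad]

theorem eval_pderiv_quad {n : ℕ} (c : Par n) (x : Fin n → ℝ) (a : Fin n) :
    eval x (pderiv a (quad c)) = c.2.1 a + ∑ l, (c.2.2 a l + c.2.2 l a) / 2 * x l := by
  rw [QuadA_pd]
  simp

theorem eval_pderiv2_quad {n : ℕ} (c : Par n) (x : Fin n → ℝ) (a b : Fin n) :
    eval x (pderiv a (pderiv b (quad c))) = (c.2.2 a b + c.2.2 b a) / 2 := by
  have h1 : pderiv a (pderiv b (quad c)) = C ((c.2.2 a b + c.2.2 b a) / 2) := by
    rw [QuadA_pd, map_add, pderiv_C, zero_add, map_sum, Finset.sum_eq_single a]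
    · rw [pderiv_C_mul, QuadA_dX, if_pos rfl, mul_one, add_comm (c.2.2 b a)]
    · intro i _ hi
      rw [pderiv_C_mul, QuadA_dX, if_neg hi, mul_zero]
    · intro h
      exact absurd (Finset.mem_univ a) h
  rw [h1, eval_C]

theorem deg_quad {n : ℕ} (c : Par n) : (quad c).totalDegree ≤ 2 := by
  unfold quad
  have hX : ∀ i : Fin n, (X i : MvPolynomial (Fin n) ℝ).totalDegree ≤ 1 := fun i =>
    (totalDegree_X (R := ℝ) i).le
  have h1 : (∑ i, C (c.2.1 i) * X i : MvPolynomial (Fin n) ℝ).totalDegree ≤ 2 := by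
    refine totalDegree_finsetSum_le fun i _ => ?_
    refine (totalDegree_mul _ _).trans ?_
    rw [totalDegree_C]
    have := hX i
    omega
  have h2 : (∑ i, ∑ l, C (c.2.2 i l / 2) * (X i * X l) :
      MvPolynomial (Fin n) ℝ).totalDegree ≤ 2 := by
    refine totalDegree_finsetSum_le fun i _ => ?_
    refine totalDegree_finsetSum_le fun l _ => ?_
    refine (totalDegree_mul _ _).trans ?_
    rw [totalDegree_C]
    have h3 := totalDegree_mul (X i : MvPolynomial (Fin n) ℝ) (X l)
    have h4 := hX i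
    have h5 := hX l
    omega
  refine (totalDegree_add _ _).trans (max_le ((totalDegree_add _ _).trans (max_le ?_ h1)) h2)
  rw [totalDegree_C]
  omega

/-- The constant term is free: the same with constant term `0` and without condition on the
value. -/
private theorem QuadA_exists0 {n : ℕ} (x ν : Fin n → ℝ) (hν : ν ≠ 0) (p r : Fin n → ℝ) :
    ∃ c : (Fin n → ℝ) × (Fin n → Fin n → ℝ), ∀ t : ℝ,
      (∀ a, eval x (pderiv a (quad ((t, c) : Par n))) = p a) ∧
      ∀ a, ∑ l, eval x (pderiv a (pderiv l (quad ((t, c) : Par n)))) * ν l = r a := by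
  set N : ℝ := ∑ l, ν l ^ 2 with hN
  set S : ℝ := ∑ l, r l * ν l with hS
  have hNp : 0 < N := by
    obtain ⟨i, hi⟩ := Function.ne_iff.1 hν
    rw [hN]
    refine Finset.sum_pos' (fun i _ => sq_nonneg _) ⟨i, Finset.mem_univ i, ?_⟩
    have h1 : ν i ≠ 0 := hi
    positivity
  set M : Fin n → Fin n → ℝ := fun i l => (r i * ν l + ν i * r l) / N - S * (ν i * ν l) / N ^ 2
    with hM
  have hsym : ∀ i l, M i l = M l i := by
    intro i l
    simp only [hM]
    ring
  have hMM : ∀ i l, (M i l + M l i) / 2 = M i l := by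
    intro i l
    rw [hsym l i]
    ring
  refine ⟨(fun i => p i - ∑ l, M i l * x l, M), fun t => ⟨fun a => ?_, fun a => ?_⟩⟩
  · rw [eval_pderiv_quad]
    simp only [hMM]
    ring
  · simp only [eval_pderiv2_quad, hMM]
    have h1 : ∀ l, M a l * ν l = r a / N * ν l ^ 2 + ν a / N * (r l * ν l) -
        S * ν a / N ^ 2 * ν l ^ 2 := by
      intro l
      simp only [hM]
      ring
    simp only [h1, Finset.sum_add_distrib, Finset.sum_sub_distrib, ← Finset.mul_sum]
    rw [← hN, ← hS]
    field_simp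
    ring

/-- Quadratic polynomials with prescribed value `t`, gradient `p` and Hessian image `r` of the
nonzero vector `ν` at the point `x`. Proof: with `N = ∑ ν_l^2 > 0` take the symmetric matrix
`C_{il} = (r_i ν_l + ν_i r_l)/N - (∑ ν_a r_a) ν_i ν_l / N^2`, which satisfies `C ν = r`, then the
linear terms and the constant term. -/
theorem exists_quad {n : ℕ} (x ν : Fin n → ℝ) (hν : ν ≠ 0) (t : ℝ) (p r : Fin n → ℝ) :
    ∃ c : Par n, eval x (quad c) = t ∧ (∀ a, eval x (pderiv a (quad c)) = p a) ∧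
      ∀ a, ∑ l, eval x (pderiv a (pderiv l (quad c))) * ν l = r a := by
  obtain ⟨c, hc⟩ := QuadA_exists0 x ν hν p r
  refine ⟨(t - eval x (quad ((0, c) : Par n)), c), ?_, hc _⟩
  rw [eval_quad, eval_quad]
  ring

/-- The constant term is free: the same with constant term `0` and without condition on the
value. -/
theorem exists_quad0 {n : ℕ} (x ν : Fin n → ℝ) (hν : ν ≠ 0) (p r : Fin n → ℝ) :
    ∃ c : (Fin n → ℝ) × (Fin n → Fin n → ℝ),
      (∀ a, eval x (pderiv a (quad ((0, c) : Par n))) = p a) ∧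
      ∀ a, ∑ l, eval x (pderiv a (pderiv l (quad ((0, c) : Par n)))) * ν l = r a := by
  obtain ⟨c, hc⟩ := QuadA_exists0 x ν hν p r
  exact ⟨c, hc 0⟩

/-- `quad` is additive in the coefficients. -/
theorem quad_add {n : ℕ} (c c' : Par n) : quad (c + c') = quad c + quad c' := by
  unfold quad
  have h1 : ∀ i, (C ((c + c').2.1 i) * X i : MvPolynomial (Fin n) ℝ) =
      C (c.2.1 i) * X i + C (c'.2.1 i) * X i := by
    intro i
    rw [← add_mul, ← C_add]
    rfl
  have h2 : ∀ i l, (C ((c + c').2.2 i l / 2) * (X i * X l) : MvPolynomial (Fin n) ℝ) =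
      C (c.2.2 i l / 2) * (X i * X l) + C (c'.2.2 i l / 2) * (X i * X l) := by
    intro i l
    rw [← add_mul, ← C_add, ← add_div]
    rfl
  have h3 : (C ((c + c').1) : MvPolynomial (Fin n) ℝ) = C c.1 + C c'.1 := by
    rw [← C_add]
    rfl
  simp only [h1, h2, h3, Finset.sum_add_distrib]
  ring

theorem quad_smul {n : ℕ} (t : ℝ) (c : Par n) : quad (t • c) = C t * quad c := by
  unfold quad
  have h1 : ∀ i, (C ((t • c).2.1 i) * X i : MvPolynomial (Fin n) ℝ) =
      C t * (C (c.2.1 i) * X i) := by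
    intro i
    rw [← mul_assoc, ← C_mul]
    rfl
  have h2 : ∀ i l, (C ((t • c).2.2 i l / 2) * (X i * X l) : MvPolynomial (Fin n) ℝ) =
      C t * (C (c.2.2 i l / 2) * (X i * X l)) := by
    intro i l
    rw [← mul_assoc (C t), ← C_mul, ← mul_div_assoc]
    rfl
  have h3 : (C ((t • c).1) : MvPolynomial (Fin n) ℝ) = C t * C c.1 := by
    rw [← C_mul]
    rfl
  simp only [h1, h2, h3, mul_add, Finset.mul_sum]

/-- Splitting off the constant term. -/
theorem quad_split {n : ℕ} (t : ℝ) (c : (Fin n → ℝ) × (Fin n → Fin n → ℝ)) :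
    quad ((t, c) : Par n) = C t + quad ((0, c) : Par n) := by
  unfold quad
  rw [C_0]
  ring

end Pool.Agent.RM90
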