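import Pool.Agent.Lib.MP_df59e7_lc_X.DefsX
import Pool.Agent.Lib.MP_df59e7_lc_X.QuadA
import Pool.Agent.Lib.MP_df59e7_lc_X.PSard0

set_option autoImplicit false

/-! MP_df59e7_lc, project RM2, module GA1. -/

namespace Pool.Agent.RM90

open MvPolynomial

private theorem GA1_smooth {n : ℕ} (p : MvPolynomial (Fin n) ℝ) :
    ContDiff ℝ 1 (fun x : Fin n → ℝ => eval x p) := by
  induction p using MvPolynomial.induction_on with
  | C a => simpa using contDiff_const
  | add p q hp hq => simpa using hp.add hq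
  | mul_X p i hp =>
    have h1 : ContDiff ℝ 1 (fun x : Fin n → ℝ => x i) := contDiff_apply ℝ ℝ i
    simpa using hp.mul h1

/-- the parameters of the linear and quadratic terms -/
private abbrev GA1_L (n : ℕ) : Type := (Fin n → ℝ) × (Fin n → Fin n → ℝ)

/-- the unknowns -/
private abbrev GA1_Z (n : ℕ) : Type := (Fin n → ℝ) × (Fin n → ℝ)

/-- the derivative of the quadratic part -/
private noncomputable def GA1_B {n : ℕ} (x : Fin n → ℝ) (l : GA1_L n) (a : Fin n) : ℝ :=
  l.1 a + ∑ b, (l.2 a b + l.2 b a) / 2 * x b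

/-- the Hessian of the quadratic part -/
private noncomputable def GA1_S {n : ℕ} (l : GA1_L n) (a b : Fin n) : ℝ :=
  (l.2 a b + l.2 b a) / 2

private theorem GA1_B_eq {n : ℕ} (x : Fin n → ℝ) (l : GA1_L n) (a : Fin n) :
    eval x (pderiv a (quad ((0, l) : Par n))) = GA1_B x l a := by
  rw [eval_pderiv_quad]
  rfl

private theorem GA1_S_eq {n : ℕ} (x : Fin n → ℝ) (l : GA1_L n) (a b : Fin n) :
    eval x (pderiv a (pderiv b (quad ((0, l) : Par n)))) = GA1_S l a b := by
  rw [eval_pderiv2_quad]
  rfl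

private theorem GA1_B_add {n : ℕ} (x : Fin n → ℝ) (l l' : GA1_L n) (t : ℝ) (a : Fin n) :
    GA1_B x (l + t • l') a = GA1_B x l a + t * GA1_B x l' a := by
  unfold GA1_B
  simp only [Prod.fst_add, Prod.snd_add, Prod.smul_fst, Prod.smul_snd, Pi.add_apply,
    Pi.smul_apply, smul_eq_mul]
  rw [mul_add, Finset.mul_sum]
  have h1 : ∀ b, (l.2 a b + t * l'.2 a b + (l.2 b a + t * l'.2 b a)) / 2 * x b =
      (l.2 a b + l.2 b a) / 2 * x b + t * ((l'.2 a b + l'.2 b a) / 2 * x b) := fun b => by ring
  simp only [h1]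
  rw [Finset.sum_add_distrib]
  ring

private theorem GA1_S_add {n : ℕ} (l l' : GA1_L n) (t : ℝ) (a b : Fin n) :
    GA1_S (l + t • l') a b = GA1_S l a b + t * GA1_S l' a b := by
  unfold GA1_S
  simp only [Prod.snd_add, Prod.smul_snd, Pi.add_apply, Pi.smul_apply, smul_eq_mul]
  ring

/-- the coefficients of the multipliers -/
private noncomputable def GA1_K {n : ℕ} (H : MvPolynomial (Fin n) ℝ) (m : Fin n)
    (x : Fin n → ℝ) (l : GA1_L n) (a b : Fin n) : ℝ :=
  if b = m then eval x (pderiv a H) - GA1_B x l a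
    else eval x (pderiv a (pderiv b H)) - GA1_S l a b

/-- the variation of the coefficients of the multipliers -/
private noncomputable def GA1_M {n : ℕ} (m : Fin n)
    (x : Fin n → ℝ) (l : GA1_L n) (a b : Fin n) : ℝ :=
  if b = m then GA1_B x l a else GA1_S l a b

private theorem GA1_K_add {n : ℕ} (H : MvPolynomial (Fin n) ℝ) (m : Fin n)
    (x : Fin n → ℝ) (l l' : GA1_L n) (t : ℝ) (a b : Fin n) :
    GA1_K H m x (l + t • l') a b = GA1_K H m x l a b - t * GA1_M m x l' a b := by
  unfold GA1_K GA1_M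
  split_ifs
  · rw [GA1_B_add]
    ring
  · rw [GA1_S_add]
    ring

/-- the system -/
private noncomputable def GA1_F {n : ℕ} (H : MvPolynomial (Fin n) ℝ) (j m : Fin n)
    (y : Fin n → ℝ) (p : GA1_Z n × GA1_L n) : GA1_Z n :=
  (fun a => if a < j then p.1.1 a - y a else
      ∑ l, (if m ≤ l then p.1.2 l * GA1_K H m p.1.1 p.2 a l else 0),
   fun l => if l < m then p.1.2 l else
      if l = m then (∑ b, if m < b then (p.1.2 b) ^ 2 else 0) - 1
      else eval p.1.1 (pderiv l H) - GA1_B p.1.1 p.2 l)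

private theorem GA1_F_smooth {n : ℕ} (H : MvPolynomial (Fin n) ℝ) (j m : Fin n)
    (y : Fin n → ℝ) : ContDiff ℝ 1 (GA1_F H j m y) := by
  have h0 : ContDiff ℝ 1 (fun p : GA1_Z n × GA1_L n => p.1.1) := contDiff_fst.comp contDiff_fst
  have h1 : ∀ a, ContDiff ℝ 1 (fun p : GA1_Z n × GA1_L n => p.1.1 a) := fun a =>
    (contDiff_apply ℝ ℝ a).comp h0
  have h1' : ∀ a, ContDiff ℝ 1 (fun p : GA1_Z n × GA1_L n => p.1.2 a) := fun a =>
    (contDiff_apply ℝ ℝ a).comp (contDiff_snd.comp contDiff_fst)
  have h2 : ∀ a, ContDiff ℝ 1 (fun p : GA1_Z n × GA1_L n => p.2.1 a) := fun a =>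
    (contDiff_apply ℝ ℝ a).comp (contDiff_fst.comp contDiff_snd)
  have h3 : ∀ a b, ContDiff ℝ 1 (fun p : GA1_Z n × GA1_L n => p.2.2 a b) := fun a b =>
    (contDiff_apply_apply ℝ ℝ a b).comp (contDiff_snd.comp contDiff_snd)
  have hB : ∀ a, ContDiff ℝ 1 (fun p : GA1_Z n × GA1_L n => GA1_B p.1.1 p.2 a) := by
    intro a
    unfold GA1_B
    refine (h2 a).add (ContDiff.sum fun b _ => ?_)
    exact (((h3 a b).add (h3 b a)).div_const 2).mul (h1 b)
  have hS : ∀ a b, ContDiff ℝ 1 (fun p : GA1_Z n × GA1_L n => GA1_S p.2 a b) := by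
    intro a b
    unfold GA1_S
    exact ((h3 a b).add (h3 b a)).div_const 2
  have hK : ∀ a b, ContDiff ℝ 1 (fun p : GA1_Z n × GA1_L n => GA1_K H m p.1.1 p.2 a b) := by
    intro a b
    unfold GA1_K
    split_ifs
    · exact ((GA1_smooth (pderiv a H)).comp h0).sub (hB a)
    · exact ((GA1_smooth (pderiv a (pderiv b H))).comp h0).sub (hS a b)
  unfold GA1_F
  refine ContDiff.prodMk ?_ ?_
  · rw [contDiff_pi]
    intro a
    split_ifs
    · exact (h1 a).sub contDiff_const
    · refine ContDiff.sum fun l _ => ?_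
      split_ifs
      · exact (h1' l).mul (hK a l)
      · exact contDiff_const
  · rw [contDiff_pi]
    intro l
    split_ifs
    · exact h1' l
    · refine ContDiff.sub (ContDiff.sum fun b _ => ?_) contDiff_const
      split_ifs
      · exact (h1' b).pow 2
      · exact contDiff_const
    · exact ((GA1_smooth (pderiv l H)).comp h0).sub (hB l)

private theorem GA1_surj {n : ℕ} (H : MvPolynomial (Fin n) ℝ) (j m : Fin n)
    (y : Fin n → ℝ) (p : GA1_Z n × GA1_L n) (hp : GA1_F H j m y p = 0) :
    Function.Surjective (fderiv ℝ (GA1_F H j m y) p) := by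
  have hd : DifferentiableAt ℝ (GA1_F H j m y) p :=
    ((GA1_F_smooth H j m y).differentiable one_ne_zero) p
  have hF := hd.hasFDerivAt
  have hline : ∀ w : GA1_Z n × GA1_L n,
      HasDerivAt (fun t : ℝ => GA1_F H j m y (p + t • w)) (fderiv ℝ (GA1_F H j m y) p w) 0 := by
    intro w
    have h1 : HasDerivAt (fun t : ℝ => p + t • w) w 0 := by
      have h5 := ((hasDerivAt_id (0 : ℝ)).smul_const w).const_add p
      simpa using h5
    have h2 : HasFDerivAt (GA1_F H j m y) (fderiv ℝ (GA1_F H j m y) p)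
        (p + (0 : ℝ) • w) := by
      rw [zero_smul, add_zero]
      exact hF
    exact h2.comp_hasDerivAt (0 : ℝ) h1
  have hlin1 : ∀ (w : GA1_Z n × GA1_L n) (a : Fin n),
      HasDerivAt (fun t : ℝ => (GA1_F H j m y (p + t • w)).1 a)
        ((fderiv ℝ (GA1_F H j m y) p w).1 a) 0 := fun w a =>
    (hasDerivAt_pi.1 ((hasFDerivAt_fst (𝕜 := ℝ) (E := Fin n → ℝ) (F := Fin n → ℝ)
      (p := GA1_F H j m y (p + (0 : ℝ) • w))).comp_hasDerivAt (0 : ℝ) (hline w))) a
  have hlin2 : ∀ (w : GA1_Z n × GA1_L n) (a : Fin n),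
      HasDerivAt (fun t : ℝ => (GA1_F H j m y (p + t • w)).2 a)
        ((fderiv ℝ (GA1_F H j m y) p w).2 a) 0 := fun w a =>
    (hasDerivAt_pi.1 ((hasFDerivAt_snd (𝕜 := ℝ) (E := Fin n → ℝ) (F := Fin n → ℝ)
      (p := GA1_F H j m y (p + (0 : ℝ) • w))).comp_hasDerivAt (0 : ℝ) (hline w))) a
  -- affine functions of `t`
  have haff : ∀ u v : ℝ, HasDerivAt (fun t : ℝ => u + t * v) v 0 := by
    intro u v
    have h := ((hasDerivAt_id (0 : ℝ)).mul_const v).const_add u
    simpa using h
  -- the components `a < j`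
  have e1 : ∀ (w : GA1_Z n × GA1_L n) (a : Fin n), a < j →
      (fderiv ℝ (GA1_F H j m y) p w).1 a = w.1.1 a := by
    intro w a ha
    refine (hlin1 w a).unique ?_
    have h := haff (p.1.1 a - y a) (w.1.1 a)
    refine h.congr_of_eventuallyEq (Filter.Eventually.of_forall fun t => ?_)
    show (if a < j then (p + t • w).1.1 a - y a else _) = _
    rw [if_pos ha]
    simp only [Prod.fst_add, Prod.smul_fst, Pi.add_apply, Pi.smul_apply, smul_eq_mul]
    ring
  -- the components `l < m`
  have e2 : ∀ (w : GA1_Z n × GA1_L n) (l : Fin n), l < m →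
      (fderiv ℝ (GA1_F H j m y) p w).2 l = w.1.2 l := by
    intro w l hl
    refine (hlin2 w l).unique ?_
    have h := haff (p.1.2 l) (w.1.2 l)
    refine h.congr_of_eventuallyEq (Filter.Eventually.of_forall fun t => ?_)
    show (if l < m then (p + t • w).1.2 l else _) = _
    rw [if_pos hl]
    simp only [Prod.fst_add, Prod.snd_add, Prod.smul_fst, Prod.smul_snd, Pi.add_apply,
      Pi.smul_apply, smul_eq_mul]
  -- the component `m`
  have e3 : ∀ (w : GA1_Z n × GA1_L n),
      (fderiv ℝ (GA1_F H j m y) p w).2 m =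
        ∑ b, if m < b then 2 * p.1.2 b * w.1.2 b else 0 := by
    intro w
    refine (hlin2 w m).unique ?_
    have h : HasDerivAt (fun t : ℝ =>
        (∑ b, if m < b then (p.1.2 b + t * w.1.2 b) ^ 2 else 0) - 1)
        (∑ b, if m < b then 2 * p.1.2 b * w.1.2 b else 0) 0 := by
      refine (HasDerivAt.fun_sum fun b _ => ?_).sub_const 1
      split_ifs
      · have h5 := (haff (p.1.2 b) (w.1.2 b)).fun_pow 2
        simpa using h5
      · exact hasDerivAt_const _ _
    refine h.congr_of_eventuallyEq (Filter.Eventually.of_forall fun t => ?_)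
    show (if m < m then _ else if m = m then
      (∑ b, if m < b then ((p + t • w).1.2 b) ^ 2 else 0) - 1 else _) = _
    rw [if_neg (lt_irrefl m), if_pos rfl]
    simp only [Prod.fst_add, Prod.snd_add, Prod.smul_fst, Prod.smul_snd, Pi.add_apply,
      Pi.smul_apply, smul_eq_mul]
  -- the directions of the parameters
  have hz : ∀ (l : GA1_L n) (t : ℝ),
      (p + t • ((0, l) : GA1_Z n × GA1_L n)).1 = p.1 ∧
      (p + t • ((0, l) : GA1_Z n × GA1_L n)).2 = p.2 + t • l := by
    intro l t
    constructor <;> simp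
  have e4 : ∀ (l : GA1_L n) (a : Fin n), j ≤ a →
      (fderiv ℝ (GA1_F H j m y) p (0, l)).1 a =
        - ∑ b, (if m ≤ b then p.1.2 b * GA1_M m p.1.1 l a b else 0) := by
    intro l a ha
    refine (hlin1 (0, l) a).unique ?_
    have h := haff (∑ b, (if m ≤ b then p.1.2 b * GA1_K H m p.1.1 p.2 a b else 0))
      (- ∑ b, (if m ≤ b then p.1.2 b * GA1_M m p.1.1 l a b else 0))
    refine h.congr_of_eventuallyEq (Filter.Eventually.of_forall fun t => ?_)
    show (if a < j then _ else ∑ b, (if m ≤ b then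
      (p + t • ((0, l) : GA1_Z n × GA1_L n)).1.2 b *
        GA1_K H m (p + t • ((0, l) : GA1_Z n × GA1_L n)).1.1
          (p + t • ((0, l) : GA1_Z n × GA1_L n)).2 a b else 0)) = _
    rw [if_neg (not_lt.2 ha), (hz l t).1, (hz l t).2]
    beta_reduce
    rw [mul_neg, Finset.mul_sum, ← sub_eq_add_neg, ← Finset.sum_sub_distrib]
    refine Finset.sum_congr rfl fun b _ => ?_
    split_ifs
    · rw [GA1_K_add]
      ring
    · ring
  have e5 : ∀ (l : GA1_L n) (a : Fin n), m < a →
      (fderiv ℝ (GA1_F H j m y) p (0, l)).2 a = - GA1_B p.1.1 l a := by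
    intro l a ha
    refine (hlin2 (0, l) a).unique ?_
    have h := haff (eval p.1.1 (pderiv a H) - GA1_B p.1.1 p.2 a) (- GA1_B p.1.1 l a)
    refine h.congr_of_eventuallyEq (Filter.Eventually.of_forall fun t => ?_)
    show (if a < m then _ else if a = m then _ else
      eval (p + t • ((0, l) : GA1_Z n × GA1_L n)).1.1 (pderiv a H) -
        GA1_B (p + t • ((0, l) : GA1_Z n × GA1_L n)).1.1
          (p + t • ((0, l) : GA1_Z n × GA1_L n)).2 a) = _
    rw [if_neg (not_lt.2 ha.le), if_neg ha.ne', (hz l t).1, (hz l t).2, GA1_B_add]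
    ring
  -- the multipliers are nonzero
  have hsum : (∑ b, if m < b then (p.1.2 b) ^ 2 else 0) = 1 := by
    have h := congrFun (congrArg Prod.snd hp) m
    have h2 : (if m < m then p.1.2 m else if m = m then
      (∑ b, if m < b then (p.1.2 b) ^ 2 else 0) - 1 else
      eval p.1.1 (pderiv m H) - GA1_B p.1.1 p.2 m) = 0 := h
    rw [if_neg (lt_irrefl m), if_pos rfl] at h2
    linarith
  set ν : Fin n → ℝ := fun b => if m < b then p.1.2 b else 0 with hνdef
  have hν : ν ≠ 0 := by
    intro h
    have h2 : ∀ b, (if m < b then (p.1.2 b) ^ 2 else 0) = 0 := by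
      intro b
      have h3 := congrFun h b
      simp only [hνdef, Pi.zero_apply] at h3
      split_ifs at h3 ⊢ with hb
      · rw [h3]
        ring
      · rfl
    simp only [h2, Finset.sum_const_zero] at hsum
    exact zero_ne_one hsum
  intro w
  -- the variation of the unknowns
  set δ : GA1_Z n := (w.1, fun l => if l < m then w.2 l else
    if l = m then 0 else w.2 m * p.1.2 l / 2) with hδ
  set v : GA1_Z n := fderiv ℝ (GA1_F H j m y) p (δ, 0) with hv
  have hv1 : ∀ a, a < j → v.1 a = w.1 a := fun a ha => e1 _ a ha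
  have hv2 : ∀ l, l < m → v.2 l = w.2 l := by
    intro l hl
    rw [hv, e2 _ l hl]
    simp only [hδ, if_pos hl]
  have hv3 : v.2 m = w.2 m := by
    rw [hv, e3]
    have h : ∀ b, (if m < b then 2 * p.1.2 b * δ.2 b else 0) =
        w.2 m * (if m < b then (p.1.2 b) ^ 2 else 0) := by
      intro b
      split_ifs with hb
      · simp only [hδ, if_neg (not_lt.2 hb.le), if_neg hb.ne']
        ring
      · ring
    simp only [h]
    rw [← Finset.mul_sum, hsum, mul_one]
  obtain ⟨l, hl1, hl2⟩ := exists_quad0 p.1.1 ν hν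
    (fun a => v.2 a - w.2 a)
    (fun a => (v.1 a - w.1 a) - p.1.2 m * (v.2 a - w.2 a))
  refine ⟨(δ, l), ?_⟩
  have e6 : ((δ, l) : GA1_Z n × GA1_L n) = (δ, 0) + (0, l) := by simp
  have hB : ∀ a, GA1_B p.1.1 l a = v.2 a - w.2 a := fun a => by rw [← GA1_B_eq, hl1 a]
  refine Prod.ext (funext fun a => ?_) (funext fun a => ?_)
  · by_cases ha : a < j
    · rw [e1 _ a ha]
    · rw [e6, map_add, Prod.fst_add, Pi.add_apply, e4 l a (not_lt.1 ha), ← hv]
      have h : ∀ b, (if m ≤ b then p.1.2 b * GA1_M m p.1.1 l a b else 0) =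
          (if b = m then p.1.2 m * GA1_B p.1.1 l a else 0) + GA1_S l a b * ν b := by
        intro b
        simp only [hνdef]
        unfold GA1_M
        rcases lt_trichotomy m b with hb | hb | hb
        · rw [if_pos hb.le, if_neg hb.ne', if_neg hb.ne', if_pos hb]
          ring
        · subst hb
          rw [if_pos le_rfl, if_pos rfl, if_pos rfl, if_neg (lt_irrefl m)]
          ring
        · rw [if_neg (not_le.2 hb), if_neg hb.ne, if_neg (not_lt.2 hb.le)]
          ring
      simp only [h]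
      have h2 : ∑ b, GA1_S l a b * ν b = (v.1 a - w.1 a) - p.1.2 m * (v.2 a - w.2 a) := by
        rw [← hl2 a]
        refine Finset.sum_congr rfl fun b _ => ?_
        rw [GA1_S_eq]
      rw [Finset.sum_add_distrib, Finset.sum_ite_eq', if_pos (Finset.mem_univ m), h2, hB a]
      ring
  · rcases lt_trichotomy m a with ha | ha | ha
    · rw [e6, map_add, Prod.snd_add, Pi.add_apply, e5 l a ha, ← hv, hB a]
      ring
    · subst ha
      rw [e3]
      rw [hv, e3] at hv3
      exact hv3
    · rw [e2 _ a ha]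
      simp only [hδ, if_pos ha]

/-- No degenerate multipliers with a nonzero component `l > m`, almost surely.
Proof: it suffices to exclude `μ` with `∑_{l>m} μ_l^2 = 1` and `μ_l = 0` for `l < m` (scale). Use
`param_sard0` with `Z = (Fin n → ℝ) × (Fin n → ℝ)`, `z = (x, μ)`, `λ = (b, C)`,
`G0 = H - quad (0, λ)` (so that `G = H - quad (t, λ) = G0 - C t`, `quad_split`),
`W = (Fin n → ℝ) × (Fin n → ℝ)`,
`F(z, λ) = (fun a => if a < j then x a - y a else ∑_{l ≥ m} μ_l ∂_a(eqn m G0 l)(x),`
`fun l => if l < m then μ l else if l = m then (∑_{l'>m} μ_{l'}^2) - 1 else ∂_l G0 (x))`,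
`Ω = univ`, `g(z, λ) = eval x G0`, `t = c.1`. (`F` does not involve the constant term, and `F` is a
polynomial in all variables.) Surjectivity of the derivative at a zero: given a target
`(α, β)`, choose `δx a = α a` for `a < j` (else `0`), `δμ l = β l` for `l < m`, `δμ l =
β m * μ l / 2` for `l > m`, and then by `exists_quad0` (with the nonzero vector `ν_l = μ_l` for
`l > m`, `0` otherwise) a `δλ` which corrects the components `∂_l G0`, `l > m`, and the
components `a ≥ j` of the first part to the desired values (the derivative in direction `δλ`: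
`∂_l G0` changes by `-∂_l quad(0,δλ)(x)` and `∑ μ_l ∂_a (eqn l)` by
`-(μ_m ∂_a quad(0,δλ)(x) + (Hess quad(0,δλ) ν)_a)`). -/
theorem ga1 {n : ℕ} (H : MvPolynomial (Fin n) ℝ) (j m : Fin n) (hjm : j < m)
    (y : Fin n → ℝ) :
    ∀ᵐ c : Par n, ∀ x : Fin n → ℝ, (∀ a, a < j → x a = y a) →
      (∀ l, m ≤ l → eval x (eqn m (H - quad c) l) = 0) → ∀ μ : Fin n → ℝ,
      (∀ a, j ≤ a →
        ∑ l, (if m ≤ l then μ l * eval x (pderiv a (eqn m (H - quad c) l)) else 0) = 0) →
      ∀ l, m < l → μ l = 0 := by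
  have hg : ContDiff ℝ 1 (fun p : GA1_Z n × GA1_L n =>
      eval p.1.1 (H - quad ((0, p.2) : Par n))) := by
    have h0 : ContDiff ℝ 1 (fun p : GA1_Z n × GA1_L n => p.1.1) :=
      contDiff_fst.comp contDiff_fst
    have h1 : ∀ a, ContDiff ℝ 1 (fun p : GA1_Z n × GA1_L n => p.1.1 a) := fun a =>
      (contDiff_apply ℝ ℝ a).comp h0
    have h2 : ∀ a, ContDiff ℝ 1 (fun p : GA1_Z n × GA1_L n => p.2.1 a) := fun a =>
      (contDiff_apply ℝ ℝ a).comp (contDiff_fst.comp contDiff_snd)
    have h3 : ∀ a b, ContDiff ℝ 1 (fun p : GA1_Z n × GA1_L n => p.2.2 a b) := fun a b =>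
      (contDiff_apply_apply ℝ ℝ a b).comp (contDiff_snd.comp contDiff_snd)
    simp only [map_sub, eval_quad]
    refine ((GA1_smooth H).comp h0).sub ?_
    refine (contDiff_const.add (ContDiff.sum fun a _ => (h2 a).mul (h1 a))).add
      (ContDiff.sum fun a _ => ContDiff.sum fun b _ => ?_)
    exact ((h3 a b).div_const 2).mul ((h1 a).mul (h1 b))
  have h1 : (MeasureTheory.volume : MeasureTheory.Measure (Fin n → ℝ)).IsAddHaarMeasure :=
    inferInstance
  have h2 : (MeasureTheory.volume :
      MeasureTheory.Measure (Fin n → Fin n → ℝ)).IsAddHaarMeasure := inferInstance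
  have h3 : (MeasureTheory.volume : MeasureTheory.Measure (GA1_L n)).IsAddHaarMeasure := by
    change ((MeasureTheory.volume : MeasureTheory.Measure (Fin n → ℝ)).prod
      (MeasureTheory.volume : MeasureTheory.Measure (Fin n → Fin n → ℝ))).IsAddHaarMeasure
    infer_instance
  have key := param_sard0 (Z := GA1_Z n) (W := GA1_Z n) (Λ := GA1_L n)
    (MeasureTheory.volume : MeasureTheory.Measure (GA1_L n)) rfl (GA1_F H j m y) Set.univ
    isOpen_univ (GA1_F_smooth H j m y) (fun p _ hp => GA1_surj H j m y p hp) _ hg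
  change ∀ᵐ c : Par n ∂((MeasureTheory.volume : MeasureTheory.Measure ℝ).prod
    (MeasureTheory.volume : MeasureTheory.Measure (GA1_L n))), _
  filter_upwards [key] with c hc x hx h0 μ hμ
  by_contra hcon
  push Not at hcon
  obtain ⟨l0, hl0, hμ0⟩ := hcon
  have hq : quad c = C c.1 + quad ((0, c.2) : Par n) := quad_split c.1 c.2
  have hp : ∀ a, eval x (pderiv a (H - quad c)) = eval x (pderiv a H) - GA1_B x c.2 a := by
    intro a
    rw [hq, map_sub, map_add, pderiv_C, zero_add, map_sub, GA1_B_eq]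
  have hp2 : ∀ a b, eval x (pderiv a (pderiv b (H - quad c))) =
      eval x (pderiv a (pderiv b H)) - GA1_S c.2 a b := by
    intro a b
    rw [hq, map_sub, map_add, pderiv_C, zero_add, map_sub, map_sub, GA1_S_eq]
  have hK : ∀ a b, eval x (pderiv a (eqn m (H - quad c) b)) = GA1_K H m x c.2 a b := by
    intro a b
    unfold eqn GA1_K
    split_ifs
    · exact hp a
    · exact hp2 a b
  -- the norm of the multipliers
  set s : ℝ := ∑ b, (if m < b then (μ b) ^ 2 else 0) with hs
  have hs0 : 0 < s := by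
    have h4 : 0 < (μ l0) ^ 2 := by positivity
    have h5 := Finset.single_le_sum (f := fun b => if m < b then (μ b) ^ 2 else 0)
      (s := Finset.univ) (fun b _ => by
        show 0 ≤ if m < b then (μ b) ^ 2 else 0
        split_ifs
        · positivity
        · exact le_rfl) (Finset.mem_univ l0)
    have h6 : (if m < l0 then (μ l0) ^ 2 else 0) ≤ s := h5
    rw [if_pos hl0] at h6
    linarith
  set r : ℝ := (Real.sqrt s)⁻¹ with hr
  have hr2 : r ^ 2 * s = 1 := by
    rw [hr, inv_pow, Real.sq_sqrt hs0.le]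
    exact inv_mul_cancel₀ hs0.ne'
  refine hc (x, fun l => if l < m then 0 else r * μ l) (Set.mem_univ _) ?_ ?_
  · refine Prod.ext (funext fun a => ?_) (funext fun a => ?_)
    · show (if a < j then x a - y a else
        ∑ l, (if m ≤ l then (if l < m then 0 else r * μ l) * GA1_K H m x c.2 a l else 0)) = 0
      split_ifs with ha
      · rw [hx a ha, sub_self]
      · have h4 := hμ a (not_lt.1 ha)
        have h5 : ∀ l, (if m ≤ l then (if l < m then 0 else r * μ l) *
            GA1_K H m x c.2 a l else 0) =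
            r * (if m ≤ l then μ l * eval x (pderiv a (eqn m (H - quad c) l)) else 0) := by
          intro l
          by_cases hl : m ≤ l
          · rw [if_pos hl, if_pos hl, if_neg (not_lt.2 hl), hK]
            ring
          · rw [if_neg hl, if_neg hl, mul_zero]
        simp only [h5]
        rw [← Finset.mul_sum, h4, mul_zero]
    · show (if a < m then (if a < m then 0 else r * μ a) else
        if a = m then (∑ b, if m < b then (if b < m then 0 else r * μ b) ^ 2 else 0) - 1
        else eval x (pderiv a H) - GA1_B x c.2 a) = 0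
      by_cases ha : a < m
      · rw [if_pos ha, if_pos ha]
      · rw [if_neg ha]
        by_cases ha2 : a = m
        · rw [if_pos ha2]
          have h5 : ∀ b, (if m < b then (if b < m then 0 else r * μ b) ^ 2 else 0) =
              r ^ 2 * (if m < b then (μ b) ^ 2 else 0) := by
            intro b
            by_cases hb : m < b
            · rw [if_pos hb, if_pos hb, if_neg (not_lt.2 hb.le)]
              ring
            · rw [if_neg hb, if_neg hb, mul_zero]
          simp only [h5]
          rw [← Finset.mul_sum, ← hs, hr2, sub_self]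
        · rw [if_neg ha2, ← hp a]
          have h6 := h0 a (not_lt.1 ha)
          unfold eqn at h6
          rw [if_neg ha2] at h6
          exact h6
  · show eval x (H - quad ((0, c.2) : Par n)) = c.1
    have h6 := h0 m le_rfl
    unfold eqn at h6
    rw [if_pos rfl, hq, map_sub, map_add, eval_C] at h6
    rw [map_sub]
    linarith

end Pool.Agent.RM90
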