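import Pool.Agent.Lib.MP_df59e7_lc_X.DefsX
import Pool.Agent.Lib.MP_df59e7_lc_X.QuadA
import Pool.Agent.Lib.MP_df59e7_lc_X.PSard0

set_option autoImplicit false

/-! MP_df59e7_lc, project RM2, module GA2. -/

namespace Pool.Agent.RM90

open MvPolynomial

private theorem GA2_smooth {n : ℕ} (p : MvPolynomial (Fin n) ℝ) :
    ContDiff ℝ 1 (fun x : Fin n → ℝ => eval x p) := by
  induction p using MvPolynomial.induction_on with
  | C a => simpa using contDiff_const
  | add p q hp hq => simpa using hp.add hq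
  | mul_X p i hp =>
    have h1 : ContDiff ℝ 1 (fun x : Fin n → ℝ => x i) := contDiff_apply ℝ ℝ i
    simpa using hp.mul h1

/-- the parameters of the linear and quadratic terms -/
private abbrev GA2_L (n : ℕ) : Type := (Fin n → ℝ) × (Fin n → Fin n → ℝ)

/-- the derivative of the quadratic part -/
private noncomputable def GA2_B {n : ℕ} (x : Fin n → ℝ) (l : GA2_L n) (a : Fin n) : ℝ :=
  l.1 a + ∑ b, (l.2 a b + l.2 b a) / 2 * x b

private theorem GA2_B_eq {n : ℕ} (x : Fin n → ℝ) (l : GA2_L n) (a : Fin n) :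
    eval x (pderiv a (quad ((0, l) : Par n))) = GA2_B x l a := by
  rw [eval_pderiv_quad]
  rfl

private theorem GA2_B_add {n : ℕ} (x : Fin n → ℝ) (l l' : GA2_L n) (t : ℝ) (a : Fin n) :
    GA2_B x (l + t • l') a = GA2_B x l a + t * GA2_B x l' a := by
  unfold GA2_B
  simp only [Prod.fst_add, Prod.snd_add, Prod.smul_fst, Prod.smul_snd, Pi.add_apply,
    Pi.smul_apply, smul_eq_mul]
  rw [mul_add, Finset.mul_sum]
  have h1 : ∀ b, (l.2 a b + t * l'.2 a b + (l.2 b a + t * l'.2 b a)) / 2 * x b =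
      (l.2 a b + l.2 b a) / 2 * x b + t * ((l'.2 a b + l'.2 b a) / 2 * x b) := fun b => by ring
  simp only [h1]
  rw [Finset.sum_add_distrib]
  ring

/-- the system -/
private noncomputable def GA2_F {n : ℕ} (H : MvPolynomial (Fin n) ℝ) (j : Fin n)
    (y : Fin n → ℝ) (p : (Fin n → ℝ) × GA2_L n) : Fin n → ℝ :=
  fun a => if a < j then p.1 a - y a else eval p.1 (pderiv a H) - GA2_B p.1 p.2 a

private theorem GA2_F_smooth {n : ℕ} (H : MvPolynomial (Fin n) ℝ) (j : Fin n)
    (y : Fin n → ℝ) : ContDiff ℝ 1 (GA2_F H j y) := by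
  have h1 : ∀ a, ContDiff ℝ 1 (fun p : (Fin n → ℝ) × GA2_L n => p.1 a) := fun a =>
    (contDiff_apply ℝ ℝ a).comp contDiff_fst
  have h2 : ∀ a, ContDiff ℝ 1 (fun p : (Fin n → ℝ) × GA2_L n => p.2.1 a) := fun a =>
    (contDiff_apply ℝ ℝ a).comp (contDiff_fst.comp contDiff_snd)
  have h3 : ∀ a b, ContDiff ℝ 1 (fun p : (Fin n → ℝ) × GA2_L n => p.2.2 a b) := fun a b =>
    (contDiff_apply_apply ℝ ℝ a b).comp (contDiff_snd.comp contDiff_snd)
  rw [contDiff_pi]
  intro a
  unfold GA2_F
  split_ifs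
  · exact (h1 a).sub contDiff_const
  · refine ((GA2_smooth (pderiv a H)).comp contDiff_fst).sub ?_
    unfold GA2_B
    refine (h2 a).add (ContDiff.sum fun b _ => ?_)
    exact (((h3 a b).add (h3 b a)).div_const 2).mul (h1 b)

private theorem GA2_surj {n : ℕ} (H : MvPolynomial (Fin n) ℝ) (j : Fin n)
    (y : Fin n → ℝ) (p : (Fin n → ℝ) × GA2_L n) :
    Function.Surjective (fderiv ℝ (GA2_F H j y) p) := by
  have hd : DifferentiableAt ℝ (GA2_F H j y) p :=
    ((GA2_F_smooth H j y).differentiable one_ne_zero) p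
  have hF := hd.hasFDerivAt
  -- the components `a < j`
  have e1 : ∀ (w : (Fin n → ℝ) × GA2_L n) (a : Fin n), a < j →
      fderiv ℝ (GA2_F H j y) p w a = w.1 a := by
    intro w a ha
    have h1 := (hasFDerivAt_pi'.1 hF) a
    have h2 : HasFDerivAt (fun p : (Fin n → ℝ) × GA2_L n => GA2_F H j y p a)
        ((ContinuousLinearMap.proj a : (Fin n → ℝ) →L[ℝ] ℝ).comp
          (ContinuousLinearMap.fst ℝ (Fin n → ℝ) (GA2_L n))) p := by
      have h3 : (fun p : (Fin n → ℝ) × GA2_L n => GA2_F H j y p a) =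
          fun p => p.1 a - y a := by
        funext p
        unfold GA2_F
        rw [if_pos ha]
      rw [h3]
      exact ((ContinuousLinearMap.proj a : (Fin n → ℝ) →L[ℝ] ℝ).comp
          (ContinuousLinearMap.fst ℝ (Fin n → ℝ) (GA2_L n))).hasFDerivAt.sub_const _
    have h4 := congrArg (fun L : ((Fin n → ℝ) × GA2_L n) →L[ℝ] ℝ => L w) (h1.unique h2)
    exact h4
  -- the directions of the parameters
  have e2 : ∀ (l : GA2_L n) (a : Fin n), j ≤ a →
      fderiv ℝ (GA2_F H j y) p (0, l) a = - GA2_B p.1 l a := by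
    intro l a ha
    have h1 : HasDerivAt (fun t : ℝ => p + t • ((0, l) : (Fin n → ℝ) × GA2_L n))
        ((0, l) : (Fin n → ℝ) × GA2_L n) 0 := by
      have h5 := ((hasDerivAt_id (0 : ℝ)).smul_const
        ((0, l) : (Fin n → ℝ) × GA2_L n)).const_add p
      simpa using h5
    have h2 : HasFDerivAt (GA2_F H j y) (fderiv ℝ (GA2_F H j y) p)
        (p + (0 : ℝ) • ((0, l) : (Fin n → ℝ) × GA2_L n)) := by
      rw [zero_smul, add_zero]
      exact hF
    have h3 := (hasDerivAt_pi.1 (h2.comp_hasDerivAt (0 : ℝ) h1)) a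
    have h4 : HasDerivAt (fun t : ℝ => GA2_F H j y
        (p + t • ((0, l) : (Fin n → ℝ) × GA2_L n)) a) (- GA2_B p.1 l a) 0 := by
      have h6 : (fun t : ℝ => GA2_F H j y
          (p + t • ((0, l) : (Fin n → ℝ) × GA2_L n)) a) =
          fun t => (eval p.1 (pderiv a H) - GA2_B p.1 p.2 a) - t * GA2_B p.1 l a := by
        funext t
        unfold GA2_F
        rw [if_neg (not_lt.2 ha)]
        have h7 : (p + t • ((0, l) : (Fin n → ℝ) × GA2_L n)).1 = p.1 := by
          simp
        have h8 : (p + t • ((0, l) : (Fin n → ℝ) × GA2_L n)).2 = p.2 + t • l := by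
          simp
        rw [h7, h8, GA2_B_add]
        ring
      rw [h6]
      have h9 := ((hasDerivAt_id (0 : ℝ)).mul_const (GA2_B p.1 l a)).const_sub
        (eval p.1 (pderiv a H) - GA2_B p.1 p.2 a)
      simpa using h9
    exact h3.unique h4
  intro w
  have hne : (fun _ : Fin n => (1 : ℝ)) ≠ 0 := by
    intro h
    have := congrFun h j
    simp at this
  obtain ⟨l, hl, -⟩ := exists_quad0 p.1 (fun _ => (1 : ℝ)) hne
    (fun a => fderiv ℝ (GA2_F H j y) p (w, 0) a - w a) 0
  refine ⟨(w, l), ?_⟩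
  have e3 : ((w, l) : (Fin n → ℝ) × GA2_L n) = (w, 0) + (0, l) := by simp
  funext a
  by_cases ha : a < j
  · rw [e1 _ a ha]
  · rw [e3, map_add, Pi.add_apply, e2 l a (not_lt.1 ha), ← GA2_B_eq, hl a]
    ring

/-- Almost surely the hypersurface is smooth inside the slice.
Proof: `param_sard0` with `Z = W = Fin n → ℝ`, `z = x`, `λ = (b, C)`, `G0 = H - quad (0, λ)`,
`F(x, λ) a = if a < j then x a - y a else ∂_a G0 (x)`, `Ω = univ`, `g = eval x G0`, `t = c.1`
(`quad_split`). Surjectivity of the derivative: choose `δx a = α a` for `a < j` and correct the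
components `a ≥ j` by `exists_quad0` (any nonzero `ν`; `n ≥ 1` as `j : Fin n`). -/
theorem ga2 {n : ℕ} (H : MvPolynomial (Fin n) ℝ) (j : Fin n) (y : Fin n → ℝ) :
    ∀ᵐ c : Par n, ∀ x : Fin n → ℝ, (∀ a, a < j → x a = y a) →
      eval x (H - quad c) = 0 → ∃ a, j ≤ a ∧ eval x (pderiv a (H - quad c)) ≠ 0 := by
  have hg : ContDiff ℝ 1 (fun p : (Fin n → ℝ) × GA2_L n =>
      eval p.1 (H - quad ((0, p.2) : Par n))) := by
    have h1 : ∀ a, ContDiff ℝ 1 (fun p : (Fin n → ℝ) × GA2_L n => p.1 a) := fun a =>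
      (contDiff_apply ℝ ℝ a).comp contDiff_fst
    have h2 : ∀ a, ContDiff ℝ 1 (fun p : (Fin n → ℝ) × GA2_L n => p.2.1 a) := fun a =>
      (contDiff_apply ℝ ℝ a).comp (contDiff_fst.comp contDiff_snd)
    have h3 : ∀ a b, ContDiff ℝ 1 (fun p : (Fin n → ℝ) × GA2_L n => p.2.2 a b) := fun a b =>
      (contDiff_apply_apply ℝ ℝ a b).comp (contDiff_snd.comp contDiff_snd)
    simp only [map_sub, eval_quad]
    refine ((GA2_smooth H).comp contDiff_fst).sub ?_
    refine (contDiff_const.add (ContDiff.sum fun a _ => (h2 a).mul (h1 a))).add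
      (ContDiff.sum fun a _ => ContDiff.sum fun b _ => ?_)
    exact ((h3 a b).div_const 2).mul ((h1 a).mul (h1 b))
  have h1 : (MeasureTheory.volume : MeasureTheory.Measure (Fin n → ℝ)).IsAddHaarMeasure :=
    inferInstance
  have h2 : (MeasureTheory.volume :
      MeasureTheory.Measure (Fin n → Fin n → ℝ)).IsAddHaarMeasure := inferInstance
  have h3 : (MeasureTheory.volume : MeasureTheory.Measure (GA2_L n)).IsAddHaarMeasure := by
    change ((MeasureTheory.volume : MeasureTheory.Measure (Fin n → ℝ)).prod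
      (MeasureTheory.volume : MeasureTheory.Measure (Fin n → Fin n → ℝ))).IsAddHaarMeasure
    infer_instance
  have key := param_sard0 (Z := Fin n → ℝ) (W := Fin n → ℝ) (Λ := GA2_L n)
    (MeasureTheory.volume : MeasureTheory.Measure (GA2_L n)) rfl (GA2_F H j y) Set.univ
    isOpen_univ (GA2_F_smooth H j y) (fun p _ _ => GA2_surj H j y p) _ hg
  change ∀ᵐ c : Par n ∂((MeasureTheory.volume : MeasureTheory.Measure ℝ).prod
    (MeasureTheory.volume : MeasureTheory.Measure (GA2_L n))), _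
  filter_upwards [key] with c hc x hx h0
  by_contra hcon
  push Not at hcon
  have hq : quad c = C c.1 + quad ((0, c.2) : Par n) := quad_split c.1 c.2
  have hp : ∀ a, eval x (pderiv a (H - quad c)) = eval x (pderiv a H) - GA2_B x c.2 a := by
    intro a
    rw [hq, map_sub, map_add, pderiv_C, zero_add, map_sub, GA2_B_eq]
  refine hc x (Set.mem_univ _) ?_ ?_
  · funext a
    show (if a < j then x a - y a else eval x (pderiv a H) - GA2_B x c.2 a) = 0
    split_ifs with ha
    · rw [hx a ha, sub_self]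
    · rw [← hp a]
      exact hcon a (not_lt.1 ha)
  · show eval x (H - quad ((0, c.2) : Par n)) = c.1
    rw [hq, map_sub, map_add, eval_C] at h0
    rw [map_sub]
    linarith

end Pool.Agent.RM90
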