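import Pool.Agent.Lib.MP_df59e7_lc_X.DefsX
import Pool.Agent.Lib.MP_df59e7_lc_X.GA1
import Pool.Agent.Lib.MP_df59e7_lc_X.GA2

set_option autoImplicit false

/-! MP_df59e7_lc, project RM2, module GA. -/

namespace Pool.Agent.RM90

open MvPolynomial

/-- Almost surely the polar set is regular inside the slice.
Proof: let `μ` satisfy the condition of `RegAt`. By `ga1` `μ_l = 0` for `l > m`, so
`μ_m ∂_a G(x) = 0` for all `a ≥ j` (only `l = m` remains in the sum), so `μ_m = 0` by `ga2`
(`eqn m G m = G`). -/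
theorem ga {n : ℕ} (H : MvPolynomial (Fin n) ℝ) (j m : Fin n) (hjm : j < m)
    (y : Fin n → ℝ) :
    ∀ᵐ c : Par n, ∀ x ∈ Wst Set.univ j m (H - quad c) y, RegAt j m (H - quad c) x := by
  filter_upwards [ga1 H j m hjm y, ga2 H j y] with c h1 h2
  rintro x ⟨-, hx, hE⟩ μ hμ
  have h3 : ∀ l, m < l → μ l = 0 := h1 x hx hE μ hμ
  have hm : eqn m (H - quad c) m = H - quad c := if_pos rfl
  have h4 : eval x (H - quad c) = 0 := by
    have := hE m le_rfl
    rwa [hm] at this
  obtain ⟨a, ha, h5⟩ := h2 x hx h4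
  have h6 := hμ a ha
  rw [Finset.sum_eq_single m (fun l _ hl => ?_) (fun h => absurd (Finset.mem_univ _) h),
    if_pos le_rfl, hm] at h6
  · have h7 : μ m = 0 := by
      rcases mul_eq_zero.1 h6 with h8 | h8
      · exact h8
      · exact absurd h8 h5
    intro l hl
    rcases eq_or_lt_of_le hl with h8 | h8
    · rw [← h8]
      exact h7
    · exact h3 l h8
  · split_ifs with h7
    · rw [h3 l (lt_of_le_of_ne h7 (Ne.symm hl)), zero_mul]
    · rfl

end Pool.Agent.RM90
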