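import Pool.Agent.Lib.MP_df59e7_lc_X.DefsX
import Pool.Agent.Lib.MP_df59e7_lc_X.QuadA
import Pool.Agent.Lib.MP_df59e7_lc_X.PSard

set_option autoImplicit false

/-! MP_df59e7_lc, project RM2, module GB1. -/

namespace Pool.Agent.RM90

open MvPolynomial

private theorem GB1_smooth {n : ℕ} (p : MvPolynomial (Fin n) ℝ) :
    ContDiff ℝ 1 (fun x : Fin n → ℝ => eval x p) := by
  induction p using MvPolynomial.induction_on with
  | C a => simpa using contDiff_const
  | add p q hp hq => simpa using hp.add hq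
  | mul_X p i hp =>
    have h1 : ContDiff ℝ 1 (fun x : Fin n → ℝ => x i) := contDiff_apply ℝ ℝ i
    simpa using hp.mul h1

private theorem GB1_sub {n : ℕ} (m l : Fin n) (G G' : MvPolynomial (Fin n) ℝ) :
    eqn m (G - G') l = eqn m G l - eqn m G' l := by
  unfold eqn
  split_ifs
  · rfl
  · rw [map_sub]

private theorem GB1_add {n : ℕ} (m l : Fin n) (G G' : MvPolynomial (Fin n) ℝ) :
    eqn m (G + G') l = eqn m G l + eqn m G' l := by
  unfold eqn
  split_ifs
  · rfl
  · rw [map_add]

private theorem GB1_mul {n : ℕ} (m l : Fin n) (t : ℝ) (G : MvPolynomial (Fin n) ℝ) :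
    eqn m (C t * G) l = C t * eqn m G l := by
  unfold eqn
  split_ifs
  · rfl
  · rw [pderiv_C_mul]

/-- the variables -/
private abbrev GB1_Z (n : ℕ) : Type := (Fin n → ℝ) × (Fin n → ℝ)

/-- the system -/
private noncomputable def GB1_F {n : ℕ} (H : MvPolynomial (Fin n) ℝ) (j m : Fin n)
    (y : Fin n → ℝ) (p : GB1_Z n × Par n) : GB1_Z n := Fcr j m (H - quad p.2) y p.1

private theorem GB1_eval {n : ℕ} (H : MvPolynomial (Fin n) ℝ) (m l : Fin n) (x : Fin n → ℝ)
    (c c' : Par n) (t : ℝ) : eval x (eqn m (H - quad (c + t • c')) l) =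
      eval x (eqn m (H - quad c) l) - t * eval x (eqn m (quad c') l) := by
  rw [quad_add, quad_smul, GB1_sub, GB1_sub, GB1_add, GB1_mul]
  simp only [map_sub, map_add, map_mul, eval_C]
  ring

private theorem GB1_evald {n : ℕ} (H : MvPolynomial (Fin n) ℝ) (m l a : Fin n)
    (x : Fin n → ℝ) (c c' : Par n) (t : ℝ) :
    eval x (pderiv a (eqn m (H - quad (c + t • c')) l)) =
      eval x (pderiv a (eqn m (H - quad c) l)) - t * eval x (pderiv a (eqn m (quad c') l)) := by
  rw [quad_add, quad_smul, GB1_sub, GB1_sub, GB1_add, GB1_mul]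
  simp only [map_sub, map_add, pderiv_C_mul, map_mul, eval_C]
  ring

private theorem GB1_F_smooth {n : ℕ} (H : MvPolynomial (Fin n) ℝ) (j m : Fin n)
    (y : Fin n → ℝ) : ContDiff ℝ 1 (GB1_F H j m y) := by
  have h0 : ContDiff ℝ 1 (fun p : GB1_Z n × Par n => p.1.1) := contDiff_fst.comp contDiff_fst
  have h1 : ∀ a, ContDiff ℝ 1 (fun p : GB1_Z n × Par n => p.1.1 a) := fun a =>
    (contDiff_apply ℝ ℝ a).comp h0
  have hμ : ∀ a, ContDiff ℝ 1 (fun p : GB1_Z n × Par n => p.1.2 a) := fun a =>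
    (contDiff_apply ℝ ℝ a).comp (contDiff_snd.comp contDiff_fst)
  have hc : ContDiff ℝ 1 (fun p : GB1_Z n × Par n => p.2.1) := contDiff_fst.comp contDiff_snd
  have h2 : ∀ a, ContDiff ℝ 1 (fun p : GB1_Z n × Par n => p.2.2.1 a) := fun a =>
    (contDiff_apply ℝ ℝ a).comp (contDiff_fst.comp (contDiff_snd.comp contDiff_snd))
  have h3 : ∀ a b, ContDiff ℝ 1 (fun p : GB1_Z n × Par n => p.2.2.2 a b) := fun a b =>
    (contDiff_apply_apply ℝ ℝ a b).comp (contDiff_snd.comp (contDiff_snd.comp contDiff_snd))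
  have h4 : ∀ a, ContDiff ℝ 1 (fun p : GB1_Z n × Par n => eval p.1.1 (pderiv a (quad p.2))) := by
    intro a
    simp only [eval_pderiv_quad]
    refine (h2 a).add (ContDiff.sum fun b _ => ?_)
    exact (((h3 a b).add (h3 b a)).div_const 2).mul (h1 b)
  have h5 : ∀ l, ContDiff ℝ 1 (fun p : GB1_Z n × Par n => eval p.1.1 (eqn m (quad p.2) l)) := by
    intro l
    unfold eqn
    by_cases hl : l = m
    · simp only [if_pos hl, eval_quad]
      refine (hc.add (ContDiff.sum fun a _ => (h2 a).mul (h1 a))).add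
        (ContDiff.sum fun a _ => ContDiff.sum fun b _ => ?_)
      exact ((h3 a b).div_const 2).mul ((h1 a).mul (h1 b))
    · simp only [if_neg hl]
      exact h4 l
  have h6 : ∀ a l, ContDiff ℝ 1
      (fun p : GB1_Z n × Par n => eval p.1.1 (pderiv a (eqn m (quad p.2) l))) := by
    intro a l
    unfold eqn
    by_cases hl : l = m
    · simp only [if_pos hl]
      exact h4 a
    · simp only [if_neg hl, eval_pderiv2_quad]
      exact ((h3 a l).add (h3 l a)).div_const 2
  unfold GB1_F Fcr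
  refine ContDiff.prodMk ?_ ?_
  · rw [contDiff_pi]
    intro a
    split_ifs
    · exact (h1 a).sub contDiff_const
    · refine ContDiff.sub (ContDiff.sum fun l _ => ?_) contDiff_const
      split_ifs
      · simp only [GB1_sub, map_sub]
        exact (hμ l).mul (((GB1_smooth _).comp h0).sub (h6 a l))
      · exact contDiff_const
    · refine ContDiff.sub (ContDiff.sum fun l _ => ?_) contDiff_const
      split_ifs
      · simp only [GB1_sub, map_sub]
        exact (hμ l).mul (((GB1_smooth _).comp h0).sub (h6 a l))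
      · exact contDiff_const
  · rw [contDiff_pi]
    intro l
    split_ifs
    · exact hμ l
    · simp only [GB1_sub, map_sub]
      exact ((GB1_smooth _).comp h0).sub (h5 l)

private theorem GB1_line {E W : Type} [NormedAddCommGroup E] [NormedSpace ℝ E]
    [NormedAddCommGroup W] [NormedSpace ℝ W] {f : E → W} {f' : E →L[ℝ] W} {p : E}
    (hf : HasFDerivAt f f' p) (φ : W →L[ℝ] ℝ) (w : E) {A B : ℝ}
    (h : ∀ t : ℝ, φ (f (p + t • w)) = A + t * B) : φ (f' w) = B := by
  have h1 : HasDerivAt (fun t : ℝ => p + t • w) w 0 := by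
    have h5 := ((hasDerivAt_id (0 : ℝ)).smul_const w).const_add p
    simpa using h5
  have h2 : HasFDerivAt (fun q => φ (f q)) (φ.comp f') (p + (0 : ℝ) • w) := by
    rw [zero_smul, add_zero]
    exact φ.hasFDerivAt.comp p hf
  have h3 := h2.comp_hasDerivAt (0 : ℝ) h1
  have h4 : HasDerivAt (fun t : ℝ => A + t * B) B 0 := by
    simpa using ((hasDerivAt_id (0 : ℝ)).mul_const B).const_add A
  have h5 : HasDerivAt (fun t : ℝ => φ (f (p + t • w))) B 0 := by
    simp only [h]
    exact h4
  exact h3.unique h5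

private theorem GB1_surj {n : ℕ} (H : MvPolynomial (Fin n) ℝ) (j m : Fin n)
    (y : Fin n → ℝ) (p : GB1_Z n × Par n) (hp : ∃ l, m < l ∧ p.1.2 l ≠ 0) :
    Function.Surjective (fderiv ℝ (GB1_F H j m y) p) := by
  have hF : HasFDerivAt (GB1_F H j m y) (fderiv ℝ (GB1_F H j m y) p) p :=
    (((GB1_F_smooth H j m y).differentiable one_ne_zero) p).hasFDerivAt
  obtain ⟨φ, hφ⟩ : ∃ φ : Fin n → GB1_Z n →L[ℝ] ℝ, ∀ a w, φ a w = w.1 a :=
    ⟨fun a => (ContinuousLinearMap.proj a : (Fin n → ℝ) →L[ℝ] ℝ).comp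
      (ContinuousLinearMap.fst ℝ (Fin n → ℝ) (Fin n → ℝ)), fun a w => rfl⟩
  obtain ⟨ψ, hψ⟩ : ∃ ψ : Fin n → GB1_Z n →L[ℝ] ℝ, ∀ a w, ψ a w = w.2 a :=
    ⟨fun a => (ContinuousLinearMap.proj a : (Fin n → ℝ) →L[ℝ] ℝ).comp
      (ContinuousLinearMap.snd ℝ (Fin n → ℝ) (Fin n → ℝ)), fun a w => rfl⟩
  have e1 : ∀ (w : GB1_Z n × Par n) (a : Fin n), a < j →
      (fderiv ℝ (GB1_F H j m y) p w).1 a = w.1.1 a := by
    intro w a ha
    rw [← hφ]
    refine GB1_line hF (φ a) w (A := p.1.1 a - y a) fun t => ?_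
    rw [hφ]
    show (if a < j then (p + t • w).1.1 a - y a else _) = _
    rw [if_pos ha]
    simp only [Prod.fst_add, Prod.smul_fst, Pi.add_apply, Pi.smul_apply, smul_eq_mul]
    ring
  have e1' : ∀ (w : GB1_Z n × Par n) (l : Fin n), l < m →
      (fderiv ℝ (GB1_F H j m y) p w).2 l = w.1.2 l := by
    intro w l hl
    rw [← hψ]
    refine GB1_line hF (ψ l) w (A := p.1.2 l) fun t => ?_
    rw [hψ]
    show (if l < m then (p + t • w).1.2 l else _) = _
    rw [if_pos hl]
    simp only [Prod.fst_add, Prod.snd_add, Prod.smul_fst, Prod.smul_snd, Pi.add_apply,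
      Pi.smul_apply, smul_eq_mul]
  have h7 : ∀ (c' : Par n) (t : ℝ), (p + t • ((0, c') : GB1_Z n × Par n)).1 = p.1 := by
    intro c' t
    simp
  have h8 : ∀ (c' : Par n) (t : ℝ), (p + t • ((0, c') : GB1_Z n × Par n)).2 = p.2 + t • c' := by
    intro c' t
    simp
  have e2 : ∀ (c' : Par n) (a : Fin n), j ≤ a →
      (fderiv ℝ (GB1_F H j m y) p (0, c')).1 a =
        - ∑ l, (if m ≤ l then p.1.2 l * eval p.1.1 (pderiv a (eqn m (quad c') l)) else 0) := by
    intro c' a ha
    rw [← hφ]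
    refine GB1_line hF (φ a) (0, c') (A := ∑ l, (if m ≤ l then p.1.2 l *
      eval p.1.1 (pderiv a (eqn m (H - quad p.2) l)) else 0) - (if a = j then 1 else 0))
      fun t => ?_
    rw [hφ]
    show (if a < j then _ else ∑ l, (if m ≤ l then
      (p + t • ((0, c') : GB1_Z n × Par n)).1.2 l *
        eval (p + t • ((0, c') : GB1_Z n × Par n)).1.1
          (pderiv a (eqn m (H - quad (p + t • ((0, c') : GB1_Z n × Par n)).2) l)) else 0) -
        (if a = j then 1 else 0)) = _
    rw [if_neg (not_lt.2 ha), h7, h8]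
    have h9 : (∑ l, (if m ≤ l then p.1.2 l *
        eval p.1.1 (pderiv a (eqn m (H - quad (p.2 + t • c')) l)) else 0)) =
        (∑ l, (if m ≤ l then p.1.2 l *
          eval p.1.1 (pderiv a (eqn m (H - quad p.2) l)) else 0)) -
        t * ∑ l, (if m ≤ l then p.1.2 l * eval p.1.1 (pderiv a (eqn m (quad c') l)) else 0) := by
      rw [Finset.mul_sum, ← Finset.sum_sub_distrib]
      refine Finset.sum_congr rfl fun l _ => ?_
      split_ifs
      · rw [GB1_evald]
        ring
      · ring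
    rw [h9]
    ring
  have e2' : ∀ (c' : Par n) (l : Fin n), m ≤ l →
      (fderiv ℝ (GB1_F H j m y) p (0, c')).2 l = - eval p.1.1 (eqn m (quad c') l) := by
    intro c' l hl
    rw [← hψ]
    refine GB1_line hF (ψ l) (0, c') (A := eval p.1.1 (eqn m (H - quad p.2) l)) fun t => ?_
    rw [hψ]
    show (if l < m then _ else eval (p + t • ((0, c') : GB1_Z n × Par n)).1.1
      (eqn m (H - quad (p + t • ((0, c') : GB1_Z n × Par n)).2) l)) = _
    rw [if_neg (not_lt.2 hl), h7, h8, GB1_eval]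
    ring
  intro w
  obtain ⟨D, hD⟩ : ∃ D, D = fderiv ℝ (GB1_F H j m y) p (w, 0) := ⟨_, rfl⟩
  have hν : (fun l => if m < l then p.1.2 l else 0) ≠ 0 := by
    intro h
    obtain ⟨l, hl, hl'⟩ := hp
    have h9 := congrFun h l
    simp only [if_pos hl, Pi.zero_apply] at h9
    exact hl' h9
  obtain ⟨c', hc1, hc2, hc3⟩ := exists_quad p.1.1 _ hν (D.2 m - w.2 m)
    (fun a => if m < a then D.2 a - w.2 a else 0)
    (fun a => (D.1 a - w.1 a) - p.1.2 m * (if m < a then D.2 a - w.2 a else 0))
  refine ⟨(w, c'), ?_⟩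
  have e3 : ((w, c') : GB1_Z n × Par n) = (w, 0) + (0, c') := by simp
  have e4 : fderiv ℝ (GB1_F H j m y) p (w, c') = D + fderiv ℝ (GB1_F H j m y) p (0, c') := by
    rw [hD, ← map_add, ← e3]
  refine Prod.ext ?_ ?_
  · funext a
    by_cases ha : a < j
    · rw [e1 _ a ha]
    · rw [e4]
      show D.1 a + (fderiv ℝ (GB1_F H j m y) p (0, c')).1 a = w.1 a
      rw [e2 c' a (not_lt.1 ha)]
      have h9 : ∀ l, (if m ≤ l then p.1.2 l * eval p.1.1 (pderiv a (eqn m (quad c') l)) else 0) =
          (if l = m then p.1.2 m * (if m < a then D.2 a - w.2 a else 0) else 0) +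
            eval p.1.1 (pderiv a (pderiv l (quad c'))) * (if m < l then p.1.2 l else 0) := by
        intro l
        rcases lt_trichotomy l m with h10 | h10 | h10
        · rw [if_neg (not_le.2 h10), if_neg h10.ne, if_neg (not_lt.2 h10.le)]
          ring
        · subst h10
          rw [if_pos le_rfl, if_pos rfl, if_neg (lt_irrefl l), mul_zero, add_zero]
          unfold eqn
          rw [if_pos rfl, hc2]
        · rw [if_pos h10.le, if_neg h10.ne', if_pos h10]
          unfold eqn
          rw [if_neg h10.ne']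
          ring
      rw [Finset.sum_congr rfl fun l _ => h9 l, Finset.sum_add_distrib, hc3,
        Finset.sum_ite_eq', if_pos (Finset.mem_univ m)]
      ring
  · funext l
    by_cases hl : l < m
    · rw [e1' _ l hl]
    · rw [e4]
      show D.2 l + (fderiv ℝ (GB1_F H j m y) p (0, c')).2 l = w.2 l
      rw [e2' c' l (not_lt.1 hl)]
      unfold eqn
      by_cases h10 : l = m
      · subst h10
        rw [if_pos rfl, hc1]
        ring
      · rw [if_neg h10, hc2, if_pos (lt_of_le_of_ne (not_lt.1 hl) (Ne.symm h10))]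
        ring

/-- Nondegeneracy of the critical points with a nonzero multiplier `μ_l`, `l > m`.
Proof: `param_sard` with `Z = W = (Fin n → ℝ) × (Fin n → ℝ)`, `Λ = Par n`,
`F(z, c) = Fcr j m (H - quad c) y z`, `Ω = {(z, c) | ∃ l > m, z.2 l ≠ 0}` (open). `F` is a
polynomial in all variables. Surjectivity of the derivative at a point of `Ω`: given `(α, β)`,
choose `δx a = α a` for `a < j`, `δμ l = β l` for `l < m`, and then `δc` by `exists_quad` (with
`ν_l = μ_l` for `l > m`, `0` otherwise) to correct the value of `G = eqn m`, the components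
`∂_l G`, `l > m`, and the components `a ≥ j` of the first part. The measure on `Par n` is
`volume`, which is a product of Haar measures. -/
theorem gb1 {n : ℕ} (H : MvPolynomial (Fin n) ℝ) (j m : Fin n) (hjm : j < m)
    (y : Fin n → ℝ) :
    ∀ᵐ c : Par n, ∀ z : (Fin n → ℝ) × (Fin n → ℝ), (∃ l, m < l ∧ z.2 l ≠ 0) →
      Fcr j m (H - quad c) y z = 0 →
      ∀ v, fderiv ℝ (Fcr j m (H - quad c) y) z v = 0 → v = 0 := by
  have h1 : (MeasureTheory.volume : MeasureTheory.Measure (Fin n → ℝ)).IsAddHaarMeasure :=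
    inferInstance
  have h2 : (MeasureTheory.volume :
      MeasureTheory.Measure (Fin n → Fin n → ℝ)).IsAddHaarMeasure := inferInstance
  have h3 : (MeasureTheory.volume : MeasureTheory.Measure
      ((Fin n → ℝ) × (Fin n → Fin n → ℝ))).IsAddHaarMeasure := by
    change ((MeasureTheory.volume : MeasureTheory.Measure (Fin n → ℝ)).prod
      (MeasureTheory.volume : MeasureTheory.Measure (Fin n → Fin n → ℝ))).IsAddHaarMeasure
    infer_instance
  have h4 : (MeasureTheory.volume : MeasureTheory.Measure (Par n)).IsAddHaarMeasure := by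
    change ((MeasureTheory.volume : MeasureTheory.Measure ℝ).prod
      (MeasureTheory.volume : MeasureTheory.Measure
        ((Fin n → ℝ) × (Fin n → Fin n → ℝ)))).IsAddHaarMeasure
    infer_instance
  have hopen : IsOpen {p : GB1_Z n × Par n | ∃ l, m < l ∧ p.1.2 l ≠ 0} := by
    have h5 : {p : GB1_Z n × Par n | ∃ l, m < l ∧ p.1.2 l ≠ 0} =
        ⋃ l, ⋃ (_ : m < l), {p : GB1_Z n × Par n | p.1.2 l ≠ 0} := by
      ext p
      simp
    rw [h5]
    refine isOpen_iUnion fun l => isOpen_iUnion fun _ => ?_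
    exact isOpen_ne_fun (by fun_prop) continuous_const
  have key := param_sard (Z := GB1_Z n) (W := GB1_Z n) (Λ := Par n)
    (MeasureTheory.volume : MeasureTheory.Measure (Par n)) rfl (GB1_F H j m y)
    {p : GB1_Z n × Par n | ∃ l, m < l ∧ p.1.2 l ≠ 0} hopen (GB1_F_smooth H j m y)
    (fun p hp _ => GB1_surj H j m y p hp)
  filter_upwards [key] with c hc z hz h0 v hv
  refine hc z hz h0 v ?_
  have hF : HasFDerivAt (GB1_F H j m y) (fderiv ℝ (GB1_F H j m y) (z, c)) (z, c) :=
    (((GB1_F_smooth H j m y).differentiable one_ne_zero) (z, c)).hasFDerivAt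
  have h5 : HasFDerivAt (Fcr j m (H - quad c) y)
      ((fderiv ℝ (GB1_F H j m y) (z, c)).comp (ContinuousLinearMap.inl ℝ (GB1_Z n) (Par n)))
      z := HasFDerivAt.comp (g := GB1_F H j m y) (f := fun e : GB1_Z n => (e, c)) z hF
        (hasFDerivAt_prodMk_left z c)
  rw [h5.fderiv] at hv
  exact hv

end Pool.Agent.RM90
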