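import Pool.Agent.Lib.MP_df59e7_lc_X.DefsX
import Pool.Agent.Lib.MP_df59e7_lc_X.QuadA
import Pool.Agent.Lib.MP_df59e7_lc_X.PSard
import Pool.Agent.Lib.MP_df59e7_lc_X.PSard0

set_option autoImplicit false

/-! MP_df59e7_lc, project RM2, module GB2. -/

namespace Pool.Agent.RM90

open MvPolynomial

private theorem GB2_smooth {n : ℕ} (p : MvPolynomial (Fin n) ℝ) :
    ContDiff ℝ 1 (fun x : Fin n → ℝ => eval x p) := by
  induction p using MvPolynomial.induction_on with
  | C a => simpa using contDiff_const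
  | add p q hp hq => simpa using hp.add hq
  | mul_X p i hp =>
    have h1 : ContDiff ℝ 1 (fun x : Fin n → ℝ => x i) := contDiff_apply ℝ ℝ i
    simpa using hp.mul h1

/-- the parameters of the linear and quadratic terms -/
private abbrev GB2_L (n : ℕ) : Type := (Fin n → ℝ) × (Fin n → Fin n → ℝ)

/-- the derivative of the quadratic part -/
private noncomputable def GB2_B {n : ℕ} (x : Fin n → ℝ) (l : GB2_L n) (a : Fin n) : ℝ :=
  l.1 a + ∑ b, (l.2 a b + l.2 b a) / 2 * x b

/-- the value of the quadratic polynomial -/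
private noncomputable def GB2_A {n : ℕ} (x : Fin n → ℝ) (c : Par n) : ℝ :=
  c.1 + ∑ i, c.2.1 i * x i + ∑ i, ∑ l, c.2.2 i l / 2 * (x i * x l)

private theorem GB2_A_eq {n : ℕ} (x : Fin n → ℝ) (c : Par n) :
    eval x (quad c) = GB2_A x c := eval_quad c x

private theorem GB2_B_eq {n : ℕ} (x : Fin n → ℝ) (c : Par n) (a : Fin n) :
    eval x (pderiv a (quad c)) = GB2_B x c.2 a := by
  rw [eval_pderiv_quad]
  rfl

private theorem GB2_A_add {n : ℕ} (x : Fin n → ℝ) (c c' : Par n) (t : ℝ) :
    GB2_A x (c + t • c') = GB2_A x c + t * GB2_A x c' := by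
  rw [← GB2_A_eq, quad_add, quad_smul, map_add, map_mul, eval_C, GB2_A_eq, GB2_A_eq]

private theorem GB2_B_add {n : ℕ} (x : Fin n → ℝ) (l l' : GB2_L n) (t : ℝ) (a : Fin n) :
    GB2_B x (l + t • l') a = GB2_B x l a + t * GB2_B x l' a := by
  unfold GB2_B
  simp only [Prod.fst_add, Prod.snd_add, Prod.smul_fst, Prod.smul_snd, Pi.add_apply,
    Pi.smul_apply, smul_eq_mul]
  rw [mul_add, Finset.mul_sum]
  have h1 : ∀ b, (l.2 a b + t * l'.2 a b + (l.2 b a + t * l'.2 b a)) / 2 * x b =
      (l.2 a b + l.2 b a) / 2 * x b + t * ((l'.2 a b + l'.2 b a) / 2 * x b) := fun b => by ring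
  simp only [h1]
  rw [Finset.sum_add_distrib]
  ring

/-- the system of the first part -/
private noncomputable def GB2_F {n : ℕ} (H : MvPolynomial (Fin n) ℝ) (j : Fin n)
    (y : Fin n → ℝ) (p : (Fin n → ℝ) × Par n) : Fin n → ℝ :=
  fun a => if a < j then p.1 a - y a else if a = j then eval p.1 H - GB2_A p.1 p.2 else
    eval p.1 (pderiv a H) - GB2_B p.1 p.2.2 a

private theorem GB2_F_smooth {n : ℕ} (H : MvPolynomial (Fin n) ℝ) (j : Fin n)
    (y : Fin n → ℝ) : ContDiff ℝ 1 (GB2_F H j y) := by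
  have h1 : ∀ a, ContDiff ℝ 1 (fun p : (Fin n → ℝ) × Par n => p.1 a) := fun a =>
    (contDiff_apply ℝ ℝ a).comp contDiff_fst
  have h0 : ContDiff ℝ 1 (fun p : (Fin n → ℝ) × Par n => p.2.1) :=
    contDiff_fst.comp contDiff_snd
  have h2 : ∀ a, ContDiff ℝ 1 (fun p : (Fin n → ℝ) × Par n => p.2.2.1 a) := fun a =>
    (contDiff_apply ℝ ℝ a).comp (contDiff_fst.comp (contDiff_snd.comp contDiff_snd))
  have h3 : ∀ a b, ContDiff ℝ 1 (fun p : (Fin n → ℝ) × Par n => p.2.2.2 a b) := fun a b =>
    (contDiff_apply_apply ℝ ℝ a b).comp (contDiff_snd.comp (contDiff_snd.comp contDiff_snd))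
  rw [contDiff_pi]
  intro a
  unfold GB2_F
  split_ifs
  · exact (h1 a).sub contDiff_const
  · refine ((GB2_smooth H).comp contDiff_fst).sub ?_
    unfold GB2_A
    refine (h0.add (ContDiff.sum fun a _ => (h2 a).mul (h1 a))).add
      (ContDiff.sum fun a _ => ContDiff.sum fun b _ => ?_)
    exact ((h3 a b).div_const 2).mul ((h1 a).mul (h1 b))
  · refine ((GB2_smooth (pderiv a H)).comp contDiff_fst).sub ?_
    unfold GB2_B
    refine (h2 a).add (ContDiff.sum fun b _ => ?_)
    exact (((h3 a b).add (h3 b a)).div_const 2).mul (h1 b)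

/-- A component of the derivative is the derivative along a line. -/
private theorem GB2_line {V ι : Type} [NormedAddCommGroup V] [NormedSpace ℝ V] [Fintype ι]
    {F : V → ι → ℝ} {p : V} (hF : DifferentiableAt ℝ F p) (w : V) (a : ι) {d : ℝ}
    (hd : HasDerivAt (fun t : ℝ => F (p + t • w) a) d 0) : fderiv ℝ F p w a = d := by
  have h1 : HasDerivAt (fun t : ℝ => p + t • w) w 0 := by
    have h5 := ((hasDerivAt_id (0 : ℝ)).smul_const w).const_add p
    simpa using h5
  have h2 : HasFDerivAt F (fderiv ℝ F p) (p + (0 : ℝ) • w) := by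
    rw [zero_smul, add_zero]
    exact hF.hasFDerivAt
  have h3 := (hasDerivAt_pi.1 (h2.comp_hasDerivAt (0 : ℝ) h1)) a
  exact h3.unique hd

/-- The derivative of a polynomial along a line. -/
private theorem GB2_pline {n : ℕ} (P : MvPolynomial (Fin n) ℝ) (x v : Fin n → ℝ) :
    HasDerivAt (fun t : ℝ => eval (x + t • v) P) (∑ b, eval x (pderiv b P) * v b) 0 := by
  have h1 : HasDerivAt (fun t : ℝ => x + t • v) v 0 := by
    have h5 := ((hasDerivAt_id (0 : ℝ)).smul_const v).const_add x
    simpa using h5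
  have h2 : HasFDerivAt (fun x : Fin n → ℝ => eval x P) (Warren46.gradL P x)
      (x + (0 : ℝ) • v) := by
    rw [zero_smul, add_zero]
    exact Warren46.hasFDerivAt_eval P x
  have h3 := h2.comp_hasDerivAt (0 : ℝ) h1
  rw [Warren46.gradL_apply] at h3
  exact h3

private theorem GB2_F_surj {n : ℕ} (H : MvPolynomial (Fin n) ℝ) (j : Fin n)
    (y : Fin n → ℝ) (p : (Fin n → ℝ) × Par n) :
    Function.Surjective (fderiv ℝ (GB2_F H j y) p) := by
  have hd : DifferentiableAt ℝ (GB2_F H j y) p :=
    ((GB2_F_smooth H j y).differentiable one_ne_zero) p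
  -- the components `a < j`
  have e1 : ∀ (w : (Fin n → ℝ) × Par n) (a : Fin n), a < j →
      fderiv ℝ (GB2_F H j y) p w a = w.1 a := by
    intro w a ha
    refine GB2_line hd w a ?_
    have h6 : (fun t : ℝ => GB2_F H j y (p + t • w) a) = fun t => (p.1 a - y a) + t * w.1 a := by
      funext t
      unfold GB2_F
      rw [if_pos ha]
      simp only [Prod.fst_add, Prod.smul_fst, Pi.add_apply, Pi.smul_apply, smul_eq_mul]
      ring
    rw [h6]
    have h9 := ((hasDerivAt_id (0 : ℝ)).mul_const (w.1 a)).const_add (p.1 a - y a)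
    simpa using h9
  have e2 : ∀ (c : Par n), fderiv ℝ (GB2_F H j y) p (0, c) j = - GB2_A p.1 c := by
    intro c
    refine GB2_line hd _ j ?_
    have h6 : (fun t : ℝ => GB2_F H j y (p + t • ((0, c) : (Fin n → ℝ) × Par n)) j) =
        fun t => (eval p.1 H - GB2_A p.1 p.2) - t * GB2_A p.1 c := by
      funext t
      unfold GB2_F
      rw [if_neg (lt_irrefl j), if_pos rfl]
      have h7 : (p + t • ((0, c) : (Fin n → ℝ) × Par n)).1 = p.1 := by simp
      have h8 : (p + t • ((0, c) : (Fin n → ℝ) × Par n)).2 = p.2 + t • c := by simp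
      rw [h7, h8, GB2_A_add]
      ring
    rw [h6]
    have h9 := ((hasDerivAt_id (0 : ℝ)).mul_const (GB2_A p.1 c)).const_sub
      (eval p.1 H - GB2_A p.1 p.2)
    simpa using h9
  have e3 : ∀ (c : Par n) (a : Fin n), j < a →
      fderiv ℝ (GB2_F H j y) p (0, c) a = - GB2_B p.1 c.2 a := by
    intro c a ha
    refine GB2_line hd _ a ?_
    have h6 : (fun t : ℝ => GB2_F H j y (p + t • ((0, c) : (Fin n → ℝ) × Par n)) a) =
        fun t => (eval p.1 (pderiv a H) - GB2_B p.1 p.2.2 a) - t * GB2_B p.1 c.2 a := by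
      funext t
      unfold GB2_F
      rw [if_neg (not_lt.2 ha.le), if_neg ha.ne']
      have h7 : (p + t • ((0, c) : (Fin n → ℝ) × Par n)).1 = p.1 := by simp
      have h8 : (p + t • ((0, c) : (Fin n → ℝ) × Par n)).2.2 = p.2.2 + t • c.2 := by simp
      rw [h7, h8, GB2_B_add]
      ring
    rw [h6]
    have h9 := ((hasDerivAt_id (0 : ℝ)).mul_const (GB2_B p.1 c.2 a)).const_sub
      (eval p.1 (pderiv a H) - GB2_B p.1 p.2.2 a)
    simpa using h9
  intro w
  have hne : (fun _ : Fin n => (1 : ℝ)) ≠ 0 := by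
    intro h
    have := congrFun h j
    simp at this
  obtain ⟨c, hc1, hc2, -⟩ := exists_quad p.1 (fun _ => (1 : ℝ)) hne
    (fderiv ℝ (GB2_F H j y) p (w, 0) j - w j)
    (fun a => fderiv ℝ (GB2_F H j y) p (w, 0) a - w a) 0
  refine ⟨(w, c), ?_⟩
  have e4 : ((w, c) : (Fin n → ℝ) × Par n) = (w, 0) + (0, c) := by simp
  funext a
  rcases lt_trichotomy a j with ha | ha | ha
  · rw [e1 _ a ha]
  · subst ha
    rw [e4, map_add, Pi.add_apply, e2 c, ← GB2_A_eq, hc1]
    ring
  · rw [e4, map_add, Pi.add_apply, e3 c a ha, ← GB2_B_eq, hc2 a]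
    ring

/-- the system of the second part -/
private noncomputable def GB2_K {n : ℕ} (H : MvPolynomial (Fin n) ℝ) (j m : Fin n)
    (y : Fin n → ℝ) (p : ((Fin n → ℝ) × (Fin n → ℝ)) × GB2_L n) : (Fin n ⊕ Fin n) → ℝ :=
  Sum.elim
    (fun a => if a < j then p.1.1 a - y a else
      if a = j then (∑ l, if m < l then p.1.2 l * p.1.2 l else 0) - 1 else
      eval p.1.1 (pderiv a H) - GB2_B p.1.1 p.2 a)
    (fun l => if l ≤ m then p.1.2 l else
      ∑ b, if m < b then (eval p.1.1 (pderiv b (pderiv l H)) - (p.2.2 b l + p.2.2 l b) / 2) *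
        p.1.2 b else 0)

private theorem GB2_K_smooth {n : ℕ} (H : MvPolynomial (Fin n) ℝ) (j m : Fin n)
    (y : Fin n → ℝ) : ContDiff ℝ 1 (GB2_K H j m y) := by
  have h1 : ∀ a, ContDiff ℝ 1 (fun p : ((Fin n → ℝ) × (Fin n → ℝ)) × GB2_L n => p.1.1 a) :=
    fun a => (contDiff_apply ℝ ℝ a).comp (contDiff_fst.comp contDiff_fst)
  have h0 : ∀ a, ContDiff ℝ 1 (fun p : ((Fin n → ℝ) × (Fin n → ℝ)) × GB2_L n => p.1.2 a) :=
    fun a => (contDiff_apply ℝ ℝ a).comp (contDiff_snd.comp contDiff_fst)
  have h2 : ∀ a, ContDiff ℝ 1 (fun p : ((Fin n → ℝ) × (Fin n → ℝ)) × GB2_L n => p.2.1 a) :=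
    fun a => (contDiff_apply ℝ ℝ a).comp (contDiff_fst.comp contDiff_snd)
  have h3 : ∀ a b, ContDiff ℝ 1
      (fun p : ((Fin n → ℝ) × (Fin n → ℝ)) × GB2_L n => p.2.2 a b) := fun a b =>
    (contDiff_apply_apply ℝ ℝ a b).comp (contDiff_snd.comp contDiff_snd)
  have hf : ContDiff ℝ 1 (fun p : ((Fin n → ℝ) × (Fin n → ℝ)) × GB2_L n => p.1.1) :=
    contDiff_fst.comp contDiff_fst
  rw [contDiff_pi]
  rintro (a | l)
  · change ContDiff ℝ 1 (fun p : ((Fin n → ℝ) × (Fin n → ℝ)) × GB2_L n =>
      if a < j then p.1.1 a - y a else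
      if a = j then (∑ l, if m < l then p.1.2 l * p.1.2 l else 0) - 1 else
      eval p.1.1 (pderiv a H) - GB2_B p.1.1 p.2 a)
    split_ifs
    · exact (h1 a).sub contDiff_const
    · refine (ContDiff.sum fun l _ => ?_).sub contDiff_const
      split_ifs
      · exact (h0 l).mul (h0 l)
      · exact contDiff_const
    · refine ((GB2_smooth (pderiv a H)).comp hf).sub ?_
      unfold GB2_B
      refine (h2 a).add (ContDiff.sum fun b _ => ?_)
      exact (((h3 a b).add (h3 b a)).div_const 2).mul (h1 b)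
  · change ContDiff ℝ 1 (fun p : ((Fin n → ℝ) × (Fin n → ℝ)) × GB2_L n =>
      if l ≤ m then p.1.2 l else
      ∑ b, if m < b then (eval p.1.1 (pderiv b (pderiv l H)) - (p.2.2 b l + p.2.2 l b) / 2) *
        p.1.2 b else 0)
    split_ifs
    · exact h0 l
    · refine ContDiff.sum fun b _ => ?_
      split_ifs
      · refine (((GB2_smooth (pderiv b (pderiv l H))).comp hf).sub ?_).mul (h0 b)
        exact ((h3 b l).add (h3 l b)).div_const 2
      · exact contDiff_const

private theorem GB2_K_surj {n : ℕ} (H : MvPolynomial (Fin n) ℝ) (j m : Fin n)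
    (y : Fin n → ℝ) (p : ((Fin n → ℝ) × (Fin n → ℝ)) × GB2_L n) (hp : GB2_K H j m y p = 0) :
    Function.Surjective (fderiv ℝ (GB2_K H j m y) p) := by
  have hd : DifferentiableAt ℝ (GB2_K H j m y) p :=
    ((GB2_K_smooth H j m y).differentiable one_ne_zero) p
  have hnorm : (∑ l, if m < l then p.1.2 l * p.1.2 l else 0) = 1 := by
    have h1 := congrFun hp (Sum.inl j)
    have h2 : (if j < j then p.1.1 j - y j else
      if j = j then (∑ l, if m < l then p.1.2 l * p.1.2 l else 0) - 1 else
      eval p.1.1 (pderiv j H) - GB2_B p.1.1 p.2 j) = 0 := h1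
    rw [if_neg (lt_irrefl j), if_pos rfl] at h2
    linarith
  -- the components `a < j`
  have e1 : ∀ (w : ((Fin n → ℝ) × (Fin n → ℝ)) × GB2_L n) (a : Fin n), a < j →
      fderiv ℝ (GB2_K H j m y) p w (Sum.inl a) = w.1.1 a := by
    intro w a ha
    refine GB2_line hd w _ ?_
    have h6 : (fun t : ℝ => GB2_K H j m y (p + t • w) (Sum.inl a)) =
        fun t => (p.1.1 a - y a) + t * w.1.1 a := by
      funext t
      change (if a < j then (p + t • w).1.1 a - y a else _) = _
      rw [if_pos ha]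
      simp only [Prod.fst_add, Prod.smul_fst, Pi.add_apply, Pi.smul_apply, smul_eq_mul]
      ring
    rw [h6]
    have h9 := ((hasDerivAt_id (0 : ℝ)).mul_const (w.1.1 a)).const_add (p.1.1 a - y a)
    simpa using h9
  have e2 : ∀ (w : ((Fin n → ℝ) × (Fin n → ℝ)) × GB2_L n),
      fderiv ℝ (GB2_K H j m y) p w (Sum.inl j) =
        ∑ l, if m < l then 2 * p.1.2 l * w.1.2 l else 0 := by
    intro w
    refine GB2_line hd w _ ?_
    have h6 : (fun t : ℝ => GB2_K H j m y (p + t • w) (Sum.inl j)) =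
        fun t => (∑ l, if m < l then (p.1.2 l + t * w.1.2 l) * (p.1.2 l + t * w.1.2 l) else 0) - 1 := by
      funext t
      change (if j < j then _ else if j = j then
        (∑ l, if m < l then (p + t • w).1.2 l * (p + t • w).1.2 l else 0) - 1 else _) = _
      rw [if_neg (lt_irrefl j), if_pos rfl]
      rfl
    rw [h6]
    refine HasDerivAt.sub_const _ (HasDerivAt.fun_sum fun l _ => ?_)
    split_ifs
    · have h7 : HasDerivAt (fun t : ℝ => p.1.2 l + t * w.1.2 l) (w.1.2 l) 0 := by
        have h9 := ((hasDerivAt_id (0 : ℝ)).mul_const (w.1.2 l)).const_add (p.1.2 l)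
        simpa using h9
      have h8 := h7.mul h7
      simp only [zero_mul, add_zero] at h8
      refine h8.congr_deriv ?_
      ring
    · exact hasDerivAt_const _ _
  have e3 : ∀ (c : GB2_L n) (a : Fin n), j < a →
      fderiv ℝ (GB2_K H j m y) p (0, c) (Sum.inl a) = - GB2_B p.1.1 c a := by
    intro c a ha
    refine GB2_line hd _ _ ?_
    have h6 : (fun t : ℝ => GB2_K H j m y
        (p + t • ((0, c) : ((Fin n → ℝ) × (Fin n → ℝ)) × GB2_L n)) (Sum.inl a)) =
        fun t => (eval p.1.1 (pderiv a H) - GB2_B p.1.1 p.2 a) - t * GB2_B p.1.1 c a := by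
      funext t
      have h7 : (p + t • ((0, c) : ((Fin n → ℝ) × (Fin n → ℝ)) × GB2_L n)).1 = p.1 := by simp
      have h8 : (p + t • ((0, c) : ((Fin n → ℝ) × (Fin n → ℝ)) × GB2_L n)).2 = p.2 + t • c := by
        simp
      change (if a < j then _ else if a = j then _ else
        eval (p + t • ((0, c) : ((Fin n → ℝ) × (Fin n → ℝ)) × GB2_L n)).1.1 (pderiv a H) -
        GB2_B (p + t • ((0, c) : ((Fin n → ℝ) × (Fin n → ℝ)) × GB2_L n)).1.1
          (p + t • ((0, c) : ((Fin n → ℝ) × (Fin n → ℝ)) × GB2_L n)).2 a) = _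
      rw [if_neg (not_lt.2 ha.le), if_neg ha.ne', h7, h8, GB2_B_add]
      ring
    rw [h6]
    have h9 := ((hasDerivAt_id (0 : ℝ)).mul_const (GB2_B p.1.1 c a)).const_sub
      (eval p.1.1 (pderiv a H) - GB2_B p.1.1 p.2 a)
    simpa using h9
  have e4 : ∀ (w : ((Fin n → ℝ) × (Fin n → ℝ)) × GB2_L n) (l : Fin n), l ≤ m →
      fderiv ℝ (GB2_K H j m y) p w (Sum.inr l) = w.1.2 l := by
    intro w l hl
    refine GB2_line hd w _ ?_
    have h6 : (fun t : ℝ => GB2_K H j m y (p + t • w) (Sum.inr l)) =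
        fun t => p.1.2 l + t * w.1.2 l := by
      funext t
      change (if l ≤ m then (p + t • w).1.2 l else _) = _
      rw [if_pos hl]
      rfl
    rw [h6]
    have h9 := ((hasDerivAt_id (0 : ℝ)).mul_const (w.1.2 l)).const_add (p.1.2 l)
    simpa using h9
  have e5 : ∀ (c : GB2_L n) (l : Fin n), m < l →
      fderiv ℝ (GB2_K H j m y) p (0, c) (Sum.inr l) =
        - ∑ b, if m < b then (c.2 b l + c.2 l b) / 2 * p.1.2 b else 0 := by
    intro c l hl
    refine GB2_line hd _ _ ?_
    have h6 : (fun t : ℝ => GB2_K H j m y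
        (p + t • ((0, c) : ((Fin n → ℝ) × (Fin n → ℝ)) × GB2_L n)) (Sum.inr l)) =
        fun t => (∑ b, if m < b then (eval p.1.1 (pderiv b (pderiv l H)) -
          (p.2.2 b l + p.2.2 l b) / 2) * p.1.2 b else 0) -
          t * ∑ b, if m < b then (c.2 b l + c.2 l b) / 2 * p.1.2 b else 0 := by
      funext t
      have h7 : (p + t • ((0, c) : ((Fin n → ℝ) × (Fin n → ℝ)) × GB2_L n)).1 = p.1 := by simp
      have h8 : (p + t • ((0, c) : ((Fin n → ℝ) × (Fin n → ℝ)) × GB2_L n)).2 = p.2 + t • c := by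
        simp
      change (if l ≤ m then _ else ∑ b, if m < b then
        (eval (p + t • ((0, c) : ((Fin n → ℝ) × (Fin n → ℝ)) × GB2_L n)).1.1
          (pderiv b (pderiv l H)) -
          ((p + t • ((0, c) : ((Fin n → ℝ) × (Fin n → ℝ)) × GB2_L n)).2.2 b l +
          (p + t • ((0, c) : ((Fin n → ℝ) × (Fin n → ℝ)) × GB2_L n)).2.2 l b) / 2) *
          (p + t • ((0, c) : ((Fin n → ℝ) × (Fin n → ℝ)) × GB2_L n)).1.2 b else 0) = _
      rw [if_neg (not_le.2 hl), h7, h8, Finset.mul_sum, ← Finset.sum_sub_distrib]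
      refine Finset.sum_congr rfl fun b _ => ?_
      split_ifs
      · simp only [Prod.snd_add, Prod.smul_snd, Pi.add_apply, Pi.smul_apply, smul_eq_mul]
        ring
      · ring
    rw [h6]
    have h9 := ((hasDerivAt_id (0 : ℝ)).mul_const
      (∑ b, if m < b then (c.2 b l + c.2 l b) / 2 * p.1.2 b else 0)).const_sub
      (∑ b, if m < b then (eval p.1.1 (pderiv b (pderiv l H)) -
          (p.2.2 b l + p.2.2 l b) / 2) * p.1.2 b else 0)
    simpa using h9
  intro w
  have hne : (fun l : Fin n => if m < l then p.1.2 l else (0 : ℝ)) ≠ 0 := by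
    intro h
    have h1 : (∑ l, if m < l then p.1.2 l * p.1.2 l else 0) = 0 := by
      refine Finset.sum_eq_zero fun l _ => ?_
      have h2 := congrFun h l
      simp only [Pi.zero_apply] at h2
      split_ifs with h3
      · rw [if_pos h3] at h2
        rw [h2, zero_mul]
      · rfl
    rw [h1] at hnorm
    exact zero_ne_one hnorm
  let δz : (Fin n → ℝ) × (Fin n → ℝ) := (fun a => w (Sum.inl a),
    fun l => if l ≤ m then w (Sum.inr l) else w (Sum.inl j) * p.1.2 l / 2)
  obtain ⟨c, hc1, hc2⟩ := exists_quad0 p.1.1 _ hne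
    (fun a => fderiv ℝ (GB2_K H j m y) p (δz, 0) (Sum.inl a) - w (Sum.inl a))
    (fun a => fderiv ℝ (GB2_K H j m y) p (δz, 0) (Sum.inr a) - w (Sum.inr a))
  refine ⟨(δz, c), ?_⟩
  have e6 : ((δz, c) : ((Fin n → ℝ) × (Fin n → ℝ)) × GB2_L n) = (δz, 0) + (0, c) := by simp
  funext q
  rcases q with a | l
  · rcases lt_trichotomy a j with ha | ha | ha
    · rw [e1 _ a ha]
    · subst ha
      rw [e2]
      have h1 : (∑ l, if m < l then 2 * p.1.2 l * δz.2 l else 0) =
          w (Sum.inl a) * ∑ l, if m < l then p.1.2 l * p.1.2 l else 0 := by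
        rw [Finset.mul_sum]
        refine Finset.sum_congr rfl fun l _ => ?_
        split_ifs with hl
        · simp only [δz, if_neg (not_le.2 hl)]
          ring
        · ring
      change (∑ l, if m < l then 2 * p.1.2 l * δz.2 l else 0) = _
      rw [h1, hnorm, mul_one]
    · have h1 := hc1 a
      rw [GB2_B_eq] at h1
      change GB2_B p.1.1 c a = _ at h1
      rw [e6, map_add, Pi.add_apply, e3 c a ha, h1]
      ring
  · by_cases hl : l ≤ m
    · rw [e4 _ l hl]
      simp only [δz, if_pos hl]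
    · have hl' := not_le.1 hl
      have h1 := hc2 l
      have h2 : (∑ b, eval p.1.1 (pderiv l (pderiv b (quad ((0, c) : Par n)))) *
          (if m < b then p.1.2 b else 0)) =
          ∑ b, if m < b then (c.2 b l + c.2 l b) / 2 * p.1.2 b else 0 := by
        refine Finset.sum_congr rfl fun b _ => ?_
        rw [eval_pderiv2_quad]
        split_ifs
        · change (c.2 l b + c.2 b l) / 2 * p.1.2 b = _
          ring
        · ring
      rw [h2] at h1
      rw [e6, map_add, Pi.add_apply, e5 c l hl', h1]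
      ring

/-- At points where all `∂_a G`, `a > j`, vanish, the Hessian in the directions `a > j` is
nondegenerate, almost surely.
Proof: `param_sard` with `Z = W = Fin n → ℝ`, `Λ = Par n`,
`F(x, c) a = if a < j then x a - y a else if a = j then G(x) else ∂_a G(x)`, `G = H - quad c`,
`Ω = univ`; surjectivity by `exists_quad`. For `v` supported on `a > j` with
`∑_b ∂_a ∂_b G v_b = 0` for `a > j`: the derivative of `F(·, c)` at `x` kills `v` (the component
`j` is `∑_b ∂_b G v_b = 0`), so `v = 0`. -/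
theorem gb2a {n : ℕ} (H : MvPolynomial (Fin n) ℝ) (j : Fin n) (y : Fin n → ℝ) :
    ∀ᵐ c : Par n, ∀ x : Fin n → ℝ, (∀ a, a < j → x a = y a) → eval x (H - quad c) = 0 →
      (∀ a, j < a → eval x (pderiv a (H - quad c)) = 0) → ∀ v : Fin n → ℝ,
      (∀ a, a ≤ j → v a = 0) →
      (∀ a, j < a → ∑ b, eval x (pderiv b (pderiv a (H - quad c))) * v b = 0) → v = 0 := by
  have h1 : (MeasureTheory.volume : MeasureTheory.Measure (Fin n → ℝ)).IsAddHaarMeasure :=
    inferInstance
  have h2 : (MeasureTheory.volume :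
      MeasureTheory.Measure (Fin n → Fin n → ℝ)).IsAddHaarMeasure := inferInstance
  have h4 : ((MeasureTheory.volume : MeasureTheory.Measure (Fin n → ℝ)).prod
      (MeasureTheory.volume : MeasureTheory.Measure (Fin n → Fin n → ℝ))).IsAddHaarMeasure :=
    MeasureTheory.Measure.prod.instIsAddHaarMeasure _ _
  have h3 : (MeasureTheory.volume : MeasureTheory.Measure (Par n)).IsAddHaarMeasure := by
    change ((MeasureTheory.volume : MeasureTheory.Measure ℝ).prod
      ((MeasureTheory.volume : MeasureTheory.Measure (Fin n → ℝ)).prod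
      (MeasureTheory.volume : MeasureTheory.Measure (Fin n → Fin n → ℝ)))).IsAddHaarMeasure
    exact MeasureTheory.Measure.prod.instIsAddHaarMeasure _ _
  have key := param_sard (Z := Fin n → ℝ) (W := Fin n → ℝ) (Λ := Par n)
    (MeasureTheory.volume : MeasureTheory.Measure (Par n)) rfl (GB2_F H j y) Set.univ
    isOpen_univ (GB2_F_smooth H j y) (fun p _ _ => GB2_F_surj H j y p)
  filter_upwards [key] with c hc x hx h0 hder v hv hHv
  have hp : ∀ a, eval x (pderiv a (H - quad c)) = eval x (pderiv a H) - GB2_B x c.2 a := by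
    intro a
    rw [map_sub, map_sub, GB2_B_eq]
  refine hc x (Set.mem_univ _) ?_ v ?_
  · funext a
    show (if a < j then x a - y a else if a = j then eval x H - GB2_A x c else
      eval x (pderiv a H) - GB2_B x c.2 a) = 0
    split_ifs with ha ha'
    · rw [hx a ha, sub_self]
    · rw [map_sub, GB2_A_eq] at h0
      exact h0
    · rw [← hp a]
      exact hder a (lt_of_le_of_ne (not_lt.1 ha) (Ne.symm ha'))
  · have hd : DifferentiableAt ℝ (GB2_F H j y) (x, c) :=
      ((GB2_F_smooth H j y).differentiable one_ne_zero) (x, c)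
    funext a
    refine GB2_line hd _ a ?_
    have h7 : ∀ t : ℝ, (x, c) + t • ((v, 0) : (Fin n → ℝ) × Par n) = (x + t • v, c) := by
      intro t
      simp
    rcases lt_trichotomy a j with ha | ha | ha
    · have h6 : (fun t : ℝ => GB2_F H j y ((x, c) + t • ((v, 0) : (Fin n → ℝ) × Par n)) a) =
          fun _ => x a - y a := by
        funext t
        rw [h7]
        unfold GB2_F
        rw [if_pos ha]
        simp [hv a ha.le]
      rw [h6]
      exact hasDerivAt_const _ _
    · subst ha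
      have h6 : (fun t : ℝ => GB2_F H a y ((x, c) + t • ((v, 0) : (Fin n → ℝ) × Par n)) a) =
          fun t => eval (x + t • v) (H - quad c) := by
        funext t
        rw [h7]
        unfold GB2_F
        rw [if_neg (lt_irrefl a), if_pos rfl, map_sub, GB2_A_eq]
      rw [h6]
      refine (GB2_pline (H - quad c) x v).congr_deriv ?_
      refine Finset.sum_eq_zero fun b _ => ?_
      by_cases hb : b ≤ a
      · rw [hv b hb, mul_zero]
      · rw [hder b (not_le.1 hb), zero_mul]
    · have h6 : (fun t : ℝ => GB2_F H j y ((x, c) + t • ((v, 0) : (Fin n → ℝ) × Par n)) a) =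
          fun t => eval (x + t • v) (pderiv a (H - quad c)) := by
        funext t
        rw [h7]
        unfold GB2_F
        rw [if_neg (not_lt.2 ha.le), if_neg ha.ne', map_sub, map_sub, GB2_B_eq]
      rw [h6]
      exact (GB2_pline (pderiv a (H - quad c)) x v).congr_deriv (hHv a ha)

/-- The same for the directions `a > m`.
Proof: by scaling it suffices to exclude `∑ ν_l^2 = 1`. `param_sard0` with
`Z = W = (Fin n → ℝ) × (Fin n → ℝ)`, `z = (x, ν)`, `λ = (b, C)`, `G0 = H - quad (0, λ)`,
`F = (fun a => if a < j then x a - y a else if a = j then (∑_{l>m} ν_l^2) - 1 else ∂_a G0 (x),`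
`fun l => if l ≤ m then ν l else ∑_{l'>m} ∂_{l'} ∂_l G0 (x) ν_{l'})`, `g = eval x G0`, `t = c.1`.
Surjectivity at a zero: choose `δx a = α a` (`a < j`), `δν l = β l` (`l ≤ m`),
`δν l = α_j ν_l / 2` (`l > m`), correct the rest by `exists_quad0` with the vector `ν` restricted
to `l > m` (nonzero at a zero). -/
theorem gb2b {n : ℕ} (H : MvPolynomial (Fin n) ℝ) (j m : Fin n) (hjm : j < m)
    (y : Fin n → ℝ) :
    ∀ᵐ c : Par n, ∀ x : Fin n → ℝ, (∀ a, a < j → x a = y a) → eval x (H - quad c) = 0 →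
      (∀ a, j < a → eval x (pderiv a (H - quad c)) = 0) → ∀ v : Fin n → ℝ,
      (∀ a, a ≤ m → v a = 0) →
      (∀ a, m < a → ∑ b, eval x (pderiv b (pderiv a (H - quad c))) * v b = 0) → v = 0 := by
  have hg : ContDiff ℝ 1 (fun p : ((Fin n → ℝ) × (Fin n → ℝ)) × GB2_L n =>
      eval p.1.1 (H - quad ((0, p.2) : Par n))) := by
    have h1 : ∀ a, ContDiff ℝ 1 (fun p : ((Fin n → ℝ) × (Fin n → ℝ)) × GB2_L n => p.1.1 a) :=
      fun a => (contDiff_apply ℝ ℝ a).comp (contDiff_fst.comp contDiff_fst)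
    have h2 : ∀ a, ContDiff ℝ 1 (fun p : ((Fin n → ℝ) × (Fin n → ℝ)) × GB2_L n => p.2.1 a) :=
      fun a => (contDiff_apply ℝ ℝ a).comp (contDiff_fst.comp contDiff_snd)
    have h3 : ∀ a b, ContDiff ℝ 1
        (fun p : ((Fin n → ℝ) × (Fin n → ℝ)) × GB2_L n => p.2.2 a b) := fun a b =>
      (contDiff_apply_apply ℝ ℝ a b).comp (contDiff_snd.comp contDiff_snd)
    have hf : ContDiff ℝ 1 (fun p : ((Fin n → ℝ) × (Fin n → ℝ)) × GB2_L n => p.1.1) :=
      contDiff_fst.comp contDiff_fst
    simp only [map_sub, eval_quad]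
    refine ((GB2_smooth H).comp hf).sub ?_
    refine (contDiff_const.add (ContDiff.sum fun a _ => (h2 a).mul (h1 a))).add
      (ContDiff.sum fun a _ => ContDiff.sum fun b _ => ?_)
    exact ((h3 a b).div_const 2).mul ((h1 a).mul (h1 b))
  have h1 : (MeasureTheory.volume : MeasureTheory.Measure (Fin n → ℝ)).IsAddHaarMeasure :=
    inferInstance
  have h2 : (MeasureTheory.volume :
      MeasureTheory.Measure (Fin n → Fin n → ℝ)).IsAddHaarMeasure := inferInstance
  have h3 : (MeasureTheory.volume : MeasureTheory.Measure (GB2_L n)).IsAddHaarMeasure := by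
    change ((MeasureTheory.volume : MeasureTheory.Measure (Fin n → ℝ)).prod
      (MeasureTheory.volume : MeasureTheory.Measure (Fin n → Fin n → ℝ))).IsAddHaarMeasure
    infer_instance
  have key := param_sard0 (Z := (Fin n → ℝ) × (Fin n → ℝ)) (W := (Fin n ⊕ Fin n) → ℝ)
    (Λ := GB2_L n) (MeasureTheory.volume : MeasureTheory.Measure (GB2_L n)) (by simp)
    (GB2_K H j m y) Set.univ isOpen_univ (GB2_K_smooth H j m y)
    (fun p _ hp => GB2_K_surj H j m y p hp) _ hg
  change ∀ᵐ c : Par n ∂((MeasureTheory.volume : MeasureTheory.Measure ℝ).prod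
    (MeasureTheory.volume : MeasureTheory.Measure (GB2_L n))), _
  filter_upwards [key] with c hc x hx h0 hder v hv hHv
  by_contra hne
  have hq : quad c = C c.1 + quad ((0, c.2) : Par n) := quad_split c.1 c.2
  have hp : ∀ a, eval x (pderiv a (H - quad c)) = eval x (pderiv a H) - GB2_B x c.2 a := by
    intro a
    rw [map_sub, map_sub, GB2_B_eq]
  set s : ℝ := ∑ l, if m < l then v l * v l else 0 with hs
  have hs0 : 0 < s := by
    rw [hs]
    obtain ⟨l, hl⟩ := Function.ne_iff.1 hne
    have hl' : v l ≠ 0 := hl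
    have hml : m < l := by
      by_contra hcon
      exact hl' (hv l (not_lt.1 hcon))
    refine Finset.sum_pos' (fun l _ => ?_) ⟨l, Finset.mem_univ l, ?_⟩
    · split_ifs
      · exact mul_self_nonneg _
      · exact le_rfl
    · rw [if_pos hml]
      exact mul_self_pos.2 hl'
  have hr : 0 < Real.sqrt s := Real.sqrt_pos.2 hs0
  have hrr : Real.sqrt s * Real.sqrt s = s := Real.mul_self_sqrt hs0.le
  refine hc (x, fun l => v l / Real.sqrt s) (Set.mem_univ _) ?_ ?_
  · funext q
    rcases q with a | l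
    · change (if a < j then x a - y a else
        if a = j then (∑ l, if m < l then v l / Real.sqrt s * (v l / Real.sqrt s) else 0) - 1 else
        eval x (pderiv a H) - GB2_B x c.2 a) = 0
      split_ifs with ha ha'
      · rw [hx a ha, sub_self]
      · have h4 : (∑ l, if m < l then v l / Real.sqrt s * (v l / Real.sqrt s) else 0) = s / s := by
          rw [hs, Finset.sum_div]
          refine Finset.sum_congr rfl fun l _ => ?_
          split_ifs
          · rw [← hs, div_mul_div_comm, hrr]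
          · rw [zero_div]
        rw [h4, div_self hs0.ne', sub_self]
      · rw [← hp a]
        exact hder a (lt_of_le_of_ne (not_lt.1 ha) (Ne.symm ha'))
    · change (if l ≤ m then v l / Real.sqrt s else
        ∑ b, if m < b then (eval x (pderiv b (pderiv l H)) - (c.2.2 b l + c.2.2 l b) / 2) *
          (v b / Real.sqrt s) else 0) = 0
      split_ifs with hl
      · rw [hv l hl, zero_div]
      · have h4 : (∑ b, if m < b then (eval x (pderiv b (pderiv l H)) -
            (c.2.2 b l + c.2.2 l b) / 2) * (v b / Real.sqrt s) else 0) =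
            (∑ b, eval x (pderiv b (pderiv l (H - quad c))) * v b) / Real.sqrt s := by
          rw [Finset.sum_div]
          refine Finset.sum_congr rfl fun b _ => ?_
          have h5 : eval x (pderiv b (pderiv l (H - quad c))) =
              eval x (pderiv b (pderiv l H)) - (c.2.2 b l + c.2.2 l b) / 2 := by
            rw [map_sub, map_sub, map_sub, eval_pderiv2_quad]
          rw [h5]
          split_ifs with hb
          · ring
          · rw [hv b (not_lt.1 hb)]
            ring
        rw [h4, hHv l (not_le.1 hl), zero_div]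
  · show eval x (H - quad ((0, c.2) : Par n)) = c.1
    rw [hq, map_sub, map_add, eval_C] at h0
    rw [map_sub]
    linarith

end Pool.Agent.RM90
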