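import Pool.Agent.Lib.MP_df59e7_lc_X.DefsX
import Pool.Agent.Lib.MP_df59e7_lc_X.GB1
import Pool.Agent.Lib.MP_df59e7_lc_X.GB2
import Pool.Agent.Lib.MP_df59e7_lc_X.FcrD

set_option autoImplicit false

/-! MP_df59e7_lc, project RM2, module GB. -/

namespace Pool.Agent.RM90

open MvPolynomial

private theorem GB_comm {n : ℕ} (i j : Fin n) (p : MvPolynomial (Fin n) ℝ) :
    pderiv i (pderiv j p) = pderiv j (pderiv i p) := by
  have h : ⁅(pderiv i : Derivation ℝ (MvPolynomial (Fin n) ℝ) (MvPolynomial (Fin n) ℝ)),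
      (pderiv j : Derivation ℝ (MvPolynomial (Fin n) ℝ) (MvPolynomial (Fin n) ℝ))⁆ = 0 := by
    apply derivation_ext
    intro k
    have e : ∀ a b : Fin n, pderiv a (pderiv b (X k : MvPolynomial (Fin n) ℝ)) = 0 := by
      intro a b
      by_cases hb : b = k
      · rw [hb, pderiv_X_self, pderiv_one]
      · rw [pderiv_X_of_ne (Ne.symm hb), map_zero]
    rw [Derivation.commutator_apply, e, e, sub_zero]
    rfl
  have h1 := congrArg (fun D => D p) h
  simp only [Derivation.commutator_apply] at h1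
  exact sub_eq_zero.1 h1

private theorem GB_split {n : ℕ} (m : Fin n) (f : Fin n → ℝ) :
    ∑ l, (if m ≤ l then f l else 0) = f m + ∑ l, (if m < l then f l else 0) := by
  have h1 : ∀ l, (if m ≤ l then f l else 0) =
      (if l = m then f l else 0) + (if m < l then f l else 0) := by
    intro l
    rcases lt_trichotomy l m with h | h | h
    · rw [if_neg (not_le.2 h), if_neg h.ne, if_neg (not_lt.2 h.le), add_zero]
    · rw [h, if_pos le_rfl, if_pos rfl, if_neg (lt_irrefl m), add_zero]
    · rw [if_pos h.le, if_neg h.ne', if_pos h, zero_add]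
  rw [Finset.sum_congr rfl fun l _ => h1 l, Finset.sum_add_distrib]
  simp

/-- Almost surely all critical points of `x_j` on the polar set, with their multipliers, are
nondegenerate.
Proof: let `z = (x, μ)` be a zero of `Fcr` and `v = (δx, δμ)` in the kernel. If `μ_l ≠ 0` for some
`l > m` use `gb1`. Otherwise only `μ_m` is nonzero among the `μ_l` (the `l < m` vanish by the
equations): `μ_m ∂_a G(x) = δ_{aj}` for `a ≥ j`; so `μ_m ≠ 0`, `∂_a G(x) = 0` for `a > j`,
`∂_j G(x) ≠ 0`. By `fcr_fderiv`: `δx_a = 0` (`a < j`), `δμ_l = 0` (`l < m`); the equation of index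
`m` gives `∂_j G δx_j = 0`, `δx_j = 0`; those of index `l > m` give `(Hess δx)_l = 0`. The first
components, `a ≥ j`: `δμ_m ∂_a G + μ_m (Hess δx)_a + ∑_{l>m} δμ_l ∂_a ∂_l G = 0`. For `a > m` this
is `∑_{l>m} ∂_a ∂_l G δμ_l = 0`, so `δμ_l = 0` for `l > m` by `gb2b`. Then `(Hess δx)_a = 0` for all
`a > j`, `δx` is supported on `a > j`, so `δx = 0` by `gb2a`. Finally `a = j`: `δμ_m = 0`. (Second
derivatives commute: `MvPolynomial.pderiv_pderiv_comm` or `pderiv_commute`.) -/
theorem gb {n : ℕ} (H : MvPolynomial (Fin n) ℝ) (j m : Fin n) (hjm : j < m)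
    (y : Fin n → ℝ) :
    ∀ᵐ c : Par n, ∀ z : (Fin n → ℝ) × (Fin n → ℝ), Fcr j m (H - quad c) y z = 0 →
      ∀ v, fderiv ℝ (Fcr j m (H - quad c) y) z v = 0 → v = 0 := by
  filter_upwards [gb1 H j m hjm y, gb2a H j y, gb2b H j m hjm y] with c h1 h2a h2b
  intro z hz v hv
  by_cases hμ : ∃ l, m < l ∧ z.2 l ≠ 0
  · exact h1 z hμ hz v hv
  push Not at hμ
  clear h1
  obtain ⟨G, hG⟩ : ∃ G, G = H - quad c := ⟨_, rfl⟩
  rw [← hG] at hz hv h2a h2b
  rw [(fcr_fderiv j m G y z v).2] at hv
  have hz1 : ∀ a, (if a < j then z.1 a - y a else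
      ∑ l, (if m ≤ l then z.2 l * eval z.1 (pderiv a (eqn m G l)) else 0) -
        (if a = j then 1 else 0)) = 0 := fun a => congrFun (congrArg Prod.fst hz) a
  have hz2 : ∀ l, (if l < m then z.2 l else eval z.1 (eqn m G l)) = 0 :=
    fun l => congrFun (congrArg Prod.snd hz) l
  have hv1 : ∀ a, (if a < j then v.1 a else
        ∑ l, (if m ≤ l then v.2 l * eval z.1 (pderiv a (eqn m G l)) +
          z.2 l * ∑ b, eval z.1 (pderiv b (pderiv a (eqn m G l))) * v.1 b else 0)) = 0 :=
    fun a => congrFun (congrArg Prod.fst hv) a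
  have hv2 : ∀ l, (if l < m then v.2 l else
      ∑ b, eval z.1 (pderiv b (eqn m G l)) * v.1 b) = 0 :=
    fun l => congrFun (congrArg Prod.snd hv) l
  have em : eqn m G m = G := if_pos rfl
  have el : ∀ l, m < l → eqn m G l = pderiv l G := fun l hl => if_neg hl.ne'
  have hx : ∀ a, a < j → z.1 a = y a := fun a ha => by
    have := hz1 a
    rw [if_pos ha] at this
    linarith
  have hG0 : eval z.1 G = 0 := by
    have := hz2 m
    rwa [if_neg (lt_irrefl m), em] at this
  have hcomp : ∀ a, j ≤ a → z.2 m * eval z.1 (pderiv a G) = if a = j then 1 else 0 := by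
    intro a ha
    have h3 := hz1 a
    rw [if_neg (not_lt.2 ha), GB_split, em] at h3
    have h4 : ∑ l, (if m < l then z.2 l * eval z.1 (pderiv a (eqn m G l)) else 0) = 0 := by
      refine Finset.sum_eq_zero fun l _ => ?_
      by_cases hl : m < l
      · rw [if_pos hl, hμ l hl, zero_mul]
      · rw [if_neg hl]
    rw [h4] at h3
    linarith
  have hj1 : z.2 m * eval z.1 (pderiv j G) = 1 := by
    have := hcomp j le_rfl
    rwa [if_pos rfl] at this
  have hm0 : z.2 m ≠ 0 := by
    intro h3
    rw [h3, zero_mul] at hj1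
    exact zero_ne_one hj1
  have hj0 : eval z.1 (pderiv j G) ≠ 0 := by
    intro h3
    rw [h3, mul_zero] at hj1
    exact zero_ne_one hj1
  have ha0 : ∀ a, j < a → eval z.1 (pderiv a G) = 0 := by
    intro a ha
    have := hcomp a ha.le
    rw [if_neg ha.ne'] at this
    exact (mul_eq_zero.1 this).resolve_left hm0
  -- the kernel vector
  have hx1 : ∀ a, a < j → v.1 a = 0 := fun a ha => by
    have := hv1 a
    rwa [if_pos ha] at this
  have hμ1 : ∀ l, l < m → v.2 l = 0 := fun l hl => by
    have := hv2 l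
    rwa [if_pos hl] at this
  have hxj : v.1 j = 0 := by
    have h3 := hv2 m
    rw [if_neg (lt_irrefl m), em, Finset.sum_eq_single j] at h3
    · exact (mul_eq_zero.1 h3).resolve_left hj0
    · intro b _ hb
      rcases lt_or_gt_of_ne hb with h4 | h4
      · rw [hx1 b h4, mul_zero]
      · rw [ha0 b h4, zero_mul]
    · intro h4
      exact absurd (Finset.mem_univ j) h4
  have hHl : ∀ l, m < l → ∑ b, eval z.1 (pderiv b (pderiv l G)) * v.1 b = 0 := by
    intro l hl
    have h3 := hv2 l
    rwa [if_neg (not_lt.2 hl.le), el l hl] at h3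
  have hfirst : ∀ a, j ≤ a → v.2 m * eval z.1 (pderiv a G) +
      z.2 m * ∑ b, eval z.1 (pderiv b (pderiv a G)) * v.1 b +
      ∑ l, (if m < l then v.2 l * eval z.1 (pderiv a (pderiv l G)) else 0) = 0 := by
    intro a ha
    have h3 := hv1 a
    rw [if_neg (not_lt.2 ha), GB_split, em] at h3
    refine Eq.trans ?_ h3
    congr 1
    refine Finset.sum_congr rfl fun l _ => ?_
    by_cases hl : m < l
    · rw [if_pos hl, if_pos hl, hμ l hl, zero_mul, add_zero, el l hl]
    · rw [if_neg hl, if_neg hl]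
  have hμ2 : ∀ l, m < l → v.2 l = 0 := by
    have h3 := h2b z.1 hx hG0 ha0 (fun l => if m < l then v.2 l else 0)
      (fun a ha => if_neg (not_lt.2 ha)) (fun a ha => by
        have h4 := hfirst a (hjm.trans ha).le
        rw [ha0 a (hjm.trans ha), hHl a ha, mul_zero, mul_zero, zero_add, zero_add] at h4
        refine Eq.trans (Finset.sum_congr rfl fun l _ => ?_) h4
        by_cases hl : m < l
        · rw [if_pos hl, if_pos hl, GB_comm l a, mul_comm]
        · rw [if_neg hl, if_neg hl, mul_zero])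
    intro l hl
    have h4 := congrFun h3 l
    simpa [hl] using h4
  have hrest : ∀ a, ∑ l, (if m < l then v.2 l * eval z.1 (pderiv a (pderiv l G)) else 0) = 0 := by
    intro a
    refine Finset.sum_eq_zero fun l _ => ?_
    by_cases hl : m < l
    · rw [if_pos hl, hμ2 l hl, zero_mul]
    · rw [if_neg hl]
  have hv10 : v.1 = 0 := by
    refine h2a z.1 hx hG0 ha0 v.1 (fun a ha => ?_) (fun a ha => ?_)
    · rcases lt_or_eq_of_le ha with h3 | h3
      · exact hx1 a h3
      · rw [h3]
        exact hxj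
    · have h4 := hfirst a ha.le
      rw [ha0 a ha, hrest, mul_zero, zero_add, add_zero] at h4
      exact (mul_eq_zero.1 h4).resolve_left hm0
  have hμm : v.2 m = 0 := by
    have h4 := hfirst j le_rfl
    rw [hrest, hv10] at h4
    simp only [Pi.zero_apply, mul_zero, Finset.sum_const_zero, add_zero] at h4
    exact (mul_eq_zero.1 h4).resolve_right hj0
  refine Prod.ext hv10 (funext fun l => ?_)
  rcases lt_trichotomy l m with h3 | h3 | h3
  · exact hμ1 l h3
  · rw [h3]
    exact hμm
  · exact hμ2 l h3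

end Pool.Agent.RM90
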