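import Pool.Agent.Lib.MP_df59e7_lc_X.DefsX

set_option autoImplicit false

/-! MP_df59e7_lc, project RM2, module Lagr. -/

namespace Pool.Agent.RM90

open MvPolynomial

private theorem Lagr_str {n : ℕ} (p : MvPolynomial (Fin n) ℝ) (x : Fin n → ℝ) :
    HasStrictFDerivAt (fun x : Fin n → ℝ => eval x p) (Warren46.gradL p x) x := by
  have h1 : AnalyticAt ℝ (fun x : Fin n → ℝ => eval x p) x :=
    AnalyticOnNhd.eval_continuousLinearMap (ContinuousLinearMap.id ℝ (Fin n → ℝ)) p x
      (Set.mem_univ x)
  have h2 := h1.hasStrictFDerivAt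
  rwa [(Warren46.hasFDerivAt_eval p x).fderiv] at h2

/-- Lagrange multipliers: a local minimum of `x_j` on the polar set at which the set is regular
is a critical point.
Proof: near `x` the set is the common zero set of the functions `x_a - y_a` (`a < j`) and
`eqn m G l` (`l ≥ m`). `IsLocalExtrOn.exists_multipliers_of_hasStrictFDerivAt` (polynomials have
strict derivatives) gives multipliers, not all zero, `Λ0` for the function `x_j`. Restricting to
the coordinates `a ≥ j` and using `RegAt`, `Λ0 ≠ 0` (if `Λ0 = 0` then the multipliers of the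
`eqn m G l` vanish by `RegAt`, and then those of the `x_a`, `a < j`, by looking at the
coordinate `a`). Divide by `-Λ0`. -/
theorem lagr {n : ℕ} (U : Set (Fin n → ℝ)) (hU : IsOpen U) (j m : Fin n) (hjm : j < m)
    (G : MvPolynomial (Fin n) ℝ) (y x : Fin n → ℝ) (hr : RegAt j m G x)
    (hx : LM (Wst U j m G y) (fun x => x j) x) : ∃ μ, CritP j m G x μ := by
  obtain ⟨⟨hxU, hxy, hx0⟩, ε, hε, hmin⟩ := hx
  let q : Fin n → MvPolynomial (Fin n) ℝ := fun l => if l < j then X l else eqn m G l
  have hq1 : ∀ l, l < j → q l = X l := fun l hl => if_pos hl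
  have hq2 : ∀ l, m ≤ l → q l = eqn m G l := fun l hl => if_neg (not_lt.2 (hjm.le.trans hl))
  have hext : IsLocalExtrOn (fun x' : Fin n → ℝ => x' j)
      {x' | ∀ l : {l : Fin n // l < j ∨ m ≤ l}, eval x' (q l.1) = eval x (q l.1)} x := by
    left
    filter_upwards [mem_nhdsWithin_of_mem_nhds (hU.mem_nhds hxU),
      mem_nhdsWithin_of_mem_nhds (Metric.ball_mem_nhds x hε), self_mem_nhdsWithin]
      with x' h1 h2 h3
    refine hmin x' ⟨h1, ?_, ?_⟩ h2
    · intro a ha
      have h4 := h3 ⟨a, Or.inl ha⟩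
      simp only [hq1 a ha, eval_X] at h4
      rw [h4]
      exact hxy a ha
    · intro l hl
      have h4 := h3 ⟨l, Or.inr hl⟩
      simp only [hq2 l hl] at h4
      rw [h4]
      exact hx0 l hl
  obtain ⟨Λ, Λ₀, hne, hsum⟩ := hext.exists_multipliers_of_hasStrictFDerivAt
    (fun l => Lagr_str (q l.1) x)
    (ContinuousLinearMap.proj (R := ℝ) (φ := fun _ : Fin n => ℝ) j).hasStrictFDerivAt
  -- the multipliers on all indices
  let ν : Fin n → ℝ := fun l => if h : l < j ∨ m ≤ l then Λ ⟨l, h⟩ else 0
  have hν : ∀ l : {l : Fin n // l < j ∨ m ≤ l}, Λ l = ν l.1 := by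
    intro l
    simp only [ν, dif_pos l.2]
  have hev : ∀ a : Fin n, (∑ l : Fin n, (if l < j ∨ m ≤ l then
      ν l * eval x (pderiv a (q l)) else 0)) + Λ₀ * (if a = j then 1 else 0) = 0 := by
    intro a
    have h1 := congrArg (fun L : (Fin n → ℝ) →L[ℝ] ℝ => L (Pi.single a 1)) hsum
    simp only [add_apply, sum_apply, smul_apply, smul_eq_mul, Warren46.gradL_apply,
      ContinuousLinearMap.proj_apply, zero_apply] at h1
    have h2 : ∀ l : {l : Fin n // l < j ∨ m ≤ l},
        Λ l * ∑ i, eval x (pderiv i (q l.1)) * (Pi.single a (1 : ℝ) : Fin n → ℝ) i =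
        ν l.1 * eval x (pderiv a (q l.1)) := by
      intro l
      rw [hν, Finset.sum_eq_single a]
      · rw [Pi.single_eq_same, mul_one]
      · intro b _ hb
        rw [Pi.single_eq_of_ne hb, mul_zero]
      · intro h
        exact absurd (Finset.mem_univ a) h
    simp only [h2] at h1
    have h3 : (Pi.single a (1 : ℝ) : Fin n → ℝ) j = if a = j then 1 else 0 := by
      by_cases h : a = j
      · rw [if_pos h, h, Pi.single_eq_same]
      · rw [if_neg h, Pi.single_eq_of_ne (Ne.symm h)]
    rw [h3] at h1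
    refine Eq.trans ?_ h1
    congr 1
    rw [← Finset.sum_filter]
    exact Finset.sum_subtype _ (fun l => by simp) _
  have hmain : ∀ a, j ≤ a → ∑ l, (if m ≤ l then ν l * eval x (pderiv a (eqn m G l)) else 0) =
      -Λ₀ * (if a = j then 1 else 0) := by
    intro a ha
    have h1 : ∀ l, (if l < j ∨ m ≤ l then ν l * eval x (pderiv a (q l)) else 0) =
        if m ≤ l then ν l * eval x (pderiv a (eqn m G l)) else 0 := by
      intro l
      by_cases hl : m ≤ l
      · rw [if_pos (Or.inr hl), if_pos hl, hq2 l hl]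
      · by_cases hl' : l < j
        · rw [if_pos (Or.inl hl'), if_neg hl, hq1 l hl', pderiv_X_of_ne (hl'.trans_le ha).ne,
            map_zero, mul_zero]
        · rw [if_neg (by tauto), if_neg hl]
    have h2 := hev a
    simp only [h1] at h2
    linarith
  have hΛ : Λ₀ ≠ 0 := by
    intro h0
    apply hne
    have h1 : ∀ l, m ≤ l → ν l = 0 := by
      refine hr ν fun a ha => ?_
      rw [hmain a ha, h0]
      simp
    have h2 : ∀ l, l < j → ν l = 0 := by
      intro a ha
      have h3 := hev a
      rw [Finset.sum_eq_single a] at h3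
      · rw [if_pos (Or.inl ha), hq1 a ha, pderiv_X_self, map_one, h0] at h3
        linarith
      · intro l _ hla
        by_cases hl : m ≤ l
        · rw [h1 l hl]
          simp
        · by_cases hl' : l < j
          · rw [hq1 l hl', pderiv_X_of_ne hla, map_zero, mul_zero]
            simp
          · rw [if_neg (by tauto)]
      · intro h
        exact absurd (Finset.mem_univ a) h
    rw [Prod.mk_eq_zero]
    refine ⟨?_, h0⟩
    funext l
    rw [hν]
    rcases l.2 with h | h
    · exact h2 _ h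
    · exact h1 _ h
  refine ⟨fun l => if m ≤ l then -(ν l / Λ₀) else 0, fun l hl => if_neg (not_le.2 hl),
    fun a ha => ?_⟩
  have h1 : ∀ l, (if m ≤ l then (if m ≤ l then -(ν l / Λ₀) else 0) *
      eval x (pderiv a (eqn m G l)) else 0) =
      (-1 / Λ₀) * (if m ≤ l then ν l * eval x (pderiv a (eqn m G l)) else 0) := by
    intro l
    split_ifs
    · ring
    · ring
  simp only [h1]
  rw [← Finset.mul_sum, hmain a ha]
  field_simp

/-- Multipliers are unique. -/
theorem critP_unique {n : ℕ} (j m : Fin n) (G : MvPolynomial (Fin n) ℝ) (x μ μ' : Fin n → ℝ)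
    (hr : RegAt j m G x) (h : CritP j m G x μ) (h' : CritP j m G x μ') : μ = μ' := by
  funext l
  by_cases hl : m ≤ l
  · have h1 := hr (fun l => μ l - μ' l) (fun a ha => by
      have h2 := h.2 a ha
      rw [← h'.2 a ha, ← sub_eq_zero, ← Finset.sum_sub_distrib] at h2
      refine Eq.trans (Finset.sum_congr rfl fun i _ => ?_) h2
      split_ifs
      · ring
      · ring) l hl
    exact sub_eq_zero.1 h1
  · rw [h.1 l (not_le.1 hl), h'.1 l (not_le.1 hl)]

/-- The linear system for the multipliers. -/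
private noncomputable def Lagr_T {n : ℕ} (j m : Fin n) (G : MvPolynomial (Fin n) ℝ)
    (x : Fin n → ℝ) : (Fin n → ℝ) →ₗ[ℝ] (Fin n → ℝ) × (Fin n → ℝ) where
  toFun ν := (fun l => if l < m then ν l else 0, fun a => if j ≤ a then
    ∑ l, (if m ≤ l then ν l * eval x (pderiv a (eqn m G l)) else 0) else 0)
  map_add' ν ν' := by
    refine Prod.ext (funext fun l => ?_) (funext fun a => ?_)
    · simp only [Prod.fst_add, Pi.add_apply]
      split_ifs
      · rfl
      · rw [add_zero]
    · simp only [Prod.snd_add, Pi.add_apply]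
      split_ifs
      · rw [← Finset.sum_add_distrib]
        refine Finset.sum_congr rfl fun i _ => ?_
        split_ifs
        · ring
        · ring
      · rw [add_zero]
  map_smul' c ν := by
    refine Prod.ext (funext fun l => ?_) (funext fun a => ?_)
    · simp only [Prod.smul_fst, Pi.smul_apply, smul_eq_mul, RingHom.id_apply]
      split_ifs
      · rfl
      · rw [mul_zero]
    · simp only [Prod.smul_snd, Pi.smul_apply, smul_eq_mul, RingHom.id_apply]
      split_ifs
      · rw [Finset.mul_sum]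
        refine Finset.sum_congr rfl fun i _ => ?_
        split_ifs
        · ring
        · ring
      · rw [mul_zero]

private theorem Lagr_T_eq {n : ℕ} {j m : Fin n} {G : MvPolynomial (Fin n) ℝ}
    {x μ : Fin n → ℝ} (h : CritP j m G x μ) :
    Lagr_T j m G x μ = (0, fun a => if a = j then 1 else 0) := by
  refine Prod.ext (funext fun l => ?_) (funext fun a => ?_)
  · change (if l < m then μ l else 0) = 0
    split_ifs with hl
    · exact h.1 l hl
    · rfl
  · change (if j ≤ a then ∑ l, (if m ≤ l then μ l * eval x (pderiv a (eqn m G l)) else 0)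
      else 0) = if a = j then 1 else 0
    by_cases ha : j ≤ a
    · rw [if_pos ha, h.2 a ha]
    · rw [if_neg ha, if_neg]
      rintro rfl
      exact ha le_rfl

private theorem Lagr_T_inj {n : ℕ} {j m : Fin n} {G : MvPolynomial (Fin n) ℝ}
    {x : Fin n → ℝ} (hr : RegAt j m G x) : LinearMap.ker (Lagr_T j m G x) = ⊥ := by
  rw [LinearMap.ker_eq_bot']
  intro ν hν
  have h1 : ∀ l, (if l < m then ν l else 0) = 0 := fun l => congrFun (congrArg Prod.fst hν) l
  have h2 : ∀ a, (if j ≤ a then
      ∑ l, (if m ≤ l then ν l * eval x (pderiv a (eqn m G l)) else 0) else 0) = 0 :=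
    fun a => congrFun (congrArg Prod.snd hν) a
  have h3 := hr ν fun a ha => by
    have h4 := h2 a
    rwa [if_pos ha] at h4
  funext l
  by_cases hl : m ≤ l
  · exact h3 l hl
  · have h4 := h1 l
    rwa [if_pos (not_le.1 hl)] at h4

private theorem Lagr_T_diff {n : ℕ} (j m : Fin n) (G : MvPolynomial (Fin n) ℝ)
    (x x' ν : Fin n → ℝ) : ‖Lagr_T j m G x ν - Lagr_T j m G x' ν‖ ≤
      (∑ a, ∑ l, |eval x (pderiv a (eqn m G l)) - eval x' (pderiv a (eqn m G l))|) * ‖ν‖ := by
  have h0 : ∀ a, 0 ≤ ∑ l, |eval x (pderiv a (eqn m G l)) - eval x' (pderiv a (eqn m G l))| :=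
    fun a => Finset.sum_nonneg fun l _ => abs_nonneg _
  have h1 : 0 ≤ (∑ a, ∑ l, |eval x (pderiv a (eqn m G l)) -
      eval x' (pderiv a (eqn m G l))|) * ‖ν‖ :=
    mul_nonneg (Finset.sum_nonneg fun a _ => h0 a) (norm_nonneg _)
  rw [Prod.norm_def]
  refine max_le ?_ ?_
  · have h2 : (Lagr_T j m G x ν - Lagr_T j m G x' ν).1 = 0 := by
      change (fun l => if l < m then ν l else 0) - (fun l => if l < m then ν l else 0) = 0
      rw [sub_self]
    rw [h2, norm_zero]
    exact h1
  · rw [pi_norm_le_iff_of_nonneg h1]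
    intro a
    have h2 : (Lagr_T j m G x ν - Lagr_T j m G x' ν).2 a =
        (if j ≤ a then ∑ l, (if m ≤ l then ν l * eval x (pderiv a (eqn m G l)) else 0)
          else 0) -
        (if j ≤ a then ∑ l, (if m ≤ l then ν l * eval x' (pderiv a (eqn m G l)) else 0)
          else 0) := rfl
    rw [h2]
    by_cases ha : j ≤ a
    · rw [if_pos ha, if_pos ha, ← Finset.sum_sub_distrib]
      refine (norm_sum_le _ _).trans ?_
      have h3 : ∀ l, ‖(if m ≤ l then ν l * eval x (pderiv a (eqn m G l)) else 0) -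
          (if m ≤ l then ν l * eval x' (pderiv a (eqn m G l)) else 0)‖ ≤
          |eval x (pderiv a (eqn m G l)) - eval x' (pderiv a (eqn m G l))| * ‖ν‖ := by
        intro l
        split_ifs
        · rw [← mul_sub, norm_mul, mul_comm]
          exact mul_le_mul_of_nonneg_left (norm_le_pi_norm ν l) (norm_nonneg _)
        · rw [sub_zero, norm_zero]
          exact mul_nonneg (abs_nonneg _) (norm_nonneg _)
      refine (Finset.sum_le_sum fun l _ => h3 l).trans ?_
      rw [← Finset.sum_mul]
      refine mul_le_mul_of_nonneg_right ?_ (norm_nonneg _)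
      exact Finset.single_le_sum (f := fun a => ∑ l, |eval x (pderiv a (eqn m G l)) -
        eval x' (pderiv a (eqn m G l))|) (fun a _ => h0 a) (Finset.mem_univ a)
    · rw [if_neg ha, if_neg ha, sub_zero, norm_zero]
      exact h1

/-- Multipliers depend continuously on the point.
Proof: by regularity the linear map `μ ↦ (∑_{l≥m} μ_l ∂_a(eqn l)(x))_{a ≥ j}` on the vectors
supported on `l ≥ m` is injective, so `‖μ‖ ≤ K ‖image‖`; for `x_k` near `x` the operators are
close, so `‖μ_k‖ ≤ 2 K` eventually; every limit point of `μ_k` satisfies `CritP` at `x`, so it is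
`μ`. -/
theorem critP_tendsto {n : ℕ} (j m : Fin n) (G : MvPolynomial (Fin n) ℝ) (x μ : Fin n → ℝ)
    (hr : RegAt j m G x) (h : CritP j m G x μ) (xs μs : ℕ → Fin n → ℝ)
    (hs : ∀ k, CritP j m G (xs k) (μs k))
    (hx : Filter.Tendsto xs Filter.atTop (nhds x)) :
    Filter.Tendsto μs Filter.atTop (nhds μ) := by
  obtain ⟨K, hK0, hK⟩ := (Lagr_T j m G x).exists_antilipschitzWith (Lagr_T_inj hr)
  have hε : Filter.Tendsto (fun k => ∑ a, ∑ l, |eval x (pderiv a (eqn m G l)) -
      eval (xs k) (pderiv a (eqn m G l))|) Filter.atTop (nhds 0) := by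
    have h1 : ∀ p : MvPolynomial (Fin n) ℝ,
        Filter.Tendsto (fun k => |eval x p - eval (xs k) p|) Filter.atTop (nhds 0) := by
      intro p
      have h2 : Filter.Tendsto (fun k => eval (xs k) p) Filter.atTop (nhds (eval x p)) :=
        ((MvPolynomial.continuous_eval p).tendsto x).comp hx
      have h3 := (tendsto_const_nhds (x := eval x p)).sub h2
      rw [sub_self] at h3
      have h4 := h3.abs
      rwa [abs_zero] at h4
    have h5 := tendsto_finsetSum (Finset.univ : Finset (Fin n)) fun a _ =>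
      tendsto_finsetSum (Finset.univ : Finset (Fin n)) fun l _ =>
        h1 (pderiv a (eqn m G l))
    simpa using h5
  have hbd : ∀ k, ‖μs k - μ‖ ≤ K * (∑ a, ∑ l, |eval x (pderiv a (eqn m G l)) -
      eval (xs k) (pderiv a (eqn m G l))|) * ‖μs k‖ := by
    intro k
    have h1 := hK.le_mul_dist (μs k) μ
    rw [dist_eq_norm, dist_eq_norm, Lagr_T_eq h, ← Lagr_T_eq (hs k)] at h1
    have h2 := Lagr_T_diff j m G x (xs k) (μs k)
    calc ‖μs k - μ‖ ≤ K * ‖Lagr_T j m G x (μs k) - Lagr_T j m G (xs k) (μs k)‖ := h1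
      _ ≤ K * ((∑ a, ∑ l, |eval x (pderiv a (eqn m G l)) -
          eval (xs k) (pderiv a (eqn m G l))|) * ‖μs k‖) :=
        mul_le_mul_of_nonneg_left h2 K.coe_nonneg
      _ = _ := by ring
  have hKε : Filter.Tendsto (fun k => (K : ℝ) * ∑ a, ∑ l, |eval x (pderiv a (eqn m G l)) -
      eval (xs k) (pderiv a (eqn m G l))|) Filter.atTop (nhds 0) := by
    have h1 := hε.const_mul (K : ℝ)
    rwa [mul_zero] at h1
  rw [tendsto_iff_norm_sub_tendsto_zero]
  have hup := (hKε.const_mul 2).mul_const ‖μ‖
  rw [mul_zero, zero_mul] at hup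
  refine squeeze_zero' (Filter.Eventually.of_forall fun k => norm_nonneg _) ?_ hup
  have hev : ∀ᶠ k in Filter.atTop, (K : ℝ) * ∑ a, ∑ l, |eval x (pderiv a (eqn m G l)) -
      eval (xs k) (pderiv a (eqn m G l))| < 1 / 2 :=
    hKε.eventually_lt_const (by norm_num)
  filter_upwards [hev] with k hk
  have h1 := hbd k
  have h2 : ‖μs k‖ ≤ ‖μs k - μ‖ + ‖μ‖ := by
    calc ‖μs k‖ = ‖(μs k - μ) + μ‖ := by rw [sub_add_cancel]
      _ ≤ _ := norm_add_le _ _
  have h3 : (0 : ℝ) ≤ (K : ℝ) * ∑ a, ∑ l, |eval x (pderiv a (eqn m G l)) -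
      eval (xs k) (pderiv a (eqn m G l))| :=
    mul_nonneg K.coe_nonneg
      (Finset.sum_nonneg fun a _ => Finset.sum_nonneg fun l _ => abs_nonneg _)
  have h4 := mul_le_mul_of_nonneg_left h2 h3
  have h5 : 0 ≤ ‖μs k - μ‖ := norm_nonneg _
  nlinarith

end Pool.Agent.RM90
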