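import Pool.Agent.Lib.MP_df59e7_lc_X.DefsX
import Pool.Agent.Lib.MP_df59e7_lc_X.Lagr
import Pool.Agent.Lib.MP_df59e7_lc_X.FcrD

set_option autoImplicit false

/-! MP_df59e7_lc, project RM2, module IsoS. -/

namespace Pool.Agent.RM90

open MvPolynomial

private theorem IsoS_zero {n : ℕ} {U : Set (Fin n → ℝ)} {j m : Fin n}
    {G : MvPolynomial (Fin n) ℝ} {y x μ : Fin n → ℝ} (hx : x ∈ Wst U j m G y)
    (hμ : CritP j m G x μ) : Fcr j m G y (x, μ) = 0 := by
  unfold Fcr
  refine Prod.ext (funext fun a => ?_) (funext fun l => ?_)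
  · show (if a < j then x a - y a else
      ∑ l, (if m ≤ l then μ l * eval x (pderiv a (eqn m G l)) else 0) -
        (if a = j then 1 else 0)) = 0
    split_ifs with h1 h2
    · rw [hx.2.1 a h1, sub_self]
    · rw [hμ.2 a (not_lt.1 h1), if_pos h2, sub_self]
    · rw [hμ.2 a (not_lt.1 h1), if_neg h2, sub_self]
  · show (if l < m then μ l else eval x (eqn m G l)) = 0
    split_ifs with h1
    · exact hμ.1 l h1
    · exact hx.2.2 l (not_lt.1 h1)

/-- Strictness of local minima from nondegeneracy.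
Proof: let `x` be a local minimum (within `ε`). If it is not strict there are points
`x_k ∈ Wst`, `x_k ≠ x`, `x_k → x`, `(x_k)_j ≤ x_j`; for large `k` they are local minima too (with
the same value, within `ε/2`). `lagr` gives multipliers `μ` of `x`, `μ_k` of `x_k`;
`critP_tendsto`: `μ_k → μ`. `(x, μ)` and `(x_k, μ_k)` are zeros of `Fcr j m G y`, which has an
injective, so bijective, strict derivative at `(x, μ)` (`fcr_contDiff`, finite dimension), so it
is injective near `(x, μ)`: `x_k = x` for large `k`, contradiction. -/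
theorem iso_str {n : ℕ} (U : Set (Fin n → ℝ)) (hU : IsOpen U) (j m : Fin n) (hjm : j < m)
    (G : MvPolynomial (Fin n) ℝ) (y : Fin n → ℝ)
    (hr : ∀ x ∈ Wst Set.univ j m G y, RegAt j m G x)
    (hnd : ∀ z, Fcr j m G y z = 0 → ∀ v, fderiv ℝ (Fcr j m G y) z v = 0 → v = 0)
    (x : Fin n → ℝ) (hx : LM (Wst U j m G y) (fun x => x j) x) :
    SLM (Wst U j m G y) (fun x => x j) x := by
  have hreg : ∀ x ∈ Wst U j m G y, RegAt j m G x := fun x hx =>
    hr x ⟨Set.mem_univ _, hx.2.1, hx.2.2⟩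
  by_contra hcon
  obtain ⟨hxE, ε, hε, hmin⟩ := hx
  have hseq : ∀ k : ℕ, ∃ w ∈ Wst U j m G y, dist w x < min (ε / 2) (1 / ((k : ℝ) + 1)) ∧
      w ≠ x ∧ w j ≤ x j := by
    intro k
    by_contra h
    push Not at h
    exact hcon ⟨hxE, min (ε / 2) (1 / ((k : ℝ) + 1)), lt_min (by linarith) (by positivity),
      fun w hw hd hne => h w hw hd hne⟩
  choose xs hxs hxd hxne hxj using hseq
  have hlim : Filter.Tendsto xs Filter.atTop (nhds x) := by
    rw [tendsto_iff_dist_tendsto_zero]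
    refine squeeze_zero (fun k => dist_nonneg) (fun k => ((hxd k).le.trans (min_le_right _ _)))
      tendsto_one_div_add_atTop_nhds_zero_nat
  have hLM : ∀ k, LM (Wst U j m G y) (fun x => x j) (xs k) := by
    intro k
    refine ⟨hxs k, ε / 2, by linarith, fun w hw hd => ?_⟩
    have h1 : dist w x < ε := by
      have h2 := dist_triangle w (xs k) x
      have h3 := (hxd k).trans_le (min_le_left _ _)
      linarith
    exact (hxj k).trans (hmin w hw h1)
  obtain ⟨μ, hμ⟩ := lagr U hU j m hjm G y x (hreg x hxE) ⟨hxE, ε, hε, hmin⟩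
  have hμs := fun k => lagr U hU j m hjm G y (xs k) (hreg _ (hxs k)) (hLM k)
  choose μs hμs using hμs
  have hμlim := critP_tendsto j m G x μ (hreg x hxE) hμ xs μs hμs hlim
  have hz : Fcr j m G y (x, μ) = 0 := IsoS_zero hxE hμ
  have hzs : ∀ k, Fcr j m G y (xs k, μs k) = 0 := fun k => IsoS_zero (hxs k) (hμs k)
  have hst : HasStrictFDerivAt (Fcr j m G y) (fderiv ℝ (Fcr j m G y) (x, μ)) (x, μ) :=
    ((fcr_contDiff j m G y).contDiffAt).hasStrictFDerivAt (by simp)
  have hker : LinearMap.ker ((fderiv ℝ (Fcr j m G y) (x, μ) :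
      (Fin n → ℝ) × (Fin n → ℝ) →L[ℝ] (Fin n → ℝ) × (Fin n → ℝ)) :
      (Fin n → ℝ) × (Fin n → ℝ) →ₗ[ℝ] (Fin n → ℝ) × (Fin n → ℝ)) = ⊥ := by
    rw [LinearMap.ker_eq_bot']
    intro v hv
    exact hnd _ hz v hv
  obtain ⟨K, hK, hKa⟩ := LinearMap.exists_antilipschitzWith _ hker
  have hK' : (0 : ℝ) < K := hK
  have hpair : Filter.Tendsto (fun k => ((xs k, μs k), (x, μ))) Filter.atTop
      (nhds ((x, μ), (x, μ))) :=
    (hlim.prodMk_nhds hμlim).prodMk_nhds tendsto_const_nhds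
  have hsmall := hpair.eventually (hst.isLittleO.def (c := 1 / (2 * K)) (by positivity))
  obtain ⟨k, hk⟩ := hsmall.exists
  dsimp only at hk
  rw [hzs k, hz, sub_zero, zero_sub, norm_neg] at hk
  have h1 := hKa.le_mul_dist ((xs k, μs k) - (x, μ)) 0
  rw [dist_zero_right, map_zero, dist_zero_right] at h1
  have h2 : (K : ℝ) * ‖fderiv ℝ (Fcr j m G y) (x, μ) ((xs k, μs k) - (x, μ))‖ ≤
      ‖(xs k, μs k) - (x, μ)‖ / 2 := by
    calc (K : ℝ) * ‖fderiv ℝ (Fcr j m G y) (x, μ) ((xs k, μs k) - (x, μ))‖ ≤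
          K * (1 / (2 * K) * ‖(xs k, μs k) - (x, μ)‖) := mul_le_mul_of_nonneg_left hk hK'.le
      _ = ‖(xs k, μs k) - (x, μ)‖ / 2 := by field_simp
  have h3 : ‖(xs k, μs k) - (x, μ)‖ ≤ ‖(xs k, μs k) - (x, μ)‖ / 2 := h1.trans h2
  have h4 : ‖(xs k, μs k) - (x, μ)‖ = 0 := by
    have h5 := norm_nonneg ((xs k, μs k) - (x, μ))
    linarith
  have h5 := sub_eq_zero.1 (norm_eq_zero.1 h4)
  exact hxne k (congrArg Prod.fst h5)

end Pool.Agent.RM90
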