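import Pool.Agent.Lib.MP_df59e7_lc_X.DefsX
import Pool.Agent.Lib.MP_df59e7_lc_X.QuadA
import Pool.Agent.Lib.MP_df59e7_lc.InitA

set_option autoImplicit false

/-! MP_df59e7_lc, project RM2, module InitQ1. -/

namespace Pool.Agent.RM90

open MvPolynomial

/-- Compactness of the initial hypersurface.
Proof: as `init_cpt` in Lib/MP_df59e7_lc/InitC.lean. The set is
`{y ∈ K | eval y (QQ P ε) = eval y (quad c)}` with `K = {y | -ε ≤ P_i, ‖x‖ ≤ R0, |z| ≤ R1}`: on `K`
with this equation, if `P_i = -ε` for some `i` then `QQ = -z^2 ≤ 0 < quad`; `‖x‖ = R0` is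
impossible by `hε`; if `|z| = R1` then `QQ ≤ Mx - R1^2 < 0 < quad`. (For `a < 0` there is no
condition, and `Fin.last k ≤ l` means `l = Fin.last k`, where `eqn` is the polynomial itself.) -/
theorem initQ_cpt {k s : ℕ} (P : Fin s → MvPolynomial (Fin k) ℝ) (ε R0 R1 Mx : ℝ)
    (hε0 : 0 < ε) (hε : ∀ x : Fin k → ℝ, ‖x‖ = R0 → ∃ i, eval x (P i) < -ε) (hM1 : 1 ≤ Mx)
    (hMx : ∀ x : Fin k → ℝ, ‖x‖ ≤ R0 → ∏ i, (eval x (P i) + ε) ≤ Mx) (hR1 : R1 = 2 * Mx + 3)
    (c : Par (k + 1))
    (hc : ∀ x : Fin (k + 1) → ℝ, (∀ j, |x j| ≤ max R0 R1) → 0 < eval x (quad c)) :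
    IsCompact (Wst (UU P ε R0 R1) 0 (Fin.last k) (QQ P ε - quad c) 0) := by
  have hpr : Continuous fun y : Fin (k + 1) → ℝ => (fun j : Fin k => y j.castSucc) :=
    continuous_pi fun _ => continuous_apply _
  have hE : Wst (UU P ε R0 R1) 0 (Fin.last k) (QQ P ε - quad c) 0 =
      {y | (∀ i, -ε ≤ eval (fun j : Fin k => y j.castSucc) (P i)) ∧
        ‖(fun j : Fin k => y j.castSucc)‖ ≤ R0 ∧ |y (Fin.last k)| ≤ R1 ∧
        eval y (QQ P ε - quad c) = 0} := by
    ext y
    constructor
    · rintro ⟨⟨h1, h2, h3⟩, _, h4⟩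
      have h5 := h4 (Fin.last k) le_rfl
      unfold eqn at h5
      rw [if_pos rfl] at h5
      exact ⟨fun i => (h1 i).le, h2.le, h3.le, h5⟩
    · rintro ⟨h1, h2, h3, h4⟩
      have hnn : 0 ≤ R0 := (norm_nonneg _).trans h2
      have hlf : 0 < eval y (quad c) := by
        refine hc y fun j => ?_
        refine Fin.lastCases ?_ (fun j => ?_) j
        · exact h3.trans (le_max_right _ _)
        · have h5 := norm_le_pi_norm (fun j : Fin k => y j.castSucc) j
          exact (h5.trans h2).trans (le_max_left _ _)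
      have hQ : eval y (QQ P ε) = eval y (quad c) := by
        rw [map_sub] at h4
        linarith
      rw [eval_QQ] at hQ
      have hb := hMx _ h2
      refine ⟨⟨fun i => ?_, ?_, ?_⟩, fun j hj => absurd hj (by simp), fun l hl => ?_⟩
      · refine lt_of_le_of_ne (h1 i) fun h6 => ?_
        have h7 : ∏ i, (eval (fun j : Fin k => y j.castSucc) (P i) + ε) = 0 :=
          Finset.prod_eq_zero (Finset.mem_univ i) (by rw [← h6]; ring)
        rw [h7] at hQ
        nlinarith [sq_nonneg (y (Fin.last k))]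
      · refine lt_of_le_of_ne h2 fun h6 => ?_
        obtain ⟨i, hi⟩ := hε _ h6
        exact absurd (h1 i) (not_le.mpr hi)
      · refine lt_of_le_of_ne h3 fun h6 => ?_
        have h7 : (y (Fin.last k)) ^ 2 = R1 ^ 2 := by rw [← h6, sq_abs]
        rw [h7, hR1] at hQ
        nlinarith
      · have hl' : l = Fin.last k := le_antisymm (Fin.le_last l) hl
        unfold eqn
        rw [if_pos hl']
        exact h4
  rw [hE]
  refine Metric.isCompact_of_isClosed_isBounded ?_ ?_
  · rw [Set.ofPred_and, Set.ofPred_and, Set.ofPred_and]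
    refine IsClosed.inter ?_ (IsClosed.inter ?_ (IsClosed.inter ?_ ?_))
    · rw [Set.ofPred_forall]
      exact isClosed_iInter fun i => isClosed_le continuous_const
        ((MvPolynomial.continuous_eval _).comp hpr)
    · exact isClosed_le hpr.norm continuous_const
    · exact isClosed_le (continuous_apply _).abs continuous_const
    · exact isClosed_eq (MvPolynomial.continuous_eval _) continuous_const
  · refine (Metric.isBounded_closedBall (x := (0 : Fin (k + 1) → ℝ))
      (r := max |R0| |R1|)).subset fun y hy => ?_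
    rw [mem_closedBall_zero_iff, pi_norm_le_iff_of_nonneg (by positivity)]
    intro j
    refine Fin.lastCases ?_ (fun j => ?_) j
    · rw [Real.norm_eq_abs]
      exact (hy.2.2.1.trans (le_abs_self _)).trans (le_max_right _ _)
    · have h1 := norm_le_pi_norm (fun j : Fin k => y j.castSucc) j
      exact ((h1.trans hy.2.1).trans (le_abs_self _)).trans (le_max_left _ _)

end Pool.Agent.RM90
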