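import Pool.Agent.Lib.MP_df59e7_lc_X.DefsX
import Pool.Agent.Lib.MP_df59e7_lc_X.QuadA
import Pool.Agent.Lib.MP_df59e7_lc.InitA

set_option autoImplicit false

/-! MP_df59e7_lc, project RM2, module InitQ2. -/

namespace Pool.Agent.RM90

open MvPolynomial

private noncomputable def InitQ2_beta {k : ℕ} (c : Par (k + 1)) (x : Fin k → ℝ) : ℝ :=
  c.2.1 (Fin.last k) +
    ∑ l : Fin k, (c.2.2 l.castSucc (Fin.last k) + c.2.2 (Fin.last k) l.castSucc) / 2 * x l

private theorem InitQ2_split {k : ℕ} (c : Par (k + 1)) (x : Fin k → ℝ) (z : ℝ) :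
    eval (Fin.snoc (α := fun _ => ℝ) x z) (quad c) =
      eval (Fin.snoc (α := fun _ => ℝ) x 0) (quad c) + InitQ2_beta c x * z +
        c.2.2 (Fin.last k) (Fin.last k) / 2 * z ^ 2 := by
  rw [eval_quad, eval_quad]
  unfold InitQ2_beta
  simp only [Fin.sum_univ_castSucc, Fin.snoc_castSucc, Fin.snoc_last, Finset.sum_add_distrib,
    mul_zero, zero_mul, add_zero, Finset.sum_const_zero, add_div, add_mul]
  have e1 : ∑ i : Fin k, c.2.2 i.castSucc (Fin.last k) / 2 * (x i * z) =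
      (∑ i : Fin k, c.2.2 i.castSucc (Fin.last k) / 2 * x i) * z := by
    rw [Finset.sum_mul]
    exact Finset.sum_congr rfl fun i _ => by ring
  have e2 : ∑ i : Fin k, c.2.2 (Fin.last k) i.castSucc / 2 * (z * x i) =
      (∑ i : Fin k, c.2.2 (Fin.last k) i.castSucc / 2 * x i) * z := by
    rw [Finset.sum_mul]
    exact Finset.sum_congr rfl fun i _ => by ring
  rw [e1, e2]
  ring

private theorem InitQ2_bound {k : ℕ} (c : Par (k + 1)) (x : Fin k → ℝ) (η R0 : ℝ)
    (hη2 : η * (1 + k * |R0|) ≤ 1) (hc1 : ∀ i, |c.2.1 i| < η) (hc2 : ∀ i l, |c.2.2 i l| < η)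
    (hx : ‖x‖ ≤ |R0|) : |InitQ2_beta c x| ≤ 1 := by
  have hη : 0 < η := (abs_nonneg _).trans_lt (hc1 (Fin.last k))
  have h1 : |∑ l : Fin k, (c.2.2 l.castSucc (Fin.last k) + c.2.2 (Fin.last k) l.castSucc) / 2 *
      x l| ≤ k * (η * |R0|) := by
    refine (Finset.abs_sum_le_sum_abs _ _).trans ?_
    refine (Finset.sum_le_card_nsmul _ _ (η * |R0|) fun l _ => ?_).trans ?_
    · rw [abs_mul]
      refine mul_le_mul ?_ ((norm_le_pi_norm x l).trans hx) (abs_nonneg _) hη.le
      rw [abs_div, abs_two]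
      have h2 := abs_add_le (c.2.2 l.castSucc (Fin.last k)) (c.2.2 (Fin.last k) l.castSucc)
      have h3 := hc2 l.castSucc (Fin.last k)
      have h4 := hc2 (Fin.last k) l.castSucc
      linarith
    · simp
  have h5 := abs_add_le (c.2.1 (Fin.last k)) (∑ l : Fin k, (c.2.2 l.castSucc (Fin.last k) +
    c.2.2 (Fin.last k) l.castSucc) / 2 * x l)
  have h6 := hc1 (Fin.last k)
  unfold InitQ2_beta
  have h7 : η * (1 + k * |R0|) = η + k * (η * |R0|) := by ring
  linarith

/-- The lift.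
Proof: for `x : Fin k → ℝ` let `α = eval (x, 0) (quad c)`, `γ = c.2.2 last last / 2`,
`β = c.2.1 last + ∑ l, (c.2.2 l.castSucc last + c.2.2 last l.castSucc) / 2 * x l` (where
`last = Fin.last k`, `(x, z) = Fin.snoc x z`), so that `eval (x, z) (quad c) = α + β z + γ z^2`
(`eval_quad`, `Fin.sum_univ_castSucc`). Let `Π = ∏ (P_i x + ε) ≥ ε^s > α` for `x ∈ S`,
`|γ| < 1/2`, `|β| ≤ η (1 + k R0) ≤ 1`, and
`z = (-β + sqrt (β^2 + 4 (1 + γ) (Π - α))) / (2 (1 + γ))`. Then `(1 + γ) z^2 + β z = Π - α`, i.e.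
`QQ (x, z) = quad (x, z)` (`eval_QQ`), `z ≥ 0` and
`z ≤ 1 + sqrt (1 + 6 Mx) ≤ 1 + (2 Mx + 1) < R1` (`(2 Mx + 1)^2 ≥ 1 + 6 Mx` as `Mx ≥ 1`).
`L x = (x, z)` is continuous. The conditions `a < 0` are void, `Fin.last k ≤ l` means `l = Fin.last k`. Compare
`init_lift` in Lib/MP_df59e7_lc/InitC.lean. -/
theorem initQ_lift {k s : ℕ} (P : Fin s → MvPolynomial (Fin k) ℝ)
    (ε R0 R1 Mx η : ℝ) (hε0 : 0 < ε)
    (hR0 : ∀ x : Fin k → ℝ, (∀ i, 0 ≤ eval x (P i)) → ‖x‖ < R0) (hM1 : 1 ≤ Mx)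
    (hMx : ∀ x : Fin k → ℝ, ‖x‖ ≤ R0 → ∏ i, (eval x (P i) + ε) ≤ Mx) (hR1 : R1 = 2 * Mx + 3)
    (c : Par (k + 1)) (hη1 : η ≤ 1 / 2) (hη2 : η * (1 + k * |R0|) ≤ 1)
    (hc1 : ∀ i, |c.2.1 i| < η) (hc2 : ∀ i l, |c.2.2 i l| < η)
    (hc : ∀ x : Fin (k + 1) → ℝ, (∀ j, |x j| ≤ max R0 R1) →
      0 < eval x (quad c) ∧ eval x (quad c) < ε ^ s) :
    ∃ L : (Fin k → ℝ) → (Fin (k + 1) → ℝ), ContinuousOn L {x | ∀ i, 0 ≤ eval x (P i)} ∧
      ∀ x, (∀ i, 0 ≤ eval x (P i)) →
        L x ∈ Wst (UU P ε R0 R1) 0 (Fin.last k) (QQ P ε - quad c) 0 ∧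
        (fun j : Fin k => L x j.castSucc) = x := by
  set w : (Fin k → ℝ) → ℝ := fun x => ∏ i, (eval x (P i) + ε) -
    eval (Fin.snoc (α := fun _ => ℝ) x 0) (quad c) with hw
  set g : ℝ := c.2.2 (Fin.last k) (Fin.last k) / 2 with hg
  have hγ : |g| < 1 / 4 := by
    rw [hg, abs_div, abs_two]
    have := hc2 (Fin.last k) (Fin.last k)
    linarith
  have hγ' := abs_lt.mp hγ
  have h1g : 0 < 1 + g := by linarith
  set z : (Fin k → ℝ) → ℝ := fun x => (-InitQ2_beta c x +
    Real.sqrt (InitQ2_beta c x ^ 2 + 4 * (1 + g) * w x)) / (2 * (1 + g)) with hz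
  have hsn : ∀ g : (Fin k → ℝ) → ℝ, Continuous g →
      Continuous fun x : Fin k → ℝ => (Fin.snoc (α := fun _ => ℝ) x (g x) : Fin (k + 1) → ℝ) := by
    intro g hg
    refine continuous_pi fun j => ?_
    refine Fin.lastCases ?_ (fun j => ?_) j
    · simpa using hg
    · simpa using continuous_apply j
  have hwc : Continuous w := by
    refine Continuous.sub ?_ ?_
    · exact continuous_finsetProd _ fun i _ =>
        (MvPolynomial.continuous_eval _).add continuous_const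
    · exact (MvPolynomial.continuous_eval _).comp (hsn (fun _ => 0) continuous_const)
  have hbc : Continuous (InitQ2_beta c) := by
    unfold InitQ2_beta
    exact continuous_const.add (continuous_finsetSum _ fun l _ =>
      continuous_const.mul (continuous_apply l))
  have hzc : Continuous z := by
    refine Continuous.div_const ?_ _
    refine hbc.neg.add (Real.continuous_sqrt.comp ?_)
    exact (hbc.pow 2).add (continuous_const.mul hwc)
  refine ⟨fun x => Fin.snoc (α := fun _ => ℝ) x (z x), (hsn z hzc).continuousOn, fun x hx => ?_⟩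
  have hxR := hR0 x hx
  have hnn : 0 ≤ R0 := (norm_nonneg _).trans hxR.le
  have hR1n : 0 ≤ R1 := by rw [hR1]; linarith
  have hl0 := hc (Fin.snoc (α := fun _ => ℝ) x 0) (fun j => by
    refine Fin.lastCases ?_ (fun j => ?_) j
    · rw [Fin.snoc_last, abs_zero]
      exact hnn.trans (le_max_left _ _)
    · rw [Fin.snoc_castSucc]
      exact ((norm_le_pi_norm x j).trans hxR.le).trans (le_max_left _ _))
  have hprod : ε ^ s ≤ ∏ i, (eval x (P i) + ε) := by
    calc ε ^ s = ∏ _i : Fin s, ε := by simp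
      _ ≤ _ := Finset.prod_le_prod (fun _ _ => hε0.le) fun i _ => by linarith [hx i]
  have hw0 : 0 < w x := by
    rw [hw]
    dsimp only
    linarith [hl0.2]
  have hwM : w x ≤ Mx := by
    have := hMx x hxR.le
    rw [hw]
    dsimp only
    linarith [hl0.1]
  have hb := InitQ2_bound c x η R0 hη2 hc1 hc2 (hxR.le.trans (le_abs_self _))
  have hb' := abs_le.mp hb
  have hpos : 0 ≤ 4 * (1 + g) * w x := by positivity
  have hsq : Real.sqrt (InitQ2_beta c x ^ 2 + 4 * (1 + g) * w x) ^ 2 =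
      InitQ2_beta c x ^ 2 + 4 * (1 + g) * w x :=
    Real.sq_sqrt (by positivity)
  have hzeq : (1 + g) * z x ^ 2 + InitQ2_beta c x * z x = w x := by
    have h2 : 2 * (1 + g) * z x = -InitQ2_beta c x +
        Real.sqrt (InitQ2_beta c x ^ 2 + 4 * (1 + g) * w x) := by
      rw [hz]
      dsimp only
      field_simp
    have h3 : (2 * (1 + g) * z x + InitQ2_beta c x) ^ 2 =
        InitQ2_beta c x ^ 2 + 4 * (1 + g) * w x := by
      rw [h2]
      linear_combination hsq
    have h4 : 4 * (1 + g) * ((1 + g) * z x ^ 2 + InitQ2_beta c x * z x - w x) = 0 := by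
      linear_combination h3
    have h5 : (1 + g) * z x ^ 2 + InitQ2_beta c x * z x - w x = 0 := by
      rcases mul_eq_zero.mp h4 with h6 | h6
      · exact absurd h6 (by positivity)
      · exact h6
    linarith
  have hz0 : 0 ≤ z x := by
    have h1 : |InitQ2_beta c x| ≤ Real.sqrt (InitQ2_beta c x ^ 2 + 4 * (1 + g) * w x) := by
      refine Real.le_sqrt_of_sq_le ?_
      rw [sq_abs]
      linarith
    have h2 := (le_abs_self (InitQ2_beta c x)).trans h1
    rw [hz]
    dsimp only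
    exact div_nonneg (by linarith) (by positivity)
  have hzM : z x < R1 := by
    rw [hR1]
    by_contra hcon
    push Not at hcon
    have h5 : 5 ≤ z x := by linarith
    have h6 : -z x ≤ InitQ2_beta c x * z x := by nlinarith
    have h7 : 3 / 4 * z x ^ 2 ≤ (1 + g) * z x ^ 2 := by
      refine mul_le_mul_of_nonneg_right ?_ (sq_nonneg _)
      linarith
    nlinarith
  have hsx : (fun j : Fin k => (Fin.snoc (α := fun _ => ℝ) x (z x) : Fin (k + 1) → ℝ)
      j.castSucc) = x := by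
    funext j
    rw [Fin.snoc_castSucc]
  refine ⟨⟨⟨?_, ?_, ?_⟩, fun a ha => absurd ha (Fin.not_lt_zero a), fun l hl => ?_⟩, hsx⟩
  · intro i
    rw [hsx]
    linarith [hx i]
  · rw [hsx]
    exact hxR
  · beta_reduce
    rw [Fin.snoc_last, abs_of_nonneg hz0]
    exact hzM
  · have hl' : l = Fin.last k := le_antisymm (Fin.le_last l) hl
    unfold eqn
    rw [if_pos hl']
    beta_reduce
    rw [map_sub, eval_QQ, hsx, Fin.snoc_last, InitQ2_split]
    have h3 : w x = ∏ i, (eval x (P i) + ε) -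
      eval (Fin.snoc (α := fun _ => ℝ) x 0) (quad c) := rfl
    linear_combination h3 - hzeq

end Pool.Agent.RM90
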