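import Pool.Agent.Lib.MP_df59e7_lc_X.StepX
import Pool.Agent.Lib.MP_df59e7_lc_X.InitQ1
import Pool.Agent.Lib.MP_df59e7_lc_X.InitQ2

set_option autoImplicit false

/-! MP_df59e7_lc, project RM2, assembly: the initial stage. -/

namespace Pool.Agent.RM90

open MvPolynomial

theorem initQ {k s : ℕ} (hk : 1 ≤ k) (d : ℕ) (P : Fin s → MvPolynomial (Fin k) ℝ)
    (hdeg : ∀ i, (P i).totalDegree ≤ d) (R0 : ℝ)
    (hR0 : ∀ x : Fin k → ℝ, (∀ i, 0 ≤ eval x (P i)) → ‖x‖ < R0) (δ : ℝ) (hδ : 0 < δ) :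
    ∃ (U : Set (Fin (k + 1) → ℝ)) (G : MvPolynomial (Fin (k + 1)) ℝ),
      GdS U 0 (Fin.last k) G 0 ∧ G.totalDegree ≤ s * d + 2 ∧
      (∀ y ∈ Wst U 0 (Fin.last k) G 0,
        (∀ i, -δ ≤ eval (fun j : Fin k => y j.castSucc) (P i)) ∧
        ‖(fun j : Fin k => y j.castSucc)‖ ≤ R0) ∧
      ∃ L : (Fin k → ℝ) → (Fin (k + 1) → ℝ), ContinuousOn L {x | ∀ i, 0 ≤ eval x (P i)} ∧
        ∀ x, (∀ i, 0 ≤ eval x (P i)) → L x ∈ Wst U 0 (Fin.last k) G 0 ∧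
          (fun j : Fin k => L x j.castSucc) = x := by
  obtain ⟨ε, hε0, hεδ, hε⟩ := init_eps P R0 hR0 δ hδ
  obtain ⟨Mx, hM1, hMx⟩ := prod_bdd P ε R0
  set R1 : ℝ := 2 * Mx + 3 with hR1
  have hden : (0 : ℝ) < 1 + (k : ℝ) * |R0| := by positivity
  set η : ℝ := min (min (1 / 2) (1 / (1 + (k : ℝ) * |R0|))) (ε ^ s) with hη
  have hη0 : 0 < η := lt_min (lt_min (by norm_num) (by positivity)) (pow_pos hε0 s)
  have hη1 : η ≤ 1 / 2 := (min_le_left _ _).trans (min_le_left _ _)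
  have hη2 : η * (1 + (k : ℝ) * |R0|) ≤ 1 := by
    have h1 : η ≤ 1 / (1 + (k : ℝ) * |R0|) := (min_le_left _ _).trans (min_le_right _ _)
    calc η * (1 + (k : ℝ) * |R0|) ≤ 1 / (1 + (k : ℝ) * |R0|) * (1 + (k : ℝ) * |R0|) :=
          mul_le_mul_of_nonneg_right h1 hden.le
      _ = 1 := by field_simp
  have hη3 : η ≤ ε ^ s := min_le_right _ _
  have hlt : (0 : Fin (k + 1)) < Fin.last k := by
    rw [Fin.lt_def]
    simpa using Nat.pos_of_ne_zero (by omega)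
  obtain ⟨c, hc1, _, hc3, hc4, hc5⟩ := exists_parQ _
    (gen_all (QQ P ε) 0 (Fin.last k) 0) (max R0 R1) η hη0
  have hcpt := initQ_cpt P ε R0 R1 Mx hε0 hε hM1 hMx hR1 c (fun x hx => (hc5 x hx).1)
  obtain ⟨L, hL1, hL2⟩ := initQ_lift P ε R0 R1 Mx η hε0 hR0 hM1 hMx hR1 c hη1 hη2 hc3 hc4
    (fun x hx => ⟨(hc5 x hx).1, lt_of_lt_of_le (hc5 x hx).2 hη3⟩)
  refine ⟨UU P ε R0 R1, QQ P ε - quad c, gds_of_gen (QQ P ε) 0 (Fin.last k) hlt 0 c hc1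
    (UU P ε R0 R1) (UU_open P ε R0 R1) (UU_bdd P ε R0 R1) hcpt, ?_, ?_, L, hL1, hL2⟩
  · exact (totalDegree_sub _ _).trans (max_le (deg_QQ P ε d hdeg)
      ((deg_quad _).trans (by omega)))
  · intro y hy
    refine ⟨fun i => ?_, hy.1.2.1.le⟩
    have := hy.1.1 i
    linarith

end Pool.Agent.RM90
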