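import Pool.Agent.Lib.MP_df59e7_lc_X.Strat
import Pool.Agent.Lib.MP_df59e7_lc_X.InitQ
import Pool.Agent.Lib.MP_df59e7_lc.Lim
import Pool.Agent.Lib.MP_df59e7_lc.Glue

set_option autoImplicit false

/-! MP_df59e7_lc, project RM2, assembly: the limit, for basic closed sets. -/

namespace Pool.Agent.RM90

open MvPolynomial Filter

/-- Exact roadmaps are approximate roadmaps. -/
theorem xmap_rmap {n : ℕ} [NeZero n] {E : Set (Fin n → ℝ)} {A : Finset (Fin n → ℝ)} {N : ℕ}
    {M : Set (Fin n → ℝ)} (hA : ↑A ⊆ E) (h : XMap E (fun x => x 0) A N M) (θ : ℝ)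
    (hθ : 0 < θ) : RMap θ E A N M where
  sub := h.sub
  alg := h.alg
  ne := fun x hx => (h.rm1 x hx).1
  chn := fun x hx => chained_of_preconnected _ (h.rm1 x hx).2 θ hθ
  pts := fun a ha => ⟨a, ⟨h.pts ha, mem_connectedComponentIn (hA ha)⟩, by simp [hθ.le]⟩
  fib := fun x hx => by
    refine ⟨connectedComponentIn {y | y ∈ E ∧ y 0 = x 0} x, ?_, ?_,
      mem_connectedComponentIn ⟨hx, rfl⟩, ?_, fun w hw => ?_⟩
    · exact connectedComponentIn_mono x fun y hy => hy.1
    · exact chained_of_preconnected _ isPreconnected_connectedComponentIn θ hθ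
    · obtain ⟨w, hw1, hw2⟩ := h.rm2 x hx
      exact ⟨w, hw2, hw1⟩
    · have h1 : w 0 = x 0 := (connectedComponentIn_subset _ _ hw).2
      rw [h1, sub_self, abs_zero]
      exact hθ.le

/-- The limit of roadmaps of approximating sets in one more dimension. -/
theorem lim_abs {k s : ℕ} [NeZero k] (P : Fin s → MvPolynomial (Fin k) ℝ)
    (A : Finset (Fin k → ℝ)) (hA : ∀ a ∈ A, ∀ i, 0 ≤ eval a (P i)) (R0 : ℝ) (N : ℕ)
    (hst : ∀ δ > 0, ∃ E : Set (Fin (k + 1) → ℝ),
      (∀ y ∈ E, (∀ i, -δ ≤ eval (fun j : Fin k => y j.castSucc) (P i)) ∧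
        ‖(fun j : Fin k => y j.castSucc)‖ ≤ R0) ∧
      ∃ L : (Fin k → ℝ) → (Fin (k + 1) → ℝ), ContinuousOn L {x | ∀ i, 0 ≤ eval x (P i)} ∧
        (∀ x, (∀ i, 0 ≤ eval x (P i)) → L x ∈ E ∧ (fun j : Fin k => L x j.castSucc) = x) ∧
        ∃ R, RMap δ E (A.image L) N R) :
    ∃ M0 : Set (Fin k → ℝ), LMap {x | ∀ i, 0 ≤ eval x (P i)} A N M0 := by
  classical
  set S : Set (Fin k → ℝ) := {x | ∀ i, 0 ≤ eval x (P i)} with hS
  have hpos : ∀ p : ℕ, (0 : ℝ) < 1 / ((p : ℝ) + 1) := fun p => by positivity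
  have hst' := fun p : ℕ => hst (1 / ((p : ℝ) + 1)) (hpos p)
  choose E hE1 L hLc hL R hR using hst'
  have hLS : ∀ p, ∀ x ∈ S, L p x ∈ E p ∧ prl (L p x) = x := fun p x hx => hL p x hx
  have hK : IsCompact (Metric.closedBall (0 : Fin k → ℝ) R0) := isCompact_closedBall 0 R0
  have hEK : ∀ p, prl '' E p ⊆ Metric.closedBall (0 : Fin k → ℝ) R0 := by
    rintro p _ ⟨y, hy, rfl⟩
    rw [mem_closedBall_zero_iff]
    exact (hE1 p y hy).2
  -- the limit of the projections is in S
  have hES : ulim (fun p => prl '' E p) ⊆ S := by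
    intro x hx i
    obtain ⟨a, ha, hax⟩ := exists_sel _ x hx
    have h1 : Tendsto (fun p => eval (a p) (P i)) (Filter.hyperfilter ℕ : Filter ℕ)
        (nhds (eval x (P i))) := ((continuous_evalp (P i)).tendsto x).comp hax
    have h2 : Tendsto (fun p : ℕ => -(1 / ((p : ℝ) + 1))) (Filter.hyperfilter ℕ : Filter ℕ)
        (nhds 0) := by simpa using tendsto_inv.neg
    refine le_of_tendsto_of_tendsto h2 h1 ?_
    filter_upwards [ha] with p hp
    obtain ⟨y, hy, hya⟩ := hp
    rw [← hya]
    exact (hE1 p y hy).1 i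
  set C : ℕ → (Fin k → ℝ) → Set (Fin (k + 1) → ℝ) :=
    fun p x => connectedComponentIn (E p) (L p x) with hC
  set Mx : (Fin k → ℝ) → Set (Fin k → ℝ) := fun x => ulim (fun p => prl '' (R p ∩ C p x))
    with hMx
  have hCE : ∀ p x, C p x ⊆ E p := fun p x => connectedComponentIn_subset _ _
  have hCcomp : ∀ x ∈ S, ulim (fun p => prl '' C p x) ⊆ connectedComponentIn S x := by
    intro x hx
    have hpre : IsPreconnected (ulim (fun p => prl '' C p x)) := by
      refine ulim_preconnected _ hK _ (fun p => 1 / ((p : ℝ) + 1)) tendsto_inv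
        (Eventually.of_forall fun p => ⟨(Set.image_mono (hCE p x)).trans (hEK p), ?_⟩)
      exact chained_prl (chained_of_preconnected _ isPreconnected_connectedComponentIn _
        (hpos p))
    refine hpre.subset_connectedComponentIn ?_ ?_
    · refine mem_ulim_of_tendsto _ (fun _ => x) x (Eventually.of_forall fun p => ?_)
        tendsto_const_nhds
      exact ⟨L p x, mem_connectedComponentIn (hLS p x hx).1, (hLS p x hx).2⟩
    · exact (ulim_mono _ _ (Eventually.of_forall fun p => Set.image_mono (hCE p x))).trans hES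
  have hMcomp : ∀ x ∈ S, Mx x ⊆ connectedComponentIn S x := fun x hx =>
    (ulim_mono _ _ (Eventually.of_forall fun p =>
      Set.image_mono Set.inter_subset_right)).trans (hCcomp x hx)
  have hMeq : ∀ x ∈ S, ∀ x' ∈ connectedComponentIn S x, Mx x' = Mx x := by
    intro x hx x' hx'
    have : ∀ p : ℕ, C p x' = C p x := by
      intro p
      have h1 : L p '' (connectedComponentIn S x) ⊆ C p x := by
        refine (isPreconnected_connectedComponentIn.image _ ((hLc p).mono
          (connectedComponentIn_subset _ _))).subset_connectedComponentIn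
          ⟨x, mem_connectedComponentIn hx, rfl⟩ ?_
        rintro _ ⟨z, hz, rfl⟩
        exact (hLS p z (connectedComponentIn_subset _ _ hz)).1
      exact (connectedComponentIn_eq (h1 ⟨x', hx', rfl⟩)).symm
    simp only [hMx, this]
  have hMpre : ∀ x ∈ S, IsPreconnected (Mx x) := by
    intro x hx
    refine ulim_preconnected _ hK _ (fun p => 1 / ((p : ℝ) + 1)) tendsto_inv
      (Eventually.of_forall fun p => ⟨(Set.image_mono
        (Set.inter_subset_right.trans (hCE p x))).trans (hEK p), ?_⟩)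
    exact chained_prl ((hR p).chn _ (hLS p x hx).1)
  have hMne : ∀ x ∈ S, (Mx x).Nonempty := by
    intro x hx
    have h1 : ∀ p : ℕ, ∃ r, r ∈ R p ∩ C p x := fun p => (hR p).ne _ (hLS p x hx).1
    choose r hr using h1
    obtain ⟨y, _, hy⟩ := exists_lim _ hK (fun p => prl (r p)) (Eventually.of_forall fun p =>
      hEK p ⟨r p, hCE p x (hr p).2, rfl⟩)
    exact ⟨y, mem_ulim_of_tendsto _ _ y (Eventually.of_forall fun p => ⟨r p, hr p, rfl⟩) hy⟩
  set M0 : Set (Fin k → ℝ) := {y | ∃ x ∈ S, y ∈ Mx x} with hM0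
  have hM0comp : ∀ x ∈ S, M0 ∩ connectedComponentIn S x = Mx x := by
    intro x hx
    ext y
    constructor
    · rintro ⟨⟨x', hx', hy⟩, hyx⟩
      have h1 := hMcomp x' hx' hy
      have h2 : connectedComponentIn S x' = connectedComponentIn S x := by
        rw [connectedComponentIn_eq h1, connectedComponentIn_eq hyx]
      have h3 : x' ∈ connectedComponentIn S x := h2 ▸ mem_connectedComponentIn hx'
      rw [← hMeq x hx x' h3]; exact hy
    · intro hy
      exact ⟨⟨x, hx, hy⟩, hMcomp x hx hy⟩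
  refine ⟨M0, ?_, ?_, ?_, ?_, ?_⟩
  · rintro y ⟨x, hx, hy⟩
    exact connectedComponentIn_subset _ _ (hMcomp x hx hy)
  · refine alg_mono le_rfl (?_ : M0 ⊆ ulim (fun p => prl '' R p))
      (alg_ulim N _ fun p => alg_pr N (R p) (hR p).alg)
    rintro y ⟨x, hx, hy⟩
    exact ulim_mono _ _ (Eventually.of_forall fun p => Set.image_mono Set.inter_subset_left) hy
  · intro a ha
    have haS : a ∈ S := hA a ha
    refine ⟨a, haS, ?_⟩
    have h1 : ∀ p : ℕ, ∃ r ∈ R p ∩ connectedComponentIn (E p) (L p a),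
        dist (L p a) r ≤ 1 / ((p : ℝ) + 1) := fun p =>
      (hR p).pts (L p a) (Finset.mem_image_of_mem _ ha)
    choose r hr hd using h1
    refine mem_ulim_of_tendsto _ (fun p => prl (r p)) a
      (Eventually.of_forall fun p => ⟨r p, hr p, rfl⟩) ?_
    rw [tendsto_iff_dist_tendsto_zero]
    refine squeeze_zero (fun _ => dist_nonneg) (fun p => ?_) tendsto_inv
    have h2 := dist_prl (r p) (L p a)
    rw [(hLS p a haS).2] at h2
    exact h2.trans (by rw [dist_comm]; exact hd p)
  · intro x hx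
    rw [hM0comp x hx]
    exact ⟨hMne x hx, hMpre x hx⟩
  · intro x hx
    have h1 := fun p => (hR p).fib (L p x) (hLS p x hx).1
    choose T hT1 hT2 hT3 hT4 hT5 using h1
    have hTK : ∀ p, prl '' T p ⊆ Metric.closedBall (0 : Fin k → ℝ) R0 := fun p =>
      (Set.image_mono ((hT1 p).trans (hCE p x))).trans (hEK p)
    have h0 : ∀ y : Fin (k + 1) → ℝ, prl y 0 = y 0 := by
      intro y
      unfold prl
      rw [Fin.castSucc_zero']
    have hpre : IsPreconnected (ulim (fun p => prl '' T p)) :=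
      ulim_preconnected _ hK _ (fun p => 1 / ((p : ℝ) + 1)) tendsto_inv
        (Eventually.of_forall fun p => ⟨hTK p, chained_prl (hT2 p)⟩)
    have hsub : ulim (fun p => prl '' T p) ⊆ {y | y ∈ S ∧ y 0 = x 0} := by
      intro y hy
      refine ⟨hES (ulim_mono _ _ (Eventually.of_forall fun p =>
        Set.image_mono ((hT1 p).trans (hCE p x))) hy), ?_⟩
      obtain ⟨a, ha, hay⟩ := exists_sel _ y hy
      have hay0 : Tendsto (fun p => a p 0) (Filter.hyperfilter ℕ : Filter ℕ) (nhds (y 0)) :=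
        ((continuous_apply 0).tendsto y).comp hay
      have hx0 : Tendsto (fun p => a p 0) (Filter.hyperfilter ℕ : Filter ℕ) (nhds (x 0)) := by
        rw [tendsto_iff_dist_tendsto_zero]
        refine squeeze_zero' (Eventually.of_forall fun _ => dist_nonneg) ?_ tendsto_inv
        filter_upwards [ha] with p hp
        obtain ⟨z, hz, hza⟩ := hp
        have h2 := hT5 p z hz
        rw [← hza, h0, Real.dist_eq]
        have h3 : (L p x) 0 = x 0 := by
          rw [← h0 (L p x), (hLS p x hx).2]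
        rw [← h3]; exact h2
      exact tendsto_nhds_unique hay0 hx0
    have hxm : x ∈ ulim (fun p => prl '' T p) :=
      mem_ulim_of_tendsto _ (fun _ => x) x (Eventually.of_forall fun p =>
        ⟨L p x, hT3 p, (hLS p x hx).2⟩) tendsto_const_nhds
    choose r hr using hT4
    obtain ⟨y, _, hy⟩ := exists_lim _ hK (fun p => prl (r p)) (Eventually.of_forall fun p =>
      hTK p ⟨r p, (hr p).1, rfl⟩)
    refine ⟨y, ⟨x, hx, ?_⟩, ?_⟩
    · exact mem_ulim_of_tendsto _ _ y (Eventually.of_forall fun p =>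
        ⟨r p, ⟨(hr p).2, hT1 p (hr p).1⟩, rfl⟩) hy
    · exact hpre.subset_connectedComponentIn hxm hsub
        (mem_ulim_of_tendsto _ _ y (Eventually.of_forall fun p => ⟨r p, (hr p).1, rfl⟩) hy)

end Pool.Agent.RM90
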