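import Pool.Agent.Lib.MP_df59e7_lc_X.DefsX
import Pool.Agent.Lib.MP_df59e7_lc.Comp

set_option autoImplicit false

/-! MP_df59e7_lc, project RM2, module NbC. -/

namespace Pool.Agent.RM90

open MvPolynomial

/-- Disjoint neighbourhoods of the components of a compact locally connected set.
Proof: `comp_fin` gives finitely many representatives; keep one for every component (e.g. the
image of the finite set under a choice function which depends only on
`connectedComponentIn E t`), so that for `s ≠ t` in `T` the components are different, so disjoint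
(`connectedComponentIn_eq`). Components `C_t` are closed in `E` (`comp_closure_inter`), so compact,
and there is `δ > 0` with `δ ≤ dist a b` for `a ∈ C_s`, `b ∈ C_t`, `s ≠ t` in `T`. Put
`Nt t = thickening (δ/3) C_t` and `ρ = δ/3`. -/
theorem comp_nbhds {X : Type*} [MetricSpace X] (E : Set X) (hE : IsCompact E) (hl : LCn E) :
    ∃ (T : Finset X) (Nt : X → Set X), ↑T ⊆ E ∧
      (∀ t ∈ T, IsOpen (Nt t) ∧ connectedComponentIn E t ⊆ Nt t ∧
        E ∩ closure (Nt t) ⊆ connectedComponentIn E t) ∧
      (∀ s ∈ T, ∀ t ∈ T, s ≠ t → Disjoint (Nt s) (Nt t)) ∧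
      (∀ x ∈ E, ∃ t ∈ T, x ∈ connectedComponentIn E t) ∧
      ∃ ρ > 0, ∀ z ∈ E, ∀ x, dist x z < ρ → ∃ t ∈ T, x ∈ Nt t := by
  classical
  obtain ⟨T0, hT0E, hT0⟩ := comp_fin E hE hl
  -- representatives
  obtain ⟨T, hTE, hTd, hTc⟩ : ∃ T : Finset X, ↑T ⊆ E ∧
      (∀ s ∈ T, ∀ t ∈ T, s ≠ t → connectedComponentIn E s ≠ connectedComponentIn E t) ∧
      ∀ x ∈ E, ∃ t ∈ T, x ∈ connectedComponentIn E t := by
    rcases T0.eq_empty_or_nonempty with h0 | ⟨x0, hx0⟩
    · refine ⟨∅, by simp, by simp, fun x hx => ?_⟩
      obtain ⟨t, ht, -⟩ := hT0 x hx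
      rw [h0] at ht
      exact absurd ht (Finset.notMem_empty t)
    · have hne : Nonempty X := ⟨x0⟩
      obtain ⟨f, hf⟩ : ∃ f : Set X → X,
          f = Function.invFunOn (fun t => connectedComponentIn E t) (T0 : Set X) := ⟨_, rfl⟩
      have hfm : ∀ t ∈ T0, f (connectedComponentIn E t) ∈ T0 ∧
          connectedComponentIn E (f (connectedComponentIn E t)) = connectedComponentIn E t := by
        intro t ht
        have h1 : ∃ a ∈ (T0 : Set X), (fun t => connectedComponentIn E t) a =
            connectedComponentIn E t := ⟨t, ht, rfl⟩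
        rw [hf]
        exact ⟨Function.invFunOn_mem h1, Function.invFunOn_eq h1⟩
      refine ⟨T0.image fun t => f (connectedComponentIn E t), ?_, ?_, ?_⟩
      · intro s hs
        obtain ⟨t, ht, rfl⟩ := Finset.mem_image.1 (Finset.mem_coe.1 hs)
        exact hT0E (hfm t ht).1
      · intro s hs t ht hst he
        obtain ⟨s', hs', rfl⟩ := Finset.mem_image.1 hs
        obtain ⟨t', ht', rfl⟩ := Finset.mem_image.1 ht
        rw [(hfm s' hs').2, (hfm t' ht').2] at he
        exact hst (by rw [he])
      · intro x hx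
        obtain ⟨t, ht, hxt⟩ := hT0 x hx
        refine ⟨f (connectedComponentIn E t), Finset.mem_image.2 ⟨t, ht, rfl⟩, ?_⟩
        rw [(hfm t ht).2]
        exact hxt
  have hclosed : ∀ t, IsClosed (connectedComponentIn E t) := by
    intro t
    rw [← closure_subset_iff_isClosed]
    intro y hy
    exact comp_closure_inter E t
      ⟨hy, closure_minimal (connectedComponentIn_subset E t) hE.isClosed hy⟩
  have hcpt : ∀ t, IsCompact (connectedComponentIn E t) := fun t =>
    hE.of_isClosed_subset (hclosed t) (connectedComponentIn_subset E t)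
  have hdisj : ∀ s ∈ T, ∀ t ∈ T, s ≠ t →
      Disjoint (connectedComponentIn E s) (connectedComponentIn E t) := by
    intro s hs t ht hst
    rw [Set.disjoint_left]
    intro x hx hx'
    exact hTd s hs t ht hst ((connectedComponentIn_eq hx).trans (connectedComponentIn_eq hx').symm)
  -- the distance
  obtain ⟨δ, hδ, hδd⟩ : ∃ δ > 0, ∀ s ∈ T, ∀ t ∈ T, s ≠ t →
      Disjoint (Metric.thickening δ (connectedComponentIn E s))
        (Metric.thickening δ (connectedComponentIn E t)) := by
    have h1 : ∀ᶠ δ in nhdsWithin (0 : ℝ) (Set.Ioi 0), ∀ s ∈ T, ∀ t ∈ T, s ≠ t →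
        Disjoint (Metric.thickening δ (connectedComponentIn E s))
        (Metric.thickening δ (connectedComponentIn E t)) := by
      rw [Filter.eventually_all_finset]
      intro s hs
      rw [Filter.eventually_all_finset]
      intro t ht
      by_cases hst : s = t
      · exact Filter.Eventually.of_forall fun _ h => absurd hst h
      · obtain ⟨δ, hδ, h2⟩ := (hdisj s hs t ht hst).exists_thickenings (hcpt s) (hclosed t)
        filter_upwards [Ioc_mem_nhdsGT hδ] with x hx _
        exact h2.mono (Metric.thickening_mono hx.2 _) (Metric.thickening_mono hx.2 _)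
    obtain ⟨δ, h2, h3⟩ := (h1.and self_mem_nhdsWithin).exists
    exact ⟨δ, h3, h2⟩
  have hδ2 : 0 < δ / 2 := by positivity
  have hδ3 : δ / 2 < δ := by linarith
  refine ⟨T, fun t => Metric.thickening (δ / 2) (connectedComponentIn E t), hTE, ?_, ?_, hTc,
    δ / 2, hδ2, ?_⟩
  · intro t ht
    refine ⟨Metric.isOpen_thickening, Metric.self_subset_thickening hδ2 _, ?_⟩
    rintro x ⟨hxE, hx⟩
    obtain ⟨s, hs, hxs⟩ := hTc x hxE
    by_cases hst : s = t
    · rw [← hst]
      exact hxs
    · exfalso
      have h1 : x ∈ Metric.thickening δ (connectedComponentIn E t) :=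
        Metric.cthickening_subset_thickening' hδ hδ3 _
          (Metric.closure_thickening_subset_cthickening _ _ hx)
      exact Set.disjoint_left.1 (hδd s hs t ht hst) (Metric.self_subset_thickening hδ _ hxs) h1
  · intro s hs t ht hst
    exact (hδd s hs t ht hst).mono (Metric.thickening_mono hδ3.le _)
      (Metric.thickening_mono hδ3.le _)
  · intro z hz x hx
    obtain ⟨t, ht, hzt⟩ := hTc z hz
    exact ⟨t, ht, Metric.mem_thickening_iff.2 ⟨z, hzt, hx⟩⟩

end Pool.Agent.RM90
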