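import Pool.Agent.Lib.MP_df59e7_lc_X.DefsX
import Pool.Agent.Lib.MP_df59e7_lc_X.QuadA

set_option autoImplicit false

/-! MP_df59e7_lc, project RM2, module ParQ. -/

namespace Pool.Agent.RM90

open MvPolynomial

private theorem ParQ_pos (n : ℕ) :
    (MeasureTheory.volume : MeasureTheory.Measure (Par n)).IsOpenPosMeasure := by
  have h1 : (MeasureTheory.volume : MeasureTheory.Measure
    ((Fin n → ℝ) × (Fin n → Fin n → ℝ))).IsOpenPosMeasure := inferInstance
  have h2 : MeasureTheory.SFinite (MeasureTheory.volume : MeasureTheory.Measure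
    ((Fin n → ℝ) × (Fin n → Fin n → ℝ))) := inferInstance
  exact MeasureTheory.Measure.prod.instIsOpenPosMeasure
    (μ := (MeasureTheory.volume : MeasureTheory.Measure ℝ))
    (ν := (MeasureTheory.volume : MeasureTheory.Measure ((Fin n → ℝ) × (Fin n → Fin n → ℝ))))

private theorem ParQ_c1 {n : ℕ} (i : Fin n) : Continuous fun c : Par n => |c.2.1 i| :=
  ((continuous_apply i).comp (continuous_fst.comp continuous_snd)).abs

private theorem ParQ_c2 {n : ℕ} (i l : Fin n) : Continuous fun c : Par n => |c.2.2 i l| :=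
  ((continuous_apply_apply i l).comp (continuous_snd.comp continuous_snd)).abs

/-- Choice of small generic quadratic polynomials, positive on a box.
Proof: the set of all `c` with all entries of absolute value `< δ'`, and
`c.1 > R' * ∑ |c.2.1 i| + R'^2 * ∑∑ |c.2.2 i l|` and
`c.1 + R' * ∑ |c.2.1 i| + R'^2 * ∑∑ |c.2.2 i l| < δ'` (`R' = max R 0 + 1`, `δ' = δ`) is open and
nonempty (`c = (δ/2, 0, 0)`), so it has positive measure (`IsOpen.measure_pos`) and meets the set
of full measure. Use `eval_quad`. -/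
theorem exists_parQ {n : ℕ} (P : Par n → Prop) (hP : ∀ᵐ c : Par n, P c) (R δ : ℝ)
    (hδ : 0 < δ) :
    ∃ c : Par n, P c ∧ |c.1| < δ ∧ (∀ i, |c.2.1 i| < δ) ∧ (∀ i l, |c.2.2 i l| < δ) ∧
      ∀ x : Fin n → ℝ, (∀ j, |x j| ≤ R) → 0 < eval x (quad c) ∧ eval x (quad c) < δ := by
  obtain ⟨R', hR'⟩ : ∃ R', R' = max R 0 + 1 := ⟨_, rfl⟩
  have hR0 : 0 < R' := by
    have := le_max_right R 0
    linarith
  have hRR : R ≤ R' := by
    have := le_max_left R 0
    linarith
  let S : Par n → ℝ := fun c => ∑ i, |c.2.1 i| * R' + ∑ i, ∑ l, |c.2.2 i l| * (R' * R')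
  have hS : Continuous S := by
    apply Continuous.add
    · refine continuous_finsetSum _ fun i _ => ?_
      exact (ParQ_c1 i).mul continuous_const
    · refine continuous_finsetSum _ fun i _ => continuous_finsetSum _ fun l _ => ?_
      exact (ParQ_c2 i l).mul continuous_const
  let c₀ : Par n := (δ / 2, (0, 0))
  have hS0 : S c₀ = 0 := by simp [S, c₀]
  have e1 : ∀ᶠ c in nhds c₀, |c.1| < δ := by
    apply (continuous_fst.abs).continuousAt.eventually_lt continuousAt_const
    change |δ / 2| < δ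
    rw [abs_of_pos (by linarith)]
    linarith
  have e2 : ∀ᶠ c in nhds c₀, ∀ i, |c.2.1 i| < δ := by
    rw [Filter.eventually_all]
    intro i
    apply (ParQ_c1 i).continuousAt.eventually_lt continuousAt_const
    simpa [c₀] using hδ
  have e3 : ∀ᶠ c in nhds c₀, ∀ i l, |c.2.2 i l| < δ := by
    rw [Filter.eventually_all]
    intro i
    rw [Filter.eventually_all]
    intro l
    apply (ParQ_c2 i l).continuousAt.eventually_lt continuousAt_const
    simpa [c₀] using hδ
  have e4 : ∀ᶠ c in nhds c₀, S c < c.1 := by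
    apply hS.continuousAt.eventually_lt continuous_fst.continuousAt
    rw [hS0]
    change 0 < δ / 2
    linarith
  have e5 : ∀ᶠ c in nhds c₀, c.1 + S c < δ := by
    apply (continuous_fst.add hS).continuousAt.eventually_lt continuousAt_const
    change δ / 2 + S c₀ < δ
    rw [hS0]
    linarith
  have hpos := ParQ_pos n
  have hdense : Dense {c : Par n | P c} := MeasureTheory.Measure.dense_of_ae hP
  obtain ⟨c, hPc, hc⟩ := hdense.inter_nhds_nonempty (e1.and (e2.and (e3.and (e4.and e5))))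
  obtain ⟨h1, h2, h3, h4, h5⟩ := hc
  refine ⟨c, hPc, h1, h2, h3, fun x hx => ?_⟩
  have hx' : ∀ j, |x j| ≤ R' := fun j => (hx j).trans hRR
  have b1 : |∑ i, c.2.1 i * x i| ≤ ∑ i, |c.2.1 i| * R' := by
    refine (Finset.abs_sum_le_sum_abs _ _).trans (Finset.sum_le_sum fun i _ => ?_)
    rw [abs_mul]
    exact mul_le_mul_of_nonneg_left (hx' i) (abs_nonneg _)
  have b2 : |∑ i, ∑ l, c.2.2 i l / 2 * (x i * x l)| ≤ ∑ i, ∑ l, |c.2.2 i l| * (R' * R') := by
    refine (Finset.abs_sum_le_sum_abs _ _).trans (Finset.sum_le_sum fun i _ => ?_)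
    refine (Finset.abs_sum_le_sum_abs _ _).trans (Finset.sum_le_sum fun l _ => ?_)
    rw [abs_mul, abs_mul, abs_div, abs_two]
    apply mul_le_mul _ (mul_le_mul (hx' i) (hx' l) (abs_nonneg _) hR0.le) (by positivity)
      (abs_nonneg _)
    have := abs_nonneg (c.2.2 i l)
    linarith
  have hSc : S c = ∑ i, |c.2.1 i| * R' + ∑ i, ∑ l, |c.2.2 i l| * (R' * R') := rfl
  rw [eval_quad]
  have b3 := abs_le.mp b1
  have b4 := abs_le.mp b2
  constructor
  · linarith [b3.1, b4.1]
  · linarith [b3.2, b4.2]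

end Pool.Agent.RM90
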