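import Pool.Agent.Lib.MP_df59e7_lc_X.DefsX
import Pool.Agent.Lib.MP_df59e7_lc.Forest
import Pool.Agent.Lib.MP_df59e7_lc.UlimC
import Pool.Agent.Lib.MP_df59e7_lc.Comp
import Pool.Agent.Lib.MP_df59e7_lc.RecS

set_option autoImplicit false

/-! MP_df59e7_lc, project RM2, module RecA. -/

namespace Pool.Agent.RM90

open MvPolynomial

/-- The combinatorial step of the recursion.
Proof: as in `rec_step` (Lib/MP_df59e7_lc/RecS.lean; simpler, as `XMap` is exact). Let `Mm` be the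
finite set of local minima of `f` on `E'` (at most `B`); every component of `E'` contains one
(`comp_min`). Pieces: `ι = Mm ⊕ X1`, `K (inl w) = connectedComponentIn E' w`, `K (inr y) = Γ y`:
nonempty, preconnected, contained in the union of the disjoint open sets `Nt t`, `t ∈ T`, so each
in exactly one of them. `r i j`: there are `t ∈ T` with `K i ⊆ Nt t`, `K j ⊆ Nt t`, and `u ∈ K i`,
`v ∈ K j` with `dist u v ≤ θ`. `forest` gives at most `B + |X1|` edges `e`; choose `u_e, v_e`;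
`A'` = all `u_e` with `e.1 = inl _` and all `v_e` with `e.2 = inl _`. `hrec` gives `M'`.
Chainedness of `(M' ∪ ⋃ Γ y) ∩ Nt t`: suppose it is `S1 ∪ S2`, both nonempty, `θ < dist a b` for
all `a ∈ S1`, `b ∈ S2`. For a piece `i` with `K i ⊆ Nt t` let `R i = M' ∩ K i` (`i = inl _`;
connected by `rm1`) resp. `R i = K i`: nonempty and preconnected, so contained in `S1` or in `S2`
(`chained_of_preconnected`), not in both. `I = {i | K i ⊆ Nt t, R i ⊆ S1}`; every point of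
`(M' ∪ ⋃ Γ y) ∩ Nt t` is in some `R i` with `K i ⊆ Nt t`, so there are such pieces of both kinds. By
`hch t` for the union of the `K i`, `i ∈ I`, and the union of the `K i ⊆ Nt t`, `i ∉ I` (their union
is `(E' ∪ ⋃ Γ y) ∩ Nt t`) there are `i ∈ I`, `j ∉ I` with `r i j`, so by `forest` there is an edge
`e` with exactly one end in `I`; both ends are in the same `Nt t'`, and `t' = t` (disjointness);
`u_e ∈ R e.1`, `v_e ∈ R e.2` (`XMap.pts`), so `dist u_e v_e ≤ θ` contradicts the choice of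
`S1, S2`. -/
theorem rec_theta {n : ℕ} (f : (Fin n → ℝ) → ℝ) (hf : Continuous f) (θ : ℝ) (hθ : 0 < θ)
    (E' : Set (Fin n → ℝ)) (hc' : IsCompact E') (hl' : LCn E') (B N' : ℕ)
    (hcard : {w | LM E' f w}.encard ≤ (B : ℕ∞))
    (X1 : Finset (Fin n → ℝ)) (Γ : (Fin n → ℝ) → Set (Fin n → ℝ))
    (hΓ : ∀ y ∈ X1, IsPreconnected (Γ y) ∧ y ∈ Γ y)
    (T : Finset (Fin n → ℝ)) (Nt : (Fin n → ℝ) → Set (Fin n → ℝ))
    (hNo : ∀ t ∈ T, IsOpen (Nt t))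
    (hNd : ∀ s ∈ T, ∀ t ∈ T, s ≠ t → Disjoint (Nt s) (Nt t))
    (hE'N : ∀ x ∈ E', ∃ t ∈ T, x ∈ Nt t) (hΓN : ∀ y ∈ X1, ∀ x ∈ Γ y, ∃ t ∈ T, x ∈ Nt t)
    (hch : ∀ t ∈ T, Chained θ ((E' ∪ ⋃ y ∈ X1, Γ y) ∩ Nt t))
    (hrec : ∀ A' : Finset (Fin n → ℝ), ↑A' ⊆ E' → A'.card ≤ 2 * (B + X1.card) →
      ∃ M', XMap E' f A' N' M') :
    ∃ (A' : Finset (Fin n → ℝ)) (M' : Set (Fin n → ℝ)), XMap E' f A' N' M' ∧
      ∀ t ∈ T, Chained θ ((M' ∪ ⋃ y ∈ X1, Γ y) ∩ Nt t) := by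
  classical
  -- local minima
  have hMfin : {w : Fin n → ℝ | LM E' f w}.Finite := Set.finite_of_encard_le_coe hcard
  obtain ⟨M, hM⟩ : ∃ M : Finset (Fin n → ℝ), M = hMfin.toFinset := ⟨_, rfl⟩
  have hMm : ∀ w, w ∈ M ↔ LM E' f w := by
    intro w
    rw [hM, Set.Finite.mem_toFinset, Set.mem_ofPred_eq]
  have hMc : M.card ≤ B := by
    rw [hMfin.encard_eq_coe_toFinset_card, ← hM] at hcard
    exact_mod_cast hcard
  -- the open sets
  have hNt : ∀ S : Set (Fin n → ℝ), IsPreconnected S → (∀ x ∈ S, ∃ t ∈ T, x ∈ Nt t) →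
      ∀ t ∈ T, ∀ s ∈ S, s ∈ Nt t → S ⊆ Nt t := by
    intro S hS hSN t ht s hs hst
    refine IsPreconnected.subset_left_of_subset_union (v := ⋃ t' ∈ T.erase t, Nt t')
      (hNo t ht) ?_ ?_ ?_ ⟨s, hs, hst⟩ hS
    · exact isOpen_biUnion fun t' ht' => hNo t' (Finset.mem_of_mem_erase ht')
    · rw [Set.disjoint_iUnion₂_right]
      intro t' ht'
      exact hNd t ht t' (Finset.mem_of_mem_erase ht') (Finset.ne_of_mem_erase ht').symm
    · intro x hx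
      obtain ⟨t', ht', hxt'⟩ := hSN x hx
      by_cases h : t' = t
      · rw [h] at hxt'
        exact Or.inl hxt'
      · exact Or.inr (Set.mem_iUnion₂.2 ⟨t', Finset.mem_erase.2 ⟨h, ht'⟩, hxt'⟩)
  -- the pieces
  obtain ⟨Kp, hKp⟩ : ∃ Kp : {m // m ∈ M} ⊕ {y // y ∈ X1} → Set (Fin n → ℝ),
      Kp = Sum.elim (fun m => connectedComponentIn E' m.1) (fun y => Γ y.1) := ⟨_, rfl⟩
  have hKl : ∀ m, Kp (Sum.inl m) = connectedComponentIn E' m.1 := by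
    intro m
    rw [hKp, Sum.elim_inl]
  have hKr : ∀ y, Kp (Sum.inr y) = Γ y.1 := by
    intro y
    rw [hKp, Sum.elim_inr]
  have hmE : ∀ m : {m // m ∈ M}, m.1 ∈ E' := fun m => ((hMm _).1 m.2).1
  have hKne : ∀ i, (Kp i).Nonempty := by
    rintro (m | y)
    · rw [hKl]
      exact ⟨m.1, mem_connectedComponentIn (hmE m)⟩
    · rw [hKr]
      exact ⟨y.1, (hΓ y.1 y.2).2⟩
  have hKsub : ∀ i, ∀ t ∈ T, ∀ s ∈ Kp i, s ∈ Nt t → Kp i ⊆ Nt t := by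
    rintro (m | y)
    · rw [hKl]
      exact hNt _ isPreconnected_connectedComponentIn fun x hx =>
        hE'N x (connectedComponentIn_subset _ _ hx)
    · rw [hKr]
      exact hNt _ (hΓ y.1 y.2).1 (hΓN y.1 y.2)
  obtain ⟨r, hr⟩ : ∃ r : {m // m ∈ M} ⊕ {y // y ∈ X1} → {m // m ∈ M} ⊕ {y // y ∈ X1} → Prop,
      ∀ i j, r i j ↔ ∃ t ∈ T, Kp i ⊆ Nt t ∧
        Kp j ⊆ Nt t ∧ ∃ u ∈ Kp i, ∃ v ∈ Kp j, dist u v ≤ θ :=
    ⟨_, fun _ _ => Iff.rfl⟩
  obtain ⟨W, hTc, hTr, hTI⟩ := forest r (by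
    intro i j hij
    rw [hr] at hij ⊢
    obtain ⟨x, hx, h1, h2, u, hu, v, hv, huv⟩ := hij
    exact ⟨x, hx, h2, h1, v, hv, u, hu, by rwa [dist_comm]⟩)
  have hTc' : W.card ≤ B + X1.card := by
    rw [Fintype.card_sum, Fintype.card_coe, Fintype.card_coe] at hTc
    omega
  have hT2 : ∀ e ∈ W, ∃ t ∈ T, Kp e.1 ⊆ Nt t ∧
        Kp e.2 ⊆ Nt t ∧ ∃ u ∈ Kp e.1, ∃ v ∈ Kp e.2, dist u v ≤ θ :=
    fun e he => (hr _ _).1 (hTr e he)
  choose! xe hxe hK1 hK2 u hu v hv huv using hT2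
  obtain ⟨A', hA'⟩ : ∃ A' : Finset (Fin n → ℝ), A' =
    (W.filter fun e => e.1.isLeft = true).image u ∪
      (W.filter fun e => e.2.isLeft = true).image v := ⟨_, rfl⟩
  have hA'E : (↑A' : Set (Fin n → ℝ)) ⊆ E' := by
    intro a ha
    rw [hA', Finset.mem_coe, Finset.mem_union, Finset.mem_image, Finset.mem_image] at ha
    rcases ha with ⟨⟨i, j⟩, he, rfl⟩ | ⟨⟨i, j⟩, he, rfl⟩
    · rw [Finset.mem_filter] at he
      rcases i with m | y
      · have := hu _ he.1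
        rw [hKl] at this
        exact connectedComponentIn_subset _ _ this
      · exact absurd he.2 (by simp)
    · rw [Finset.mem_filter] at he
      rcases j with m | y
      · have := hv _ he.1
        rw [hKl] at this
        exact connectedComponentIn_subset _ _ this
      · exact absurd he.2 (by simp)
  have hA'c : A'.card ≤ 2 * (B + X1.card) := by
    have h1 : A'.card ≤ ((W.filter fun e => e.1.isLeft = true).image u).card +
        ((W.filter fun e => e.2.isLeft = true).image v).card := by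
      rw [hA']
      exact Finset.card_union_le _ _
    have h2 : ((W.filter fun e => e.1.isLeft = true).image u).card ≤ W.card :=
      Finset.card_image_le.trans (Finset.card_filter_le _ _)
    have h3 : ((W.filter fun e => e.2.isLeft = true).image v).card ≤ W.card :=
      Finset.card_image_le.trans (Finset.card_filter_le _ _)
    omega
  obtain ⟨R', hR'⟩ := hrec A' hA'E hA'c
  -- the small pieces
  obtain ⟨Rp, hRp⟩ : ∃ Rp : {m // m ∈ M} ⊕ {y // y ∈ X1} → Set (Fin n → ℝ),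
      Rp = Sum.elim (fun m => R' ∩ connectedComponentIn E' m.1) (fun y => Γ y.1) := ⟨_, rfl⟩
  have hRl : ∀ m, Rp (Sum.inl m) = R' ∩ connectedComponentIn E' m.1 := by
    intro m
    rw [hRp, Sum.elim_inl]
  have hRr : ∀ y, Rp (Sum.inr y) = Γ y.1 := by
    intro y
    rw [hRp, Sum.elim_inr]
  have hRne : ∀ i, (Rp i).Nonempty := by
    rintro (m | y)
    · rw [hRl]
      exact (hR'.rm1 m.1 (hmE m)).nonempty
    · rw [hRr]
      exact ⟨y.1, (hΓ y.1 y.2).2⟩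
  have hRK : ∀ i, Rp i ⊆ Kp i := by
    rintro (m | y)
    · rw [hRl, hKl]
      exact Set.inter_subset_right
    · rw [hRr, hKr]
  have hRR : ∀ i, Rp i ⊆ R' ∪ ⋃ y ∈ X1, Γ y := by
    rintro (m | y)
    · rw [hRl]
      exact fun w hw => Or.inl hw.1
    · rw [hRr]
      exact fun w hw => Or.inr (Set.mem_iUnion₂.2 ⟨y.1, y.2, hw⟩)
  have hRch : ∀ i, Chained θ (Rp i) := by
    rintro (m | y)
    · rw [hRl]
      exact chained_of_preconnected _ (hR'.rm1 m.1 (hmE m)).isPreconnected θ hθ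
    · rw [hRr]
      exact chained_of_preconnected _ (hΓ y.1 y.2).1 θ hθ
  refine ⟨A', R', hR', ?_⟩
  intro t ht S1 S2 hSS hn1 hn2
  by_contra hcon
  push Not at hcon
  have hdisj : ∀ p, p ∈ S1 → p ∈ S2 → False := by
    intro p h1 h2
    have h3 := hcon p h1 p h2
    rw [dist_self] at h3
    linarith
  have hdich : ∀ i, Kp i ⊆ Nt t → Rp i ⊆ S1 ∨ Rp i ⊆ S2 := by
    intro i hi
    have hsub : Rp i ⊆ S1 ∪ S2 := by
      rw [← hSS]
      exact fun w hw => ⟨hRR i hw, hi (hRK i hw)⟩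
    by_contra hno
    push Not at hno
    obtain ⟨h1, h2⟩ := hno
    obtain ⟨a, haR, ha⟩ := Set.not_subset.1 h1
    obtain ⟨b, hbR, hb⟩ := Set.not_subset.1 h2
    have ha2 : a ∈ S2 := (hsub haR).resolve_left ha
    have hb1 : b ∈ S1 := (hsub hbR).resolve_right hb
    obtain ⟨c, hc, d, hd, hcd⟩ := hRch i (Rp i ∩ S1) (Rp i ∩ S2)
      (by rw [← Set.inter_union_distrib_left, Set.inter_eq_left.2 hsub])
      ⟨b, hbR, hb1⟩ ⟨a, haR, ha2⟩
    exact absurd (hcon c hc.2 d hd.2) (not_lt.2 hcd)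
  -- every point is in a piece
  have hpE : ∀ s ∈ E', s ∈ Nt t → ∃ m : {m // m ∈ M},
      Kp (Sum.inl m) ⊆ Nt t ∧ s ∈ connectedComponentIn E' m.1 := by
    intro s hs hsx
    obtain ⟨m, hm, hmL⟩ := comp_min E' hc' hl' f hf s hs
    have h1 : s ∈ connectedComponentIn E' m := by
      rw [← connectedComponentIn_eq hm]
      exact mem_connectedComponentIn hs
    refine ⟨⟨m, (hMm m).2 hmL⟩, ?_, h1⟩
    refine hKsub _ t ht s ?_ hsx
    rw [hKl]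
    exact h1
  have hpΓ : ∀ s ∈ ⋃ y ∈ X1, Γ y, s ∈ Nt t → ∃ y : {y // y ∈ X1},
      Kp (Sum.inr y) ⊆ Nt t ∧ s ∈ Γ y.1 := by
    intro s hs hsx
    obtain ⟨y, hy, hsy⟩ := Set.mem_iUnion₂.1 hs
    refine ⟨⟨y, hy⟩, ?_, hsy⟩
    refine hKsub _ t ht s ?_ hsx
    rw [hKr]
    exact hsy
  have hpR : ∀ s ∈ (R' ∪ ⋃ y ∈ X1, Γ y) ∩ Nt t, ∃ i, Kp i ⊆ Nt t ∧ s ∈ Rp i := by
    rintro s ⟨hs | hs, hsx⟩
    · obtain ⟨m, h1, h2⟩ := hpE s (hR'.sub hs) hsx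
      exact ⟨Sum.inl m, h1, by rw [hRl]; exact ⟨hs, h2⟩⟩
    · obtain ⟨y, h1, h2⟩ := hpΓ s hs hsx
      exact ⟨Sum.inr y, h1, by rw [hRr]; exact h2⟩
  have hpK : ∀ s ∈ (E' ∪ ⋃ y ∈ X1, Γ y) ∩ Nt t, ∃ i, Kp i ⊆ Nt t ∧ s ∈ Kp i := by
    rintro s ⟨hs | hs, hsx⟩
    · obtain ⟨m, h1, h2⟩ := hpE s hs hsx
      exact ⟨Sum.inl m, h1, by rw [hKl]; exact h2⟩
    · obtain ⟨y, h1, h2⟩ := hpΓ s hs hsx
      exact ⟨Sum.inr y, h1, by rw [hKr]; exact h2⟩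
  have hKS : ∀ i, Kp i ⊆ E' ∪ ⋃ y ∈ X1, Γ y := by
    rintro (m | y)
    · rw [hKl]
      exact fun w hw => Or.inl (connectedComponentIn_subset _ _ hw)
    · rw [hKr]
      exact fun w hw => Or.inr (Set.mem_iUnion₂.2 ⟨y.1, y.2, hw⟩)
  obtain ⟨I, hI⟩ : ∃ I : Set ({m // m ∈ M} ⊕ {y // y ∈ X1}),
    ∀ i, i ∈ I ↔ Kp i ⊆ Nt t ∧ Rp i ⊆ S1 :=
      ⟨{i | Kp i ⊆ Nt t ∧ Rp i ⊆ S1}, fun _ => Iff.rfl⟩
  have hI1 : ∃ i, i ∈ I := by
    obtain ⟨s, hs⟩ := hn1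
    have hs' : s ∈ (R' ∪ ⋃ y ∈ X1, Γ y) ∩ Nt t := by
      rw [hSS]
      exact Or.inl hs
    obtain ⟨i, h1, h2⟩ := hpR s hs'
    refine ⟨i, (hI i).2 ⟨h1, ?_⟩⟩
    rcases hdich i h1 with h3 | h3
    · exact h3
    · exact absurd (h3 h2) (fun h => hdisj s hs h)
  have hI2 : ∃ i, Kp i ⊆ Nt t ∧ i ∉ I := by
    obtain ⟨s, hs⟩ := hn2
    have hs' : s ∈ (R' ∪ ⋃ y ∈ X1, Γ y) ∩ Nt t := by
      rw [hSS]
      exact Or.inr hs
    obtain ⟨i, h1, h2⟩ := hpR s hs'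
    exact ⟨i, h1, fun h => hdisj s (((hI i).1 h).2 h2) hs⟩
  obtain ⟨a, ha, b, hb, hab⟩ := hch t ht (⋃ i ∈ I, Kp i)
    (⋃ i ∈ {i | Kp i ⊆ Nt t ∧ i ∉ I}, Kp i) (by
      apply Set.Subset.antisymm
      · intro s hs
        obtain ⟨i, h1, h2⟩ := hpK s hs
        by_cases hi : i ∈ I
        · exact Or.inl (Set.mem_iUnion₂.2 ⟨i, hi, h2⟩)
        · exact Or.inr (Set.mem_iUnion₂.2 ⟨i, ⟨h1, hi⟩, h2⟩)
      · rintro s (hs | hs)
        · obtain ⟨i, hi, h2⟩ := Set.mem_iUnion₂.1 hs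
          exact ⟨hKS i h2, ((hI i).1 hi).1 h2⟩
        · obtain ⟨i, hi, h2⟩ := Set.mem_iUnion₂.1 hs
          exact ⟨hKS i h2, hi.1 h2⟩)
    (by
      obtain ⟨i, hi⟩ := hI1
      obtain ⟨w, hw⟩ := hKne i
      exact ⟨w, Set.mem_iUnion₂.2 ⟨i, hi, hw⟩⟩)
    (by
      obtain ⟨i, hi, hi'⟩ := hI2
      obtain ⟨w, hw⟩ := hKne i
      exact ⟨w, Set.mem_iUnion₂.2 ⟨i, ⟨hi, hi'⟩, hw⟩⟩)
  obtain ⟨i, hi, hai⟩ := Set.mem_iUnion₂.1 ha
  obtain ⟨j, hj, hbj⟩ := Set.mem_iUnion₂.1 hb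
  obtain ⟨e, heT, he⟩ := hTI I ⟨i, j, hi, hj.2, (hr i j).2
    ⟨t, ht, ((hI i).1 hi).1, hj.1, a, hai, b, hbj, hab⟩⟩
  -- both ends in `Nt t`
  have hcc : ∀ k : {m // m ∈ M} ⊕ {y // y ∈ X1}, Kp k ⊆ Nt (xe e) → Kp k ⊆ Nt t →
      xe e = t := by
    intro k h1 h2
    obtain ⟨w, hw⟩ := hKne k
    by_contra hne
    exact Set.disjoint_left.1 (hNd (xe e) (hxe e heT) t ht hne) (h1 hw) (h2 hw)
  have hboth : Kp e.1 ⊆ Nt t ∧ Kp e.2 ⊆ Nt t := by
    rcases he with ⟨h1, -⟩ | ⟨-, h1⟩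
    · have h2 := ((hI _).1 h1).1
      have h3 := hcc e.1 (hK1 e heT) h2
      exact ⟨h2, by rw [← h3]; exact hK2 e heT⟩
    · have h2 := ((hI _).1 h1).1
      have h3 := hcc e.2 (hK2 e heT) h2
      exact ⟨by rw [← h3]; exact hK1 e heT, h2⟩
  have hclose : ∀ (k : {m // m ∈ M} ⊕ {y // y ∈ X1}) (w : Fin n → ℝ), w ∈ Kp k →
      (k.isLeft = true → w ∈ A') → w ∈ Rp k := by
    rintro (m | y) w hw hwA
    · rw [hKl] at hw
      rw [hRl]
      exact ⟨hR'.pts (hwA rfl), hw⟩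
    · rw [hKr] at hw
      rw [hRr]
      exact hw
  have hp := hclose e.1 (u e) (hu e heT) (fun hl => by
    rw [hA']
    exact Finset.mem_union_left _ (Finset.mem_image_of_mem u (Finset.mem_filter.2 ⟨heT, hl⟩)))
  have hq := hclose e.2 (v e) (hv e heT) (fun hl => by
    rw [hA']
    exact Finset.mem_union_right _ (Finset.mem_image_of_mem v (Finset.mem_filter.2 ⟨heT, hl⟩)))
  have hpq : dist (u e) (v e) ≤ θ := huv e heT
  rcases he with ⟨h1, h2⟩ | ⟨h1, h2⟩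
  · have hp1 : u e ∈ S1 := ((hI _).1 h1).2 hp
    have hq2 : v e ∈ S2 := by
      rcases hdich e.2 hboth.2 with h3 | h3
      · exact absurd ((hI _).2 ⟨hboth.2, h3⟩) h2
      · exact h3 hq
    exact absurd (hcon _ hp1 _ hq2) (not_lt.2 hpq)
  · have hq1 : v e ∈ S1 := ((hI _).1 h2).2 hq
    have hp2 : u e ∈ S2 := by
      rcases hdich e.1 hboth.1 with h3 | h3
      · exact absurd ((hI _).2 ⟨hboth.1, h3⟩) h1
      · exact h3 hp
    have := hcon _ hq1 _ hp2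
    rw [dist_comm] at this
    exact absurd this (not_lt.2 hpq)

end Pool.Agent.RM90
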