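import Pool.Agent.Lib.MP_df59e7_lc_X.DefsX

set_option autoImplicit false

/-! MP_df59e7_lc, project RM2, module RthD. -/

namespace Pool.Agent.RM90

open MvPolynomial

/-- Approximate roadmaps near `E`: contained in the `θ`-neighbourhood of `E`, chained in the
neighbourhoods `Nt t`, `t ∈ T`, of the components of `E`. -/
structure Rth {n : ℕ} (E : Set (Fin n → ℝ)) (f : (Fin n → ℝ) → ℝ) (A : Finset (Fin n → ℝ))
    (N : ℕ) (T : Finset (Fin n → ℝ)) (Nt : (Fin n → ℝ) → Set (Fin n → ℝ)) (θ : ℝ)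
    (R : Set (Fin n → ℝ)) : Prop where
  alg : Alg N R
  near : ∀ u ∈ R, ∃ v ∈ E, dist u v ≤ θ
  chn : ∀ t ∈ T, Chained θ (R ∩ Nt t)
  pts : ∀ a ∈ A, ∃ r ∈ R, dist a r ≤ θ
  fib : ∀ x ∈ E, ∃ S : Set (Fin n → ℝ), Chained θ S ∧ x ∈ S ∧ (S ∩ R).Nonempty ∧
    (∀ w ∈ S, ∃ v ∈ E, dist w v ≤ θ) ∧ ∀ w ∈ S, |f w - f x| ≤ θ

end Pool.Agent.RM90
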