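import Pool.Agent.Lib.MP_df59e7_lc_X.DefsX
import Pool.Agent.Lib.MP_df59e7_lc_X.RthD
import Pool.Agent.Lib.MP_df59e7_lc_X.Act2
import Pool.Agent.Lib.MP_df59e7_lc_X.NbC
import Pool.Agent.Lib.MP_df59e7_lc_X.RecA
import Pool.Agent.Lib.MP_df59e7_lc.AlgU
import Pool.Agent.Lib.MP_df59e7_lc.UlimC

set_option autoImplicit false

/-! MP_df59e7_lc, project RM2, module RthE. -/

namespace Pool.Agent.RM90

open MvPolynomial

/-- Existence of approximate roadmaps near `E`.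
Proof: let `ρ` be the number of `hρ` and `θ' = min (θ/2) (ρ/2)`. `act2` for `θ'` gives `X0`. For
`a ∈ A` choose `g a ∈ D` with `dist a (g a) ≤ θ` (`ActE.dD`). `X1 = X0 ∪ A.image g`,
`|X1| ≤ 2 B^2 + B + |A|`. For almost all `p` (finitely many conditions, one `p` is enough): the
sets `(E' p ∪ ⋃ y ∈ X1, Γ y) ∩ Nt t` are `θ'`-chained for all `t ∈ T` (`act2` with `x0 = t`,
`N0 = Nt t`), every point of `E' p` is within `θ'` of a point of `Z ⊆ E` (so in some `Nt t` by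
`hρ`), every point of `Z` is within `θ'` of a point of `E' p`. `rec_theta` (for `θ'`,
`N' = κ * (2 * (B + |X1|) + 8 * B^2)`, from `hrec` by monotonicity of `XMap` in `N`,
`alg_mono`) gives `A', M'`; put `R = M' ∪ ⋃ y ∈ X1, Γ y`. `alg`: `alg_union`, `alg_biUnion`, `alg_mono`. `near`:
`M' ⊆ E' p`, `Γ y ⊆ E`. `chn`: `chained_mono`. `pts`: `g a ∈ Γ (g a)`. `fib`: `ActE.meet` gives
`z ∈ Z` in the component `G` of the fibre through `x`; `y ∈ E' p` with `dist y z < θ'`;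
`S = G ∪ F`, `F = connectedComponentIn {w | w ∈ E' p ∧ f w = f y} y`, which meets `M'` (`rm2`);
`chained_union` (`chained_of_preconnected`) for `z ∈ G`, `y ∈ F`; `f = f x` on `G` (`ActE.fπ`) and
`f = f y` on `F`, `|f y - f x| = |f y - f z| ≤ dist y z`. -/
theorem rth_exists {n : ℕ} {Y : Type*} [MetricSpace Y] (E Z D : Set (Fin n → ℝ))
    (f : (Fin n → ℝ) → ℝ) (hf : ∀ u v, |f u - f v| ≤ dist u v)
    (π : (Fin n → ℝ) → Y) (Γ : (Fin n → ℝ) → Set (Fin n → ℝ)) (B : ℕ)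
    (h : ActE E Z D f π Γ B) (Ka : ℕ) (hΓ : ∀ y ∈ D, Alg Ka (Γ y))
    (E' : ℕ → Set (Fin n → ℝ)) (K : Set (Fin n → ℝ)) (hK : IsCompact K)
    (hE'K : ∀ p, E' p ⊆ K) (h' : ActQ Z f B E') (κ : ℕ)
    (hrec : ∀ p, ∀ A' : Finset (Fin n → ℝ), ↑A' ⊆ E' p →
      ∃ M', XMap (E' p) f A' (κ * (A'.card + 8 * B ^ 2)) M')
    (T : Finset (Fin n → ℝ)) (Nt : (Fin n → ℝ) → Set (Fin n → ℝ)) (hTE : ↑T ⊆ E)
    (hNt : ∀ t ∈ T, IsOpen (Nt t) ∧ connectedComponentIn E t ⊆ Nt t ∧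
        E ∩ closure (Nt t) ⊆ connectedComponentIn E t)
    (hNd : ∀ s ∈ T, ∀ t ∈ T, s ≠ t → Disjoint (Nt s) (Nt t))
    (hcov : ∀ x ∈ E, ∃ t ∈ T, x ∈ connectedComponentIn E t)
    (hρ : ∃ ρ > 0, ∀ z ∈ E, ∀ x, dist x z < ρ → ∃ t ∈ T, x ∈ Nt t)
    (A : Finset (Fin n → ℝ)) (hA : ↑A ⊆ E) (θ : ℝ) (hθ : 0 < θ) :
    ∃ R, Rth E f A (κ * (2 * (B + (2 * B ^ 2 + B + A.card)) + 8 * B ^ 2) +
      (2 * B ^ 2 + B + A.card) * Ka) T Nt θ R := by
  classical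
  obtain ⟨ρ, hρ0, hρ⟩ := hρ
  obtain ⟨θ', hθ', hθ1, hθ2⟩ : ∃ θ' : ℝ, 0 < θ' ∧ θ' ≤ θ ∧ θ' < ρ :=
    ⟨min (θ / 2) (ρ / 2), lt_min (by linarith) (by linarith),
      (min_le_left _ _).trans (by linarith), (min_le_right _ _).trans_lt (by linarith)⟩
  obtain ⟨X0, hX0D, hX0c, hX0⟩ := act2 E Z D f π Γ B h E' K hK hE'K h' θ' hθ'
  have hg : ∀ a ∈ A, ∃ b ∈ D, dist a b < θ := fun a ha =>
    Metric.mem_closure_iff.1 (h.dD (hA (Finset.mem_coe.2 ha))) θ hθ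
  choose! g hgD hgd using hg
  obtain ⟨X1, hX1⟩ : ∃ X1 : Finset (Fin n → ℝ), X1 = X0 ∪ A.image g := ⟨_, rfl⟩
  have hX01 : X0 ⊆ X1 := by
    rw [hX1]
    exact Finset.subset_union_left
  have hX1D : (↑X1 : Set (Fin n → ℝ)) ⊆ D := by
    intro x hx
    rw [hX1, Finset.mem_coe, Finset.mem_union, Finset.mem_image] at hx
    rcases hx with hx | ⟨a, ha, rfl⟩
    · exact hX0D hx
    · exact hgD a ha
  have hX1c : X1.card ≤ 2 * B ^ 2 + B + A.card := by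
    rw [hX1]
    exact (Finset.card_union_le _ _).trans (add_le_add hX0c Finset.card_image_le)
  have hne : (Filter.hyperfilter ℕ : Filter ℕ).NeBot := inferInstance
  have e1 : ∀ᶠ p in (Filter.hyperfilter ℕ : Filter ℕ), ∀ t ∈ T,
      Chained θ' ((E' p ∪ ⋃ y ∈ X1, Γ y) ∩ Nt t) := by
    rw [Filter.eventually_all_finset]
    intro t ht
    exact hX0 X1 hX01 hX1D t (hTE (Finset.mem_coe.2 ht)) (Nt t) (hNt t ht).1 (hNt t ht).2.1
      (hNt t ht).2.2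
  obtain ⟨p, ⟨hch, hto⟩, hof⟩ := ((e1.and (h'.toZ θ' hθ')).and (h'.ofZ θ' hθ')).exists
  have hΓE : ∀ y ∈ X1, Γ y ⊆ E := fun y hy x hx => (h.Γf y (hX1D (Finset.mem_coe.2 hy)) hx).1
  have hE'N : ∀ x ∈ E' p, ∃ t ∈ T, x ∈ Nt t := by
    intro x hx
    obtain ⟨z, hz, hd⟩ := hto x hx
    exact hρ z (h.ZE hz) x (hd.trans hθ2)
  have hΓN : ∀ y ∈ X1, ∀ x ∈ Γ y, ∃ t ∈ T, x ∈ Nt t := by
    intro y hy x hx
    obtain ⟨t, ht, hxt⟩ := hcov x (hΓE y hy hx)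
    exact ⟨t, ht, (hNt t ht).2.1 hxt⟩
  obtain ⟨A', M', hM', hch'⟩ := rec_theta f h.cf θ' hθ' (E' p) (h'.cpt p) (h'.lcn p) B
    (κ * (2 * (B + X1.card) + 8 * B ^ 2)) (h'.card p) X1 Γ
    (fun y hy => ⟨h.Γp y (hX1D (Finset.mem_coe.2 hy)), h.Γm y (hX1D (Finset.mem_coe.2 hy))⟩)
    T Nt (fun t ht => (hNt t ht).1) hNd hE'N hΓN hch (fun A' hA' hc => by
      obtain ⟨M', hM'⟩ := hrec p A' hA'
      exact ⟨M', { hM' with
        alg := alg_mono (Nat.mul_le_mul_left _ (Nat.add_le_add_right hc _))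
          (Set.Subset.refl _) hM'.alg }⟩)
  refine ⟨M' ∪ ⋃ y ∈ X1, Γ y, ⟨?_, ?_, ?_, ?_, ?_⟩⟩
  · refine alg_mono ?_ (Set.Subset.refl _) (alg_union hM'.alg (alg_biUnion X1 Ka Γ fun y hy =>
      hΓ y (hX1D (Finset.mem_coe.2 hy))))
    refine Nat.add_le_add (Nat.mul_le_mul_left _ ?_) (Nat.mul_le_mul_right _ hX1c)
    exact Nat.add_le_add_right (Nat.mul_le_mul_left _ (Nat.add_le_add_left hX1c _)) _
  · rintro u (hu | hu)
    · obtain ⟨z, hz, hd⟩ := hto u (hM'.sub hu)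
      exact ⟨z, h.ZE hz, (hd.le).trans hθ1⟩
    · obtain ⟨y, hy, huy⟩ := Set.mem_iUnion₂.1 hu
      exact ⟨u, hΓE y hy huy, by rw [dist_self]; exact hθ.le⟩
  · intro t ht
    exact chained_mono hθ1 (hch' t ht)
  · intro a ha
    refine ⟨g a, Or.inr (Set.mem_iUnion₂.2 ⟨g a, ?_, h.Γm _ (hgD a ha)⟩), (hgd a ha).le⟩
    rw [hX1]
    exact Finset.mem_union_right _ (Finset.mem_image_of_mem g ha)
  · intro x hx
    obtain ⟨z, hzG, hzZ⟩ := h.meet x hx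
    obtain ⟨y, hy, hyz⟩ := hof z hzZ
    have hGf : ∀ w ∈ connectedComponentIn (E ∩ π ⁻¹' {π x}) x, w ∈ E ∧ f w = f x := by
      intro w hw
      have h1 := connectedComponentIn_subset _ _ hw
      exact ⟨h1.1, h.fπ w h1.1 x hx h1.2⟩
    have hFf : ∀ w ∈ connectedComponentIn {w | w ∈ E' p ∧ f w = f y} y,
        w ∈ E' p ∧ f w = f y := by
      intro w hw
      have h1 := connectedComponentIn_subset _ _ hw
      exact h1
    have hyF : y ∈ connectedComponentIn {w | w ∈ E' p ∧ f w = f y} y :=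
      mem_connectedComponentIn ⟨hy, rfl⟩
    refine ⟨connectedComponentIn (E ∩ π ⁻¹' {π x}) x ∪
      connectedComponentIn {w | w ∈ E' p ∧ f w = f y} y, ?_, ?_, ?_, ?_, ?_⟩
    · refine chained_union (chained_of_preconnected _ isPreconnected_connectedComponentIn θ hθ)
        (chained_of_preconnected _ isPreconnected_connectedComponentIn θ hθ) z y hzG hyF ?_
      rw [dist_comm]
      exact hyz.le.trans hθ1
    · exact Or.inl (mem_connectedComponentIn ⟨hx, rfl⟩)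
    · obtain ⟨w, hw1, hw2⟩ := hM'.rm2 y hy
      exact ⟨w, Or.inr hw2, Or.inl hw1⟩
    · rintro w (hw | hw)
      · exact ⟨w, (hGf w hw).1, by rw [dist_self]; exact hθ.le⟩
      · obtain ⟨z', hz', hd⟩ := hto w (hFf w hw).1
        exact ⟨z', h.ZE hz', hd.le.trans hθ1⟩
    · rintro w (hw | hw)
      · rw [(hGf w hw).2, sub_self, abs_zero]
        exact hθ.le
      · rw [(hFf w hw).2, ← (hGf z hzG).2]
        exact (hf y z).trans (hyz.le.trans hθ1)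

end Pool.Agent.RM90
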