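import Pool.Agent.Lib.MP_df59e7_lc_X.DefsX
import Pool.Agent.Lib.MP_df59e7_lc_X.RthD
import Pool.Agent.Lib.MP_df59e7_lc.AlgLim
import Pool.Agent.Lib.MP_df59e7_lc.UlimC
import Pool.Agent.Lib.MP_df59e7_lc.AlgU

set_option autoImplicit false

/-! MP_df59e7_lc, project RM2, module RthL. -/

namespace Pool.Agent.RM90

open MvPolynomial

private theorem RthL_sub {n : ℕ} {E : Set (Fin n → ℝ)} (hE : IsClosed E) {θ : ℕ → ℝ}
    (hθ : Filter.Tendsto θ (Filter.hyperfilter ℕ : Filter ℕ) (nhds 0))
    (S : ℕ → Set (Fin n → ℝ)) (hS : ∀ q, ∀ u ∈ S q, ∃ v ∈ E, dist u v ≤ θ q) : ulim S ⊆ E := by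
  intro x hx
  obtain ⟨a, ha, hax⟩ := exists_sel S x hx
  have hv : ∀ q, ∃ v, a q ∈ S q → v ∈ E ∧ dist (a q) v ≤ θ q := by
    intro q
    by_cases h : a q ∈ S q
    · obtain ⟨v, hv, hd⟩ := hS q _ h
      exact ⟨v, fun _ => ⟨hv, hd⟩⟩
    · exact ⟨0, fun h' => absurd h' h⟩
  choose v hv using hv
  have h1 : Filter.Tendsto v (Filter.hyperfilter ℕ : Filter ℕ) (nhds x) := by
    rw [tendsto_iff_dist_tendsto_zero] at hax ⊢
    have h2 : Filter.Tendsto (fun q => θ q + dist (a q) x) (Filter.hyperfilter ℕ : Filter ℕ)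
        (nhds 0) := by
      have := hθ.add hax
      rwa [add_zero] at this
    refine tendsto_of_tendsto_of_tendsto_of_le_of_le' tendsto_const_nhds h2
      (Filter.Eventually.of_forall fun q => dist_nonneg) ?_
    filter_upwards [ha] with q hq
    have h3 := (hv q hq).2
    have h4 := dist_triangle_left (v q) x (a q)
    linarith
  refine hE.mem_of_tendsto h1 ?_
  filter_upwards [ha] with q hq
  exact (hv q hq).1

private theorem RthL_f {n : ℕ} {f : (Fin n → ℝ) → ℝ} (hf : ∀ u v, |f u - f v| ≤ dist u v)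
    {θ : ℕ → ℝ} (hθ : Filter.Tendsto θ (Filter.hyperfilter ℕ : Filter ℕ) (nhds 0))
    (S : ℕ → Set (Fin n → ℝ)) (x : Fin n → ℝ) (hS : ∀ q, ∀ u ∈ S q, |f u - f x| ≤ θ q)
    {y : Fin n → ℝ} (hy : y ∈ ulim S) : f y = f x := by
  obtain ⟨a, ha, hay⟩ := exists_sel S y hy
  have h1 : Filter.Tendsto (fun q => dist (a q) y + θ q) (Filter.hyperfilter ℕ : Filter ℕ)
      (nhds 0) := by
    have := (tendsto_iff_dist_tendsto_zero.1 hay).add hθ
    rwa [add_zero] at this
  have h2 : |f y - f x| ≤ 0 := by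
    refine ge_of_tendsto h1 ?_
    filter_upwards [ha] with q hq
    have h3 := hS q _ hq
    have h4 := hf (a q) y
    have h5 : f y - f x = -(f (a q) - f y) + (f (a q) - f x) := by ring
    rw [h5]
    refine (abs_add_le _ _).trans ?_
    rw [abs_neg]
    linarith
  have h3 := abs_nonpos_iff.1 h2
  linarith

/-- The limit of approximate roadmaps is an exact roadmap.
Proof: choose `R q` for `θ = 1/(q+1)` and let `M = ulim R`; all `R q` and all sets `S` of `fib`
are in the compact set `K = cthickening 1 E`. `sub`: `near` and `E` closed (`exists_sel`). `closed`: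
`ulim_closed`. `alg`: `alg_ulim`. `pts`: `mem_ulim_of_tendsto` for the points of `pts`. Let `x ∈ E`
and `x ∈ connectedComponentIn E t`, `t ∈ T`. Then
`M ∩ connectedComponentIn E x = ulim (fun q => R q ∩ Nt t)`: a limit of points of `R q ∩ Nt t` is
in `M ⊆ E` and in `closure (Nt t)`, so in the component; a point of `M` in the component is in the
open set `Nt t`, so the points of the selection are eventually in `Nt t`. It is preconnected by
`ulim_preconnected` with `θ q = 1/(q+1)` (`tendsto_one_div_add_atTop_nhds_zero_nat` and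
`Nat.hyperfilter_le_atTop`). `rm2`: for `x ∈ E` choose `S q` of `fib`; `ulim S` is preconnected,
contained in `{y | y ∈ E ∧ f y = f x}` (`f` is continuous by `hf`), contains `x` and a limit
(`exists_lim`) of points of `S q ∩ R q`, which is in `M`. So `M` meets
`connectedComponentIn {y | y ∈ E ∧ f y = f x} x ⊆ connectedComponentIn E x`; this also gives the
nonemptiness in `rm1`. -/
theorem rth_limit {n : ℕ} (E : Set (Fin n → ℝ)) (hE : IsCompact E) (f : (Fin n → ℝ) → ℝ)
    (hf : ∀ u v, |f u - f v| ≤ dist u v) (A : Finset (Fin n → ℝ)) (N : ℕ)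
    (T : Finset (Fin n → ℝ)) (Nt : (Fin n → ℝ) → Set (Fin n → ℝ))
    (hNt : ∀ t ∈ T, IsOpen (Nt t) ∧ connectedComponentIn E t ⊆ Nt t ∧
        E ∩ closure (Nt t) ⊆ connectedComponentIn E t)
    (hcov : ∀ x ∈ E, ∃ t ∈ T, x ∈ connectedComponentIn E t)
    (hR : ∀ q : ℕ, ∃ R, Rth E f A N T Nt (1 / ((q : ℝ) + 1)) R) :
    ∃ M, XMap E f A N M := by
  choose R hR using hR
  have hθ : Filter.Tendsto (fun q : ℕ => 1 / ((q : ℝ) + 1)) (Filter.hyperfilter ℕ : Filter ℕ)
      (nhds 0) :=
    tendsto_one_div_add_atTop_nhds_zero_nat.mono_left Nat.hyperfilter_le_atTop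
  have hθ1 : ∀ q : ℕ, 1 / ((q : ℝ) + 1) ≤ 1 := fun q => by
    rw [div_le_one (by positivity)]
    have : (0 : ℝ) ≤ q := Nat.cast_nonneg q
    linarith
  have hK : IsCompact (Metric.cthickening 1 E) := hE.cthickening
  have hKm : ∀ (q : ℕ) (u : Fin n → ℝ), (∃ v ∈ E, dist u v ≤ 1 / ((q : ℝ) + 1)) →
      u ∈ Metric.cthickening 1 E := by
    rintro q u ⟨v, hv, hd⟩
    exact Metric.mem_cthickening_of_dist_le u v 1 E hv (hd.trans (hθ1 q))
  have hsub : ulim R ⊆ E := RthL_sub hE.isClosed hθ R fun q => (hR q).near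
  have hrm2 : ∀ x ∈ E, (ulim R ∩ connectedComponentIn {y | y ∈ E ∧ f y = f x} x).Nonempty := by
    intro x hx
    choose S hS1 hS2 hS3 hS4 hS5 using fun q => (hR q).fib x hx
    choose s hs using hS3
    obtain ⟨y, -, hy⟩ := exists_lim _ hK s
      (Filter.Eventually.of_forall fun q => hKm q _ (hS4 q _ (hs q).1))
    have hyS : y ∈ ulim S :=
      mem_ulim_of_tendsto S s y (Filter.Eventually.of_forall fun q => (hs q).1) hy
    have hyR : y ∈ ulim R :=
      mem_ulim_of_tendsto R s y (Filter.Eventually.of_forall fun q => (hs q).2) hy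
    have hxS : x ∈ ulim S :=
      mem_ulim_of_tendsto S (fun _ => x) x (Filter.Eventually.of_forall hS2) tendsto_const_nhds
    have hpre : IsPreconnected (ulim S) := ulim_preconnected _ hK S _ hθ
      (Filter.Eventually.of_forall fun q => ⟨fun u hu => hKm q u (hS4 q u hu), hS1 q⟩)
    refine ⟨y, hyR, hpre.subset_connectedComponentIn hxS ?_ hyS⟩
    intro w hw
    exact ⟨RthL_sub hE.isClosed hθ S hS4 hw, RthL_f hf hθ S x hS5 hw⟩
  refine ⟨ulim R, hsub, ulim_closed R, alg_ulim N R fun q => (hR q).alg, ?_, ?_, hrm2⟩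
  · intro a ha
    choose r hr1 hr2 using fun q => (hR q).pts a ha
    refine mem_ulim_of_tendsto R r a (Filter.Eventually.of_forall hr1) ?_
    rw [tendsto_iff_dist_tendsto_zero]
    refine squeeze_zero (fun _ => dist_nonneg) (fun q => ?_) hθ
    rw [dist_comm]
    exact hr2 q
  · intro x hx
    refine ⟨?_, ?_⟩
    · obtain ⟨y, hy1, hy2⟩ := hrm2 x hx
      exact ⟨y, hy1, connectedComponentIn_mono x (fun z hz => hz.1) hy2⟩
    · obtain ⟨t, ht, hxt⟩ := hcov x hx
      obtain ⟨hopen, hin, hcl⟩ := hNt t ht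
      rw [← connectedComponentIn_eq hxt]
      have heq : ulim R ∩ connectedComponentIn E t = ulim (fun q => R q ∩ Nt t) := by
        apply Set.Subset.antisymm
        · rintro y ⟨hy, hyc⟩
          obtain ⟨a, ha, hay⟩ := exists_sel R y hy
          refine mem_ulim_of_tendsto _ a y ?_ hay
          filter_upwards [ha, hay (hopen.mem_nhds (hin hyc))] with q h1 h2
          exact ⟨h1, h2⟩
        · intro y hy
          have hyR : y ∈ ulim R := ulim_mono _ R
            (Filter.Eventually.of_forall fun q => Set.inter_subset_left) hy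
          obtain ⟨a, ha, hay⟩ := exists_sel _ y hy
          refine ⟨hyR, hcl ⟨hsub hyR, mem_closure_of_tendsto hay ?_⟩⟩
          filter_upwards [ha] with q h1
          exact h1.2
      rw [heq]
      exact ulim_preconnected _ hK _ _ hθ (Filter.Eventually.of_forall fun q =>
        ⟨fun u hu => hKm q u ((hR q).near u hu.1), (hR q).chn t ht⟩)

end Pool.Agent.RM90
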