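import Pool.Agent.Lib.MP_df59e7_lc_X.DefsX

set_option autoImplicit false

/-! MP_df59e7_lc, project RM2, module TubeA. -/

namespace Pool.Agent.RM90

open MvPolynomial

private theorem TubeA_pd {n : ℕ} (P : MvPolynomial (Fin n) ℝ) (l : Fin n) :
    (pderiv l P).totalDegree ≤ P.totalDegree := by
  refine Finset.sup_le fun s hs => ?_
  have h1 : MvPolynomial.coeff (s + Finsupp.single l 1) P ≠ 0 := by
    intro h0
    rw [MvPolynomial.mem_support_iff, MvPolynomial.coeff_pderiv, h0, zero_mul] at hs
    exact hs rfl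
  have h2 := MvPolynomial.le_totalDegree (MvPolynomial.mem_support_iff.2 h1)
  rw [Finsupp.sum_add_index' (fun _ => rfl) (fun _ _ _ => rfl), Finsupp.sum_single_index rfl] at h2
  omega

private theorem TubeA_eval {n : ℕ} (m : Fin n) (G : MvPolynomial (Fin n) ℝ) (x : Fin n → ℝ) :
    eval x (Hsq m G) = ∑ l, if m ≤ l then (eval x (eqn m G l)) ^ 2 else 0 := by
  unfold Hsq
  rw [map_sum]
  refine Finset.sum_congr rfl fun l _ => ?_
  split_ifs
  · rw [map_pow]
  · rw [map_zero]

private theorem TubeA_nonneg {n : ℕ} (m : Fin n) (G : MvPolynomial (Fin n) ℝ)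
    (x : Fin n → ℝ) : 0 ≤ eval x (Hsq m G) := by
  rw [TubeA_eval]
  refine Finset.sum_nonneg fun l _ => ?_
  split_ifs
  · positivity
  · exact le_rfl

private theorem TubeA_zero {n : ℕ} (m : Fin n) (G : MvPolynomial (Fin n) ℝ)
    (x : Fin n → ℝ) :
    eval x (Hsq m G) = 0 ↔ ∀ l, m ≤ l → eval x (eqn m G l) = 0 := by
  rw [TubeA_eval, Finset.sum_eq_zero_iff_of_nonneg]
  · constructor
    · intro h l hl
      have h1 := h l (Finset.mem_univ l)
      rw [if_pos hl] at h1
      exact pow_eq_zero_iff (two_ne_zero) |>.1 h1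
    · intro h l _
      split_ifs with hl
      · rw [h l hl]
        norm_num
      · rfl
  · intro l _
    split_ifs
    · positivity
    · exact le_rfl

/-- Neighbourhood for the tube step.
Proof: `E = Wst U j m G y` is compact in the open set `U`: `U' = thickening ρ E` with
`closure U' ⊆ cthickening ρ E ⊆ U` (`IsCompact.exists_cthickening_subset_open`), bounded. On the
compact set of all `x ∈ frontier U'` with `x a = y a` for `a < j` the polynomial
`Hsq m G = ∑_{l≥m} (eqn l)^2` has no zero (a zero would be in `E ⊆ U'`, open), so it has a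
positive minimum (if the set is empty, `κ = 1`). -/
theorem tube_nbhd {n : ℕ} (U : Set (Fin n → ℝ)) (j m : Fin n) (G : MvPolynomial (Fin n) ℝ)
    (y : Fin n → ℝ) (hG : GdS U j m G y) :
    ∃ U' : Set (Fin n → ℝ), IsOpen U' ∧ Bornology.IsBounded U' ∧ Wst U j m G y ⊆ U' ∧
      closure U' ⊆ U ∧ ∃ κ > 0, ∀ x ∈ frontier U', (∀ a, a < j → x a = y a) →
        κ ≤ eval x (Hsq m G) := by
  have hEU : Wst U j m G y ⊆ U := fun x hx => hx.1
  obtain ⟨ρ, hρ, hρU⟩ := hG.cpt.exists_cthickening_subset_open hG.isOpen hEU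
  obtain ⟨U', hU'⟩ : ∃ U', U' = Metric.thickening ρ (Wst U j m G y) := ⟨_, rfl⟩
  have hopen : IsOpen U' := by rw [hU']; exact Metric.isOpen_thickening
  have hcl : closure U' ⊆ U := by
    rw [hU']
    exact (Metric.closure_thickening_subset_cthickening _ _).trans hρU
  have hsub : Wst U j m G y ⊆ U' := by
    rw [hU']
    exact Metric.self_subset_thickening hρ _
  have hbdd : Bornology.IsBounded U' := hG.bdd.subset (subset_closure.trans hcl)
  refine ⟨U', hopen, hbdd, hsub, hcl, ?_⟩
  -- the compact set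
  obtain ⟨Kf, hKf⟩ : ∃ Kf, Kf = frontier U' ∩ {x | ∀ a, a < j → x a = y a} := ⟨_, rfl⟩
  have hcpt : IsCompact Kf := by
    rw [hKf]
    refine IsCompact.inter_right ?_ ?_
    · exact Metric.isCompact_of_isClosed_isBounded isClosed_frontier
        (hG.bdd.subset (frontier_subset_closure.trans hcl))
    · simp only [Set.ofPred_forall]
      refine isClosed_iInter fun a => isClosed_iInter fun _ => ?_
      exact isClosed_eq (continuous_apply a) continuous_const
  have hpos : ∀ x ∈ Kf, 0 < eval x (Hsq m G) := by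
    intro x hx
    rw [hKf] at hx
    refine lt_of_le_of_ne (TubeA_nonneg m G x) fun h0 => ?_
    have h1 := (TubeA_zero m G x).1 h0.symm
    have h2 : x ∈ Wst U j m G y := ⟨hcl (frontier_subset_closure hx.1), hx.2, h1⟩
    have h3 := hsub h2
    rw [hopen.frontier_eq] at hx
    exact hx.1.2 h3
  rcases Kf.eq_empty_or_nonempty with he | hne
  · refine ⟨1, one_pos, fun x hx hxa => ?_⟩
    have h1 : x ∈ Kf := by rw [hKf]; exact ⟨hx, hxa⟩
    rw [he] at h1
    exact absurd h1 (Set.notMem_empty x)
  · obtain ⟨x0, hx0, hmin⟩ := hcpt.exists_isMinOn hne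
      (MvPolynomial.continuous_eval (Hsq m G)).continuousOn
    refine ⟨eval x0 (Hsq m G), hpos x0 hx0, fun x hx hxa => ?_⟩
    exact hmin (by rw [hKf]; exact ⟨hx, hxa⟩)

/-- Compactness of the polar sets of the tubes.
Proof: the set equals `{x ∈ closure U' | x a = y a (a < j), eqn m' (H - quad c) l = 0 (l ≥ m')}`,
closed and bounded: a point of the frontier of `U'` with these properties has
`κ ≤ H(x) = quad c (x) < κ` (equation of index `l = m'`), impossible. -/
theorem tube_cpt {n : ℕ} (U' : Set (Fin n → ℝ)) (hU : IsOpen U')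
    (hb : Bornology.IsBounded U') (j m' : Fin n) (H : MvPolynomial (Fin n) ℝ)
    (y : Fin n → ℝ) (κ : ℝ)
    (hκ : ∀ x ∈ frontier U', (∀ a, a < j → x a = y a) → κ ≤ eval x H) (c : Par n)
    (hc : ∀ x ∈ closure U', eval x (quad c) < κ) :
    IsCompact (Wst U' j m' (H - quad c) y) := by
  have heq : Wst U' j m' (H - quad c) y = closure U' ∩ ({x | ∀ a, a < j → x a = y a} ∩
      {x | ∀ l, m' ≤ l → eval x (eqn m' (H - quad c) l) = 0}) := by
    ext x
    constructor
    · rintro ⟨h1, h2, h3⟩
      exact ⟨subset_closure h1, h2, h3⟩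
    · rintro ⟨h1, h2, h3⟩
      refine ⟨?_, h2, h3⟩
      by_contra h4
      have h5 : x ∈ frontier U' := by
        rw [hU.frontier_eq]
        exact ⟨h1, h4⟩
      have h6 := hκ x h5 h2
      have h7 := hc x h1
      have h8 := h3 m' le_rfl
      unfold eqn at h8
      rw [if_pos rfl, map_sub] at h8
      linarith
  rw [heq]
  refine IsCompact.inter_right (Metric.isCompact_of_isClosed_isBounded isClosed_closure
    hb.closure) (IsClosed.inter ?_ ?_)
  · simp only [Set.ofPred_forall]
    refine isClosed_iInter fun a => isClosed_iInter fun _ => ?_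
    exact isClosed_eq (continuous_apply a) continuous_const
  · simp only [Set.ofPred_forall]
    refine isClosed_iInter fun l => isClosed_iInter fun _ => ?_
    exact isClosed_eq (MvPolynomial.continuous_eval _) continuous_const

/-- Degree of the sum of squares. -/
theorem deg_Hsq {n : ℕ} (m : Fin n) (G : MvPolynomial (Fin n) ℝ) (D : ℕ)
    (hD : G.totalDegree ≤ D) : (Hsq m G).totalDegree ≤ 2 * D := by
  unfold Hsq
  refine totalDegree_finsetSum_le fun l _ => ?_
  split_ifs
  · refine (totalDegree_pow _ _).trans (Nat.mul_le_mul_left 2 ?_)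
    unfold eqn
    split_ifs
    · exact hD
    · exact (TubeA_pd G l).trans hD
  · rw [totalDegree_zero]
    exact Nat.zero_le _

theorem Hsq_nonneg {n : ℕ} (m : Fin n) (G : MvPolynomial (Fin n) ℝ) (x : Fin n → ℝ) :
    0 ≤ eval x (Hsq m G) := TubeA_nonneg m G x

theorem Hsq_eq_zero {n : ℕ} (m : Fin n) (G : MvPolynomial (Fin n) ℝ) (x : Fin n → ℝ) :
    eval x (Hsq m G) = 0 ↔ ∀ l, m ≤ l → eval x (eqn m G l) = 0 := TubeA_zero m G x

end Pool.Agent.RM90
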