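import Pool.Agent.Lib.MP_df59e7_lc_X.DefsX
import Pool.Agent.Lib.MP_df59e7_lc_X.TubeA
import Pool.Agent.Lib.MP_df59e7_lc.UlimA

set_option autoImplicit false

/-! MP_df59e7_lc, project RM2, module TubeL. -/

namespace Pool.Agent.RM90

open MvPolynomial

/-- The limit of the polar sets of the tubes is contained in `E`.
Proof: let `x = lim x_p` (`exists_sel`), `x_p ∈ Wst U' j m' (Hsq m G - quad (c p)) y`. Then
`x ∈ closure U' ⊆ U`, `x a = y a` for `a < j`, and
`eval (x_p) (Hsq m G) = eval (x_p) (quad (c p)) → 0` (`hlim`, along the hyperfilter), so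
`eval x (Hsq m G) = 0`; `Hsq_eq_zero`. -/
theorem tube_lim {n : ℕ} (U : Set (Fin n → ℝ)) (j m : Fin n) (G : MvPolynomial (Fin n) ℝ)
    (y : Fin n → ℝ) (m' : Fin n) (U' : Set (Fin n → ℝ)) (hcl : closure U' ⊆ U)
    (c : ℕ → Par n) (hpos : ∀ p, ∀ x ∈ closure U', 0 < eval x (quad (c p)))
    (hlim : ∀ ε > 0, ∀ᶠ p in Filter.atTop, ∀ x ∈ closure U', eval x (quad (c p)) < ε) :
    ulim (fun p => Wst U' j m' (Hsq m G - quad (c p)) y) ⊆ Wst U j m G y := by
  intro x hx
  obtain ⟨a, ha, hax⟩ := exists_sel _ x hx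
  have h1 : ∀ᶠ p in (Filter.hyperfilter ℕ : Filter ℕ), a p ∈ closure U' :=
    ha.mono fun p hp => subset_closure hp.1
  have hxU : x ∈ closure U' := isClosed_closure.mem_of_tendsto hax h1
  have hle : eval x (Hsq m G) ≤ 0 := by
    refine le_of_forall_pos_le_add fun ε hε => ?_
    rw [zero_add]
    have h2 : Filter.Tendsto (fun p => eval (a p) (Hsq m G))
        (Filter.hyperfilter ℕ : Filter ℕ) (nhds (eval x (Hsq m G))) :=
      ((MvPolynomial.continuous_eval (Hsq m G)).tendsto x).comp hax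
    have h3 : ∀ᶠ p in (Filter.hyperfilter ℕ : Filter ℕ),
        ∀ x ∈ closure U', eval x (quad (c p)) < ε :=
      (hlim ε hε).filter_mono Nat.hyperfilter_le_atTop
    refine le_of_tendsto h2 ?_
    filter_upwards [ha, h3] with p hp hp3
    have h4 := hp.2.2 m' le_rfl
    unfold eqn at h4
    rw [if_pos rfl, map_sub, sub_eq_zero] at h4
    rw [h4]
    exact (hp3 (a p) (subset_closure hp.1)).le
  refine ⟨hcl hxU, fun b hb => ?_, (Hsq_eq_zero m G x).1 (le_antisymm hle (Hsq_nonneg m G x))⟩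
  have h2 : IsClosed {w : Fin n → ℝ | w b = y b} :=
    isClosed_eq (continuous_apply b) continuous_const
  exact h2.mem_of_tendsto hax (ha.mono fun p hp => hp.2.1 b hb)

end Pool.Agent.RM90
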