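import Pool.Agent.Lib.MP_df59e7_lc_X.DefsX
import Pool.Agent.Lib.MP_df59e7_lc_X.TubeA
import Pool.Agent.Lib.MP_df59e7_lc.UlimA

set_option autoImplicit false

/-! MP_df59e7_lc, project RM2, module TubeM. -/

namespace Pool.Agent.RM90

open MvPolynomial

/-- Separation of a component of a compact set.
Proof: in a compact space components are intersections of clopen sets (as in Mathlib's
`connectedComponent_eq_iInter_isClopen` for the subtype `Φ`), and by compactness some clopen set
containing the component is contained in the open set `O`. -/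
theorem comp_clopen {X : Type*} [MetricSpace X] (Φ : Set X) (hΦ : IsCompact Φ) (x : X)
    (hx : x ∈ Φ) (O : Set X) (hO : IsOpen O) (hGO : connectedComponentIn Φ x ⊆ O) :
    ∃ Φ1 Φ2 : Set X, IsCompact Φ1 ∧ IsCompact Φ2 ∧ Φ = Φ1 ∪ Φ2 ∧ Disjoint Φ1 Φ2 ∧
      connectedComponentIn Φ x ⊆ Φ1 ∧ Φ1 ⊆ O := by
  have : CompactSpace Φ := isCompact_iff_compactSpace.1 hΦ
  set x' : Φ := ⟨x, hx⟩ with hx'
  have hne : Nonempty {s : Set Φ // IsClopen s ∧ x' ∈ s} :=
    ⟨⟨Set.univ, isClopen_univ, Set.mem_univ _⟩⟩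
  have e := connectedComponentIn_eq_image hx
  have hex : ∃ i : {s : Set Φ // IsClopen s ∧ x' ∈ s}, (i : Set Φ) ⊆ Subtype.val ⁻¹' O := by
    refine exists_subset_nhds_of_isCompact
      (V := fun i : {s : Set Φ // IsClopen s ∧ x' ∈ s} => (i : Set Φ)) ?_ ?_ ?_
    · intro s t
      exact ⟨⟨s.1 ∩ t.1, s.2.1.inter t.2.1, s.2.2, t.2.2⟩, Set.inter_subset_left,
        Set.inter_subset_right⟩
    · intro s
      exact s.2.1.isClosed.isCompact
    · intro z hz
      rw [← connectedComponent_eq_iInter_isClopen] at hz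
      have hz2 : (z : X) ∈ O := hGO (by rw [e]; exact ⟨z, hz, rfl⟩)
      exact (hO.preimage continuous_subtype_val).mem_nhds hz2
  obtain ⟨s, hs⟩ := hex
  refine ⟨Subtype.val '' s.1, Subtype.val '' s.1ᶜ, ?_, ?_, ?_, ?_, ?_, ?_⟩
  · exact s.2.1.isClosed.isCompact.image continuous_subtype_val
  · exact s.2.1.compl.isClosed.isCompact.image continuous_subtype_val
  · rw [← Set.image_union, Set.union_compl_self, Set.image_univ, Subtype.range_coe]
  · exact (Set.disjoint_image_iff Subtype.val_injective).2 disjoint_compl_right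
  · rw [e]
    refine Set.image_mono ?_
    exact s.2.1.connectedComponent_subset s.2.2
  · rintro _ ⟨z, hz, rfl⟩
    exact hs hz

/-- Minimisation in a fibre: let `L = {w | w a = x a for a < m'}`, `K` a compact subset of `L` and
`O` an open set with `K` = closure-like region: `hint` says that the points of `K` where `G' ≤ 0`
are interior to `K` relative to `L`. Then a point of `K ∩ {G' ≤ 0}` with minimal coordinate `m'`
satisfies the equations of the polar set.
Proof: `{w ∈ K | G' w ≤ 0}` is compact and nonempty (contains `x`); let `z` be a point with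
minimal `z m'`. If `G' z < 0`, then `z - t e_{m'}`, `t > 0` small, is in `L`, in `K` (`hint`), and
satisfies `G' < 0`: contradiction. If `∂_l G' (z) ≠ 0` for some `l > m'`, choose
`v = -e_{m'} + τ e_l` with `-∂_{m'} G'(z) + τ ∂_l G'(z) < 0`; then `z + t v`, `t > 0` small, is in
`L`, in `K`, with `G' < 0` (derivative of `t ↦ G'(z + t v)` at `0` is negative, `G' z = 0`) and
smaller coordinate `m'`: contradiction. -/
theorem fibre_min {n : ℕ} (m' : Fin n) (G' : MvPolynomial (Fin n) ℝ) (x : Fin n → ℝ)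
    (K : Set (Fin n → ℝ)) (hK : IsCompact K) (hKL : ∀ w ∈ K, ∀ a, a < m' → w a = x a)
    (hint : ∀ w ∈ K, eval w G' ≤ 0 → ∃ ε > 0, ∀ w' : Fin n → ℝ, dist w' w < ε →
      (∀ a, a < m' → w' a = x a) → w' ∈ K)
    (hx : x ∈ K) (hx0 : eval x G' ≤ 0) :
    ∃ z ∈ K, ∀ l, m' ≤ l → eval z (eqn m' G' l) = 0 := by
  have hcont : Continuous fun w : Fin n → ℝ => eval w G' := MvPolynomial.continuous_eval G'
  have hKc : IsCompact (K ∩ {w | eval w G' ≤ 0}) :=
    hK.inter_right (isClosed_le hcont continuous_const)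
  obtain ⟨z, ⟨hzK, hz0⟩, hzmin⟩ := hKc.exists_isMinOn ⟨x, hx, hx0⟩
    (continuous_apply m').continuousOn
  have hz0 : eval z G' ≤ 0 := hz0
  have hmin : ∀ w ∈ K, eval w G' ≤ 0 → z m' ≤ w m' := fun w hw hw0 => hzmin ⟨hw, hw0⟩
  -- no descending direction
  have key : ∀ v : Fin n → ℝ, (∀ a, a < m' → v a = 0) → v m' < 0 →
      ¬ ∀ᶠ t in nhdsWithin (0 : ℝ) (Set.Ioi 0), eval (z + t • v) G' < 0 := by
    intro v hv0 hv1 hev
    obtain ⟨ε, hε, hnear⟩ := hint z hzK hz0
    have h1 : Continuous fun t : ℝ => z + t • v := by fun_prop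
    have h2 : Filter.Tendsto (fun t : ℝ => z + t • v) (nhdsWithin (0 : ℝ) (Set.Ioi 0))
        (nhds z) := by
      have h3 := h1.tendsto 0
      rw [zero_smul, add_zero] at h3
      exact h3.mono_left nhdsWithin_le_nhds
    have h4 : ∀ᶠ t in nhdsWithin (0 : ℝ) (Set.Ioi 0), dist (z + t • v) z < ε :=
      h2 (Metric.ball_mem_nhds z hε)
    have h5 : ∀ᶠ t in nhdsWithin (0 : ℝ) (Set.Ioi 0), 0 < t := self_mem_nhdsWithin
    obtain ⟨t, ⟨h6, h7⟩, h8⟩ := ((hev.and h4).and h5).exists
    have h9 : z + t • v ∈ K := by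
      refine hnear _ h7 fun a ha => ?_
      rw [Pi.add_apply, Pi.smul_apply, hv0 a ha, smul_zero, add_zero]
      exact hKL z hzK a ha
    have h10 := hmin _ h9 h6.le
    rw [Pi.add_apply, Pi.smul_apply, smul_eq_mul] at h10
    have h11 : t * v m' < 0 := mul_neg_of_pos_of_neg h8 hv1
    linarith
  -- the value is zero
  have hz1 : eval z G' = 0 := by
    by_contra hne
    have hlt : eval z G' < 0 := lt_of_le_of_ne hz0 hne
    refine key (-Pi.single m' 1) ?_ ?_ ?_
    · intro a ha
      rw [Pi.neg_apply, Pi.single_eq_of_ne ha.ne, neg_zero]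
    · rw [Pi.neg_apply, Pi.single_eq_same]
      norm_num
    · have h1 : Continuous fun t : ℝ => eval (z + t • (-Pi.single m' 1 : Fin n → ℝ)) G' :=
        hcont.comp (by fun_prop)
      have h2 := h1.tendsto 0
      rw [zero_smul, add_zero] at h2
      exact nhdsWithin_le_nhds (h2 (Iio_mem_nhds hlt))
  refine ⟨z, hzK, fun l hl => ?_⟩
  unfold eqn
  split_ifs with h
  · exact hz1
  · by_contra hne
    have hl' : m' < l := lt_of_le_of_ne hl (Ne.symm h)
    set τ : ℝ := (eval z (pderiv m' G') - 1) / eval z (pderiv l G') with hτ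
    set v : Fin n → ℝ := -Pi.single m' 1 + τ • Pi.single l 1 with hv
    have hva : ∀ a, v a = -(if a = m' then 1 else 0) + τ * (if a = l then 1 else 0) := by
      intro a
      rw [hv, Pi.add_apply, Pi.neg_apply, Pi.smul_apply, smul_eq_mul, Pi.single_apply,
        Pi.single_apply]
    have hsum : ∑ a, eval z (pderiv a G') * v a = -1 := by
      simp only [hva, mul_add, Finset.sum_add_distrib, mul_neg, mul_ite, mul_one, mul_zero,
        Finset.sum_neg_distrib, Finset.sum_ite_eq', Finset.mem_univ, if_true]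
      rw [hτ]
      field_simp
      ring
    refine key v ?_ ?_ ?_
    · intro a ha
      rw [hva, if_neg ha.ne, if_neg (ha.trans hl').ne]
      ring
    · rw [hva, if_pos rfl, if_neg hl'.ne]
      norm_num
    · have h1 : HasDerivAt (fun t : ℝ => z + t • v) v 0 := by
        have h := ((hasDerivAt_id (0 : ℝ)).smul_const v).const_add z
        simpa using h
      have h2 : HasDerivAt (fun t : ℝ => eval (z + t • v) G') (-1) 0 := by
        have e : z = z + (0 : ℝ) • v := by simp
        have h := HasFDerivAt.comp_hasDerivAt_of_eq 0 (Warren46.hasFDerivAt_eval G' z) h1 e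
        rw [Warren46.gradL_apply, hsum] at h
        exact h
      have h3 := h2.hasDerivWithinAt (s := Set.Ioi 0)
      have h4 : ∀ᶠ t in nhdsWithin (0 : ℝ) (Set.Ioi 0),
          slope (fun t : ℝ => eval (z + t • v) G') 0 t < 0 := by
        have h5 := hasDerivWithinAt_iff_tendsto_slope.1 h3
        have h6 : Set.Ioi (0 : ℝ) \ {0} = Set.Ioi 0 := by
          exact Set.sdiff_singleton_eq_self (by simp)
        rw [h6] at h5
        exact h5 (Iio_mem_nhds (by norm_num))
      filter_upwards [h4, self_mem_nhdsWithin] with t ht ht0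
      have ht0 : 0 < t := ht0
      rw [slope_def_field, zero_smul, add_zero, hz1, sub_zero, sub_zero] at ht
      rw [div_lt_iff₀ ht0, zero_mul] at ht
      exact ht

end Pool.Agent.RM90
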