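import Pool.Agent.Lib.MP_df59e7_lc_X.DefsX
import Pool.Agent.Lib.MP_df59e7_lc_X.TubeM
import Pool.Agent.Lib.MP_df59e7_lc_X.TubeL

set_option autoImplicit false

/-! MP_df59e7_lc, project RM2, module TubeN. -/

namespace Pool.Agent.RM90

open MvPolynomial

private theorem TubeN_prm {n : ℕ} {m : Fin n} {w x : Fin n → ℝ} :
    w ∈ prm m ⁻¹' {prm m x} ↔ ∀ a, a < m → w a = x a := by
  constructor
  · intro h a ha
    have h1 := congrFun (Set.mem_singleton_iff.1 h) a
    unfold prm at h1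
    rwa [if_pos ha, if_pos ha] at h1
  · intro h
    refine Set.mem_singleton_iff.2 (funext fun a => ?_)
    unfold prm
    by_cases ha : a < m
    · rw [if_pos ha, if_pos ha]
      exact h a ha
    · rw [if_neg ha, if_neg ha]

private theorem TubeN_slice {n : ℕ} (m : Fin n) (x : Fin n → ℝ) :
    IsClosed {w : Fin n → ℝ | ∀ a, a < m → w a = x a} := by
  have e : {w : Fin n → ℝ | ∀ a, a < m → w a = x a} =
      ⋂ a : Fin n, {w | a < m → w a = x a} := by
    ext w
    exact ⟨fun h => Set.mem_iInter.2 h, fun h => Set.mem_iInter.1 h⟩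
  rw [e]
  refine isClosed_iInter fun a => ?_
  by_cases ha : a < m
  · have e2 : {w : Fin n → ℝ | a < m → w a = x a} = {w | w a = x a} := by
      ext w
      exact ⟨fun h => h ha, fun h _ => h⟩
    rw [e2]
    exact isClosed_eq (continuous_apply a) continuous_const
  · have e2 : {w : Fin n → ℝ | a < m → w a = x a} = Set.univ := by
      ext w
      exact ⟨fun _ => trivial, fun _ h => absurd h ha⟩
    rw [e2]
    exact isClosed_univ

private theorem TubeN_one {n : ℕ} (U : Set (Fin n → ℝ)) (j m : Fin n)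
    (G : MvPolynomial (Fin n) ℝ) (y : Fin n → ℝ) (m' : Fin n) (hjm' : j < m')
    (U' : Set (Fin n → ℝ)) (hU' : IsOpen U') (hb : Bornology.IsBounded U')
    (hEU : Wst U j m G y ⊆ U') (hcl : closure U' ⊆ U)
    (c : ℕ → Par n) (hpos : ∀ p, ∀ x ∈ closure U', 0 < eval x (quad (c p)))
    (hlim : ∀ ε > 0, ∀ᶠ p in Filter.atTop, ∀ x ∈ closure U', eval x (quad (c p)) < ε)
    (x : Fin n → ℝ) (hx : x ∈ Wst U j m G y)
    (hΦ : IsCompact (Wst U j m G y ∩ prm m' ⁻¹' {prm m' x}))
    (ε : ℝ) (hε : 0 < ε) :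
    ∃ z ∈ ulim (fun p => Wst U' j m' (Hsq m G - quad (c p)) y), z ∈ closure U' ∧
      Metric.infDist z
        (connectedComponentIn (Wst U j m G y ∩ prm m' ⁻¹' {prm m' x}) x) ≤ 2 * ε := by
  obtain ⟨Φ, hΦe⟩ : ∃ Φ, Φ = Wst U j m G y ∩ prm m' ⁻¹' {prm m' x} := ⟨_, rfl⟩
  rw [← hΦe] at hΦ ⊢
  have hmemΦ : ∀ w, w ∈ Φ ↔ w ∈ Wst U j m G y ∧ ∀ a, a < m' → w a = x a := by
    intro w
    rw [hΦe]
    exact and_congr_right fun _ => TubeN_prm
  have hxΦ : x ∈ Φ := (hmemΦ x).2 ⟨hx, fun _ _ => rfl⟩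
  obtain ⟨G0, hG0⟩ : ∃ G0, G0 = connectedComponentIn Φ x := ⟨_, rfl⟩
  rw [← hG0]
  have hxG0 : x ∈ G0 := hG0 ▸ mem_connectedComponentIn hxΦ
  have hG0Φ : G0 ⊆ Φ := hG0 ▸ connectedComponentIn_subset Φ x
  obtain ⟨Φ1, Φ2, hc1, hc2, hΦ12, hdis, hG1, h1O⟩ := comp_clopen Φ hΦ x hxΦ
    (Metric.thickening ε G0 ∩ U') (Metric.isOpen_thickening.inter hU') (by
      rw [← hG0]
      exact fun w hw => ⟨Metric.self_subset_thickening hε G0 hw, hEU ((hmemΦ w).1 (hG0Φ hw)).1⟩)
  rw [← hG0] at hG1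
  have hx1 : x ∈ Φ1 := hG1 hxG0
  obtain ⟨η1, hη1, hη1O⟩ := hc1.exists_cthickening_subset_open
    ((Metric.isOpen_thickening.inter hU').inter hc2.isClosed.isOpen_compl)
    (fun w hw => ⟨h1O hw, fun hw2 => Set.disjoint_left.1 hdis hw hw2⟩)
  obtain ⟨η, hη0, hηε, hηO⟩ : ∃ η : ℝ, 0 < η ∧ η ≤ ε ∧ ∀ w, Metric.infDist w Φ1 ≤ η →
      (w ∈ Metric.thickening ε G0 ∩ U' ∧ w ∉ Φ2) := by
    refine ⟨min η1 ε, lt_min hη1 hε, min_le_right _ _, fun w hw => ?_⟩
    obtain ⟨v, hv, hvd⟩ := hc1.exists_infDist_eq_dist ⟨x, hx1⟩ w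
    have h1 : w ∈ Metric.cthickening η1 Φ1 := by
      refine Metric.mem_cthickening_of_dist_le w v η1 Φ1 hv ?_
      rw [← hvd]
      exact hw.trans (min_le_left _ _)
    exact hη1O h1
  obtain ⟨K, hKe⟩ : ∃ K : Set (Fin n → ℝ),
      K = {w | (∀ a, a < m' → w a = x a)} ∩ {w | Metric.infDist w Φ1 ≤ η} := ⟨_, rfl⟩
  have hKmem : ∀ w, w ∈ K ↔ (∀ a, a < m' → w a = x a) ∧ Metric.infDist w Φ1 ≤ η := by
    intro w
    rw [hKe]
    exact Iff.rfl
  have hKU' : ∀ w ∈ K, w ∈ U' := fun w hw => (hηO w ((hKmem w).1 hw).2).1.2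
  have hKc : IsCompact K := by
    refine Metric.isCompact_of_isClosed_isBounded ?_ (hb.subset hKU')
    rw [hKe]
    exact (TubeN_slice m' x).inter
      (isClosed_le (Metric.continuous_infDist_pt Φ1) continuous_const)
  have hwy : ∀ w : Fin n → ℝ, (∀ a, a < m' → w a = x a) → ∀ a, a < j → w a = y a :=
    fun w hw a ha => (hw a (ha.trans hjm')).trans (hx.2.1 a ha)
  -- positivity on the boundary
  obtain ⟨κ, hκ0, hκ⟩ : ∃ κ > 0, ∀ w, (∀ a, a < m' → w a = x a) → Metric.infDist w Φ1 = η →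
      κ ≤ eval w (Hsq m G) := by
    obtain ⟨S, hSe⟩ : ∃ S : Set (Fin n → ℝ),
      S = {w | (∀ a, a < m' → w a = x a)} ∩ {w | Metric.infDist w Φ1 = η} := ⟨_, rfl⟩
    have hSK : S ⊆ K := by
      intro w hw
      rw [hSe] at hw
      exact (hKmem w).2 ⟨hw.1, le_of_eq hw.2⟩
    have hSc : IsCompact S := by
      refine hKc.of_isClosed_subset ?_ hSK
      rw [hSe]
      exact (TubeN_slice m' x).inter
        (isClosed_eq (Metric.continuous_infDist_pt Φ1) continuous_const)
    have hcont : Continuous fun w : Fin n → ℝ => eval w (Hsq m G) :=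
      MvPolynomial.continuous_eval _
    by_cases hSne : S.Nonempty
    · obtain ⟨w0, hw0, hmin⟩ := hSc.exists_isMinOn hSne hcont.continuousOn
      refine ⟨eval w0 (Hsq m G), ?_, fun w h1 h2 => ?_⟩
      · refine lt_of_le_of_ne (Hsq_nonneg m G w0) fun h0 => ?_
        have h1 := (Hsq_eq_zero m G w0).1 h0.symm
        have hw0K := hSK hw0
        have h2 := ((hKmem w0).1 hw0K).1
        have hE : w0 ∈ Wst U j m G y :=
          ⟨hcl (subset_closure (hKU' w0 hw0K)), hwy w0 h2, h1⟩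
        have h3 : w0 ∈ Φ := (hmemΦ w0).2 ⟨hE, h2⟩
        rw [hΦ12] at h3
        rw [hSe] at hw0
        have h4 : Metric.infDist w0 Φ1 = η := hw0.2
        rcases h3 with h5 | h5
        · rw [Metric.infDist_zero_of_mem h5] at h4
          exact hη0.ne h4
        · exact (hηO w0 h4.le).2 h5
      · have hw : w ∈ S := by
          rw [hSe]
          exact ⟨h1, h2⟩
        exact isMinOn_iff.1 hmin w hw
    · refine ⟨1, one_pos, fun w h1 h2 => absurd ⟨w, ?_⟩ hSne⟩
      rw [hSe]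
      exact ⟨h1, h2⟩
  -- the points
  have hz : ∀ p : ℕ, ∃ z : Fin n → ℝ, (∀ x ∈ closure U', eval x (quad (c p)) < κ) →
      z ∈ K ∧ z ∈ Wst U' j m' (Hsq m G - quad (c p)) y := by
    intro p
    by_cases hp : ∀ x ∈ closure U', eval x (quad (c p)) < κ
    · have hHx : eval x (Hsq m G) = 0 := (Hsq_eq_zero m G x).2 hx.2.2
      have hxK : x ∈ K := (hKmem x).2 ⟨fun _ _ => rfl, by
        rw [Metric.infDist_zero_of_mem hx1]
        exact hη0.le⟩
      have hx0 : eval x (Hsq m G - quad (c p)) ≤ 0 := by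
        rw [map_sub, hHx, zero_sub]
        exact (neg_neg_of_pos (hpos p x (subset_closure (hEU hx)))).le
      obtain ⟨z, hzK, hzeq⟩ := fibre_min m' (Hsq m G - quad (c p)) x K hKc
        (fun w hw => ((hKmem w).1 hw).1) (by
          intro w hw hw0
          have h1 := (hKmem w).1 hw
          have h2 : Metric.infDist w Φ1 < η := by
            refine lt_of_le_of_ne h1.2 fun h3 => ?_
            have h4 := hκ w h1.1 h3
            have h5 := hp w (subset_closure (hKU' w hw))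
            rw [map_sub] at hw0
            linarith
          refine ⟨η - Metric.infDist w Φ1, sub_pos.2 h2, fun w' hd hw' => ?_⟩
          refine (hKmem w').2 ⟨hw', ?_⟩
          have h3 := Metric.infDist_le_infDist_add_dist (s := Φ1) (x := w') (y := w)
          linarith) hxK hx0
      exact ⟨z, fun _ => ⟨hzK, hKU' z hzK, hwy z ((hKmem z).1 hzK).1, hzeq⟩⟩
    · exact ⟨x, fun h => absurd h hp⟩
  choose z hz using hz
  have hev : ∀ᶠ p in (Filter.hyperfilter ℕ : Filter ℕ), ∀ x ∈ closure U',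
      eval x (quad (c p)) < κ := Nat.hyperfilter_le_atTop (hlim κ hκ0)
  obtain ⟨z0, hz0K, hz0⟩ := exists_lim K hKc z (hev.mono fun p hp => (hz p hp).1)
  refine ⟨z0, mem_ulim_of_tendsto _ z z0 (hev.mono fun p hp => (hz p hp).2) hz0,
    subset_closure (hKU' z0 hz0K), ?_⟩
  obtain ⟨v, hv, hvd⟩ := hc1.exists_infDist_eq_dist ⟨x, hx1⟩ z0
  obtain ⟨u, hu, hud⟩ := Metric.mem_thickening_iff.1 (h1O hv).1
  have h1 := ((hKmem z0).1 hz0K).2
  have h2 := Metric.infDist_le_dist_of_mem hu (x := z0)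
  have h3 := dist_triangle z0 v u
  rw [hvd] at h1
  linarith

/-- The limit of the polar sets of the tubes meets every component of every fibre.
Proof: let `E = Wst U j m G y`, `Φ = E ∩ prm m' ⁻¹' {prm m' x}` (compact),
`G0 = connectedComponentIn Φ x`, `L = {w | w a = x a for a < m'}` (closed). Let `ε > 0`. Take
`Φ1, Φ2` from `comp_clopen` for `O = thickening ε G0 ∩ U'`. Choose `η > 0` with
`η < ε`, `2 η <` the distance of `Φ1` and `Φ2`, and `cthickening η Φ1 ⊆ O`. Let
`K = {w ∈ L | infDist w Φ1 ≤ η}`, compact, contained in `U'`. On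
`{w ∈ L | infDist w Φ1 = η}` the polynomial `Hsq m G` has no zero: a zero is in
`closure U' ⊆ U`, has the coordinates `a < j` of `y` and satisfies the equations, so it is in `E`,
in `Φ`, so in `Φ1` (distance 0) or in `Φ2` (distance `> η`), impossible. So it is `≥ κ > 0` there.
For large `p`, `quad (c p) < κ` on `closure U'`, so `G'_p = Hsq m G - quad (c p)` is positive there,
and `G'_p(x) = - quad (c p)(x) < 0`. `fibre_min` (interior: if `G'_p w ≤ 0` then
`infDist w Φ1 < η`) gives `z_p ∈ K` satisfying the equations, so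
`z_p ∈ Wst U' j m' G'_p y` (coordinates `a < j < m'`). `z_p ∈ L`, within `η < ε` of `Φ1`, so
`infDist z_p G0 < 2 ε`. The limit (`exists_lim`) is a point of `ulim ∩ L` at distance
at most `2 ε` from `G0`. The sets `{z ∈ ulim ... | z ∈ L, infDist z G0 ≤ 2 ε}` are compact and
decrease with `ε`, so there is a common point (or take a convergent sequence for
`ε = 1/(q+1)`): it is in `G0` (closed) and in the ultralimit (closed). -/
theorem tube_meet {n : ℕ} (U : Set (Fin n → ℝ)) (j m : Fin n) (G : MvPolynomial (Fin n) ℝ)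
    (y : Fin n → ℝ) (hG : GdS U j m G y) (m' : Fin n) (hjm' : j < m') (hmm : m' < m)
    (U' : Set (Fin n → ℝ)) (hU' : IsOpen U') (hb : Bornology.IsBounded U')
    (hEU : Wst U j m G y ⊆ U') (hcl : closure U' ⊆ U)
    (c : ℕ → Par n) (hpos : ∀ p, ∀ x ∈ closure U', 0 < eval x (quad (c p)))
    (hlim : ∀ ε > 0, ∀ᶠ p in Filter.atTop, ∀ x ∈ closure U', eval x (quad (c p)) < ε)
    (x : Fin n → ℝ) (hx : x ∈ Wst U j m G y) :
    (connectedComponentIn (Wst U j m G y ∩ prm m' ⁻¹' {prm m' x}) x ∩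
      ulim (fun p => Wst U' j m' (Hsq m G - quad (c p)) y)).Nonempty := by
  have hcont : Continuous (prm m' : (Fin n → ℝ) → (Fin n → ℝ)) := by
    refine continuous_pi fun a => ?_
    unfold prm
    by_cases ha : a < m'
    · simp only [if_pos ha]
      exact continuous_apply a
    · simp only [if_neg ha]
      exact continuous_const
  have hΦ : IsCompact (Wst U j m G y ∩ prm m' ⁻¹' {prm m' x}) :=
    hG.cpt.inter_right (isClosed_singleton.preimage hcont)
  have hxΦ : x ∈ Wst U j m G y ∩ prm m' ⁻¹' {prm m' x} := ⟨hx, rfl⟩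
  obtain ⟨G0, hG0⟩ : ∃ G0, G0 = connectedComponentIn
    (Wst U j m G y ∩ prm m' ⁻¹' {prm m' x}) x := ⟨_, rfl⟩
  have hxG0 : x ∈ G0 := hG0 ▸ mem_connectedComponentIn hxΦ
  have hG0c : IsClosed G0 := by
    refine isClosed_of_closure_subset ?_
    have h1 : IsPreconnected (closure G0) := by
      rw [hG0]
      exact isPreconnected_connectedComponentIn.closure
    have h2 : closure G0 ⊆ Wst U j m G y ∩ prm m' ⁻¹' {prm m' x} := by
      refine closure_minimal ?_ hΦ.isClosed
      rw [hG0]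
      exact connectedComponentIn_subset _ _
    have h3 := h1.subset_connectedComponentIn (subset_closure hxG0) h2
    rwa [← hG0] at h3
  have hone : ∀ q : ℕ, ∃ z ∈ ulim (fun p => Wst U' j m' (Hsq m G - quad (c p)) y),
      z ∈ closure U' ∧ Metric.infDist z G0 ≤ 2 * (1 / ((q : ℝ) + 1)) := by
    intro q
    rw [hG0]
    exact TubeN_one U j m G y m' hjm' U' hU' hb hEU hcl c hpos hlim x hx hΦ _ (by positivity)
  choose z hz1 hz2 hz3 using hone
  have hKc : IsCompact (closure U') :=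
    Metric.isCompact_of_isClosed_isBounded isClosed_closure hb.closure
  obtain ⟨z0, -, φ, hφ, hlim0⟩ := hKc.tendsto_subseq hz2
  rw [← hG0]
  refine ⟨z0, ?_, (ulim_closed _).mem_of_tendsto hlim0
    (Filter.Eventually.of_forall fun q => hz1 (φ q))⟩
  have h1 : Filter.Tendsto (fun q => Metric.infDist (z (φ q)) G0) Filter.atTop
      (nhds (Metric.infDist z0 G0)) :=
    ((Metric.continuous_infDist_pt G0).tendsto z0).comp hlim0
  have h2 : Filter.Tendsto (fun q : ℕ => 2 * (1 / ((φ q : ℝ) + 1))) Filter.atTop (nhds 0) := by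
    have h3 := (tendsto_one_div_add_atTop_nhds_zero_nat (𝕜 := ℝ)).comp hφ.tendsto_atTop
    have h4 := h3.const_mul 2
    rw [mul_zero] at h4
    exact h4
  have h3 : Metric.infDist z0 G0 ≤ 0 := le_of_tendsto_of_tendsto' h1 h2 fun q => hz3 (φ q)
  have h4 : Metric.infDist z0 G0 = 0 := le_antisymm h3 Metric.infDist_nonneg
  exact (hG0c.mem_iff_infDist_zero ⟨x, hxG0⟩).2 h4

end Pool.Agent.RM90
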