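import Pool.Agent.Lib.MP_df59e7_lc_X.DefsX
import Pool.Agent.Lib.MP_df59e7_lc.UlimA

set_option autoImplicit false

/-! MP_df59e7_lc, project RM2, module UlimZ. -/

namespace Pool.Agent.RM90

open MvPolynomial

private theorem UlimZ_sub {X : Type*} [MetricSpace X] (K : Set X) (hK : IsClosed K)
    (E' : ℕ → Set X) (hE : ∀ p, E' p ⊆ K) : ulim E' ⊆ K := by
  intro x hx
  rw [← hK.closure_eq, Metric.mem_closure_iff]
  intro ε hε
  obtain ⟨p, y, hy, hd⟩ := (hx ε hε).exists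
  exact ⟨y, hE p hy, by rwa [dist_comm]⟩

/-- A sequence of sets in a compact set converges to its ultralimit, first direction.
Proof: otherwise for some `ε` and almost all `p` there is `y_p ∈ E' p` at distance `≥ ε` from all
points of `ulim E'`; its limit (`exists_lim`) is in `ulim E'` (`mem_ulim_of_tendsto`),
contradiction. -/
theorem ulim_toZ {X : Type*} [MetricSpace X] (K : Set X) (hK : IsCompact K) (E' : ℕ → Set X)
    (hE : ∀ p, E' p ⊆ K) (ε : ℝ) (hε : 0 < ε) :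
    ∀ᶠ p in (Filter.hyperfilter ℕ : Filter ℕ), ∀ y ∈ E' p, ∃ z ∈ ulim E', dist y z < ε := by
  classical
  by_contra hcon
  have h1 : ∀ᶠ p in (Filter.hyperfilter ℕ : Filter ℕ),
      ∃ y ∈ E' p, ∀ z ∈ ulim E', ε ≤ dist y z := by
    have h2 := Ultrafilter.eventually_not.2 hcon
    filter_upwards [h2] with p hp
    push Not at hp
    exact hp
  obtain ⟨p0, y0, -, -⟩ := h1.exists
  obtain ⟨a, ha⟩ : ∃ a : ℕ → X, ∀ p, (∃ y ∈ E' p, ∀ z ∈ ulim E', ε ≤ dist y z) →
      a p ∈ E' p ∧ ∀ z ∈ ulim E', ε ≤ dist (a p) z := by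
    refine ⟨fun p => if h : ∃ y ∈ E' p, ∀ z ∈ ulim E', ε ≤ dist y z then h.choose else y0,
      fun p h => ?_⟩
    simp only [dif_pos h]
    exact h.choose_spec
  have h3 : ∀ᶠ p in (Filter.hyperfilter ℕ : Filter ℕ), a p ∈ E' p ∧
      ∀ z ∈ ulim E', ε ≤ dist (a p) z := h1.mono fun p hp => ha p hp
  obtain ⟨x, -, hx⟩ := exists_lim K hK a (h3.mono fun p hp => hE p hp.1)
  have hxu := mem_ulim_of_tendsto E' a x (h3.mono fun p hp => hp.1) hx
  have h4 : ∀ᶠ p in (Filter.hyperfilter ℕ : Filter ℕ), dist (a p) x < ε :=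
    Metric.tendsto_nhds.1 hx ε hε
  obtain ⟨p, hp1, hp2⟩ := (h3.and h4).exists
  exact absurd hp2 (not_lt.2 (hp1.2 x hxu))

/-- Second direction. Proof: `ulim E'` is closed and contained in `K`, so compact; cover it by
finitely many balls of radius `ε/2` with centres in `ulim E'`; for almost all `p` every centre
has a point of `E' p` within `ε/2`. -/
theorem ulim_ofZ {X : Type*} [MetricSpace X] (K : Set X) (hK : IsCompact K) (E' : ℕ → Set X)
    (hE : ∀ p, E' p ⊆ K) (ε : ℝ) (hε : 0 < ε) :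
    ∀ᶠ p in (Filter.hyperfilter ℕ : Filter ℕ), ∀ z ∈ ulim E', ∃ y ∈ E' p, dist y z < ε := by
  have hc : IsCompact (ulim E') :=
    hK.of_isClosed_subset (ulim_closed E') (UlimZ_sub K hK.isClosed E' hE)
  obtain ⟨t, ht, hfin, hcov⟩ := hc.finite_cover_balls (half_pos hε)
  have h1 : ∀ᶠ p in (Filter.hyperfilter ℕ : Filter ℕ), ∀ x ∈ t, ∃ y ∈ E' p,
      dist y x < ε / 2 :=
    (Filter.eventually_all_finite hfin).2 fun x hx => ht hx (ε / 2) (half_pos hε)
  filter_upwards [h1] with p hp z hz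
  obtain ⟨x, hx, hzx⟩ := Set.mem_iUnion₂.1 (hcov hz)
  obtain ⟨y, hy, hyx⟩ := hp x hx
  refine ⟨y, hy, ?_⟩
  have h2 : dist z x < ε / 2 := hzx
  have h3 := dist_triangle_right y z x
  linarith

/-- The ultralimit of subsets of a closed set. -/
theorem ulim_subset {X : Type*} [MetricSpace X] (K : Set X) (hK : IsClosed K)
    (E' : ℕ → Set X) (hE : ∀ p, E' p ⊆ K) : ulim E' ⊆ K :=
  UlimZ_sub K hK E' hE

end Pool.Agent.RM90
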