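import Pool.Agent.Lib.MP_df59e7_lc_X.RthE
import Pool.Agent.Lib.MP_df59e7_lc_X.RthL
import Pool.Agent.Lib.MP_df59e7_lc_X.BaseX
import Pool.Agent.Lib.MP_df59e7_lc_X.TubeN
import Pool.Agent.Lib.MP_df59e7_lc_X.UlimZ
import Pool.Agent.Lib.MP_df59e7_lc_X.DenW
import Pool.Agent.Lib.MP_df59e7_lc_X.GenAll
import Pool.Agent.Lib.MP_df59e7_lc_X.ParQ
import Pool.Agent.Lib.MP_df59e7_lc.Step

set_option autoImplicit false

/-! MP_df59e7_lc, project RM2, assembly: the step of the recursion. -/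

namespace Pool.Agent.RM90

open MvPolynomial Filter

/-- Exact roadmaps of size `κ (|A| + 8 B^2)` exist for all good sets of dimension at most `ρ`
defined by polynomials of degree at most `D`. -/
def LX (n B D ρ κ : ℕ) : Prop :=
  ∀ (U : Set (Fin n → ℝ)) (j m : Fin n) (G : MvPolynomial (Fin n) ℝ) (y : Fin n → ℝ),
    GdS U j m G y → G.totalDegree ≤ D → (m : ℕ) - (j : ℕ) ≤ ρ →
    ∀ A : Finset (Fin n → ℝ), ↑A ⊆ Wst U j m G y →
      ∃ M, XMap (Wst U j m G y) (fun x => x j) A (κ * (A.card + 8 * B ^ 2)) M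

/-- Two points of the same component of a good set of dimension at most `b` are joined by a
closed connected set of size `κ` inside of the component. -/
def LC (n D b κ : ℕ) : Prop :=
  ∀ (U : Set (Fin n → ℝ)) (j m : Fin n) (G : MvPolynomial (Fin n) ℝ) (y : Fin n → ℝ),
    GdS U j m G y → G.totalDegree ≤ D → (m : ℕ) - (j : ℕ) ≤ b →
    ∀ x ∈ Wst U j m G y, ∀ z ∈ connectedComponentIn (Wst U j m G y) x,
      ∃ M : Set (Fin n → ℝ), IsClosed M ∧ x ∈ M ∧ z ∈ M ∧
        M ⊆ connectedComponentIn (Wst U j m G y) x ∧ IsPreconnected M ∧ Alg κ M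

theorem xmap_mono {n : ℕ} {E : Set (Fin n → ℝ)} {f : (Fin n → ℝ) → ℝ}
    {A : Finset (Fin n → ℝ)} {N N' : ℕ} {M : Set (Fin n → ℝ)} (hN : N ≤ N')
    (h : XMap E f A N M) : XMap E f A N' M where
  sub := h.sub
  closed := h.closed
  alg := alg_mono hN (subset_refl _) h.alg
  pts := h.pts
  rm1 := h.rm1
  rm2 := h.rm2

theorem gds_of_gen {n : ℕ} (H : MvPolynomial (Fin n) ℝ) (j m : Fin n) (hjm : j < m)
    (y : Fin n → ℝ) (c : Par n)
    (hc : ∀ i, j ≤ i → i < m → ∀ y', RatExt j i y y' →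
      (∀ x ∈ Wst Set.univ i m (H - quad c) y', RegAt i m (H - quad c) x) ∧
      (∀ U : Set (Fin n → ℝ), IsOpen U → ∀ x,
        LM (Wst U i m (H - quad c) y') (fun x => x i) x →
        SLM (Wst U i m (H - quad c) y') (fun x => x i) x))
    (U : Set (Fin n → ℝ)) (hU : IsOpen U) (hb : Bornology.IsBounded U)
    (hcpt : IsCompact (Wst U j m (H - quad c) y)) : GdS U j m (H - quad c) y where
  isOpen := hU
  bdd := hb
  lt := hjm
  cpt := hcpt
  reg := fun i hji him y' hy' x hx =>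
    (hc i hji him y' hy').1 x ⟨Set.mem_univ _, hx.2⟩
  str := fun i hji him y' hy' x hx => (hc i hji him y' hy').2 U hU x hx

/-- The sequence of tubes. -/
theorem step_seqX {n : ℕ} (U : Set (Fin n → ℝ)) (j m : Fin n)
    (G : MvPolynomial (Fin n) ℝ) (y : Fin n → ℝ) (hG : GdS U j m G y) (m' : Fin n)
    (hjm' : j < m') :
    ∃ (U' : Set (Fin n → ℝ)) (c : ℕ → Par n), IsOpen U' ∧ Bornology.IsBounded U' ∧
      Wst U j m G y ⊆ U' ∧ closure U' ⊆ U ∧
      (∀ p, GdS U' j m' (Hsq m G - quad (c p)) y) ∧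
      (∀ p, ∀ x ∈ closure U', 0 < eval x (quad (c p))) ∧
      (∀ ε > 0, ∀ᶠ p in Filter.atTop, ∀ x ∈ closure U', eval x (quad (c p)) < ε) := by
  obtain ⟨U', hU'o, hU'b, hEU', hcl, κ, hκ, hfr⟩ := tube_nbhd U j m G y hG
  obtain ⟨R, hR⟩ := bdd_coord (closure U') hU'b.closure
  have hpar := fun p : ℕ => exists_parQ _ (gen_all (Hsq m G) j m' y) R
    (min κ (1 / ((p : ℝ) + 1))) (lt_min hκ (by positivity))
  choose c hc1 _ _ _ hc5 using hpar
  have hlt : ∀ p, ∀ x ∈ closure U', 0 < eval x (quad (c p)) ∧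
      eval x (quad (c p)) < min κ (1 / ((p : ℝ) + 1)) := fun p x hx => hc5 p x (hR x hx)
  refine ⟨U', c, hU'o, hU'b, hEU', hcl, fun p => ?_, fun p x hx => (hlt p x hx).1, ?_⟩
  · refine gds_of_gen (Hsq m G) j m' hjm' y (c p) (hc1 p) U' hU'o hU'b ?_
    exact tube_cpt U' hU'o hU'b j m' (Hsq m G) y κ hfr (c p)
      (fun x hx => lt_of_lt_of_le (hlt p x hx).2 (min_le_left _ _))
  · intro ε hε
    have h1 : Tendsto (fun p : ℕ => 1 / ((p : ℝ) + 1)) atTop (nhds 0) :=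
      tendsto_one_div_add_atTop_nhds_zero_nat
    filter_upwards [h1.eventually (gt_mem_nhds hε)] with p hp x hx
    exact ((hlt p x hx).2.trans_le (min_le_right _ _)).trans hp

theorem splitX_arith (a b B m Na Nb : ℕ)
    (hN : Na = a * (2 * (B + (2 * B ^ 2 + B + m)) + 8 * B ^ 2) + (2 * B ^ 2 + B + m) * b)
    (hNb : Nb = (2 * a + b) * (m + 8 * B ^ 2)) : Na ≤ Nb := by
  have hbb : B ≤ B ^ 2 := by
    rcases Nat.eq_zero_or_pos B with h | h
    · simp [h]
    · nlinarith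
  have h1 : 2 * (B + (2 * B ^ 2 + B + m)) + 8 * B ^ 2 ≤ 2 * (m + 8 * B ^ 2) := by omega
  have h2 : 2 * B ^ 2 + B + m ≤ m + 8 * B ^ 2 := by omega
  rw [hN, hNb]
  calc a * (2 * (B + (2 * B ^ 2 + B + m)) + 8 * B ^ 2) + (2 * B ^ 2 + B + m) * b
      ≤ a * (2 * (m + 8 * B ^ 2)) + (m + 8 * B ^ 2) * b :=
        Nat.add_le_add (Nat.mul_le_mul_left _ h1) (Nat.mul_le_mul_right _ h2)
    _ = (2 * a + b) * (m + 8 * B ^ 2) := by ring

theorem card_W_le {n : ℕ} (U : Set (Fin n → ℝ)) (j m : Fin n) (G : MvPolynomial (Fin n) ℝ)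
    (y : Fin n → ℝ) (hG : GdS U j m G y) (D : ℕ) (hD1 : 1 ≤ D) (hD : G.totalDegree ≤ D)
    (B : ℕ) (hB : Bd n D ≤ B) :
    {w | LM (Wst U j m G y) (fun x => x j) w}.encard ≤ (B : ℕ∞) := by
  refine (card_W U j m G y hG D hD1 hD).trans ?_
  have : (n * (2 * D) + 1) ^ n ≤ B := by
    refine le_trans ?_ hB
    unfold Bd
    apply Nat.pow_le_pow_left
    nlinarith [Nat.zero_le (n * D)]
  exact_mod_cast this

theorem lc_of_gds {n : ℕ} {U : Set (Fin n → ℝ)} {j m : Fin n} {G : MvPolynomial (Fin n) ℝ}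
    {y : Fin n → ℝ} (hG : GdS U j m G y) : LCn (Wst U j m G y) :=
  lc_W U hG.isOpen j m hG.lt G y (hG.reg j le_rfl hG.lt y
    ⟨fun _ _ => rfl, fun a h1 h2 => absurd h1 (not_le.mpr h2)⟩)

theorem continuous_prm {n : ℕ} (m : Fin n) : Continuous (prm m) := by
  refine continuous_pi fun a => ?_
  unfold prm
  by_cases h : a < m
  · simp only [h, if_true]; exact continuous_apply a
  · simp only [h, if_false]; exact continuous_const

theorem LX_mono {n B D ρ κ κ' : ℕ} (hκ : κ ≤ κ') (h : LX n B D ρ κ) : LX n B D ρ κ' := by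
  intro U j m G y hG hD hρ A hA
  obtain ⟨M, hM⟩ := h U j m G y hG hD hρ A hA
  exact ⟨M, xmap_mono (Nat.mul_le_mul_right _ hκ) hM⟩

theorem LX_base {n B D : ℕ} (hD1 : 1 ≤ D) (hB : Bd n D ≤ B) : LX n B D 1 1 := by
  intro U j m G y hG hD hρ A hA
  have hlt : (j : ℕ) < (m : ℕ) := hG.lt
  refine ⟨_, xmap_mono (le_of_eq (one_mul _).symm)
    (base_X U j m G y hG (by omega) D hD1 hD B hB A hA)⟩

theorem closed_comp {n : ℕ} {F : Set (Fin n → ℝ)} (hF : IsClosed F) (x : Fin n → ℝ) :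
    IsClosed (connectedComponentIn F x) := by
  refine isClosed_of_closure_subset fun w hw => comp_closure_inter _ _ ⟨hw, ?_⟩
  exact closure_minimal (connectedComponentIn_subset _ _) hF hw

theorem LC_base {n B D : ℕ} (hD1 : 1 ≤ D) (hB : Bd n D ≤ B) : LC n D 1 (4 * B) := by
  intro U j m G y hG hD hρ x hx z hz
  have hlt : (j : ℕ) < (m : ℕ) := hG.lt
  refine ⟨connectedComponentIn (Wst U j m G y) x, closed_comp hG.cpt.isClosed x,
    mem_connectedComponentIn hx, hz, subset_refl _, isPreconnected_connectedComponentIn, ?_⟩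
  refine alg_mono (Nat.mul_le_mul_left _ (le_trans ?_ hB)) (subset_refl _)
    (alg_W U hG.isOpen j m (by omega) G y (hG.reg j le_rfl hG.lt y
      ⟨fun _ _ => rfl, fun a h1 h2 => absurd h1 (not_le.mpr h2)⟩) D hD1 hD x hx)
  unfold Bd
  rw [← mul_pow]
  apply Nat.pow_le_pow_left
  have hn : 1 ≤ n := by have := m.2; omega
  nlinarith

theorem LC_of_LX {n B D b κ : ℕ} (h : LX n B D b κ) : LC n D b (κ * (2 + 8 * B ^ 2)) := by
  classical
  intro U j m G y hG hD hρ x hx z hz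
  have hzE : z ∈ Wst U j m G y := connectedComponentIn_subset _ _ hz
  obtain ⟨M, hM⟩ := h U j m G y hG hD hρ {x, z} (by
    intro w hw
    rw [Finset.coe_insert, Finset.coe_singleton] at hw
    rcases hw with rfl | hw
    · exact hx
    · rw [Set.mem_singleton_iff] at hw
      rw [hw]; exact hzE)
  refine ⟨M ∩ connectedComponentIn (Wst U j m G y) x,
    hM.closed.inter (closed_comp hG.cpt.isClosed x),
    ⟨hM.pts (by simp), mem_connectedComponentIn hx⟩, ⟨hM.pts (by simp), hz⟩,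
    Set.inter_subset_right, (hM.rm1 x hx).isPreconnected, ?_⟩
  refine alg_mono ?_ Set.inter_subset_left hM.alg
  exact Nat.mul_le_mul_left _ (Nat.add_le_add_right Finset.card_le_two _)

theorem LX_split {n B D a b κa κb κc κ : ℕ} (hD1 : 1 ≤ D) (hB : Bd n (2 * D) ≤ B)
    (hb : 1 ≤ b) (ha : LX n B (2 * D) a κa) (hbX : LX n B D b κb) (hbC : LC n D b κc)
    (hκ1 : κb ≤ κ) (hκ2 : 2 * κa + κc ≤ κ) : LX n B D (a + b) κ := by
  classical
  intro U j m G y hG hD hρ A hA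
  have hjm : (j : ℕ) < (m : ℕ) := hG.lt
  rcases Nat.lt_or_ge b ((m : ℕ) - (j : ℕ)) with hlt | hle
  swap
  · obtain ⟨M, hM⟩ := hbX U j m G y hG hD hle A hA
    exact ⟨M, xmap_mono (Nat.mul_le_mul_right _ hκ1) hM⟩
  -- the splitting index
  have hm'n : (m : ℕ) - b < n := lt_of_le_of_lt (Nat.sub_le _ _) m.2
  set m' : Fin n := ⟨(m : ℕ) - b, hm'n⟩ with hm'
  have hm'v : (m' : ℕ) = (m : ℕ) - b := rfl
  have hjm' : j < m' := by
    rw [Fin.lt_def, hm'v]; omega
  have hm'm : m' < m := by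
    rw [Fin.lt_def, hm'v]; omega
  have hBD : Bd n D ≤ B := by
    refine le_trans ?_ hB
    unfold Bd
    apply Nat.pow_le_pow_left
    nlinarith [Nat.zero_le (n * D)]
  obtain ⟨U', c, hU'o, hU'b, hEU', hcl, hG', hpos, hlim⟩ := step_seqX U j m G y hG m' hjm'
  set E : Set (Fin n → ℝ) := Wst U j m G y with hE
  set E' : ℕ → Set (Fin n → ℝ) := fun p => Wst U' j m' (Hsq m G - quad (c p)) y with hE'
  set Z : Set (Fin n → ℝ) := ulim E' with hZ
  set K : Set (Fin n → ℝ) := closure U' with hK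
  have hKc : IsCompact K := Metric.isCompact_of_isClosed_isBounded isClosed_closure
    hU'b.closure
  have hE'K : ∀ p, E' p ⊆ K := fun p x hx => subset_closure hx.1
  have hdeg' : ∀ p, (Hsq m G - quad (c p)).totalDegree ≤ 2 * D := fun p =>
    (totalDegree_sub _ _).trans (max_le (deg_Hsq m G D hD) ((deg_quad _).trans (by omega)))
  have hZE : Z ⊆ E := tube_lim U j m G y m' U' hcl c hpos hlim
  set D0 : Set (Fin n → ℝ) := {x | x ∈ E ∧ ∀ a, j ≤ a → a < m' → ∃ r : ℚ, x a = (r : ℝ)}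
    with hD0
  have hmeet : ∀ x ∈ E, (connectedComponentIn (E ∩ prm m' ⁻¹' {prm m' x}) x ∩ Z).Nonempty :=
    fun x hx => tube_meet U j m G y hG m' hjm' hm'm U' hU'o hU'b hEU' hcl c hpos hlim x hx
  -- the roadmaps of the fibres
  have hfib : ∀ x : Fin n → ℝ, ∃ Mx : Set (Fin n → ℝ), x ∈ D0 →
      ((Mx ∩ Z).Nonempty ∧ x ∈ Mx ∧ IsClosed Mx ∧ Alg κc Mx ∧ IsPreconnected Mx ∧
        Mx ⊆ E ∩ prm m' ⁻¹' {prm m' x}) := by
    intro x
    by_cases hx : x ∈ D0
    swap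
    · exact ⟨∅, fun h => absurd h hx⟩
    obtain ⟨z, hz1, hz2⟩ := hmeet x hx.1
    obtain ⟨hGx, hfx⟩ := fib_W U j m G y hG m' hjm'.le hm'm x hx.1 hx.2
    have hxF : x ∈ Wst U m' m G x := by
      rw [← hfx]; exact ⟨hx.1, rfl⟩
    obtain ⟨Mx, h1, h2, h3, h4, h5, h6⟩ := hbC U m' m G x hGx hD (by rw [hm'v]; omega) x hxF z
      (by rw [← hfx]; exact hz1)
    refine ⟨Mx, fun _ => ⟨⟨z, h3, hz2⟩, h2, h1, h6, h5, ?_⟩⟩
    refine h4.trans ?_
    rw [← hfx]
    exact connectedComponentIn_subset _ _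
  choose Γ hΓ using hfib
  have hEc : IsCompact E := hG.cpt
  have hAct : ActE E Z D0 (fun x => x j) (prm m') Γ B :=
    { cE := hEc
      lE := lc_of_gds hG
      cf := continuous_apply j
      cπ := continuous_prm m'
      fπ := fun x _ w _ h => by
        have := congrFun h j
        simpa only [prm, hjm', if_true] using this
      str := fun w hw => hG.str j le_rfl hG.lt y
        ⟨fun _ _ => rfl, fun a h1 h2 => absurd h1 (not_le.mpr h2)⟩ w hw
      card := card_W_le U j m G y hG D hD1 hD B hBD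
      cZ := ulim_closed _
      ZE := hZE
      meet := hmeet
      DE := fun x hx => hx.1
      dD := dens_W U j m G y hG m' hjm'.le hm'm
      Γp := fun x hx => (hΓ x hx).2.2.2.2.1
      Γc := fun x hx => (hΓ x hx).2.2.1
      Γm := fun x hx => (hΓ x hx).2.1
      Γf := fun x hx => (hΓ x hx).2.2.2.2.2
      ΓZ := fun x hx => (hΓ x hx).1 }
  have hActQ : ActQ Z (fun x : Fin n → ℝ => x j) B E' :=
    { cpt := fun p => (hG' p).cpt
      lcn := fun p => lc_of_gds (hG' p)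
      card := fun p => card_W_le U' j m' _ y (hG' p) (2 * D) (by omega) (hdeg' p) B hB
      toZ := fun ε hε => ulim_toZ K hKc E' hE'K ε hε
      ofZ := fun ε hε => ulim_ofZ K hKc E' hE'K ε hε }
  obtain ⟨T, Nt, hTE, hNt, hNd, hcov, hρN⟩ := comp_nbhds E hEc (lc_of_gds hG)
  have hf : ∀ u v : Fin n → ℝ, |u j - v j| ≤ dist u v := by
    intro u v
    rw [← Real.dist_eq]
    exact dist_le_pi_dist u v j
  have hR : ∀ q : ℕ, ∃ R, Rth E (fun x => x j) A
      (κa * (2 * (B + (2 * B ^ 2 + B + A.card)) + 8 * B ^ 2) +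
      (2 * B ^ 2 + B + A.card) * κc) T Nt (1 / ((q : ℝ) + 1)) R := fun q =>
    rth_exists E Z D0 (fun x => x j) hf (prm m') Γ B hAct κc
      (fun x hx => (hΓ x hx).2.2.2.1) E' K hKc hE'K hActQ κa
      (fun p A' hA' => ha U' j m' _ y (hG' p) (hdeg' p) (by rw [hm'v]; omega) A' hA')
      T Nt hTE hNt hNd hcov hρN A hA _ (by positivity)
  obtain ⟨M, hM⟩ := rth_limit E hEc (fun x => x j) hf A _ T Nt hNt hcov hR
  exact ⟨M, xmap_mono ((splitX_arith κa κc B A.card _ _ rfl rfl).trans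
    (Nat.mul_le_mul_right _ hκ2)) hM⟩

end Pool.Agent.RM90
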