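import Pool.Agent.Lib.MP_df59e7_lc_X.StepX

set_option autoImplicit false

/-! MP_df59e7_lc, project RM2, assembly: the strategy of the recursion. -/

namespace Pool.Agent.RM90

theorem Bd_mono {n D D' : ℕ} (h : D ≤ D') : Bd n D ≤ Bd n D' := by
  unfold Bd
  exact Nat.pow_le_pow_left (Nat.add_le_add_right (Nat.mul_le_mul_left _ h) _) _

theorem Bd_pos (n D : ℕ) : 1 ≤ Bd n D := Nat.one_le_pow _ _ (by omega)

/-- The factor of the size bound for `h` levels. -/
def Kf (B q : ℕ) : ℕ → ℕ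
  | 0 => 1
  | h + 1 => (2 ^ q * (3 + 8 * B ^ 2)) ^ h * (2 ^ q * (4 * B))

theorem Kf_succ (B q h : ℕ) :
    Kf B q (h + 1) = (2 ^ q * (3 + 8 * B ^ 2)) ^ h * (2 ^ q * (4 * B)) := rfl

theorem strat_one {n B : ℕ} (t : ℕ) : ∀ D : ℕ, 1 ≤ D → Bd n (2 ^ t * D) ≤ B →
    LX n B D (t + 1) ((2 ^ (t + 1) - 1) * (4 * B)) := by
  induction t with
  | zero =>
    intro D hD hB
    rw [pow_zero, one_mul] at hB
    have hB1 : 1 ≤ B := (Bd_pos n D).trans hB
    refine LX_mono ?_ (LX_base hD hB)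
    calc 1 ≤ (2 ^ (0 + 1) - 1) * (4 * 1) := by norm_num
      _ ≤ _ := Nat.mul_le_mul_left _ (Nat.mul_le_mul_left _ hB1)
  | succ t iht =>
    intro D hD hB
    have h2D : 2 * D ≤ 2 ^ (t + 1) * D := Nat.mul_le_mul_right _ (by
      calc 2 = 2 ^ 1 := (pow_one 2).symm
        _ ≤ _ := Nat.pow_le_pow_right (by norm_num) (by omega))
    have h3 : Bd n (2 * D) ≤ B := (Bd_mono h2D).trans hB
    have h0 : Bd n D ≤ B := (Bd_mono (by omega : D ≤ 2 * D)).trans h3
    have hB1 : 1 ≤ B := (Bd_pos n D).trans h0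
    have h1 : LX n B (2 * D) (t + 1) ((2 ^ (t + 1) - 1) * (4 * B)) := by
      refine iht (2 * D) (by omega) (le_trans (le_of_eq ?_) hB)
      congr 1
      rw [pow_succ]
      ring
    obtain ⟨w, hw⟩ : ∃ w, 2 ^ (t + 1) = w + 1 := ⟨2 ^ (t + 1) - 1, by
      have : 1 ≤ 2 ^ (t + 1) := Nat.one_le_two_pow
      omega⟩
    have h7 : 2 ^ (t + 1 + 1) - 1 = 2 * w + 1 := by rw [pow_succ 2 (t + 1), hw]; omega
    rw [h7]
    rw [hw, Nat.add_sub_cancel] at h1
    refine LX_split hD h3 le_rfl h1 (LX_base hD h0) (LC_base hD h0) ?_ (le_of_eq (by ring))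
    nlinarith

theorem strat {n B q : ℕ} (hq : 1 ≤ q) (h : ℕ) :
    ∀ D : ℕ, 1 ≤ D → Bd n (2 ^ (h * q) * D) ≤ B → LX n B D (q ^ h) (Kf B q h) := by
  induction h with
  | zero =>
    intro D hD hB
    rw [pow_zero]
    refine LX_base hD (le_trans (Bd_mono ?_) hB)
    simp
  | succ h ih =>
    rcases Nat.eq_zero_or_pos h with rfl | hh
    · intro D hD hB
      obtain ⟨t, rfl⟩ : ∃ t, q = t + 1 := ⟨q - 1, by omega⟩
      have h1 := strat_one (n := n) (B := B) t D hD (le_trans (Bd_mono (Nat.mul_le_mul_right _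
        (Nat.pow_le_pow_right (by norm_num) (by omega)))) hB)
      rw [zero_add, pow_one]
      refine LX_mono ?_ h1
      rw [show Kf B (t + 1) 1 = Kf B (t + 1) (0 + 1) from rfl, Kf_succ, pow_zero, one_mul]
      exact Nat.mul_le_mul_right _ (Nat.sub_le _ _)
    set κ : ℕ := Kf B q h with hκ
    have hclaim : ∀ t : ℕ, ∀ D : ℕ, 1 ≤ D → Bd n (2 ^ (h * q + (t + 1)) * D) ≤ B →
        LX n B D ((t + 1) * q ^ h) ((2 ^ (t + 1) - 1) * (3 + 8 * B ^ 2) * κ) := by
      intro t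
      induction t with
      | zero =>
        intro D hD hB
        rw [zero_add, one_mul]
        refine LX_mono ?_ (ih D hD (le_trans (Bd_mono (Nat.mul_le_mul_right _
          (Nat.pow_le_pow_right (by norm_num) (by omega)))) hB))
        calc κ = 1 * κ := (one_mul _).symm
          _ ≤ (2 ^ 1 - 1) * (3 + 8 * B ^ 2) * κ := by
            apply Nat.mul_le_mul_right
            omega
      | succ t iht =>
        intro D hD hB
        have h1 : LX n B (2 * D) ((t + 1) * q ^ h) ((2 ^ (t + 1) - 1) * (3 + 8 * B ^ 2) * κ) := by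
          refine iht (2 * D) (by omega) (le_trans (le_of_eq ?_) hB)
          congr 1
          rw [show h * q + (t + 1 + 1) = h * q + (t + 1) + 1 by omega, pow_succ]
          ring
        have h2 : LX n B D (q ^ h) κ := ih D hD (le_trans (Bd_mono (Nat.mul_le_mul_right _
          (Nat.pow_le_pow_right (by norm_num) (by omega)))) hB)
        have h3 : Bd n (2 * D) ≤ B := by
          refine le_trans (Bd_mono (Nat.mul_le_mul_right _ ?_)) hB
          calc 2 = 2 ^ 1 := (pow_one 2).symm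
            _ ≤ _ := Nat.pow_le_pow_right (by norm_num) (by omega)
        obtain ⟨w, hw⟩ : ∃ w, 2 ^ (t + 1) = w + 1 := ⟨2 ^ (t + 1) - 1, by
          have : 1 ≤ 2 ^ (t + 1) := Nat.one_le_two_pow
          omega⟩
        have h7 : 2 ^ (t + 1 + 1) - 1 = 2 * w + 1 := by rw [pow_succ 2 (t + 1), hw]; omega
        rw [h7, Nat.succ_mul]
        rw [hw, Nat.add_sub_cancel] at h1
        refine LX_split hD h3 (Nat.one_le_pow _ _ hq) h1 h2 (LC_of_LX h2) ?_ ?_
        · calc κ = 1 * κ := (one_mul _).symm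
            _ ≤ (2 * w + 1) * (3 + 8 * B ^ 2) * κ := by
              apply Nat.mul_le_mul_right
              nlinarith [Nat.zero_le (w * B ^ 2), Nat.zero_le (B ^ 2)]
        · calc 2 * (w * (3 + 8 * B ^ 2) * κ) + κ * (2 + 8 * B ^ 2)
              ≤ 2 * (w * (3 + 8 * B ^ 2) * κ) + κ * (3 + 8 * B ^ 2) :=
                Nat.add_le_add_left (Nat.mul_le_mul_left _ (by omega)) _
            _ = (2 * w + 1) * (3 + 8 * B ^ 2) * κ := by ring
    intro D hD hB
    obtain ⟨t, rfl⟩ : ∃ t, q = t + 1 := ⟨q - 1, by omega⟩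
    have h1 := hclaim t D hD (by
      refine le_trans (le_of_eq ?_) hB
      congr 2
      ring)
    rw [pow_succ' (t + 1) h]
    refine LX_mono ?_ h1
    obtain ⟨h', rfl⟩ : ∃ h', h = h' + 1 := ⟨h - 1, by omega⟩
    have hK : Kf B (t + 1) (h' + 1 + 1) = 2 ^ (t + 1) * (3 + 8 * B ^ 2) * κ := by
      rw [hκ, Kf_succ, Kf_succ, pow_succ' _ h', mul_assoc]
    rw [hK]
    exact Nat.mul_le_mul_right _ (Nat.mul_le_mul_right _ (Nat.sub_le _ _))

end Pool.Agent.RM90
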